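import Pool.Agent.H918.D.Defs

/-!
Semistable reduction of fibrations over elliptic curves: finite coverings which are unramified outside
of finitely many fibres, smooth families, relative logarithmic forms.
-/

set_option autoImplicit false

open Filter Topology FF LinearAlgebra.Projectivization Pool.Agent.W602.GT Pool.Agent.N154.GG

namespace Pool.Agent.H918.SS

/-- The projective set `X = {F = 0}` in `ℙⁿ(ℂ)` is an irreducible projective variety (which may be
singular) of dimension `d` with function field `K` and generic point `y`: `K` is a field of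
transcendence degree `d` generated by the ratios of the coordinates of `y`, and the points of `X` are
the common zeros of the forms which vanish at `y`. -/
structure ProjVariety {n : ℕ} {ι : Type} (F : ι → MvPolynomial (Fin (n + 1)) ℂ) (d : ℕ) {K : Type}
    [Field K] [Algebra ℂ K] (y : Fin (n + 1) → K) : Prop where
  form : ∀ i, IsForm (F i)
  sub : SubVar F K d y
  irred : Cone F ⊆ VarPts ℂ y

variable {m n : ℕ} {ι ι' : Type}

/-- The map given by the forms `Q`, in homogeneous coordinates. -/
noncomputable def mapBy (Q : Fin (n + 1) → MvPolynomial (Fin (m + 1)) ℂ) (x : Fin (m + 1) → ℂ) :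
    Fin (n + 1) → ℂ := fun j => val x (Q j)

/-- The forms `Q`, which have the same degree, define a map `π` from the projective set
`Y = {F' = 0}` onto the projective set `X = {F = 0}` which is compatible with the maps `α'` and `α` to
`E`; outside of the fibres over `B` it has at most `k` preimages of every point and it is a local
isomorphism (it has local holomorphic inverse maps): a finite unramified covering.

The preimages of the point of `X` with the homogeneous coordinates `u` are the points `p` of `Y` such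
that `π p`, with the homogeneous coordinates `mapBy Q p.rep`, is a multiple of `u`. -/
structure CoveringOff (F : ι → MvPolynomial (Fin (n + 1)) ℂ)
    (F' : ι' → MvPolynomial (Fin (m + 1)) ℂ) {E : Type} (α : (Fin (n + 1) → ℂ) → E)
    (α' : (Fin (m + 1) → ℂ) → E) (B : Set E) (Q : Fin (n + 1) → MvPolynomial (Fin (m + 1)) ℂ) :
    Prop where
  form : ∃ e : ℕ, ∀ j, (Q j).IsHomogeneous e
  map : ∀ x ∈ Cone F', mapBy Q x ∈ Cone F ∧ α (mapBy Q x) = α' x
  onto : ∀ u ∈ Cone F, α u ∉ B → ∃ x ∈ Cone F', ∃ c : ℂ, mapBy Q x = c • u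
  sheets : ∃ k : ℕ, ∀ u ∈ Cone F, α u ∉ B →
    {p : ℙ ℂ (Fin (m + 1) → ℂ) | p.rep ∈ Cone F' ∧ ∃ c : ℂ, mapBy Q p.rep = c • u}.encard ≤ k
  unram : ∀ x ∈ Cone F', α' x ∉ B → ∃ σ : (Fin (n + 1) → ℂ) → Fin (m + 1) → ℂ,
    AnalyticAt ℂ σ (mapBy Q x) ∧
    (∀ᶠ u in 𝓝 (mapBy Q x), u ∈ Cone F → σ u ∈ Cone F' ∧ mapBy Q (σ u) = u) ∧
    ∀ᶠ u in 𝓝 x, u ∈ Cone F' → σ (mapBy Q u) = u

/-- Near the point `x`, the projective set with the cone `X` and the map `α` to the elliptic curve
`ℂ / L` are a smooth family of manifolds of dimension `d`: the map `α` is given near `x` by a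
holomorphic function `w`, and `X` is the cone over the graph of a holomorphic map `Ψ` in this function
and in `d` of the affine coordinates `u j / u i` (with `x i ≠ 0`). -/
def SmoothFamilyAt (X : Set (Fin (n + 1) → ℂ)) (L : PeriodPair)
    (α : (Fin (n + 1) → ℂ) → ℂ ⧸ L.lattice) (d : ℕ) (x : Fin (n + 1) → ℂ) : Prop :=
  ∃ (i : Fin (n + 1)) (J : Fin d → Fin (n + 1)) (w : (Fin (n + 1) → ℂ) → ℂ)
    (U : Set (ℂ × (Fin d → ℂ))) (Ψ : ℂ × (Fin d → ℂ) → Fin (n + 1) → ℂ),
    x i ≠ 0 ∧ AnalyticAt ℂ w x ∧ IsOpen U ∧ (w x, fun k => x (J k) / x i) ∈ U ∧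
    AnalyticOnNhd ℂ Ψ U ∧
    (∀ z ∈ U, Ψ z ∈ X ∧ Ψ z i = 1 ∧ (∀ k, Ψ z (J k) = z.2 k) ∧
      α (Ψ z) = Submodule.Quotient.mk z.1) ∧
    ∀ᶠ u in 𝓝 x, u ∈ X → u = u i • Ψ (w u, fun k => u (J k) / u i)

/-- `c` is the germ at `0` of a holomorphic curve in the cone `X` which lies in a fibre of `α`. -/
def VerticalGerm (X : Set (Fin (n + 1) → ℂ)) {E : Type} (α : (Fin (n + 1) → ℂ) → E)
    (c : ℂ → Fin (n + 1) → ℂ) : Prop :=
  AnalyticAt ℂ c 0 ∧ ∀ᶠ s in 𝓝 (0 : ℂ), c s ∈ X ∧ α (c s) = α (c 0)

/-- Relative logarithmic forms: the `η q x v`, for `x` in the cone `X` and `v` a tangent vector of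
the fibre of `α` at `x`, satisfy `η q (c x) (c (v + e x)) = c ^ (- k) η q x v` (`c`, `e` numbers);
thus they are twisted by `O (- k)` and depend only on the point of projective space and on the tangent
vector there given by `v`. Near every point of `X`, the values of `η q` at the points outside of the
fibres over `B` are holomorphic functions `H` of the point and of the values at `v` of the logarithmic
derivatives `du / u` of finitely many holomorphic functions `u` without zeros outside of the fibres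
over `B` (the tangent vectors `v` are given by curves `c`). Whenever `v` gives a nonzero tangent
vector, some `η q x v` is not zero.

For example, let `α` be the composition of a family of stable curves `X → C` which is smooth outside
of the fibres over `B` with a covering `C → E`, and let `η q x v` be the value at `v ^ ν` of a section
`s q` of `ω ^ ν ⊗ O (- k)`, where `ω` is the relative dualizing sheaf of `X → C`. Near a node, given
by `u t = b ^ r` with a coordinate `b` of `C`, the sheaf `ω` is generated by `du / u`, thus `η q x v`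
is `h q (x) (du (v) / u) ^ ν` with holomorphic functions `h q`; near the other points, the same holds
with `u = 1 + z`, where `z` is a coordinate on the fibres. The last condition holds for `k = 1` if `ω`
is ample and `ν` is large. -/
structure RelativeForms (k : ℕ) (X : Set (Fin (n + 1) → ℂ)) {E : Type}
    (α : (Fin (n + 1) → ℂ) → E) (B : Set E) {κ : Type}
    (η : κ → (Fin (n + 1) → ℂ) → (Fin (n + 1) → ℂ) → ℂ) : Prop where
  twist : ∀ (q : κ), ∀ x ∈ X, ∀ (v : Fin (n + 1) → ℂ) (c e : ℂ), c ≠ 0 →
    η q (c • x) (c • (v + e • x)) = c⁻¹ ^ k * η q x v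
  log : ∀ x₀ ∈ X, ∃ (r : ℕ) (u : Fin r → (Fin (n + 1) → ℂ) → ℂ) (V : Set (Fin (n + 1) → ℂ))
    (H : κ → (Fin (n + 1) → ℂ) × (Fin r → ℂ) → ℂ), IsOpen V ∧ x₀ ∈ V ∧
    (∀ j, AnalyticOnNhd ℂ (u j) V) ∧ (∀ q, AnalyticOnNhd ℂ (H q) (V ×ˢ Set.univ)) ∧
    (∀ x ∈ V ∩ X, α x ∉ B → ∀ j, u j x ≠ 0) ∧
    ∀ c, VerticalGerm X α c → c 0 ∈ V → α (c 0) ∉ B → ∀ q, η q (c 0) (deriv c 0) =
      H q (c 0, fun j => deriv (fun s => u j (c s)) 0 / u j (c 0))
  pos : ∀ c, VerticalGerm X α c → α (c 0) ∉ B → LinearIndependent ℂ ![c 0, deriv c 0] →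
    ∃ q, η q (c 0) (deriv c 0) ≠ 0

/-- The relative forms `η q` have no poles at the point `x₀`: their values near `x₀`, at the points
outside of the fibres over `B`, are holomorphic functions `H`, with `H q (x, 0) = 0`, of the point and
of the derivatives `du` of finitely many holomorphic functions `u`. -/
def RegularFormsAt (X : Set (Fin (n + 1) → ℂ)) {E : Type} (α : (Fin (n + 1) → ℂ) → E) (B : Set E)
    {κ : Type} (η : κ → (Fin (n + 1) → ℂ) → (Fin (n + 1) → ℂ) → ℂ) (x₀ : Fin (n + 1) → ℂ) : Prop :=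
  ∃ (r : ℕ) (u : Fin r → (Fin (n + 1) → ℂ) → ℂ) (V : Set (Fin (n + 1) → ℂ))
    (H : κ → (Fin (n + 1) → ℂ) × (Fin r → ℂ) → ℂ), IsOpen V ∧ x₀ ∈ V ∧
    (∀ j, AnalyticOnNhd ℂ (u j) V) ∧ (∀ q, AnalyticOnNhd ℂ (H q) (V ×ˢ Set.univ)) ∧
    (∀ q, ∀ x ∈ V, H q (x, 0) = 0) ∧
    ∀ c, VerticalGerm X α c → c 0 ∈ V → α (c 0) ∉ B → ∀ q, η q (c 0) (deriv c 0) =
      H q (c 0, fun j => deriv (fun s => u j (c s)) 0)

/-- The fibre of `α` over `b₀` is a multiple fibre outside of the points with the homogeneous
coordinates in `S`: near the other points of the fibre, `α` is given by a constant plus the `e`-th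
power of a holomorphic function, for some `e ≥ 2`. -/
def MultipleOutside (X : Set (Fin (n + 1) → ℂ)) (L : PeriodPair)
    (α : (Fin (n + 1) → ℂ) → ℂ ⧸ L.lattice) (b₀ : ℂ ⧸ L.lattice) (S : Set (Fin (n + 1) → ℂ)) :
    Prop :=
  ∀ x ∈ X, α x = b₀ → (∀ s ∈ S, ∀ c : ℂ, x ≠ c • s) →
    ∃ (e : ℕ) (b : ℂ) (w : (Fin (n + 1) → ℂ) → ℂ), 2 ≤ e ∧ AnalyticAt ℂ w x ∧ w x = 0 ∧
      ∀ᶠ u in 𝓝 x, u ∈ X → α u = Submodule.Quotient.mk (b + w u ^ e)

/-- A semistable reduction `π : Y → X`, over the identity of the elliptic curve, of the projective set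
`X = {F = 0}` with the map `α`: `π` is a finite unramified covering outside of the fibres over `B`;
outside of these fibres, the map `α' = α ∘ π` is a smooth family of manifolds of dimension `d`; the
entire curves in the fibres of `α'` are constant, or cross hypersurface germs contained in the fibres
over `B`; there are enough relative logarithmic forms on `Y`. The last condition (`rigid`) is that
these forms are twisted by `O (-1)` (they are positive), or that they are not twisted but there is a
point `b₀` of `B` such that the fibre of `α` over `b₀` is multiple outside of finitely many points and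
the forms have no poles at the points over `b₀`.

Let `X₁` be a smooth projective surface of general type with a surjective holomorphic map to an
elliptic curve `E` with connected fibres; these are curves of genus `g ≥ 2`.

(1) Suppose that not all smooth fibres are isomorphic. By the theorem of Deligne and Mumford there are
a finite Galois covering `C → E`, unramified outside of the set `B` of the points with singular
fibres, with group `G`, and a family of stable curves `Y → C` which is over the complement of `B` the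
pullback of `X₁`. Then `G` acts on `Y`, and `X = Y / G` is a projective surface which is isomorphic to
`X₁` outside of the fibres over `B`. The map `π` is the quotient map, the condition on the fibres
holds since the components of the stable curves are of genus zero with at least three points over
nodes, or of genus one with at least one of them, or of higher genus, and the positive forms exist
since the relative dualizing sheaf of `Y → C` is ample, by a theorem of Arakelov.

(2) Suppose that all smooth fibres are isomorphic, to the curve `Z`. Then there is the same with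
`Y = C × Z` for a Galois covering `C → E` whose group `G` acts faithfully on `C` and on `Z`, and
`X = (C × Z) / G`. The forms are the sections of `K_Z ^ ν`, without twist. As `X₁` is of general type,
the genus of `C` is at least two and the covering `C → E` has a branch point `b₀`; the fibre of `X`
over `b₀` is multiple outside of the images of the fixed points of elements of `G`. -/
structure SemistableReduction (F : ι → MvPolynomial (Fin (n + 1)) ℂ) {L : PeriodPair}
    (α : (Fin (n + 1) → ℂ) → ℂ ⧸ L.lattice) (B : Set (ℂ ⧸ L.lattice)) (d k : ℕ)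
    (F' : ι' → MvPolynomial (Fin (m + 1)) ℂ) (α' : (Fin (m + 1) → ℂ) → ℂ ⧸ L.lattice)
    (Q : Fin (n + 1) → MvPolynomial (Fin (m + 1)) ℂ) {κ : Type}
    (η : κ → (Fin (m + 1) → ℂ) → (Fin (m + 1) → ℂ) → ℂ) : Prop where
  form : ∀ i, IsForm (F' i)
  hol : HolToTorus (Cone F') L α'
  covering : CoveringOff F F' α α' B Q
  smooth : ∀ x ∈ Cone F', α' x ∉ B → SmoothFamilyAt (Cone F') L α' d x
  fibres : HyperbolicOrCrossing F' α' B
  forms : RelativeForms k (Cone F') α' B η
  rigid : k = 1 ∨ k = 0 ∧ ∃ b₀ ∈ B, (∃ S : Set (Fin (n + 1) → ℂ), MultipleOutside (Cone F) L α b₀ S ∧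
      {p : ℙ ℂ (Fin (m + 1) → ℂ) | p.rep ∈ Cone F' ∧
        ∃ s ∈ S, ∃ c : ℂ, mapBy Q p.rep = c • s}.Finite) ∧
    ∀ x₀ ∈ Cone F', α' x₀ = b₀ → RegularFormsAt (Cone F') α' B η x₀

/-- The projective sets `X₁ = {F₁ = 0}` and `X = {F = 0}` with the maps `α₁` and `α` to `E` are
isomorphic outside of the fibres over `B`: the map `ρ`, in homogeneous coordinates, from `X₁` to `X`
and its inverse are given near every point outside of these fibres by forms of the same degree (`R`
and `W`). -/
structure IsoOff {n₁ : ℕ} {ι₁ : Type} (F₁ : ι₁ → MvPolynomial (Fin (n₁ + 1)) ℂ)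
    (F : ι → MvPolynomial (Fin (n + 1)) ℂ) {E : Type} (α₁ : (Fin (n₁ + 1) → ℂ) → E)
    (α : (Fin (n + 1) → ℂ) → E) (B : Set E) (ρ : (Fin (n₁ + 1) → ℂ) → Fin (n + 1) → ℂ) : Prop where
  map : ∀ x ∈ Cone F₁, α₁ x ∉ B → ρ x ∈ Cone F ∧ α (ρ x) = α₁ x
  regular : ∀ x ∈ Cone F₁, α₁ x ∉ B → ∃ R : Fin (n + 1) → MvPolynomial (Fin (n₁ + 1)) ℂ,
    (∃ e : ℕ, ∀ j, (R j).IsHomogeneous e) ∧ mapBy R x ≠ 0 ∧
    ∀ x' ∈ Cone F₁, α₁ x' ∉ B → ∃ c : ℂ, mapBy R x' = c • ρ x'
  inverse : ∀ u ∈ Cone F, α u ∉ B → ∃ x ∈ Cone F₁, α₁ x = α u ∧ (∃ c : ℂ, u = c • ρ x) ∧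
    ∃ W : Fin (n₁ + 1) → MvPolynomial (Fin (n + 1)) ℂ, (∃ e : ℕ, ∀ j, (W j).IsHomogeneous e) ∧
    mapBy W u ≠ 0 ∧ ∀ x' ∈ Cone F₁, α₁ x' ∉ B → ∃ c : ℂ, mapBy W (ρ x') = c • x'

/-- The projective set `X₁ = {F₁ = 0}` with the holomorphic map `α₁` to an elliptic curve is
isomorphic, outside of the fibres over `B`, to a projective set which has a semistable reduction. -/
def HasReduction {n₁ : ℕ} {ι₁ : Type} (F₁ : ι₁ → MvPolynomial (Fin (n₁ + 1)) ℂ) {L : PeriodPair}
    (α₁ : (Fin (n₁ + 1) → ℂ) → ℂ ⧸ L.lattice) (B : Set (ℂ ⧸ L.lattice)) : Prop :=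
  ∃ (n : ℕ) (ι : Type) (F : ι → MvPolynomial (Fin (n + 1)) ℂ)
    (α : (Fin (n + 1) → ℂ) → ℂ ⧸ L.lattice) (ρ : (Fin (n₁ + 1) → ℂ) → Fin (n + 1) → ℂ),
    (∀ i, IsForm (F i)) ∧ HolToTorus (Cone F) L α ∧ IsoOff F₁ F α₁ α B ρ ∧
    ∃ (d k m : ℕ) (ι' : Type) (F' : ι' → MvPolynomial (Fin (m + 1)) ℂ)
      (α' : (Fin (m + 1) → ℂ) → ℂ ⧸ L.lattice)
      (Q : Fin (n + 1) → MvPolynomial (Fin (m + 1)) ℂ) (κ : Type)
      (η : κ → (Fin (m + 1) → ℂ) → (Fin (m + 1) → ℂ) → ℂ),
      SemistableReduction F α B d k F' α' Q η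

/-- The forms `Q`, which have the same degree, define a finite unramified covering of the projective
set `{F = 0}` by the projective set `{F' = 0}`. -/
def EtaleCovering (F : ι → MvPolynomial (Fin (n + 1)) ℂ) (F' : ι' → MvPolynomial (Fin (m + 1)) ℂ)
    (Q : Fin (n + 1) → MvPolynomial (Fin (m + 1)) ℂ) : Prop :=
  CoveringOff F F' (fun _ => ()) (fun _ => ()) ∅ Q

/-- The point of the projective set `{F = 0}` with the homogeneous coordinates `u` is the image of a
point of the fibre of `α'` over `b`, by the map from `{F' = 0}` to `{F = 0}` given by the forms `Q`. -/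
def OverPoint (F' : ι' → MvPolynomial (Fin (m + 1)) ℂ) {E : Type} (α' : (Fin (m + 1) → ℂ) → E)
    (Q : Fin (n + 1) → MvPolynomial (Fin (m + 1)) ℂ) (b : E) (u : Fin (n + 1) → ℂ) : Prop :=
  ∃ x ∈ Cone F', α' x = b ∧ ∃ c : ℂ, mapBy Q x = c • u

end Pool.Agent.H918.SS
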