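import Pool.Agent.H918.D.Geo
import Pool.Agent.H918.E.Defs

/-! From projective sets (which may be singular) to compact sets of projection matrices. (After the
files `N154/GG/Geo.lean`, `N154/GG/Geo2.lean` of an earlier team.) -/

set_option autoImplicit false

open Filter Topology Metric Set LinearAlgebra.Projectivization

namespace Pool.Agent.H918.SS

open FF Pool.Agent.Y190.OP Pool.Agent.W602.GT Pool.Agent.N154.GG
open Pool.Agent.N155 (TX isCompact_TX TX_PM exists_shift nz nz_Phi val_eval eval_smul)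

variable {n : ℕ} {ι : Type} {F : ι → MvPolynomial (Fin (n + 1)) ℂ} {d : ℕ} {K : Type} [Field K]
  [Algebra ℂ K] {y : Fin (n + 1) → K} {L : PeriodPair} {α : (Fin (n + 1) → ℂ) → ℂ ⧸ L.lattice}
  {B : Set (ℂ ⧸ L.lattice)}

/-- the points of the projective set, as matrices -/
def TF (F : ι → MvPolynomial (Fin (n + 1)) ℂ) : Set (Mat (n + 1)) := {M | ∃ u ∈ Cone F, M = Phi u}

theorem TF_PM : TF F ⊆ PM := by
  rintro _ ⟨u, hu, rfl⟩
  exact ⟨u, hu.1, rfl⟩

theorem ProjVariety.pts (hX : ProjVariety F d y) : VarPts ℂ y ⊆ Cone F := fun _ hx =>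
  ⟨hx.1, fun i => hx.2 (F i) (hX.form i) (hX.sub.mem i)⟩

theorem ProjVariety.TX (hX : ProjVariety F d y) : TX y = TF F := by
  ext M
  constructor
  · rintro ⟨u, hu, h⟩
    exact ⟨u, hX.pts hu, h⟩
  · rintro ⟨u, hu, h⟩
    exact ⟨u, hX.irred hu, h⟩

theorem cone_smulF (hF : ∀ i, IsForm (F i)) {u : Fin (n + 1) → ℂ} (hu : u ∈ Cone F) {c : ℂ}
    (hc : c ≠ 0) : c • u ∈ Cone F := by
  refine ⟨smul_ne_zero hc hu.1, fun i => ?_⟩
  obtain ⟨e, he⟩ := hF i
  rw [val_eval, eval_smul he, ← val_eval, hu.2 i, mul_zero]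

theorem chart_coneF (hF : ∀ i, IsForm (F i)) {M : Mat (n + 1)} (hM : M ∈ TF F) {i : Fin (n + 1)}
    (hi : M i i ≠ 0) : chart i M ∈ Cone F := by
  obtain ⟨u, hu, rfl⟩ := hM
  have h1 := (Phi_diag_ne hu.1).1 hi
  rw [chart_Phi hu.1 h1]
  exact cone_smulF hF hu (inv_ne_zero h1)

theorem isCompact_TF (hF : ∀ i, IsForm (F i)) : IsCompact (TF F) := by
  set S : Set (Fin (n + 1) → ℂ) := sphere 0 1 ∩ {u | ∀ i, val u (F i) = 0} with hS
  have hcl : IsClosed {u : Fin (n + 1) → ℂ | ∀ i, val u (F i) = 0} := by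
    have h1 : {u : Fin (n + 1) → ℂ | ∀ i, val u (F i) = 0} = ⋂ i, {u | val u (F i) = 0} := by
      ext u
      simp only [mem_iInter]
      rfl
    rw [h1]
    refine isClosed_iInter fun i => ?_
    have h2 : Continuous fun u : Fin (n + 1) → ℂ => val u (F i) := by
      have h3 : (fun u : Fin (n + 1) → ℂ => val u (F i)) = fun u => MvPolynomial.eval u (F i) := by
        funext u
        exact val_eval _
      rw [h3]
      simp only [MvPolynomial.eval_eq']
      fun_prop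
    exact isClosed_eq h2 continuous_const
  have hSc : IsCompact S := (isCompact_sphere 0 1).inter_right hcl
  have hne : ∀ u ∈ S, u ≠ 0 := by
    rintro u ⟨hu, -⟩ rfl
    rw [mem_sphere, dist_self] at hu
    exact zero_ne_one hu
  have himg : TF F = Phi '' S := by
    ext M
    constructor
    · rintro ⟨u, hu, rfl⟩
      have hn : (‖u‖ : ℂ) ≠ 0 := by
        have := norm_pos_iff.2 hu.1
        exact_mod_cast this.ne'
      refine ⟨(‖u‖ : ℂ)⁻¹ • u, ⟨?_, ?_⟩, Phi_smul (inv_ne_zero hn) u⟩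
      · rw [mem_sphere, dist_zero_right, norm_smul, norm_inv, Complex.norm_real, norm_norm]
        exact inv_mul_cancel₀ (by exact_mod_cast hn)
      · exact (cone_smulF hF hu (inv_ne_zero hn)).2
    · rintro ⟨u, hu, rfl⟩
      exact ⟨u, ⟨hne u hu, hu.2⟩, rfl⟩
  rw [himg]
  exact hSc.image_of_continuousOn fun u hu => (continuousAt_Phi (hne u hu)).continuousWithinAt

theorem mem_TF {p : ℙ ℂ (Fin (n + 1) → ℂ)} (hp : p.rep ∈ Cone F) : Phi p.rep ∈ TF F := ⟨_, hp, rfl⟩

theorem rep_toProjF (hF : ∀ i, IsForm (F i)) {M : Mat (n + 1)} (hM : M ∈ TF F) :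
    (toProj M).rep ∈ Cone F := by
  obtain ⟨u, hu, rfl⟩ := hM
  rw [toProj_Phi hu.1]
  obtain ⟨c, hc⟩ := Projectivization.exists_smul_eq_mk_rep ℂ u hu.1
  rw [← hc]
  exact cone_smulF hF hu c.ne_zero

theorem aM_chartF (hF : ∀ i, IsForm (F i)) (hα : HolToTorus (Cone F) L α) {M : Mat (n + 1)}
    (hM : M ∈ TF F) {i : Fin (n + 1)} (hi : M i i ≠ 0) :
    (Submodule.Quotient.mk (aM L α F M) : ℂ ⧸ L.lattice) = α (chart i M) := by
  have h1 := chart_coneF hF hM hi
  have h2 := aM_Phi hα h1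
  rwa [PM.Phi_chart (TF_PM hM) hi] at h2

theorem aM_repF (hF : ∀ i, IsForm (F i)) (hα : HolToTorus (Cone F) L α) {M : Mat (n + 1)}
    (hM : M ∈ TF F) :
    (Submodule.Quotient.mk (aM L α F M) : ℂ ⧸ L.lattice) = α (toProj M).rep := by
  have h1 := aM_Phi hα (rep_toProjF hF hM)
  rwa [Phi_rep_toProj (TF_PM hM)] at h1

/-- the torus data -/
theorem tdF (hF : ∀ i, IsForm (F i)) (hα : HolToTorus (Cone F) L α) :
    TD (TF F) (La L) (aM L α F) where
  comp := isCompact_TF hF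
  sub := TF_PM
  disc := by
    have h1 : IsOpen ({0} : Set L.lattice) := isOpen_discrete _
    obtain ⟨δ, hδ, h2⟩ := Metric.isOpen_iff.1 h1 0 rfl
    refine ⟨δ, hδ, fun l hl hlδ => ?_⟩
    have h3 : (⟨l, hl⟩ : L.lattice) ∈ ball (0 : L.lattice) δ := by
      rw [mem_ball_zero_iff]
      exact hlδ
    have h4 := h2 h3
    rw [mem_singleton_iff] at h4
    exact congrArg Subtype.val h4
  coc := by
    refine ⟨‖L.ω₁‖ + ‖L.ω₂‖, fun z => ?_⟩
    obtain ⟨m, k, h⟩ := exists_shift L.indep z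
    refine ⟨-(m * L.ω₁ + k * L.ω₂), ?_, by rwa [sub_neg_eq_add]⟩
    exact (La L).neg_mem (PeriodPair.mem_lattice.2 ⟨m, k, rfl⟩)
  loc := by
    intro M0 hM0
    obtain ⟨i, hi⟩ := PM.exists_diag (TF_PM hM0)
    obtain ⟨w, hw, hwe⟩ := hα.hol _ (chart_coneF hF hM0 hi)
    have h1 : ∀ᶠ u in 𝓝 (chart i M0), AnalyticAt ℂ w u ∧
        (u ∈ Cone F → α u = Submodule.Quotient.mk (w u)) := hw.eventually_analyticAt.and hwe
    obtain ⟨V, hVs, hV, hV0⟩ := _root_.mem_nhds_iff.1 h1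
    have h2 : ∀ᶠ M : Mat (n + 1) in 𝓝 M0, M i i ≠ 0 ∧ chart i M ∈ V :=
      ((continuous_apply_apply i i).continuousAt.eventually_ne hi).and
        ((continuousAt_chart hi).eventually (hV.mem_nhds hV0))
    obtain ⟨O, hOs, hO, hMO⟩ := _root_.mem_nhds_iff.1 h2
    refine ⟨O, fun M => w (chart i M), hO, hMO, fun M hM => ?_, fun M hM => ?_, ?_⟩
    · have h3 : ContDiffAt ℝ 1 w (chart i M) :=
        ((hVs (hOs hM).2).1.contDiffAt (n := 1)).restrict_scalars ℝ
      exact h3.comp M (contDiffAt_chart (hOs hM).1)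
    · rw [mem_La_iff, aM_chartF hF hα hM.2 (hOs hM.1).1]
      exact (hVs (hOs hM.1).2).2 (chart_coneF hF hM.2 (hOs hM.1).1)
    · intro U P z _ hz hP hPO
      have h3 := hP.diff_chart hz (hOs hPO).1
      exact ((hVs (hOs hPO).2).1.differentiableAt).comp z h3

/-- the curves over the identity, as maps to projective space -/
theorem S0_iffF (hF : ∀ i, IsForm (F i)) (hα : HolToTorus (Cone F) L α) {P : ℂ → Mat (n + 1)}
    (hP : P ∈ S0 (TF F) (La L) (aM L α F)) : HolIn F (fun z => toProj (P z)) ∧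
      ∀ z, α (toProj (P z)).rep = Submodule.Quotient.mk z :=
  ⟨⟨holMap_of hP.1, fun z => rep_toProjF hF (hP.2.1 z)⟩, fun z => by
    rw [← aM_repF hF hα (hP.2.1 z)]
    exact (mem_La_iff.1 (hP.2.2 z)).symm⟩

/-- the bad values -/
theorem bdF {T : Set (Mat (n + 1))} {a : Mat (n + 1) → ℂ} (hT : TD T (La L) a) (hB : B.Finite) :
    ∃ δ : ℝ, Bd (La L) (BB L B) δ := by
  obtain ⟨δ0, hδ0, hd⟩ := hT.disc
  choose ε hε hε' using fun c => coset_lower hδ0 hd c
  set P : Set ((ℂ ⧸ L.lattice) × (ℂ ⧸ L.lattice)) := B ×ˢ B with hP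
  have hPf : P.Finite := hB.prod hB
  obtain ⟨m, hm, hm'⟩ := finite_lower hPf (f := fun p => ε (p.1.out - p.2.out)) fun p => hε _
  refine ⟨m / 4, by positivity, fun b hb l hl => ?_, fun b hb b' hb' hlt => ?_⟩
  · change (Submodule.Quotient.mk (b + l) : ℂ ⧸ L.lattice) ∈ B
    rw [Submodule.Quotient.mk_add, (Submodule.Quotient.mk_eq_zero L.lattice).2 hl, add_zero]
    exact hb
  · set p : ℂ ⧸ L.lattice := Submodule.Quotient.mk b with hp
    set p' : ℂ ⧸ L.lattice := Submodule.Quotient.mk b' with hp'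
    have h1 : b - p.out ∈ La L := by
      rw [mem_La_iff]
      exact (Quotient.out_eq p).symm
    have h2 : b' - p'.out ∈ La L := by
      rw [mem_La_iff]
      exact (Quotient.out_eq p').symm
    have h3 := hε' (p.out - p'.out) _ ((La L).sub_mem h1 h2)
    have e : p.out - p'.out + (b - p.out - (b' - p'.out)) = b - b' := by ring
    rw [e] at h3
    have h4 := hm' (p, p') ⟨hb, hb'⟩
    have h5 : ‖b - b'‖ < ε (p.out - p'.out) := by
      refine lt_of_lt_of_le ?_ h4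
      linarith
    exact sub_eq_zero.1 (h3 h5)

/-- the hypothesis on the fibres -/
theorem fibBF (hF : ∀ i, IsForm (F i)) (hα : HolToTorus (Cone F) L α)
    (hfib : HyperbolicOrCrossing F α B) :
    FibB (TF F) (La L) (aM L α F) (BB L B) := by
  intro P c hP hPT ho hcr z
  have hin : HolIn F (fun z => toProj (P z)) := ⟨holMap_of hP, fun z => rep_toProjF hF (hPT z)⟩
  have hmk : ∀ z, α (toProj (P z)).rep = Submodule.Quotient.mk c := by
    intro z
    rw [← aM_repF hF hα (hPT z)]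
    exact (mem_La_iff.1 (ho z)).symm
  rcases hfib _ hin (fun z w => by rw [hmk, hmk]) with h1 | ⟨h1, z0, h2⟩
  · have h2 := congrArg (fun p : ℙ ℂ (Fin (n + 1) → ℂ) => Phi p.rep) (h1 z 0)
    change Phi (toProj (P z)).rep = Phi (toProj (P 0)).rep at h2
    rwa [Phi_rep_toProj (TF_PM (hPT z)), Phi_rep_toProj (TF_PM (hPT 0))] at h2
  · exfalso
    have hc : c ∈ BB L B := by
      change (Submodule.Quotient.mk c : ℂ ⧸ L.lattice) ∈ B
      rw [← hmk 0]
      exact h1
    refine hcr hc ?_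
    obtain ⟨i, w, hi, hw, hev, hw0, hne⟩ := h2
    have hPi : P z0 i i ≠ 0 := by
      have h3 := (Phi_diag_ne (toProj (P z0)).rep_nonzero).2 hi
      rwa [Phi_rep_toProj (TF_PM (hPT z0))] at h3
    rw [affCoord_toProj (TF_PM (hPT z0)) hPi] at hw hev hw0
    have h1 : ∀ᶠ x in 𝓝 (chart i (P z0)), AnalyticAt ℂ w x ∧
        (x ∈ Cone F → x i = 1 → w x = 0 → α x ∈ B) := hw.eventually_analyticAt.and hev
    obtain ⟨V, hVs, hV, hV0⟩ := _root_.mem_nhds_iff.1 h1
    have h2 : ∀ᶠ M : Mat (n + 1) in 𝓝 (P z0), M i i ≠ 0 ∧ chart i M ∈ V :=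
      ((continuous_apply_apply i i).continuousAt.eventually_ne hPi).and
        ((continuousAt_chart hPi).eventually (hV.mem_nhds hV0))
    obtain ⟨O, hOs, hO, hMO⟩ := _root_.mem_nhds_iff.1 h2
    refine ⟨z0, O, fun M => w (chart i M), hO, hMO, fun M hM => ?_, ?_, ?_, hw0, fun hcon => hne ?_⟩
    · exact (ContinuousAt.comp (g := w) (hVs (hOs hM).2).1.continuousAt
        (continuousAt_chart (hOs hM).1)).continuousWithinAt
    · intro U Q t _ ht hQ hQO
      have h3 := hQ.diff_chart ht (hOs hQO).1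
      exact ((hVs (hOs hQO).2).1.differentiableAt).comp t h3
    · rintro M ⟨hM1, hM2⟩ hM3
      change (Submodule.Quotient.mk (aM L α F M) : ℂ ⧸ L.lattice) ∈ B
      rw [aM_chartF hF hα hM2 (hOs hM1).1]
      exact (hVs (hOs hM1).2).2 (chart_coneF hF hM2 (hOs hM1).1) (PM.chart_self (hOs hM1).1) hM3
    · filter_upwards [hcon, (hp_cont hP).continuousAt.eventually (hO.mem_nhds hMO)] with t h3 h4
      rw [affCoord_toProj (TF_PM (hPT t)) (hOs h4).1]
      exact h3

end Pool.Agent.H918.SS
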