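import Pool.Agent.H918.E.Geo0
import Pool.Agent.H918.D.Five

/-! Rational maps applied to holomorphic curves (project of helper918). -/

set_option autoImplicit false

open Filter Topology Metric Set LinearAlgebra.Projectivization

namespace Pool.Agent.H918.SS

open FF Pool.Agent.Y190.OP Pool.Agent.W602.GT Pool.Agent.N154.GG
open Pool.Agent.N155 (TX isCompact_TX TX_PM exists_shift nz nz_Phi)

variable {m n : ℕ} {ι ι' : Type} {F : ι → MvPolynomial (Fin (n + 1)) ℂ}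
  {F' : ι' → MvPolynomial (Fin (m + 1)) ℂ} {L : PeriodPair}
  {α : (Fin (n + 1) → ℂ) → ℂ ⧸ L.lattice} {α' : (Fin (m + 1) → ℂ) → ℂ ⧸ L.lattice}
  {B : Set (ℂ ⧸ L.lattice)} {ρ : (Fin (m + 1) → ℂ) → Fin (n + 1) → ℂ}

namespace H665p

/-- a property which holds near every point, or fails near it -/
theorem all_good {U : Set ℂ} (hUc : IsPreconnected U) (P : ℂ → Prop)
    (hD : ∀ z ∈ U, (∀ᶠ w in 𝓝 z, ¬ P w) ∨ (∀ᶠ w in 𝓝[≠] z, P w)) {z1 : ℂ} (hz1 : z1 ∈ U)
    (h1 : P z1) : ∀ z ∈ U, ∀ᶠ w in 𝓝[≠] z, P w := by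
  set u : Set ℂ := {z | ∀ᶠ w in 𝓝 z, ¬ P w} with hu
  set v : Set ℂ := {z | ∀ᶠ w in 𝓝[≠] z, P w} with hv
  have huo : IsOpen u := by
    rw [isOpen_iff_mem_nhds]
    intro z hz
    exact eventually_eventually_nhds.mpr hz
  have hvo : IsOpen v := by
    rw [isOpen_iff_mem_nhds]
    intro z hz
    have h2 : ∀ᶠ w in 𝓝 z, w ≠ z → P w := eventually_nhdsWithin_iff.mp hz
    rw [← eventually_eventually_nhds] at h2
    filter_upwards [h2] with w hw
    show ∀ᶠ x in 𝓝[≠] w, P x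
    by_cases hwz : w = z
    · rw [hwz]; exact hz
    · have h3 : ∀ᶠ x in 𝓝 w, P x := by
        filter_upwards [hw, isOpen_ne.mem_nhds hwz] with x hx hx2
        exact hx hx2
      exact nhdsWithin_le_nhds h3
  have hz1v : z1 ∈ v := by
    rcases hD z1 hz1 with h2 | h2
    · exact absurd h1 h2.self_of_nhds
    · exact h2
  intro z hz
  rcases hD z hz with h2 | h2
  · exfalso
    obtain ⟨x, -, hxu, hxv⟩ := hUc u v huo hvo (fun x hx => hD x hx) ⟨z, hz, h2⟩ ⟨z1, hz1, hz1v⟩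
    have h3 : ∀ᶠ w in 𝓝[≠] x, ¬ P w := nhdsWithin_le_nhds hxu
    obtain ⟨w, hw1, hw2⟩ := (h3.and hxv).exists
    exact hw1 hw2
  · exact h2

theorem mapBy_smul {R : Fin (n + 1) → MvPolynomial (Fin (m + 1)) ℂ} {e : ℕ}
    (hR : ∀ j, (R j).IsHomogeneous e) (c : ℂ) (x : Fin (m + 1) → ℂ) :
    mapBy R (c • x) = c ^ e • mapBy R x := by
  funext j
  show val (c • x) (R j) = c ^ e * val x (R j)
  rw [Pool.Agent.N155.val_eval, Pool.Agent.N155.eval_smul (hR j), ← Pool.Agent.N155.val_eval]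

theorem mapBy_an (R : Fin (n + 1) → MvPolynomial (Fin (m + 1)) ℂ) {l : ℂ → Fin (m + 1) → ℂ}
    {z : ℂ} (hl : AnalyticAt ℂ l z) : AnalyticAt ℂ (fun w => mapBy R (l w)) z := by
  refine AnalyticAt.pi fun j => ?_
  exact AnalyticAt.aeval_mvPolynomial (fun i => ((ContinuousLinearMap.proj (R := ℂ)
    (φ := fun _ : Fin (m + 1) => ℂ) i).analyticAt _).comp hl) (R j)

/-- local lifts -/
theorem lift {U : Set ℂ} {f : ℂ → ℙ ℂ (Fin (m + 1) → ℂ)} (hf : HolMapOn U f) {z : ℂ} (hz : z ∈ U) :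
    ∃ l : ℂ → Fin (m + 1) → ℂ, AnalyticAt ℂ l z ∧ ∀ᶠ w in 𝓝 z, l w ≠ 0 ∧
      ∃ c : ℂ, c ≠ 0 ∧ l w = c • (f w).rep := by
  obtain ⟨V, l, hV, hzV, hd, hfl⟩ := hf z hz
  refine ⟨l, hd.analyticAt (hV.mem_nhds hzV), ?_⟩
  filter_upwards [hV.mem_nhds hzV] with w hw
  obtain ⟨h0, h1⟩ := hfl w hw
  obtain ⟨c, hc, h2⟩ := rep_mk h0
  rw [← h1] at h2
  refine ⟨h0, c⁻¹, inv_ne_zero hc, ?_⟩
  rw [h2, smul_smul, inv_mul_cancel₀ hc, one_smul]

theorem lat_closed (L : PeriodPair) : IsClosed (L.lattice : Set ℂ) := by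
  have : DiscreteTopology L.lattice.toAddSubgroup := inferInstanceAs (DiscreteTopology L.lattice)
  exact AddSubgroup.isClosed_of_discrete (H := L.lattice.toAddSubgroup)

theorem lat_disc (L : PeriodPair) (q : ℂ) : ∀ᶠ y in 𝓝[≠] q, y ∉ (L.lattice : Set ℂ) := by
  have h1 : IsClosed (L.lattice : Set ℂ) := lat_closed L
  have h2 : IsDiscrete (L.lattice : Set ℂ) := ⟨inferInstanceAs (DiscreteTopology L.lattice)⟩
  have h3 := isClosed_and_discrete_iff.mp ⟨h1, h2⟩ q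
  exact disjoint_principal_right.mp h3

theorem mk_disc (hB : B.Finite) (p : ℂ) :
    ∀ᶠ x in 𝓝[≠] p, (Submodule.Quotient.mk x : ℂ ⧸ L.lattice) ∉ B := by
  have h1 : ∀ b ∈ B, ∀ᶠ x in 𝓝[≠] p, (Submodule.Quotient.mk x : ℂ ⧸ L.lattice) ≠ b := by
    intro b _
    obtain ⟨x0, rfl⟩ := Submodule.Quotient.mk_surjective _ b
    have h2 : Tendsto (fun x : ℂ => x - x0) (𝓝[≠] p) (𝓝[≠] (p - x0)) := by
      refine tendsto_nhdsWithin_iff.mpr ⟨?_, ?_⟩
      · exact ((continuous_id.sub continuous_const).tendsto p).mono_left nhdsWithin_le_nhds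
      · filter_upwards [self_mem_nhdsWithin] with x hx
        exact fun h => hx (sub_left_injective h)
    filter_upwards [h2.eventually (lat_disc L (p - x0))] with x hx he
    exact hx ((Submodule.Quotient.eq _).mp he)
  filter_upwards [(eventually_all_finite hB).mpr h1] with x hx hxB
  exact hx _ hxB rfl

/-- the map to the torus along a curve -/
theorem tor {X : Set (Fin (m + 1) → ℂ)} {a' : (Fin (m + 1) → ℂ) → ℂ ⧸ L.lattice}
    (ha : HolToTorus X L a') {l : ℂ → Fin (m + 1) → ℂ} {z : ℂ} (hl : AnalyticAt ℂ l z)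
    (hz : l z ∈ X) : ∃ a : ℂ → ℂ, AnalyticAt ℂ a z ∧
      ∀ᶠ w in 𝓝 z, l w ∈ X → a' (l w) = Submodule.Quotient.mk (a w) := by
  obtain ⟨w, hw, hwe⟩ := ha.hol _ hz
  exact ⟨fun t => w (l t), AnalyticAt.fun_comp hw hl, hl.continuousAt.eventually hwe⟩

theorem prop_of {u v : Fin (n + 1) → ℂ} (hv : v ≠ 0) (h : ∀ i j, u i * v j = u j * v i) :
    ∃ c : ℂ, u = c • v := by
  obtain ⟨j, hj⟩ := Function.ne_iff.mp hv
  refine ⟨u j / v j, ?_⟩
  funext i
  show u i = u j / v j * v i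
  have hj' : v j ≠ 0 := hj
  rw [div_mul_eq_mul_div, ← h i j, mul_div_assoc, div_self hj', mul_one]

end H665p

open H665p in
/-- PUSH: a map which is regular outside of the fibres over `B`, applied to a curve -/
theorem push_curve (hF' : ∀ i, IsForm (F' i)) (hF : ∀ i, IsForm (F i))
    (hα' : HolToTorus (Cone F') L α') (hα : HolToTorus (Cone F) L α) (hB : B.Finite)
    (hmap : ∀ x ∈ Cone F', α' x ∉ B → ρ x ∈ Cone F ∧ α (ρ x) = α' x)
    (hreg : ∀ x ∈ Cone F', α' x ∉ B → ∃ R : Fin (n + 1) → MvPolynomial (Fin (m + 1)) ℂ,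
      (∃ e : ℕ, ∀ j, (R j).IsHomogeneous e) ∧ mapBy R x ≠ 0 ∧
      ∀ x' ∈ Cone F', α' x' ∉ B → ∃ c : ℂ, mapBy R x' = c • ρ x')
    {U : Set ℂ} (hU : IsOpen U) (hUc : IsPreconnected U) {f : ℂ → ℙ ℂ (Fin (m + 1) → ℂ)}
    (hf : HolMapOn U f) (hfF : ∀ z ∈ U, (f z).rep ∈ Cone F') {z1 : ℂ} (hz1 : z1 ∈ U)
    (hgood : α' (f z1).rep ∉ B) :
    ∃ g : ℂ → ℙ ℂ (Fin (n + 1) → ℂ), HolMapOn U g ∧
      (∀ z ∈ U, (g z).rep ∈ Cone F ∧ α (g z).rep = α' (f z).rep) ∧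
      ∀ z ∈ U, α' (f z).rep ∉ B → ∃ c : ℂ, (g z).rep = c • ρ (f z).rep := by
  classical
  obtain ⟨R, ⟨e, hRe⟩, hR0, hRρ⟩ := hreg _ (hfF z1 hz1) hgood
  -- the map to the torus
  have key2 : ∀ z ∈ U, ∃ a : ℂ → ℂ, AnalyticAt ℂ a z ∧
      ∀ᶠ w in 𝓝 z, α' (f w).rep = Submodule.Quotient.mk (a w) := by
    intro z hz
    obtain ⟨l, hl, hlf⟩ := lift hf hz
    have hlz : l z ∈ Cone F' := by
      obtain ⟨-, c, hc, h1⟩ := hlf.self_of_nhds
      rw [h1]
      exact cone_smulF hF' (hfF z hz) hc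
    obtain ⟨a, ha, hae⟩ := tor hα' hl hlz
    refine ⟨a, ha, ?_⟩
    filter_upwards [hlf, hae, hU.mem_nhds hz] with w h1 h2 hwU
    obtain ⟨-, c, hc, h3⟩ := h1
    have h4 := hfF w hwU
    rw [← h2 (by rw [h3]; exact cone_smulF hF' h4 hc), h3, hα'.homog _ h4 c hc]
  have key3 : ∀ z ∈ U, ∀ᶠ w in 𝓝[≠] z, α' (f w).rep ∉ B := by
    refine all_good hUc (fun w => α' (f w).rep ∉ B) (fun z hz => ?_) hz1 hgood
    obtain ⟨a, ha, hae⟩ := key2 z hz
    have h1 : AnalyticAt ℂ (fun w => a w - a z) z := ha.sub analyticAt_const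
    rcases h1.eventually_eq_zero_or_eventually_ne_zero with h2 | h2
    · have h3 : ∀ᶠ w in 𝓝 z, α' (f w).rep = α' (f z).rep := by
        filter_upwards [h2, hae] with w h3 h4
        rw [h4, hae.self_of_nhds, sub_eq_zero.mp h3]
      by_cases hb : α' (f z).rep ∈ B
      · left
        filter_upwards [h3] with w hw
        rw [hw]
        exact not_not.mpr hb
      · right
        refine nhdsWithin_le_nhds ?_
        filter_upwards [h3] with w hw
        rw [hw]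
        exact hb
    · right
      have h3 : Tendsto a (𝓝[≠] z) (𝓝[≠] (a z)) := by
        refine tendsto_nhdsWithin_iff.mpr ⟨ha.continuousAt.tendsto.mono_left nhdsWithin_le_nhds, ?_⟩
        filter_upwards [h2] with w hw
        exact fun h => hw (sub_eq_zero.mpr h)
      filter_upwards [h3.eventually (mk_disc hB (a z)), nhdsWithin_le_nhds hae] with w h4 h5
      rw [h5]
      exact h4
  -- the map is not zero on a punctured neighbourhood
  have hne : ∀ z ∈ U, ∀ᶠ w in 𝓝[≠] z, mapBy R (f w).rep ≠ 0 := by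
    refine all_good hUc (fun w => mapBy R (f w).rep ≠ 0) (fun z hz => ?_) hz1 hR0
    obtain ⟨l, hl, hlf⟩ := lift hf hz
    rcases (mapBy_an R hl).eventually_eq_zero_or_eventually_ne_zero with h2 | h2
    · left
      filter_upwards [h2, hlf] with w h3 h4
      obtain ⟨-, c, hc, h5⟩ := h4
      rw [h5, mapBy_smul hRe] at h3
      exact not_not.mpr ((smul_eq_zero.mp h3).resolve_left (pow_ne_zero _ hc))
    · right
      filter_upwards [h2, nhdsWithin_le_nhds hlf] with w h3 h4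
      obtain ⟨-, c, hc, h5⟩ := h4
      rw [h5, mapBy_smul hRe] at h3
      exact fun h => h3 (by rw [h, smul_zero])
  have key1 : ∀ z ∈ U, ∃ k : ℂ → Fin (n + 1) → ℂ, AnalyticAt ℂ k z ∧ k z ≠ 0 ∧
      (mapBy R (f z).rep ≠ 0 → ∃ c : ℂ, c ≠ 0 ∧ mapBy R (f z).rep = c • k z) ∧
      ∀ᶠ w in 𝓝[≠] z, ∃ c : ℂ, c ≠ 0 ∧ mapBy R (f w).rep = c • k w := by
    intro z hz
    obtain ⟨l, hl, hlf⟩ := lift hf hz
    have hnz : ¬ ∀ᶠ w in 𝓝 z, mapBy R (l w) = 0 := by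
      intro h
      have h1 : ∀ᶠ w in 𝓝[≠] z, mapBy R (l w) = 0 ∧ l w ≠ 0 ∧ ∃ c : ℂ, c ≠ 0 ∧
          l w = c • (f w).rep := nhdsWithin_le_nhds (h.and hlf)
      obtain ⟨w, ⟨h2, -, c, hc, h3⟩, h4⟩ := (h1.and (hne z hz)).exists
      rw [h3, mapBy_smul hRe] at h2
      exact h4 ((smul_eq_zero.mp h2).resolve_left (pow_ne_zero _ hc))
    obtain ⟨q, k, hk, hk0, hkq⟩ :=
      (AnalyticAt.exists_eventuallyEq_pow_smul_nonzero_iff (mapBy_an R hl)).mpr hnz
    refine ⟨k, hk, hk0, fun h0 => ?_, ?_⟩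
    · obtain ⟨-, c, hc, h1⟩ := hlf.self_of_nhds
      have h2 := hkq.self_of_nhds
      rw [h1, mapBy_smul hRe] at h2
      have hq : q = 0 := by
        by_contra hq
        rw [sub_self, zero_pow hq, zero_smul] at h2
        exact h0 ((smul_eq_zero.mp h2).resolve_left (pow_ne_zero _ hc))
      rw [hq, pow_zero, one_smul] at h2
      refine ⟨(c ^ e)⁻¹, inv_ne_zero (pow_ne_zero _ hc), ?_⟩
      rw [← h2, smul_smul, inv_mul_cancel₀ (pow_ne_zero _ hc), one_smul]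
    · filter_upwards [nhdsWithin_le_nhds hlf, nhdsWithin_le_nhds hkq, self_mem_nhdsWithin] with
        w h1 h2 h3
      obtain ⟨-, c, hc, h1⟩ := h1
      rw [h1, mapBy_smul hRe] at h2
      refine ⟨(c ^ e)⁻¹ * (w - z) ^ q,
        mul_ne_zero (inv_ne_zero (pow_ne_zero _ hc)) (pow_ne_zero _ (sub_ne_zero.mpr h3)), ?_⟩
      rw [mul_smul, ← h2, smul_smul, inv_mul_cancel₀ (pow_ne_zero _ hc), one_smul]
  choose k hk hk0 hkz hkw using key1
  let g : ℂ → ℙ ℂ (Fin (n + 1) → ℂ) := fun z =>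
    if hz : z ∈ U then Projectivization.mk ℂ (k z hz z) (hk0 z hz) else
      Projectivization.mk ℂ _ ones_ne
  have hgU : ∀ z, ∀ hz : z ∈ U, g z = Projectivization.mk ℂ (k z hz z) (hk0 z hz) :=
    fun z hz => dif_pos hz
  -- the values near a point
  have hnear : ∀ z, ∀ hz : z ∈ U, ∀ᶠ w in 𝓝[≠] z, k z hz w ∈ Cone F ∧
      α (k z hz w) = α' (f w).rep ∧ ∃ c : ℂ, c ≠ 0 ∧ k z hz w = c • ρ (f w).rep := by
    intro z hz
    filter_upwards [hkw z hz, key3 z hz, hne z hz, nhdsWithin_le_nhds (hU.mem_nhds hz)] with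
      w h1 h2 h3 hwU
    obtain ⟨c, hc, h4⟩ := h1
    obtain ⟨c', h5⟩ := hRρ _ (hfF w hwU) h2
    have hc' : c' ≠ 0 := by
      rintro rfl
      rw [zero_smul] at h5
      exact h3 h5
    obtain ⟨h6, h7⟩ := hmap _ (hfF w hwU) h2
    have h8 : k z hz w = (c⁻¹ * c') • ρ (f w).rep := by
      rw [mul_smul, ← h5, h4, smul_smul, inv_mul_cancel₀ hc, one_smul]
    have h9 : c⁻¹ * c' ≠ 0 := mul_ne_zero (inv_ne_zero hc) hc'
    refine ⟨?_, ?_, _, h9, h8⟩
    · rw [h8]; exact cone_smulF hF h6 h9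
    · rw [h8, hα.homog _ h6 _ h9, h7]
  have hcone : ∀ z, ∀ hz : z ∈ U, k z hz z ∈ Cone F := by
    intro z hz
    refine ⟨hk0 z hz, ?_⟩
    have h1 : Tendsto (k z hz) (𝓝[≠] z) (𝓝 (k z hz z)) :=
      (hk z hz).continuousAt.tendsto.mono_left nhdsWithin_le_nhds
    exact (isClosed_cone0 (F := F)).mem_of_tendsto h1 ((hnear z hz).mono fun w hw => hw.1.2)
  refine ⟨g, ?_, ?_, ?_⟩
  · -- holomorphic
    intro z hz
    have h1 : ∀ᶠ w in 𝓝 z, AnalyticAt ℂ (k z hz) w ∧ k z hz w ≠ 0 ∧ w ∈ U ∧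
        (w ≠ z → ∃ c : ℂ, c ≠ 0 ∧ mapBy R (f w).rep = c • k z hz w) := by
      filter_upwards [(hk z hz).eventually_analyticAt,
        (hk z hz).continuousAt.eventually_ne (hk0 z hz), hU.mem_nhds hz,
        eventually_nhdsWithin_iff.mp (hkw z hz)] with w a1 a2 a3 a4
      exact ⟨a1, a2, a3, a4⟩
    obtain ⟨V, hVs, hV, hzV⟩ := _root_.mem_nhds_iff.1 h1
    refine ⟨V, k z hz, hV, hzV, fun w hw => (hVs hw).1.differentiableAt.differentiableWithinAt,
      fun w hw => ⟨(hVs hw).2.1, ?_⟩⟩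
    by_cases h2 : w = z
    · subst h2
      exact hgU w hz
    · obtain ⟨-, h3, hwU, h4⟩ := hVs hw
      obtain ⟨c, hc, h5⟩ := h4 h2
      have h6 : mapBy R (f w).rep ≠ 0 := by
        rw [h5]
        exact smul_ne_zero hc h3
      obtain ⟨c', hc', h7⟩ := hkz w hwU h6
      rw [hgU w hwU, Projectivization.mk_eq_mk_iff']
      refine ⟨c'⁻¹ * c, ?_⟩
      rw [mul_smul, ← h5, h7, smul_smul, inv_mul_cancel₀ hc', one_smul]
  · intro z hz
    obtain ⟨c, hc, h1⟩ := rep_mk (hk0 z hz)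
    rw [hgU z hz, h1]
    refine ⟨cone_smulF hF (hcone z hz) hc, ?_⟩
    rw [hα.homog _ (hcone z hz) c hc]
    obtain ⟨a, ha, hae⟩ := key2 z hz
    obtain ⟨b, hb, hbe⟩ := tor hα (hk z hz) (hcone z hz)
    rw [hbe.self_of_nhds (hcone z hz), hae.self_of_nhds, Submodule.Quotient.eq]
    have hcl : IsClosed (L.lattice : Set ℂ) := lat_closed L
    have h2 : Tendsto (fun w => b w - a w) (𝓝[≠] z) (𝓝 (b z - a z)) :=
      ((hb.continuousAt.sub ha.continuousAt).tendsto).mono_left nhdsWithin_le_nhds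
    refine hcl.mem_of_tendsto h2 ?_
    filter_upwards [hnear z hz, nhdsWithin_le_nhds hbe, nhdsWithin_le_nhds hae] with w h3 h4 h5
    have h6 := h4 h3.1
    rw [h3.2.1, h5] at h6
    exact (Submodule.Quotient.eq _).mp h6.symm
  · intro z hz hgz
    obtain ⟨R', ⟨e', hRe'⟩, hR0', hRρ'⟩ := hreg _ (hfF z hz) hgz
    obtain ⟨l, hl, hlf⟩ := lift hf hz
    have hRl : AnalyticAt ℂ (fun w => mapBy R' (l w)) z := mapBy_an R' hl
    obtain ⟨-, c, hc, h1⟩ := hlf.self_of_nhds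
    have hne' : mapBy R' (l z) ≠ 0 := by
      rw [h1, mapBy_smul hRe']
      exact smul_ne_zero (pow_ne_zero _ hc) hR0'
    have hprop : ∀ i j, k z hz z i * mapBy R' (l z) j = k z hz z j * mapBy R' (l z) i := by
      intro i j
      have hc1 : ∀ i, ContinuousAt (fun w => k z hz w i) z := fun i =>
        (continuous_apply i).continuousAt.comp (hk z hz).continuousAt
      have hc2 : ∀ i, ContinuousAt (fun w => mapBy R' (l w) i) z := fun i =>
        (continuous_apply i).continuousAt.comp hRl.continuousAt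
      have t1 : Tendsto (fun w => k z hz w i * mapBy R' (l w) j) (𝓝[≠] z)
          (𝓝 (k z hz z i * mapBy R' (l z) j)) :=
        ((hc1 i).mul (hc2 j)).tendsto.mono_left nhdsWithin_le_nhds
      have t2 : Tendsto (fun w => k z hz w j * mapBy R' (l w) i) (𝓝[≠] z)
          (𝓝 (k z hz z j * mapBy R' (l z) i)) :=
        ((hc1 j).mul (hc2 i)).tendsto.mono_left nhdsWithin_le_nhds
      refine tendsto_nhds_unique_of_eventuallyEq t1 t2 ?_
      filter_upwards [hnear z hz, nhdsWithin_le_nhds hlf, key3 z hz,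
        nhdsWithin_le_nhds (hU.mem_nhds hz)] with w h2 h3 h4 hwU
      obtain ⟨-, -, c1, -, h5⟩ := h2
      obtain ⟨-, c2, hc2, h6⟩ := h3
      obtain ⟨c3, h7⟩ := hRρ' _ (hfF w hwU) h4
      rw [h5, h6, mapBy_smul hRe', h7]
      simp only [Pi.smul_apply, smul_eq_mul]
      ring
    obtain ⟨c1, h2⟩ := prop_of hne' hprop
    obtain ⟨c2, h3⟩ := hRρ' _ (hfF z hz) hgz
    obtain ⟨c3, hc3, h4⟩ := rep_mk (hk0 z hz)
    rw [hgU z hz, h4]
    refine ⟨c3 * (c1 * (c ^ e' * c2)), ?_⟩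
    rw [h2, h1, mapBy_smul hRe', h3]
    simp only [smul_smul]

end Pool.Agent.H918.SS
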