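import Pool.Agent.H918.E.Cov
import Pool.Agent.H918.D.S0
import Pool.Agent.H918.D.Kk

/-! Relative logarithmic forms on a finite covering, in terms of limits of pairs of points. -/

set_option autoImplicit false

open Filter Topology Metric Set

namespace Pool.Agent.H918.SS

open Pool.Agent.Y190.OP Pool.Agent.N155 Pool.Agent.N154.GG

variable {N M : ℕ} {T : Set (Mat N)} {Λ : AddSubgroup ℂ} {a : Mat N → ℂ} {T' : Set (Mat M)}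
  {a' : Mat M → ℂ} {p : Mat M → Mat N} {𝔅 : Set ℂ} {δ : ℝ} {κ : Type}
  {η : κ → (Fin M → ℂ) → (Fin M → ℂ) → ℂ}

/-- the points `P m`, `Q m` of `T'` converge to `x`, they are in the same fibre, and the multiples
with the factor `wt m` of the difference in the chart `i` converge to `v` -/
structure VL (T' : Set (Mat M)) (Λ : AddSubgroup ℂ) (a' : Mat M → ℂ) (𝓤 : Ultrafilter ℕ)
    (i : Fin M) (P Q : ℕ → Mat M) (wt : ℕ → ℂ) (x : Mat M) (v : Fin M → ℂ) : Prop where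
  mem : x ∈ T'
  nz : x i i ≠ 0
  hP : ∀ᶠ m in (𝓤 : Filter ℕ), P m ∈ T' ∧ Q m ∈ T' ∧ a' (P m) - a' (Q m) ∈ Λ
  cP : Tendsto P 𝓤 (𝓝 x)
  cQ : Tendsto Q 𝓤 (𝓝 x)
  lim : Tendsto (fun m => wt m • (chart i (Q m) - chart i (P m))) 𝓤 (𝓝 v)

/-- relative logarithmic forms, twisted by the power `-k`: their values at the vertical tangent vectors are analytic functions of
logarithmic derivatives -/
structure LF (k : ℕ) (T' : Set (Mat M)) (Λ : AddSubgroup ℂ) (a' : Mat M → ℂ) (𝔅 : Set ℂ)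
    (η : κ → (Fin M → ℂ) → (Fin M → ℂ) → ℂ) : Prop where
  homog : ∀ x ∈ T', ∀ i : Fin M, x i i ≠ 0 → ∀ (q : κ) (v : Fin M → ℂ) (c e : ℂ), c ≠ 0 →
    η q (c • chart i x) (c • (v + e • chart i x)) = c⁻¹ ^ k * η q (chart i x) v
  pos : ∀ (𝓤 : Ultrafilter ℕ) (i : Fin M) (P Q : ℕ → Mat M) (wt : ℕ → ℂ) (x : Mat M)
    (v : Fin M → ℂ), VL T' Λ a' 𝓤 i P Q wt x v → a' x ∉ 𝔅 → v ≠ 0 → ∃ q, η q (chart i x) v ≠ 0
  loc : ∀ x0 ∈ T', ∃ (i : Fin M) (O : Set (Mat M)) (r : ℕ) (u : Fin r → Mat M → ℂ)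
    (V : Set (Fin M → ℂ)) (H : κ → (Fin M → ℂ) × (Fin r → ℂ) → ℂ) (K : ℝ),
    IsOpen O ∧ x0 ∈ O ∧ (∀ x ∈ O, x i i ≠ 0 ∧ chart i x ∈ V) ∧ IsOpen V ∧ 0 ≤ K ∧
    (∀ q, AnalyticOnNhd ℂ (H q) (V ×ˢ univ)) ∧
    (∀ j, ContinuousOn (u j) O ∧ HLw O (u j) ∧ ∀ x ∈ O, ∀ x' ∈ O,
      ‖u j x - u j x'‖ ≤ K * ‖x - x'‖) ∧
    (∀ x ∈ O ∩ T', a' x ∉ 𝔅 → ∀ j, u j x ≠ 0) ∧
    ∀ (𝓤 : Ultrafilter ℕ) (P Q : ℕ → Mat M) (wt : ℕ → ℂ) (x : Mat M) (v : Fin M → ℂ),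
      VL T' Λ a' 𝓤 i P Q wt x v → x ∈ O → a' x ∉ 𝔅 → ∃ s : Fin r → ℂ,
      (∀ j, Tendsto (fun m => wt m * (u j (Q m) - u j (P m))) 𝓤 (𝓝 (s j))) ∧
      ∀ q, η q (chart i x) v = H q (chart i x, fun j => s j / u j x)

/-- the value of the form `η q`, with the values in the tautological line, at the limit of the
differences of the lifts -/
def Val (k : ℕ) (T' : Set (Mat M)) (Λ : AddSubgroup ℂ) (a' : Mat M → ℂ) (p : Mat M → Mat N)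
    (η : κ → (Fin M → ℂ) → (Fin M → ℂ) → ℂ) (𝓤 : Ultrafilter ℕ) (P Q : ℕ → ℂ → Mat N)
    (wt : ℕ → ℂ → ℂ) (q : κ) (l : Fin M) (t : ℂ) (y : Mat M) (θ : ℂ) : Prop :=
  ∃ (i : Fin M) (P' Q' : ℕ → Mat M) (v : Fin M → ℂ),
    VL T' Λ a' 𝓤 i P' Q' (fun m => wt m t) y v ∧
    (∀ᶠ m in (𝓤 : Filter ℕ), p (P' m) = P m t ∧ p (Q' m) = Q m t) ∧
    θ = η q (chart i y) v * chart i y l ^ k

end Pool.Agent.H918.SS
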