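import Pool.Agent.H918.E.Geo0
import Pool.Agent.H918.E.LF
import Pool.Agent.H918.D.Sab

/-! From a covering of projective sets to a covering of sets of matrices. -/

set_option autoImplicit false

open Filter Topology Metric Set LinearAlgebra.Projectivization

namespace Pool.Agent.H918.SS

open FF Pool.Agent.Y190.OP Pool.Agent.W602.GT Pool.Agent.N154.GG
open Pool.Agent.N155 (TX isCompact_TX TX_PM exists_shift nz nz_Phi)

variable {m n : ℕ}

/-- the map between the matrices -/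
noncomputable def pM (Q : Fin (n + 1) → MvPolynomial (Fin (m + 1)) ℂ) (M : Mat (m + 1)) :
    Mat (n + 1) := Phi (mapBy Q (toProj M).rep)

end Pool.Agent.H918.SS

namespace Pool.Agent.H721.SE

open FF Pool.Agent.Y190.OP Pool.Agent.W602.GT Pool.Agent.N154.GG Pool.Agent.H918.SS
open Pool.Agent.N155 (eval_smul)

variable {m n : ℕ} {ι ι' : Type} {F : ι → MvPolynomial (Fin (n + 1)) ℂ}
  {F' : ι' → MvPolynomial (Fin (m + 1)) ℂ} {L : PeriodPair}
  {α : (Fin (n + 1) → ℂ) → ℂ ⧸ L.lattice} {α' : (Fin (m + 1) → ℂ) → ℂ ⧸ L.lattice}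
  {Q : Fin (n + 1) → MvPolynomial (Fin (m + 1)) ℂ} {B : Set (ℂ ⧸ L.lattice)}

theorem mapBy_smul {e : ℕ} (hQ : ∀ j, (Q j).IsHomogeneous e) (c : ℂ) (u : Fin (m + 1) → ℂ) :
    mapBy Q (c • u) = c ^ e • mapBy Q u := by
  funext j
  change val (c • u) (Q j) = c ^ e * val u (Q j)
  rw [Pool.Agent.N155.val_eval, Pool.Agent.N155.val_eval, eval_smul (hQ j)]

theorem pM_Phi {e : ℕ} (hQ : ∀ j, (Q j).IsHomogeneous e) {u : Fin (m + 1) → ℂ} (hu : u ≠ 0) :
    pM Q (Phi u) = Phi (mapBy Q u) := by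
  unfold pM
  rw [toProj_Phi hu]
  obtain ⟨c, hc⟩ := Projectivization.exists_smul_eq_mk_rep ℂ u hu
  rw [← hc]
  have h1 : (c • u : Fin (m + 1) → ℂ) = (c : ℂ) • u := rfl
  rw [h1, mapBy_smul hQ, Phi_smul (pow_ne_zero _ c.ne_zero)]

theorem mapBy_an (Q : Fin (n + 1) → MvPolynomial (Fin (m + 1)) ℂ) (u : Fin (m + 1) → ℂ) :
    AnalyticAt ℂ (mapBy Q) u := by
  have h1 : ∀ j, AnalyticAt ℂ (fun x : Fin (m + 1) → ℂ => MvPolynomial.aeval x (Q j)) u := by
    intro j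
    exact AnalyticAt.aeval_mvPolynomial (f := fun x : Fin (m + 1) → ℂ => x)
      (fun i => (ContinuousLinearMap.proj (R := ℂ) (φ := fun _ : Fin (m + 1) => ℂ) i).analyticAt u)
      (Q j)
  have h2 : mapBy Q = fun x : Fin (m + 1) → ℂ => fun j => MvPolynomial.aeval x (Q j) := by
    funext x j
    rfl
  rw [h2]
  exact AnalyticAt.pi h1

theorem pM_eq (hF' : ∀ i, IsForm (F' i)) {e : ℕ} (hQ : ∀ j, (Q j).IsHomogeneous e)
    {M : Mat (m + 1)} (hM : M ∈ TF F') {i : Fin (m + 1)} (hi : M i i ≠ 0) :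
    pM Q M = Phi (mapBy Q (chart i M)) := by
  have h1 := pM_Phi hQ (chart_coneF hF' hM hi).1
  rwa [PM.Phi_chart (TF_PM hM) hi] at h1

theorem g_cd {M0 : Mat (m + 1)} {i : Fin (m + 1)} (hi : M0 i i ≠ 0)
    (h0 : mapBy Q (chart i M0) ≠ 0) :
    ContDiffAt ℝ 1 (fun M : Mat (m + 1) => Phi (mapBy Q (chart i M))) M0 := by
  have h1 : ContDiffAt ℝ 1 (mapBy Q) (chart i M0) :=
    ((mapBy_an Q (chart i M0)).contDiffAt (n := 1)).restrict_scalars ℝ
  have h2 : ContDiffAt ℝ 1 (fun M : Mat (m + 1) => mapBy Q (chart i M)) M0 :=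
    h1.comp M0 (contDiffAt_chart hi)
  exact ContDiffAt.comp (g := Phi) M0 (contDiffAt_Phi h0) h2

theorem not_BB (hα : HolToTorus (Cone F) L α) {u : Fin (n + 1) → ℂ} (hu : u ∈ Cone F)
    (hb : aM L α F (Phi u) ∉ BB L B) : α u ∉ B := by
  intro h
  apply hb
  change (Submodule.Quotient.mk _ : ℂ ⧸ L.lattice) ∈ B
  rw [aM_Phi hα hu]
  exact h

theorem e_ne (hF' : ∀ i, IsForm (F' i)) {e : ℕ} (hQ : ∀ j, (Q j).IsHomogeneous e)
    {x : Fin (m + 1) → ℂ} (hx : x ∈ Cone F') {σ : (Fin (n + 1) → ℂ) → Fin (m + 1) → ℂ}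
    (h : ∀ᶠ u in 𝓝 x, u ∈ Cone F' → σ (mapBy Q u) = u) : e ≠ 0 := by
  rintro rfl
  have h1 : Tendsto (fun t : ℂ => t • x) (𝓝 1) (𝓝 x) := by
    have h0 : ContinuousAt (fun t : ℂ => t • x) 1 := by fun_prop
    have h1 := h0.tendsto
    simp only [one_smul] at h1
    exact h1
  have h2 : ∀ᶠ t : ℂ in 𝓝 1, t • x ∈ Cone F' → σ (mapBy Q (t • x)) = t • x := h1.eventually h
  have h3 : ∀ᶠ t : ℂ in 𝓝 1, t ≠ 0 := continuousAt_id.eventually_ne one_ne_zero
  obtain ⟨t, ⟨h4, h5⟩, h6⟩ := (((h2.and h3).filter_mono nhdsWithin_le_nhds).and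
    (self_mem_nhdsWithin : {t : ℂ | t ≠ 1} ∈ 𝓝[≠] (1 : ℂ))).exists
  have h7 := h4 (cone_smulF hF' hx h5)
  have h8 := h.self_of_nhds hx
  rw [mapBy_smul hQ, pow_zero, one_smul, h8] at h7
  have h9 : (t - 1) • x = 0 := by
    rw [sub_smul, one_smul, ← h7, sub_self]
  rcases smul_eq_zero.1 h9 with h10 | h10
  · exact h6 (sub_eq_zero.1 h10)
  · exact hx.1 h10

end Pool.Agent.H721.SE

namespace Pool.Agent.H918.SS

open FF Pool.Agent.Y190.OP Pool.Agent.W602.GT Pool.Agent.N154.GG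
open Pool.Agent.N155 (TX isCompact_TX TX_PM exists_shift nz nz_Phi)

variable {m n : ℕ} {ι ι' : Type} {F : ι → MvPolynomial (Fin (n + 1)) ℂ}
  {F' : ι' → MvPolynomial (Fin (m + 1)) ℂ} {L : PeriodPair}
  {α : (Fin (n + 1) → ℂ) → ℂ ⧸ L.lattice} {α' : (Fin (m + 1) → ℂ) → ℂ ⧸ L.lattice}
  {Q : Fin (n + 1) → MvPolynomial (Fin (m + 1)) ℂ} {B : Set (ℂ ⧸ L.lattice)}

/-- COVG -/
theorem cov_of (hF : ∀ i, IsForm (F i)) (hα : HolToTorus (Cone F) L α) (hF' : ∀ i, IsForm (F' i))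
    (hα' : HolToTorus (Cone F') L α') (hB : B.Finite) (hC : CoveringOff F F' α α' B Q) :
    Cov (TF F) (La L) (aM L α F) (TF F') (aM L α' F') (BB L B) (pM Q) := by
  obtain ⟨e, he⟩ := hC.form
  constructor
  · -- map
    rintro _ ⟨u, hu, rfl⟩
    rw [Pool.Agent.H721.SE.pM_Phi he hu.1]
    exact ⟨_, (hC.map u hu).1, rfl⟩
  · -- cont
    intro M0 hM0
    obtain ⟨i, hi⟩ := PM.exists_diag (TF_PM hM0)
    have h0 : mapBy Q (chart i M0) ≠ 0 := (hC.map _ (chart_coneF hF' hM0 hi)).1.1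
    have h1 := (Pool.Agent.H721.SE.g_cd (Q := Q) hi h0).continuousAt
    have h2 : ∀ᶠ M : Mat (m + 1) in 𝓝[TF F'] M0,
        pM Q M = Phi (mapBy Q (chart i M)) := by
      have h3 : ∀ᶠ M : Mat (m + 1) in 𝓝 M0, M i i ≠ 0 :=
        (continuous_apply_apply i i).continuousAt.eventually_ne hi
      filter_upwards [h3.filter_mono nhdsWithin_le_nhds, self_mem_nhdsWithin] with M h4 h5
      exact Pool.Agent.H721.SE.pM_eq hF' he h5 h4
    exact h1.continuousWithinAt.congr_of_eventuallyEq h2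
      (Pool.Agent.H721.SE.pM_eq hF' he hM0 hi)
  · -- ovr
    rintro _ ⟨u, hu, rfl⟩
    rw [Pool.Agent.H721.SE.pM_Phi he hu.1, mem_La_iff, aM_Phi hα' hu, aM_Phi hα (hC.map u hu).1]
    exact (hC.map u hu).2.symm
  · -- surj
    rintro _ ⟨u, hu, rfl⟩ hb
    obtain ⟨x, hx, c, hc⟩ := hC.onto u hu (Pool.Agent.H721.SE.not_BB hα hu hb)
    have hc0 : c ≠ 0 := by
      rintro rfl
      rw [zero_smul] at hc
      exact (hC.map x hx).1.1 hc
    exact ⟨Phi x, ⟨x, hx, rfl⟩, by rw [Pool.Agent.H721.SE.pM_Phi he hx.1, hc, Phi_smul hc0]⟩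
  · -- fin
    obtain ⟨k, hk⟩ := hC.sheets
    refine ⟨k, ?_⟩
    rintro _ ⟨u, hu, rfl⟩ hb
    refine le_trans ?_ (hk u hu (Pool.Agent.H721.SE.not_BB hα hu hb))
    refine Set.encard_le_encard_of_injOn (f := toProj) ?_ ?_
    · rintro x ⟨hx, hxu⟩
      have h1 := rep_toProjF hF' hx
      have h2 : pM Q x = Phi (mapBy Q (toProj x).rep) := rfl
      rw [h2] at hxu
      obtain ⟨c, -, hc⟩ := Phi_inj hu.1 (hC.map _ h1).1.1 hxu.symm
      exact ⟨h1, c, hc⟩
    · intro x hx x' hx' h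
      have h1 := Phi_rep_toProj (TF_PM hx.1)
      have h2 := Phi_rep_toProj (TF_PM hx'.1)
      rw [← h1, ← h2, h]
  · -- loc
    intro x0 hx0 hb
    obtain ⟨i, hi⟩ := PM.exists_diag (TF_PM hx0)
    have hx : chart i x0 ∈ Cone F' := chart_coneF hF' hx0 hi
    have hb' : α' (chart i x0) ∉ B := by
      apply Pool.Agent.H721.SE.not_BB hα' hx
      rwa [PM.Phi_chart (TF_PM hx0) hi]
    obtain ⟨σ0, hσa, hσ1, hσ2⟩ := hC.unram _ hx hb'
    have hex : e ≠ 0 := Pool.Agent.H721.SE.e_ne hF' he hx hσ2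
    have hW : mapBy Q (chart i x0) ∈ Cone F := (hC.map _ hx).1
    obtain ⟨j, hj⟩ := Function.ne_iff.1 hW.1
    have hj' : mapBy Q (chart i x0) j ≠ 0 := hj
    obtain ⟨s, hs⟩ : ∃ s, s = mapBy Q (chart i x0) j := ⟨_, rfl⟩
    have hs0 : s ≠ 0 := hs ▸ hj'
    have hσW : σ0 (mapBy Q (chart i x0)) = chart i x0 := hσ2.self_of_nhds hx
    have hy0 : pM Q x0 = Phi (mapBy Q (chart i x0)) := Pool.Agent.H721.SE.pM_eq hF' he hx0 hi
    have hyj : pM Q x0 j j ≠ 0 := by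
      rw [hy0]
      exact (Phi_diag_ne hW.1).2 hj'
    have hτ0 : s • chart j (pM Q x0) = mapBy Q (chart i x0) := by
      rw [hy0, chart_Phi hW.1 hj', ← hs, smul_smul, mul_inv_cancel₀ hs0, one_smul]
    -- the map `τ`
    have hτc : ContDiffAt ℝ 1 (fun y : Mat (n + 1) => s • chart j y) (pM Q x0) :=
      (contDiffAt_chart hyj).const_smul s
    have hσc : ContDiffAt ℝ 1 (fun y : Mat (n + 1) => Phi (σ0 (s • chart j y))) (pM Q x0) := by
      have h1 : ContDiffAt ℝ 1 σ0 (s • chart j (pM Q x0)) := by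
        rw [hτ0]
        exact (hσa.contDiffAt (n := 1)).restrict_scalars ℝ
      have h2 : ContDiffAt ℝ 1 (fun y : Mat (n + 1) => σ0 (s • chart j y)) (pM Q x0) :=
        ContDiffAt.comp (g := σ0) (pM Q x0) h1 hτc
      refine ContDiffAt.comp (g := Phi) (pM Q x0) (contDiffAt_Phi ?_) h2
      rw [hτ0, hσW]
      exact hx.1
    obtain ⟨K1, t1, ht1, hK1⟩ := hσc.exists_lipschitzOnWith
    have hgc := Pool.Agent.H721.SE.g_cd (Q := Q) hi hW.1
    obtain ⟨K2, t2, ht2, hK2⟩ := hgc.exists_lipschitzOnWith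
    -- the set `O`
    have hOe : ∀ᶠ y : Mat (n + 1) in 𝓝 (pM Q x0), y j j ≠ 0 ∧
        (s • chart j y ∈ Cone F → σ0 (s • chart j y) ∈ Cone F' ∧
          mapBy Q (σ0 (s • chart j y)) = s • chart j y) ∧ AnalyticAt ℂ σ0 (s • chart j y) ∧
        y ∈ t1 := by
      have h1 : ∀ᶠ y : Mat (n + 1) in 𝓝 (pM Q x0), y j j ≠ 0 :=
        (continuous_apply_apply j j).continuousAt.eventually_ne hyj
      have hτt : Tendsto (fun y : Mat (n + 1) => s • chart j y) (𝓝 (pM Q x0))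
          (𝓝 (mapBy Q (chart i x0))) := by
        have h := hτc.continuousAt.tendsto
        change Tendsto _ _ (𝓝 (s • chart j (pM Q x0))) at h
        rwa [hτ0] at h
      have h2 : ∀ᶠ y : Mat (n + 1) in 𝓝 (pM Q x0), (s • chart j y ∈ Cone F →
          σ0 (s • chart j y) ∈ Cone F' ∧
          mapBy Q (σ0 (s • chart j y)) = s • chart j y) := hτt.eventually hσ1
      have h3 : ∀ᶠ y : Mat (n + 1) in 𝓝 (pM Q x0), AnalyticAt ℂ σ0 (s • chart j y) :=
        hτt.eventually hσa.eventually_analyticAt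
      filter_upwards [h1, h2, h3, ht1] with y h4 h5 h6 h7
      exact ⟨h4, h5, h6, h7⟩
    obtain ⟨O, hOs, hO, hyO⟩ := _root_.mem_nhds_iff.1 hOe
    -- the function `lam`
    obtain ⟨lam, hlam⟩ : ∃ lam : Mat (m + 1) → ℂ, lam = fun M =>
        (s / mapBy Q (chart i M) j) ^ ((e : ℂ)⁻¹) := ⟨_, rfl⟩
    have hwc : ContinuousAt (fun M : Mat (m + 1) => mapBy Q (chart i M)) x0 :=
      ContinuousAt.comp (g := mapBy Q) (Pool.Agent.H721.SE.mapBy_an Q (chart i x0)).continuousAt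
        (continuousAt_chart hi)
    have hwjc : ContinuousAt (fun M : Mat (m + 1) => mapBy Q (chart i M) j) x0 :=
      (continuousAt_pi.1 hwc) j
    have hlam0 : lam x0 = 1 := by
      rw [hlam]
      change (s / mapBy Q (chart i x0) j) ^ ((e : ℂ)⁻¹) = 1
      rw [← hs, div_self hs0, Complex.one_cpow]
    have hlamc : ContinuousAt lam x0 := by
      have h1 : ContinuousAt (fun M : Mat (m + 1) => s / mapBy Q (chart i M) j) x0 :=
        continuousAt_const.div hwjc hj'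
      have h2 : ContinuousAt (fun z : ℂ => z ^ ((e : ℂ)⁻¹)) (s / mapBy Q (chart i x0) j) := by
        rw [← hs, div_self hs0]
        exact continuousAt_cpow_const Complex.one_mem_slitPlane
      rw [hlam]
      exact ContinuousAt.comp (g := fun z : ℂ => z ^ ((e : ℂ)⁻¹)) h2 h1
    have hvc : ContinuousAt (fun M : Mat (m + 1) => lam M • chart i M) x0 :=
      hlamc.smul (continuousAt_chart hi)
    have hOe' : ∀ᶠ M : Mat (m + 1) in 𝓝 x0, M i i ≠ 0 ∧ M ∈ t2 ∧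
        Phi (mapBy Q (chart i M)) ∈ O ∧ mapBy Q (chart i M) j ≠ 0 ∧ lam M ≠ 0 ∧
        (lam M • chart i M ∈ Cone F' → σ0 (mapBy Q (lam M • chart i M)) = lam M • chart i M) := by
      have h1 : ∀ᶠ M : Mat (m + 1) in 𝓝 x0, M i i ≠ 0 :=
        (continuous_apply_apply i i).continuousAt.eventually_ne hi
      have h2 : ∀ᶠ M : Mat (m + 1) in 𝓝 x0, Phi (mapBy Q (chart i M)) ∈ O := by
        have h := hgc.continuousAt.tendsto
        change Tendsto _ _ (𝓝 (Phi (mapBy Q (chart i x0)))) at h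
        rw [← hy0] at h
        exact h.eventually (hO.mem_nhds hyO)
      have h3 : ∀ᶠ M : Mat (m + 1) in 𝓝 x0, mapBy Q (chart i M) j ≠ 0 :=
        hwjc.eventually_ne hj'
      have h4 : ∀ᶠ M : Mat (m + 1) in 𝓝 x0, lam M ≠ 0 := by
        apply hlamc.eventually_ne
        rw [hlam0]
        exact one_ne_zero
      have h5 : ∀ᶠ M : Mat (m + 1) in 𝓝 x0, (lam M • chart i M ∈ Cone F' →
          σ0 (mapBy Q (lam M • chart i M)) = lam M • chart i M) := by
        have h := hvc.tendsto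
        change Tendsto _ _ (𝓝 (lam x0 • chart i x0)) at h
        rw [hlam0, one_smul] at h
        exact h.eventually hσ2
      filter_upwards [h1, ht2, h2, h3, h4, h5] with M g1 g2 g3 g4 g5 g6
      exact ⟨g1, g2, g3, g4, g5, g6⟩
    obtain ⟨O', hOs', hO', hxO'⟩ := _root_.mem_nhds_iff.1 hOe'
    have hsec : ∀ y ∈ O ∩ TF F, σ0 (s • chart j y) ∈ Cone F' ∧
        mapBy Q (σ0 (s • chart j y)) = s • chart j y := by
      rintro y ⟨hy, hyT⟩
      obtain ⟨h1, h2, h3, h4⟩ := hOs hy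
      exact h2 (cone_smulF hF (chart_coneF hF hyT h1) hs0)
    refine ⟨O, O', fun y => Phi (σ0 (s • chart j y)), max (K1 : ℝ) (K2 : ℝ), hO, hO', hyO, hxO',
      le_max_of_le_left K1.2, ?_, ?_, ?_, ?_, ?_⟩
    · intro y hy y' hy'
      have h1 := hK1.dist_le_mul y (hOs hy.1).2.2.2 y' (hOs hy'.1).2.2.2
      rw [dist_eq_norm, dist_eq_norm] at h1
      exact h1.trans (mul_le_mul_of_nonneg_right (le_max_left _ _) (norm_nonneg _))
    · intro y hy
      obtain ⟨h1, h2⟩ := hsec y hy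
      refine ⟨⟨_, h1, rfl⟩, ?_⟩
      change pM Q (Phi (σ0 (s • chart j y))) = y
      rw [Pool.Agent.H721.SE.pM_Phi he h1.1, h2, Phi_smul hs0,
        PM.Phi_chart (TF_PM hy.2) (hOs hy.1).1]
    · rintro M ⟨hM, hMT⟩
      obtain ⟨g1, g2, g3, g4, g5, g6⟩ := hOs' hM
      have h1 : chart i M ∈ Cone F' := chart_coneF hF' hMT g1
      have h2 := Pool.Agent.H721.SE.pM_eq hF' he hMT g1 (Q := Q)
      have h3 : mapBy Q (chart i M) ∈ Cone F := (hC.map _ h1).1
      refine ⟨by rw [h2]; exact g3, ?_⟩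
      change Phi (σ0 (s • chart j (pM Q M))) = M
      have h4 : s • chart j (pM Q M) = mapBy Q (lam M • chart i M) := by
        rw [h2, chart_Phi h3.1 g4, Pool.Agent.H721.SE.mapBy_smul he, smul_smul]
        have h5 : lam M ^ e = s * (mapBy Q (chart i M) j)⁻¹ := by
          rw [hlam]
          change ((s / mapBy Q (chart i M) j) ^ ((e : ℂ)⁻¹)) ^ e = _
          rw [Complex.cpow_nat_inv_pow _ hex, div_eq_mul_inv]
        rw [h5]
      rw [h4, g6 (cone_smulF hF' h1 g5), Phi_smul g5, PM.Phi_chart (TF_PM hMT) g1]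
    · intro U P hU hP hPO z hz
      refine ⟨U, fun z => σ0 (s • chart j (P z)), hU, hz, ?_, fun w hw => ⟨?_, rfl⟩⟩
      · intro w hw
        obtain ⟨h1, h2, h3, h4⟩ := hOs (hPO w hw).1
        have h5 : DifferentiableAt ℂ (fun w => s • chart j (P w)) w :=
          (hP.diff_chart hw h1).const_smul s
        exact (DifferentiableAt.comp (g := σ0) w h3.differentiableAt h5).differentiableWithinAt
      · exact (hsec _ (hPO w hw)).1.1
    · intro M hM M' hM'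
      have h1 := hK2.dist_le_mul M (hOs' hM.1).2.1 M' (hOs' hM'.1).2.1
      rw [dist_eq_norm, dist_eq_norm] at h1
      have h2 := Pool.Agent.H721.SE.pM_eq hF' he hM.2 (hOs' hM.1).1 (Q := Q)
      have h3 := Pool.Agent.H721.SE.pM_eq hF' he hM'.2 (hOs' hM'.1).1 (Q := Q)
      rw [h2, h3]
      exact h1.trans (mul_le_mul_of_nonneg_right (le_max_right _ _) (norm_nonneg _))

end Pool.Agent.H918.SS
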