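import Pool.Agent.H918.E.Geo0
import Pool.Agent.H918.E.LF
import Pool.Agent.H918.D.Sab

/-! From relative forms on a projective set to abstract logarithmic forms. -/

set_option autoImplicit false

open Filter Topology Metric Set LinearAlgebra.Projectivization

namespace Pool.Agent.H918.SS

open FF Pool.Agent.Y190.OP Pool.Agent.W602.GT Pool.Agent.N154.GG
open Pool.Agent.N155 (TX isCompact_TX TX_PM exists_shift nz nz_Phi)

variable {m n : ℕ} {ι ι' : Type} {F : ι → MvPolynomial (Fin (n + 1)) ℂ}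
  {F' : ι' → MvPolynomial (Fin (m + 1)) ℂ} {L : PeriodPair}
  {α : (Fin (n + 1) → ℂ) → ℂ ⧸ L.lattice} {α' : (Fin (m + 1) → ℂ) → ℂ ⧸ L.lattice}
  {Q : Fin (n + 1) → MvPolynomial (Fin (m + 1)) ℂ} {κ : Type}
  {η : κ → (Fin (m + 1) → ℂ) → (Fin (m + 1) → ℂ) → ℂ} {B : Set (ℂ ⧸ L.lattice)}

namespace H539

/-- limits of pairs of points in the same good fibre are tangent vectors of vertical germs -/
theorem key {d : ℕ} (hF' : ∀ i, IsForm (F' i)) (hα' : HolToTorus (Cone F') L α')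
    (hsm : ∀ x ∈ Cone F', α' x ∉ B → SmoothFamilyAt (Cone F') L α' d x)
    {𝓤 : Ultrafilter ℕ} {i : Fin (m + 1)} {P Q : ℕ → Mat (m + 1)} {wt : ℕ → ℂ}
    {x : Mat (m + 1)} {v : Fin (m + 1) → ℂ}
    (h : VL (TF F') (La L) (aM L α' F') 𝓤 i P Q wt x v) (hx : aM L α' F' x ∉ BB L B) :
    ∃ c : ℂ → Fin (m + 1) → ℂ, VerticalGerm (Cone F') α' c ∧ c 0 = chart i x ∧ α' (c 0) ∉ B ∧
      HasDerivAt c v 0 := by
  have hxi := h.nz
  have hX := chart_coneF hF' h.mem hxi
  have hαx : α' (chart i x) ∉ B := by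
    rw [← aM_chartF hF' hα' h.mem hxi]
    exact hx
  obtain ⟨i0, J, w, U, Ψ, hi0, hw, hU, hz0, hΨ, hΨX, hev⟩ := hsm _ hX hαx
  have hx1 : chart i x i = 1 := PM.chart_self hxi
  set x0 := chart i x with hx0
  have hp : Tendsto (fun k => chart i (P k)) 𝓤 (𝓝 x0) :=
    (continuousAt_chart hxi).tendsto.comp h.cP
  have hq : Tendsto (fun k => chart i (Q k)) 𝓤 (𝓝 x0) :=
    (continuousAt_chart hxi).tendsto.comp h.cQ
  -- the coordinates
  set Z : (Fin (m + 1) → ℂ) → ℂ × (Fin d → ℂ) := fun u => (w u, fun k => u (J k) / u i0) with hZd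
  have hpr : ∀ j, AnalyticAt ℂ (fun u : Fin (m + 1) → ℂ => u j) x0 := fun j =>
    (ContinuousLinearMap.proj (R := ℂ) (φ := fun _ : Fin (m + 1) => ℂ) j).analyticAt x0
  have hξ : AnalyticAt ℂ (fun (u : Fin (m + 1) → ℂ) (k : Fin d) => u (J k) / u i0) x0 := by
    rw [analyticAt_pi_iff]
    intro k
    exact (hpr (J k)).div (hpr i0) hi0
  have hZ : AnalyticAt ℂ Z x0 := hw.prod hξ
  have hZ0 : Z x0 ∈ U := hz0
  have hnear : ∀ᶠ u in 𝓝 x0, u i0 ≠ 0 ∧ Z u ∈ U ∧ (u ∈ Cone F' → u = u i0 • Ψ (Z u)) :=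
    ((continuous_apply i0).continuousAt.eventually_ne hi0).and
      ((hZ.continuousAt.eventually (hU.mem_nhds hZ0)).and hev)
  have hPi : ∀ᶠ k in (𝓤 : Filter ℕ), P k i i ≠ 0 :=
    ((continuous_apply_apply (ρ := fun (_ : Fin (m + 1)) (_ : Fin (m + 1)) => ℂ) i
      i).continuousAt.tendsto.comp h.cP).eventually_ne hxi
  have hQi : ∀ᶠ k in (𝓤 : Filter ℕ), Q k i i ≠ 0 :=
    ((continuous_apply_apply (ρ := fun (_ : Fin (m + 1)) (_ : Fin (m + 1)) => ℂ) i
      i).continuousAt.tendsto.comp h.cQ).eventually_ne hxi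
  have hαw : ∀ u, u i0 ≠ 0 → Z u ∈ U → u = u i0 • Ψ (Z u) →
      α' u = Submodule.Quotient.mk (w u) := by
    intro u h1 h2 h4
    obtain ⟨e1, e2, e3, e4⟩ := hΨX _ h2
    have h5 := hα'.homog _ e1 (u i0) h1
    rw [← h4] at h5
    rw [h5, e4]
  have hweq : ∀ᶠ k in (𝓤 : Filter ℕ), w (chart i (P k)) = w (chart i (Q k)) := by
    obtain ⟨δ, hδ, hd⟩ := (tdF hF' hα').disc
    have h1 : Tendsto (fun k => w (chart i (P k)) - w (chart i (Q k))) 𝓤 (𝓝 (w x0 - w x0)) :=
      (hw.continuousAt.tendsto.comp hp).sub (hw.continuousAt.tendsto.comp hq)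
    rw [sub_self] at h1
    have h2 : ∀ᶠ k in (𝓤 : Filter ℕ), ‖w (chart i (P k)) - w (chart i (Q k))‖ < δ := by
      have := h1.norm
      rw [norm_zero] at this
      exact this.eventually_lt_const hδ
    filter_upwards [h2, hPi, hQi, h.hP, hp.eventually hnear, hq.eventually hnear] with
      k h3 h4 h5 h6 h7 h8
    have c1 := chart_coneF hF' h6.1 h4
    have c2 := chart_coneF hF' h6.2.1 h5
    have e1 := hαw _ h7.1 h7.2.1 (h7.2.2 c1)
    have e2 := hαw _ h8.1 h8.2.1 (h8.2.2 c2)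
    have e3 := mem_La_iff.1 h6.2.2
    rw [aM_chartF hF' hα' h6.1 h4, aM_chartF hF' hα' h6.2.1 h5, e1, e2] at e3
    exact sub_eq_zero.1 (hd _ (mem_La_iff.2 e3) h3)
  -- the parametrization in the chart `i`
  have hΨi : ∀ u : Fin (m + 1) → ℂ, u i = 1 → u = u i0 • Ψ (Z u) →
      Ψ (Z u) i ≠ 0 ∧ (Ψ (Z u) i)⁻¹ • Ψ (Z u) = u := by
    intro u h1 h2
    have h3 : u i0 * Ψ (Z u) i = 1 := by
      have := congrFun h2 i
      rw [h1, Pi.smul_apply, smul_eq_mul] at this
      exact this.symm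
    have h4 : Ψ (Z u) i ≠ 0 := right_ne_zero_of_mul (h3 ▸ one_ne_zero)
    refine ⟨h4, ?_⟩
    have h5 : (Ψ (Z u) i)⁻¹ = u i0 := (eq_inv_of_mul_eq_one_left h3).symm
    rw [h5]
    exact h2.symm
  have hx0e := hev.self_of_nhds hX
  obtain ⟨hne, hT0⟩ := hΨi x0 hx1 hx0e
  set T : ℂ × (Fin d → ℂ) → Fin (m + 1) → ℂ := fun z => (Ψ z i)⁻¹ • Ψ z with hTd
  have hΨa : AnalyticAt ℂ (fun z => Ψ z i) (Z x0) := (analyticAt_pi_iff.1 (hΨ _ hZ0)) i
  have hT : AnalyticAt ℂ T (Z x0) := (hΨa.inv hne).smul (hΨ _ hZ0)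
  -- the limits
  have hZs := hZ.hasStrictFDerivAt
  have hTs := hT.hasStrictFDerivAt
  have l1 := strict_lim hZs hp hq h.lim
  set b := fderiv ℂ Z x0 v with hb
  have l2 := strict_lim hTs (hZ.continuousAt.tendsto.comp hp) (hZ.continuousAt.tendsto.comp hq) l1
  have hpe : ∀ᶠ k in (𝓤 : Filter ℕ), T (Z (chart i (P k))) = chart i (P k) := by
    filter_upwards [hPi, h.hP, hp.eventually hnear] with k h4 h6 h7
    exact (hΨi _ (PM.chart_self h4) (h7.2.2 (chart_coneF hF' h6.1 h4))).2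
  have hqe : ∀ᶠ k in (𝓤 : Filter ℕ), T (Z (chart i (Q k))) = chart i (Q k) := by
    filter_upwards [hQi, h.hP, hq.eventually hnear] with k h4 h6 h7
    exact (hΨi _ (PM.chart_self h4) (h7.2.2 (chart_coneF hF' h6.2.1 h4))).2
  have hv : fderiv ℂ T (Z x0) b = v := by
    refine tendsto_nhds_unique l2 (h.lim.congr' ?_)
    filter_upwards [hpe, hqe] with k h1 h2
    simp only [Function.comp_apply]
    rw [h1, h2]
  have hb1 : b.1 = 0 := by
    have l3 : Tendsto (fun k => (wt k • (Z (chart i (Q k)) - Z (chart i (P k)))).1) 𝓤 (𝓝 b.1) :=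
      (continuous_fst.tendsto b).comp l1
    refine tendsto_nhds_unique l3 (Tendsto.congr' ?_ tendsto_const_nhds)
    filter_upwards [hweq] with k hk
    change (0 : ℂ) = wt k * (w (chart i (Q k)) - w (chart i (P k)))
    rw [hk, sub_self, mul_zero]
  -- the curve
  have hline : HasDerivAt (fun s : ℂ => Z x0 + s • b) b 0 := by
    have h1 : HasDerivAt (fun s : ℂ => s • b) ((1 : ℂ) • b) 0 := (hasDerivAt_id (0 : ℂ)).smul_const b
    rw [one_smul] at h1
    exact h1.const_add (Z x0)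
  have h00 : Z x0 + (0 : ℂ) • b = Z x0 := by rw [zero_smul, add_zero]
  have hlan : AnalyticAt ℂ (fun s : ℂ => Z x0 + s • b) 0 :=
    analyticAt_const.add (analyticAt_id.smul analyticAt_const)
  have hder : HasDerivAt (fun s : ℂ => T (Z x0 + s • b)) v 0 := by
    have h1 : HasFDerivAt T (fderiv ℂ T (Z x0)) (Z x0 + (0 : ℂ) • b) := by
      rw [h00]
      exact hTs.hasFDerivAt
    have h2 := h1.comp_hasDerivAt (0 : ℂ) hline
    rw [hv] at h2
    exact h2
  have hc0 : T (Z x0 + (0 : ℂ) • b) = x0 := by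
    rw [h00]
    exact hT0
  have hcont : ContinuousAt (fun s : ℂ => Z x0 + s • b) 0 := hlan.continuousAt
  have hsU : ∀ᶠ s in 𝓝 (0 : ℂ), Z x0 + s • b ∈ U ∧ Ψ (Z x0 + s • b) i ≠ 0 := by
    have h1 : ∀ᶠ z in 𝓝 (Z x0), z ∈ U ∧ Ψ z i ≠ 0 := by
      filter_upwards [hU.mem_nhds hZ0, hΨa.continuousAt.eventually_ne hne] with z h2 h3
      exact ⟨h2, h3⟩
    have h2 : Tendsto (fun s : ℂ => Z x0 + s • b) (𝓝 0) (𝓝 (Z x0)) := by
      have := hcont.tendsto
      rwa [h00] at this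
    exact h2.eventually h1
  have hval : ∀ s : ℂ, Z x0 + s • b ∈ U → Ψ (Z x0 + s • b) i ≠ 0 →
      T (Z x0 + s • b) ∈ Cone F' ∧ α' (T (Z x0 + s • b)) = Submodule.Quotient.mk (w x0) := by
    intro s h1 h2
    obtain ⟨e1, e2, e3, e4⟩ := hΨX _ h1
    refine ⟨cone_smulF hF' e1 (inv_ne_zero h2), ?_⟩
    have h3 := hα'.homog _ e1 _ (inv_ne_zero h2)
    have h4 : (Z x0 + s • b).1 = w x0 := by
      change w x0 + s * b.1 = w x0
      rw [hb1, mul_zero, add_zero]
    rw [h4] at e4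
    rw [← e4]
    exact h3
  refine ⟨fun s => T (Z x0 + s • b), ⟨?_, ?_⟩, hc0, ?_, hder⟩
  · have h1 : AnalyticAt ℂ T (Z x0 + (0 : ℂ) • b) := by
      rw [h00]
      exact hT
    exact AnalyticAt.fun_comp (g := T) h1 hlan
  · obtain ⟨e1, e2⟩ := hsU.self_of_nhds
    filter_upwards [hsU] with s hs
    refine ⟨(hval s hs.1 hs.2).1, ?_⟩
    rw [(hval s hs.1 hs.2).2, (hval 0 e1 e2).2]
  · change α' (T (Z x0 + (0 : ℂ) • b)) ∉ B
    rw [hc0]
    exact hαx

end H539

/-- LFG -/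
theorem lf_of {d k : ℕ} (hF' : ∀ i, IsForm (F' i)) (hα' : HolToTorus (Cone F') L α')
    (hsm : ∀ x ∈ Cone F', α' x ∉ B → SmoothFamilyAt (Cone F') L α' d x)
    (hη : RelativeForms k (Cone F') α' B η) :
    LF k (TF F') (La L) (aM L α' F') (BB L B) η where
  homog := fun x hx i hi q v c e hc => hη.twist q _ (chart_coneF hF' hx hi) v c e hc
  pos := by
    intro 𝓤 i P Q wt x v h hx hv
    obtain ⟨c, hc, hc0, hcB, hcv⟩ := H539.key hF' hα' hsm h hx
    have hvi : v i = 0 := by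
      have h1 : Tendsto (fun k => (wt k • (chart i (Q k) - chart i (P k))) i) 𝓤 (𝓝 (v i)) :=
        ((continuous_apply i).tendsto v).comp h.lim
      have hPi : ∀ᶠ k in (𝓤 : Filter ℕ), P k i i ≠ 0 :=
        ((continuous_apply_apply (ρ := fun (_ : Fin (m + 1)) (_ : Fin (m + 1)) => ℂ) i
          i).continuousAt.tendsto.comp h.cP).eventually_ne h.nz
      have hQi : ∀ᶠ k in (𝓤 : Filter ℕ), Q k i i ≠ 0 :=
        ((continuous_apply_apply (ρ := fun (_ : Fin (m + 1)) (_ : Fin (m + 1)) => ℂ) i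
          i).continuousAt.tendsto.comp h.cQ).eventually_ne h.nz
      refine tendsto_nhds_unique h1 (Tendsto.congr' ?_ tendsto_const_nhds)
      filter_upwards [hPi, hQi] with k h2 h3
      rw [Pi.smul_apply, Pi.sub_apply, PM.chart_self h2, PM.chart_self h3, sub_self, smul_zero]
    have hli : LinearIndependent ℂ ![c 0, deriv c 0] := by
      rw [hc0, hcv.deriv, LinearIndependent.pair_iff]
      intro s t hst
      have h1 := congrFun hst i
      rw [Pi.add_apply, Pi.smul_apply, Pi.smul_apply, hvi, PM.chart_self h.nz, smul_eq_mul,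
        smul_eq_mul, mul_one, mul_zero, add_zero, Pi.zero_apply] at h1
      rw [h1, zero_smul, zero_add] at hst
      exact ⟨h1, (smul_eq_zero.1 hst).resolve_right hv⟩
    obtain ⟨q, hq⟩ := hη.pos c hc hcB hli
    refine ⟨q, ?_⟩
    rwa [hc0, hcv.deriv] at hq
  loc := by
    intro M0 hM0
    obtain ⟨i, hi⟩ := PM.exists_diag (TF_PM hM0)
    obtain ⟨r, u, V, H, hV, hMV, hu, hH, hune, hform⟩ := hη.log _ (chart_coneF hF' hM0 hi)
    -- Lipschitz functions
    have hC : ∀ j, ContDiffAt ℝ 1 (fun M : Mat (m + 1) => u j (chart i M)) M0 := by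
      intro j
      have h3 : ContDiffAt ℝ 1 (u j) (chart i M0) :=
        (((hu j) _ hMV).contDiffAt (n := 1)).restrict_scalars ℝ
      exact h3.comp M0 (contDiffAt_chart hi)
    choose K s hs hK using fun j => (hC j).exists_lipschitzOnWith
    have h2 : ∀ᶠ M : Mat (m + 1) in 𝓝 M0, (M i i ≠ 0 ∧ chart i M ∈ V) ∧ ∀ j, M ∈ s j :=
      (((continuous_apply_apply i i).continuousAt.eventually_ne hi).and
        ((continuousAt_chart hi).eventually (hV.mem_nhds hMV))).and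
        (eventually_all.2 hs)
    obtain ⟨O, hOs, hO, hMO⟩ := _root_.mem_nhds_iff.1 h2
    refine ⟨i, O, r, fun j M => u j (chart i M), V, H, ∑ j, (K j : ℝ), hO, hMO,
      fun x hx => (hOs hx).1, hV, by positivity, hH, fun j => ⟨?_, ?_, ?_⟩, ?_, ?_⟩
    · intro M hM
      exact (ContinuousAt.comp (g := u j) ((hu j) _ (hOs hM).1.2).continuousAt
        (continuousAt_chart (hOs hM).1.1)).continuousWithinAt
    · intro U Q t _ ht hQ hQO
      have h3 := hQ.diff_chart ht (hOs hQO).1.1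
      exact (((hu j) _ (hOs hQO).1.2).differentiableAt).comp t h3
    · intro x hx x' hx'
      have h3 := (hK j).dist_le_mul x ((hOs hx).2 j) x' ((hOs hx').2 j)
      rw [dist_eq_norm, dist_eq_norm] at h3
      refine h3.trans (mul_le_mul_of_nonneg_right ?_ (norm_nonneg _))
      exact Finset.single_le_sum (f := fun j => (K j : ℝ)) (fun j _ => (K j).2) (Finset.mem_univ j)
    · rintro x ⟨hxO, hxT⟩ hx j
      have hxi := (hOs hxO).1.1
      refine hune _ ⟨(hOs hxO).1.2, chart_coneF hF' hxT hxi⟩ ?_ j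
      rw [← aM_chartF hF' hα' hxT hxi]
      exact hx
    · intro 𝓤 P Q wt x v h hxO hx
      obtain ⟨c, hc, hc0, hcB, hcv⟩ := H539.key hF' hα' hsm h hx
      have hp : Tendsto (fun k => chart i (P k)) 𝓤 (𝓝 (chart i x)) :=
        (continuousAt_chart h.nz).tendsto.comp h.cP
      have hq : Tendsto (fun k => chart i (Q k)) 𝓤 (𝓝 (chart i x)) :=
        (continuousAt_chart h.nz).tendsto.comp h.cQ
      refine ⟨fun j => fderiv ℂ (u j) (chart i x) v, fun j => ?_, fun q => ?_⟩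
      · exact strict_lim ((hu j) _ (hOs hxO).1.2).hasStrictFDerivAt hp hq h.lim
      · have h1 := hform c hc (by rw [hc0]; exact (hOs hxO).1.2) hcB q
        have h2 : ∀ j, deriv (fun s => u j (c s)) 0 = fderiv ℂ (u j) (chart i x) v := by
          intro j
          have h3 : HasFDerivAt (u j) (fderiv ℂ (u j) (chart i x)) (c 0) := by
            rw [hc0]
            exact ((hu j) _ (hOs hxO).1.2).differentiableAt.hasFDerivAt
          exact (h3.comp_hasDerivAt (0 : ℂ) hcv).deriv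
        rw [hcv.deriv, hc0] at h1
        simp only [h2] at h1
        exact h1

end Pool.Agent.H918.SS
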