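import Pool.Agent.H918.E.GeoR

/-! Entire curves in projective varieties (which may be singular) over elliptic curves, from the
rigidity and the condition on the fibres for sets of matrices. -/

set_option autoImplicit false

open Filter Topology Metric Set LinearAlgebra.Projectivization

namespace Pool.Agent.H918.SS

open FF Pool.Agent.Y190.OP Pool.Agent.W602.GT Pool.Agent.N154.GG
open Pool.Agent.N155 (TX isCompact_TX TX_PM exists_shift nz nz_Phi nz_dich codis_ev)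

variable {n : ℕ} {ι : Type} {F : ι → MvPolynomial (Fin (n + 1)) ℂ} {d : ℕ} {K : Type} [Field K]
  [Algebra ℂ K] {y : Fin (n + 1) → K} {L : PeriodPair} {α : (Fin (n + 1) → ℂ) → ℂ ⧸ L.lattice}
  {B : Set (ℂ ⧸ L.lattice)}

/-- chains of discs and truncated distances -/
theorem chain_truncF {M0 : Mat (n + 1)} {A ρ : ℝ} (hA : 0 ≤ A)
    (h : ∀ P : ℂ → Mat (n + 1), HolP (ball 0 1) P → (∀ w ∈ ball (0 : ℂ) 1, P w ∈ TF F) →
      ∀ s ∈ ball (0 : ℂ) 1, ∀ t ∈ ball (0 : ℂ) 1,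
        dist (min ‖P t - M0‖ ρ) (min ‖P s - M0‖ ρ) ≤ A * Pool.Agent.Helper206.cost s t)
    {p q : ℙ ℂ (Fin (n + 1) → ℂ)} {c : ℝ} (hc : IsChainLength (Cone F) p q c) :
    dist (min ‖Phi q.rep - M0‖ ρ) (min ‖Phi p.rep - M0‖ ρ) ≤ A * c := by
  obtain ⟨k, r, f, s, t, h0, hl, hi, rfl⟩ := hc
  have h1 := Pool.Agent.Helper206.chain_bound k (fun j => min ‖Phi (r j).rep - M0‖ ρ)
    (fun i => A * poincareDist (s i) (t i))
    (by
      intro i
      obtain ⟨-, -, hs, ht, -, -⟩ := hi i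
      exact mul_nonneg hA ((Pool.Agent.Helper206.phd_nonneg (s i) (t i)).trans
        (Pool.Agent.Helper206.phd_le_cost hs ht)))
    (by
      intro i
      obtain ⟨hf, hfS, hs, ht, es, et⟩ := hi i
      have := h (fun z => Phi (f i z).rep) (holP_of_on hf) (fun w hw => mem_TF (hfS w hw))
        _ hs _ ht
      simp only [es, et, cost_eq] at this
      exact this) (Fin.last k)
  simp only [h0, hl] at h1
  rw [← Finset.mul_sum] at h1
  exact h1

/-- **The Kobayashi pseudodistance of projective manifolds fibred over elliptic curves, with bad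
fibres.** -/
theorem kobR (hX : ProjVariety F d y) (hG : RIG (TF F) (La L) (aM L α F))
    (hα : HolToTorus (Cone F) L α) (hB : B.Finite) (hf : FibL (TF F) (La L) (aM L α F) (BB L B)) :
    ∃ (S : Set (ℂ → ℙ ℂ (Fin (n + 1) → ℂ))) (k : ℕ), S.Finite ∧ 0 < k ∧
      (∀ g ∈ S, HolIn F g ∧ (∀ z, α (g z).rep = Submodule.Quotient.mk z) ∧
        ∀ l ∈ L.lattice, ∀ z, g (z + k * l) = g z) ∧
      (∀ p q : ℙ ℂ (Fin (n + 1) → ℂ), p.rep ∈ Cone F → q.rep ∈ Cone F → p ≠ q →
        α p.rep ∉ B → (∀ g ∈ S, ∀ z, p ≠ g z) → 0 < kobayashi (Cone F) p q) ∧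
      ∀ ε : ℝ, 0 < ε → ∃ c : ℝ, 0 < c ∧ ∀ p q : ℙ ℂ (Fin (n + 1) → ℂ), p.rep ∈ Cone F →
        q.rep ∈ Cone F → ∀ D : ℝ, 0 ≤ D → D ≤ 1 → (∀ g ∈ S, ∀ z, D ≤ projDist p (g z)) →
        (∀ u b : ℂ, α p.rep = Submodule.Quotient.mk u →
          (Submodule.Quotient.mk b : ℂ ⧸ L.lattice) ∈ B → D ≤ ‖u - b‖) →
          ENNReal.ofReal (c * D ^ (1 + ε) * min D (projDist p q)) ≤ kobayashi (Cone F) p q := by
  classical
  have hT := tdF hX.form hα
  obtain ⟨δ, hb⟩ := bdF hT hB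
  obtain ⟨r, e, q', K', hE, hK', hLM⟩ := exists_core hT hG hb hf
  obtain ⟨C0, -, hC0⟩ := exists_GS hT hb hf
  obtain ⟨k, hk, hper⟩ := S0_period (S0_finiteS hT hG hC0)
  have hXic := isCompact_Xi hT hE hk fun j l hl z => hper _ (hE.mem j) l hl z
  set S : Set (ℂ → ℙ ℂ (Fin (n + 1) → ℂ)) := range fun (j : Fin r) (z : ℂ) => toProj (e j z) with hS
  have hXi : ∀ M ∈ Xi e, ∃ g ∈ S, ∃ z, M = Phi (g z).rep := by
    rintro M ⟨j, z, rfl⟩
    exact ⟨_, ⟨j, rfl⟩, z, (Phi_rep_toProj (TF_PM ((hE.mem j).2.1 z))).symm⟩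
  -- the lower bound with the point `M0`
  have hlow : ∀ ε : ℝ, 0 < ε → ∃ c L' : ℝ, 0 < c ∧ 1 ≤ L' ∧ ∀ D : ℝ, 0 < D → D ≤ 1 →
      ∀ M0 ∈ TF F, (∀ M ∈ Xi e, D ≤ ‖M0 - M‖) → Far (BB L B) (aM L α F) D M0 →
      ∀ p q : ℙ ℂ (Fin (n + 1) → ℂ),
        ENNReal.ofReal (c * D ^ (1 + ε) * dist (min ‖Phi q.rep - M0‖ (D / (2 * L')))
          (min ‖Phi p.rep - M0‖ (D / (2 * L')))) ≤ kobayashi (Cone F) p q := by
    intro ε hε
    obtain ⟨C, L', hC, hL', hdisc⟩ := disc_truncB hT hG hb hf hE hK' hLM hε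
    refine ⟨C⁻¹, L', inv_pos.2 hC, hL', fun D hD0 hD1 M0 hM0T hM0 hfar p q => ?_⟩
    unfold kobayashi
    refine le_iInf₂ fun c hc => ENNReal.ofReal_le_ofReal ?_
    have hDε : 0 < D ^ (1 + ε) := Real.rpow_pos_of_pos hD0 _
    have h1 := chain_truncF (A := C / D ^ (1 + ε)) (by positivity)
      (hdisc D hD0 hD1 M0 hM0T hM0 hfar) hc
    have h2 := mul_le_mul_of_nonneg_left h1 (show 0 ≤ C⁻¹ * D ^ (1 + ε) by positivity)
    refine h2.trans (le_of_eq ?_)
    field_simp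
  have hfarof : ∀ p : ℙ ℂ (Fin (n + 1) → ℂ), p.rep ∈ Cone F → ∀ D : ℝ,
      (∀ u b : ℂ, α p.rep = Submodule.Quotient.mk u →
        (Submodule.Quotient.mk b : ℂ ⧸ L.lattice) ∈ B → D ≤ ‖u - b‖) →
      Far (BB L B) (aM L α F) D (Phi p.rep) := fun p hp D hD b hbb =>
    hD _ _ (aM_Phi hα hp).symm hbb
  refine ⟨S, k, finite_range _, hk, ?_, ?_, ?_⟩
  · rintro _ ⟨j, rfl⟩
    obtain ⟨h1, h2⟩ := S0_iffF hX.form hα (hE.mem j)
    refine ⟨h1, h2, fun l hl z => ?_⟩
    change toProj (e j (z + k * l)) = toProj (e j z)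
    rw [hper _ (hE.mem j) l hl]
  · obtain ⟨c, L', hc, hL', hlow1⟩ := hlow 1 one_pos
    intro p q hp hq hpq hpB hpS
    have hne : Phi q.rep - Phi p.rep ≠ 0 := fun h => hpq (proj_ext (sub_eq_zero.1 h)).symm
    have hne' : 0 < ‖Phi q.rep - Phi p.rep‖ := norm_pos_iff.2 hne
    -- the distance to the curves
    have hpn : Phi p.rep ∉ Xi e := by
      intro h1
      obtain ⟨g, hg, z, hz⟩ := hXi _ h1
      exact hpS g hg z (proj_ext hz)
    obtain ⟨D1, hD1, hD1b⟩ := Metric.isOpen_iff.1 hXic.isClosed.isOpen_compl _ hpn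
    -- the distance to the bad values
    have hpB' : aM L α F (Phi p.rep) ∉ BB L B := by
      intro h1
      have h2 : (Submodule.Quotient.mk (aM L α F (Phi p.rep)) : ℂ ⧸ L.lattice) ∈ B := h1
      rw [aM_Phi hα hp] at h2
      exact hpB h2
    obtain ⟨D2, hD2, hD2b⟩ := hb.far hpB'
    set D : ℝ := min (min D1 D2) 1 with hD
    have hD0 : 0 < D := lt_min (lt_min hD1 hD2) one_pos
    have h3 := hlow1 D hD0 (min_le_right _ _) (Phi p.rep) (mem_TF hp) (by
      intro M hM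
      by_contra hlt
      have h1 : M ∈ ball (Phi p.rep) D1 := by
        rw [mem_ball, dist_comm, dist_eq_norm]
        exact (not_le.1 hlt).trans_le ((min_le_left _ _).trans (min_le_left _ _))
      exact hD1b h1 hM) (fun b hbb => ((min_le_left _ _).trans (min_le_right _ _)).trans
        (hD2b b hbb)) p q
    refine lt_of_lt_of_le (ENNReal.ofReal_pos.2 ?_) h3
    have hρ : 0 < D / (2 * L') := by
      have : 0 < L' := one_pos.trans_le hL'
      positivity
    have h1 : dist (min ‖Phi q.rep - Phi p.rep‖ (D / (2 * L')))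
        (min ‖Phi p.rep - Phi p.rep‖ (D / (2 * L'))) =
        min ‖Phi q.rep - Phi p.rep‖ (D / (2 * L')) := by
      rw [sub_self, norm_zero, min_eq_left hρ.le, Real.dist_eq, sub_zero,
        abs_of_nonneg (le_min (norm_nonneg _) hρ.le)]
    rw [h1]
    have h2 : 0 < min ‖Phi q.rep - Phi p.rep‖ (D / (2 * L')) := lt_min hne' hρ
    have h4 : 0 < D ^ (1 + (1 : ℝ)) := Real.rpow_pos_of_pos hD0 _
    positivity
  · intro ε hε
    obtain ⟨c, L', hc, hL', hlow1⟩ := hlow ε hε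
    have hL0 : 0 < L' := one_pos.trans_le hL'
    refine ⟨c / (2 * L'), by positivity, fun p q hp hq D hD0 hD1 hDS hDB => ?_⟩
    rcases hD0.eq_or_lt with h0 | h0
    · have h1 : (1 : ℝ) + ε ≠ 0 := by linarith
      rw [← h0, Real.zero_rpow h1]
      simp
    · refine le_trans (ENNReal.ofReal_le_ofReal ?_) (hlow1 D h0 hD1 (Phi p.rep) (mem_TF hp) (by
        intro M hM
        obtain ⟨g, hg, z, rfl⟩ := hXi M hM
        exact hDS g hg z) (hfarof p hp D hDB) p q)
      have hρ : 0 < D / (2 * L') := by positivity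
      have h1 : dist (min ‖Phi q.rep - Phi p.rep‖ (D / (2 * L')))
          (min ‖Phi p.rep - Phi p.rep‖ (D / (2 * L'))) =
          min ‖Phi q.rep - Phi p.rep‖ (D / (2 * L')) := by
        rw [sub_self, norm_zero, min_eq_left hρ.le, Real.dist_eq, sub_zero,
          abs_of_nonneg (le_min (norm_nonneg _) hρ.le)]
      rw [h1]
      have h2 : min D (projDist p q) / (2 * L') ≤ min ‖Phi q.rep - Phi p.rep‖ (D / (2 * L')) := by
        have e1 : projDist p q = ‖Phi q.rep - Phi p.rep‖ := norm_sub_rev _ _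
        rw [← e1]
        have e2 : 0 ≤ projDist p q := norm_nonneg _
        have e3 : 0 ≤ min D (projDist p q) := le_min hD0 e2
        apply le_min
        · refine (div_le_self e3 (by linarith)).trans (min_le_right _ _)
        · exact div_le_div_of_nonneg_right (min_le_left _ _) (by positivity)
      have hDε : 0 < D ^ (1 + ε) := Real.rpow_pos_of_pos h0 _
      calc c / (2 * L') * D ^ (1 + ε) * min D (projDist p q) =
            c * D ^ (1 + ε) * (min D (projDist p q) / (2 * L')) := by ring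
        _ ≤ _ := mul_le_mul_of_nonneg_left h2 (by positivity)

end Pool.Agent.H918.SS
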