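import Pool.Agent.H918.E.Push

/-! Transfer of the theorem on entire curves. -/

set_option autoImplicit false

open Filter Topology Metric Set LinearAlgebra.Projectivization

namespace Pool.Agent.H918.SS

open FF Pool.Agent.Y190.OP Pool.Agent.W602.GT Pool.Agent.N154.GG
open Pool.Agent.N155 (TX isCompact_TX TX_PM exists_shift nz nz_Phi)

variable {m n : ℕ} {ι ι' : Type} {F : ι → MvPolynomial (Fin (n + 1)) ℂ}
  {F' : ι' → MvPolynomial (Fin (m + 1)) ℂ} {L : PeriodPair}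
  {α : (Fin (n + 1) → ℂ) → ℂ ⧸ L.lattice} {α' : (Fin (m + 1) → ℂ) → ℂ ⧸ L.lattice}
  {B : Set (ℂ ⧸ L.lattice)} {ρ : (Fin (m + 1) → ℂ) → Fin (n + 1) → ℂ}

namespace H662

theorem mapBy_smul {Q : Fin (n + 1) → MvPolynomial (Fin (m + 1)) ℂ} {e : ℕ}
    (hQ : ∀ j, (Q j).IsHomogeneous e) (c : ℂ) (x : Fin (m + 1) → ℂ) :
    mapBy Q (c • x) = c ^ e • mapBy Q x := by
  funext j
  change val (c • x) (Q j) = c ^ e * val x (Q j)
  rw [val_eval, Pool.Agent.N155.eval_smul (hQ j), ← val_eval]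

theorem proj_eq {p q : ℙ ℂ (Fin (n + 1) → ℂ)} {c : ℂ} (h : p.rep = c • q.rep) : p = q := by
  rw [← p.mk_rep, ← q.mk_rep, Projectivization.mk_eq_mk_iff']
  exact ⟨c, h.symm⟩

theorem ne_zero_of_rep {p : ℙ ℂ (Fin (n + 1) → ℂ)} {c : ℂ} {v : Fin (n + 1) → ℂ}
    (h : p.rep = c • v) : c ≠ 0 := by
  rintro rfl
  rw [zero_smul] at h
  exact p.rep_nonzero h

theorem holMap_comp {f : ℂ → ℙ ℂ (Fin (n + 1) → ℂ)} (hf : HolMap f) {φ : ℂ → ℂ}
    (hφ : Differentiable ℂ φ) : HolMap fun z => f (φ z) := by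
  intro z
  obtain ⟨V, G, hV, hzV, hd, h⟩ := hf (φ z)
  exact ⟨φ ⁻¹' V, G ∘ φ, hV.preimage hφ.continuous, hzV,
    hd.comp hφ.differentiableOn (fun _ h => h), fun w hw => h (φ w) hw⟩

theorem holMap_const (p : ℙ ℂ (Fin (n + 1) → ℂ)) : HolMap fun _ => p := fun z =>
  ⟨univ, fun _ => p.rep, isOpen_univ, mem_univ z, differentiableOn_const _, fun _ _ =>
    ⟨p.rep_nonzero, p.mk_rep.symm⟩⟩

/-- the lift of the map to the elliptic curve -/
theorem lift_curve (hF : ∀ i, IsForm (F i)) (hα : HolToTorus (Cone F) L α)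
    {f : ℂ → ℙ ℂ (Fin (n + 1) → ℂ)} (hf : HolIn F f) :
    ∃ φ : ℂ → ℂ, Differentiable ℂ φ ∧ ∀ z, α (f z).rep = Submodule.Quotient.mk (φ z) := by
  obtain ⟨φ, h1, h2⟩ := (tdF hF hα).exists_lift (holP_of hf.1) (fun z => mem_TF (hf.2 z))
  refine ⟨φ, h1, fun z => ?_⟩
  rw [← aM_Phi hα (hf.2 z)]
  exact (mem_La_iff.1 (h2 z)).symm

/-- the good points are dense -/
theorem good_dense {δ : ℝ} (hδ : Bd (La L) (BB L B) δ) {φ : ℂ → ℂ} (hφ : Differentiable ℂ φ)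
    {z1 : ℂ} (hz1 : (Submodule.Quotient.mk (φ z1) : ℂ ⧸ L.lattice) ∉ B) (z : ℂ) :
    ∃ᶠ w in 𝓝 z, (Submodule.Quotient.mk (φ w) : ℂ ⧸ L.lattice) ∉ B := by
  have h0 : ∀ᶠ w in 𝓝 z, ‖φ w - φ z‖ < 2 * δ := by
    have h1 := Metric.tendsto_nhds.1 (hφ.continuous.continuousAt (x := z)) (2 * δ)
      (by have := hδ.pos; positivity)
    filter_upwards [h1] with w hw
    rwa [dist_eq_norm] at hw
  have key : ∀ᶠ w in 𝓝[≠] z, (Submodule.Quotient.mk (φ w) : ℂ ⧸ L.lattice) ∉ B := by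
    by_cases hb : ∃ b0 ∈ BB L B, ‖φ z - b0‖ < 2 * δ
    · obtain ⟨b0, hb0, hb0'⟩ := hb
      have han : AnalyticOnNhd ℂ (fun w => φ w - b0) univ := fun w _ =>
        (hφ.sub_const b0).analyticAt w
      rcases (han z (mem_univ z)).eventually_eq_zero_or_eventually_ne_zero with h1 | h1
      · exfalso
        have h2 := han.eqOn_zero_of_preconnected_of_eventuallyEq_zero isPreconnected_univ
          (mem_univ z) h1 (mem_univ z1)
        have h3 : φ z1 = b0 := sub_eq_zero.1 h2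
        apply hz1
        rw [h3]
        exact hb0
      · filter_upwards [h1, nhdsWithin_le_nhds h0] with w h3 h4 h5
        apply h3
        rw [sub_eq_zero]
        refine hδ.sep _ h5 _ hb0 ?_
        calc ‖φ w - b0‖ = ‖(φ w - φ z) + (φ z - b0)‖ := by congr 1; ring
          _ ≤ ‖φ w - φ z‖ + ‖φ z - b0‖ := norm_add_le _ _
          _ < 4 * δ := by linarith
    · push Not at hb
      filter_upwards [nhdsWithin_le_nhds h0] with w h4 h5
      have h6 := hb (φ w) h5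
      rw [norm_sub_rev] at h6
      linarith
  exact key.frequently.filter_mono nhdsWithin_le_nhds

/-- there is a good point -/
theorem exists_good {δ : ℝ} (hδ : Bd (La L) (BB L B) δ) :
    ∃ z : ℂ, (Submodule.Quotient.mk z : ℂ ⧸ L.lattice) ∉ B := by
  by_contra hcon
  push Not at hcon
  have h1 := hδ.sep 0 (hcon 0) (δ : ℂ) (hcon _) (by
    rw [zero_sub, norm_neg, Complex.norm_real, Real.norm_of_nonneg hδ.pos.le]
    have := hδ.pos
    linarith)
  have h2 : (δ : ℝ) = 0 := by exact_mod_cast h1.symm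
  exact hδ.pos.ne' h2

/-- if all points are bad, the map is constant -/
theorem all_bad {δ : ℝ} (hδ : Bd (La L) (BB L B) δ) {φ : ℂ → ℂ} (hφ : Differentiable ℂ φ)
    (h : ∀ z, (Submodule.Quotient.mk (φ z) : ℂ ⧸ L.lattice) ∈ B) (z : ℂ) : φ z = φ 0 := by
  have h0 : ∀ᶠ w in 𝓝 (0 : ℂ), φ w - φ 0 = 0 := by
    have h1 := Metric.tendsto_nhds.1 (hφ.continuous.continuousAt (x := 0)) (4 * δ)
      (by have := hδ.pos; positivity)
    filter_upwards [h1] with w hw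
    rw [dist_eq_norm] at hw
    exact sub_eq_zero.2 (hδ.sep _ (h w) _ (h 0) hw)
  have han : AnalyticOnNhd ℂ (fun w => φ w - φ 0) univ := fun w _ =>
    (hφ.sub_const (φ 0)).analyticAt w
  exact sub_eq_zero.1 (han.eqOn_zero_of_preconnected_of_eventuallyEq_zero isPreconnected_univ
    (mem_univ 0) h0 (mem_univ z))

theorem eq_of_dense {f g : ℂ → ℙ ℂ (Fin (n + 1) → ℂ)} (hf : HolMap f) (hg : HolMap g)
    {p : ℂ → Prop} (hp : ∀ z, ∃ᶠ w in 𝓝 z, p w) (h : ∀ w, p w → f w = g w) (z : ℂ) :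
    f z = g z := by
  have hcl : IsClosed {w | Phi (f w).rep = Phi (g w).rep} :=
    isClosed_eq (hp_cont (holP_of hf)) (hp_cont (holP_of hg))
  have h1 : z ∈ {w | Phi (f w).rep = Phi (g w).rep} :=
    hcl.mem_of_frequently_of_tendsto (f := id) ((hp z).mono fun w hw => by
      change Phi (f w).rep = Phi (g w).rep
      rw [h w hw]) tendsto_id
  exact proj_ext h1

/-- the map `ρ` is injective on the good points -/
theorem inj_rho (hI : IsoOff F' F α' α B ρ) {x x' : Fin (m + 1) → ℂ} (hx : x ∈ Cone F')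
    (hxB : α' x ∉ B) (hx' : x' ∈ Cone F') (hxB' : α' x' ∉ B) {c : ℂ} (hc : c ≠ 0)
    (h : ρ x = c • ρ x') : ∃ b : ℂ, x = b • x' := by
  obtain ⟨h1, h2⟩ := hI.map x' hx' hxB'
  obtain ⟨-, -, -, -, W, ⟨e, he⟩, hW, hW'⟩ := hI.inverse (ρ x') h1 (by rw [h2]; exact hxB')
  obtain ⟨a, ha⟩ := hW' x' hx' hxB'
  obtain ⟨b, hb⟩ := hW' x hx hxB
  rw [h, mapBy_smul he] at hb
  have hb0 : b ≠ 0 := by
    rintro rfl
    rw [zero_smul] at hb
    exact smul_ne_zero (pow_ne_zero e hc) hW hb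
  refine ⟨b⁻¹ * (c ^ e * a), ?_⟩
  rw [mul_smul, mul_smul, ← ha, hb, smul_smul, inv_mul_cancel₀ hb0, one_smul]

/-- the inverse map -/
theorem exists_inv (hI : IsoOff F' F α' α B ρ) : ∃ σ : (Fin (n + 1) → ℂ) → Fin (m + 1) → ℂ,
    (∀ x ∈ Cone F, α x ∉ B → σ x ∈ Cone F' ∧ α' (σ x) = α x) ∧
    (∀ x ∈ Cone F, α x ∉ B → ∃ c : ℂ, x = c • ρ (σ x)) ∧
    ∀ x ∈ Cone F, α x ∉ B → ∃ R : Fin (m + 1) → MvPolynomial (Fin (n + 1)) ℂ,
      (∃ e : ℕ, ∀ j, (R j).IsHomogeneous e) ∧ mapBy R x ≠ 0 ∧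
      ∀ x' ∈ Cone F, α x' ∉ B → ∃ c : ℂ, mapBy R x' = c • σ x' := by
  have hinv : ∀ u : Fin (n + 1) → ℂ, ∃ v : Fin (m + 1) → ℂ, u ∈ Cone F → α u ∉ B →
      v ∈ Cone F' ∧ α' v = α u ∧ ∃ c : ℂ, u = c • ρ v := by
    intro u
    by_cases h : u ∈ Cone F ∧ α u ∉ B
    · obtain ⟨x, hx, h1, h2, -⟩ := hI.inverse u h.1 h.2
      exact ⟨x, fun _ _ => ⟨hx, h1, h2⟩⟩
    · exact ⟨0, fun h1 h2 => absurd ⟨h1, h2⟩ h⟩
  choose σ hσ using hinv
  refine ⟨σ, fun x hx hxB => ⟨(hσ x hx hxB).1, (hσ x hx hxB).2.1⟩,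
    fun x hx hxB => (hσ x hx hxB).2.2, fun x hx hxB => ?_⟩
  obtain ⟨-, -, -, -, W, ⟨e, he⟩, hW, hW'⟩ := hI.inverse x hx hxB
  refine ⟨W, ⟨e, he⟩, hW, fun x' hx' hxB' => ?_⟩
  obtain ⟨h1, h2, c, h3⟩ := hσ x' hx' hxB'
  obtain ⟨a, ha⟩ := hW' (σ x') h1 (by rw [h2]; exact hxB')
  refine ⟨c ^ e * a, ?_⟩
  calc mapBy W x' = mapBy W (c • ρ (σ x')) := by rw [← h3]
    _ = (c ^ e * a) • σ x' := by rw [mapBy_smul he, ha, mul_smul]

end H662

open H662

/-- TENT: entire curves -/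
theorem transfer_ent (hF' : ∀ i, IsForm (F' i)) (hF : ∀ i, IsForm (F i))
    (hα' : HolToTorus (Cone F') L α') (hα : HolToTorus (Cone F) L α) (hB : B.Finite)
    (hI : IsoOff F' F α' α B ρ) {S : Set (ℂ → ℙ ℂ (Fin (n + 1) → ℂ))} {k : ℕ} (hS : S.Finite)
    (hSm : ∀ g ∈ S, HolIn F g ∧ (∀ z, α (g z).rep = Submodule.Quotient.mk z) ∧
      ∀ l ∈ L.lattice, ∀ z, g (z + k * l) = g z)
    (hmain : ∀ f, HolIn F f → (∀ z w, f z = f w) ∨ (∃ b ∈ B, ∀ z, α (f z).rep = b) ∨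
      ∃ g ∈ S, ∃ φ : ℂ → ℂ, Differentiable ℂ φ ∧ ∀ z, f z = g (φ z)) :
    ∃ S' : Set (ℂ → ℙ ℂ (Fin (m + 1) → ℂ)), S'.Finite ∧
      (∀ g ∈ S', HolIn F' g ∧ (∀ z, α' (g z).rep = Submodule.Quotient.mk z) ∧
        ∀ l ∈ L.lattice, ∀ z, g (z + k * l) = g z) ∧
      (∀ f, HolIn F' f → (∀ z w, f z = f w) ∨ (∃ b ∈ B, ∀ z, α' (f z).rep = b) ∨
        ∃ g ∈ S', ∃ φ : ℂ → ℂ, Differentiable ℂ φ ∧ ∀ z, f z = g (φ z)) := by
  classical
  obtain ⟨σ, hσmap, hσinv, hσreg⟩ := exists_inv hI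
  obtain ⟨δ, hδ⟩ := bdF (tdF hF hα) hB
  obtain ⟨z0, hz0⟩ := exists_good hδ
  have hpush : ∀ g ∈ S, ∃ g' : ℂ → ℙ ℂ (Fin (m + 1) → ℂ), HolMapOn univ g' ∧
      (∀ z ∈ (univ : Set ℂ), (g' z).rep ∈ Cone F' ∧ α' (g' z).rep = α (g z).rep) ∧
      ∀ z ∈ (univ : Set ℂ), α (g z).rep ∉ B → ∃ c : ℂ, (g' z).rep = c • σ (g z).rep := by
    intro g hg
    exact push_curve hF hF' hα hα' hB hσmap hσreg isOpen_univ isPreconnected_univ
      (fun z _ => (hSm g hg).1.1 z) (fun z _ => (hSm g hg).1.2 z) (mem_univ z0)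
      (by rw [(hSm g hg).2.1 z0]; exact hz0)
  choose! G hG1 hG2 hG3 using hpush
  have hGm : ∀ g ∈ S, HolMap (G g) := fun g hg z => hG1 g hg z (mem_univ z)
  refine ⟨G '' S, hS.image G, ?_, fun f hf => ?_⟩
  · rintro _ ⟨g, hg, rfl⟩
    refine ⟨⟨hGm g hg, fun z => (hG2 g hg z (mem_univ z)).1⟩, fun z => ?_, fun l hl z => ?_⟩
    · rw [(hG2 g hg z (mem_univ z)).2, (hSm g hg).2.1 z]
    · have hkl : ∀ w : ℂ, (Submodule.Quotient.mk (w + k * l) : ℂ ⧸ L.lattice) =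
          Submodule.Quotient.mk w := by
        intro w
        rw [Submodule.Quotient.eq]
        have e : w + k * l - w = k • l := by rw [nsmul_eq_mul]; ring
        rw [e]
        exact L.lattice.smul_of_tower_mem k hl
      refine eq_of_dense (f := fun z => G g (z + k * l)) (g := G g)
        (holMap_comp (hGm g hg) (by fun_prop)) (hGm g hg)
        (good_dense hδ differentiable_id hz0) (fun w hw => ?_) z
      have hw' : (Submodule.Quotient.mk w : ℂ ⧸ L.lattice) ∉ B := hw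
      obtain ⟨c, hc⟩ := hG3 g hg w (mem_univ w) (by rw [(hSm g hg).2.1 w]; exact hw')
      obtain ⟨c', hc'⟩ := hG3 g hg (w + k * l) (mem_univ _)
        (by rw [(hSm g hg).2.1, hkl]; exact hw')
      rw [(hSm g hg).2.2 l hl w] at hc'
      have hc0 := ne_zero_of_rep hc
      refine proj_eq (c := c' * c⁻¹) ?_
      rw [hc', hc, smul_smul, mul_assoc, inv_mul_cancel₀ hc0, mul_one]
  · obtain ⟨ψ, hψ, hψ'⟩ := lift_curve hF' hα' hf
    by_cases hgood : ∃ z1, α' (f z1).rep ∉ B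
    swap
    · push Not at hgood
      right
      left
      have h1 := all_bad hδ hψ (fun z => by rw [← hψ' z]; exact hgood z)
      refine ⟨α' (f 0).rep, hgood 0, fun z => ?_⟩
      rw [hψ', hψ', h1 z]
    · obtain ⟨z1, hz1⟩ := hgood
      have hd : ∀ z, ∃ᶠ w in 𝓝 z, α' (f w).rep ∉ B := by
        intro z
        refine (good_dense hδ hψ (z1 := z1) (by rw [← hψ' z1]; exact hz1) z).mono fun w hw => ?_
        rw [hψ' w]
        exact hw
      obtain ⟨g, hg1, hg2, hg3⟩ := push_curve hF' hF hα' hα hB hI.map hI.regular isOpen_univ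
        isPreconnected_univ (fun z _ => hf.1 z) (fun z _ => hf.2 z) (mem_univ z1) hz1
      have hgin : HolIn F g :=
        ⟨fun z => hg1 z (mem_univ z), fun z => (hg2 z (mem_univ z)).1⟩
      rcases hmain g hgin with h1 | ⟨b, hb, h1⟩ | ⟨g0, hg0, φ, hφ, h1⟩
      · left
        have h2 : ∀ z, f z = f z1 := by
          refine eq_of_dense hf.1 (holMap_const (f z1)) hd fun w hw => ?_
          obtain ⟨c, hc⟩ := hg3 w (mem_univ w) hw
          obtain ⟨c', hc'⟩ := hg3 z1 (mem_univ z1) hz1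
          have hc0 := ne_zero_of_rep hc
          have hc0' := ne_zero_of_rep hc'
          rw [h1 z1 w, hc] at hc'
          obtain ⟨b, hb⟩ := inj_rho hI (hf.2 w) hw (hf.2 z1) hz1 (c := c⁻¹ * c')
            (mul_ne_zero (inv_ne_zero hc0) hc0')
            (by rw [mul_smul, ← hc', smul_smul, inv_mul_cancel₀ hc0, one_smul])
          exact proj_eq hb
        intro z w
        rw [h2 z, h2 w]
      · exfalso
        apply hz1
        rw [← (hg2 z1 (mem_univ z1)).2, h1 z1]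
        exact hb
      · right
        right
        refine ⟨G g0, ⟨g0, hg0, rfl⟩, φ, hφ, ?_⟩
        refine eq_of_dense hf.1 (holMap_comp (hGm g0 hg0) hφ) hd fun w hw => ?_
        obtain ⟨c, hc⟩ := hg3 w (mem_univ w) hw
        have hgood0 : α (g0 (φ w)).rep ∉ B := by
          rw [← h1 w, (hg2 w (mem_univ w)).2]
          exact hw
        obtain ⟨c', hc'⟩ := hG3 g0 hg0 (φ w) (mem_univ _) hgood0
        have hcone : (g0 (φ w)).rep ∈ Cone F := (hSm g0 hg0).1.2 (φ w)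
        obtain ⟨c'', hc''⟩ := hσinv _ hcone hgood0
        obtain ⟨h3, h4⟩ := hσmap _ hcone hgood0
        have hc0 := ne_zero_of_rep hc
        have hc0' := ne_zero_of_rep hc'
        have hc0'' := ne_zero_of_rep hc''
        rw [h1 w] at hc
        obtain ⟨b, hb⟩ := inj_rho hI (hf.2 w) hw h3 (by rw [h4]; exact hgood0) (c := c⁻¹ * c'')
          (mul_ne_zero (inv_ne_zero hc0) hc0'')
          (by rw [mul_smul, ← hc'', hc, smul_smul, inv_mul_cancel₀ hc0, one_smul])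
        refine proj_eq (c := b * c'⁻¹) ?_
        rw [hc', smul_smul, mul_assoc, inv_mul_cancel₀ hc0', mul_one]
        exact hb

end Pool.Agent.H918.SS
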