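import Pool.Agent.H918.E.Etale
import Pool.Agent.H918.E.Tent
import Pool.Agent.H918.E.KGeoR

/-! SE-EKOB: Kobayashi hyperbolicity and finite unramified coverings (written by helper97). -/

set_option autoImplicit false

open Filter Topology Metric Set LinearAlgebra.Projectivization

namespace Pool.Agent.H918.SS

open FF Pool.Agent.Y190.OP Pool.Agent.W602.GT Pool.Agent.N154.GG
open Pool.Agent.N155 (TX isCompact_TX TX_PM exists_shift nz nz_Phi nz_dich codis_ev)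

variable {m n : ℕ} {ι ι' : Type} {F : ι → MvPolynomial (Fin (n + 1)) ℂ}
  {F' : ι' → MvPolynomial (Fin (m + 1)) ℂ} {L : PeriodPair}
  {Q : Fin (n + 1) → MvPolynomial (Fin (m + 1)) ℂ}
  {α : (Fin (n + 1) → ℂ) → ℂ ⧸ L.lattice} {α' : (Fin (m + 1) → ℂ) → ℂ ⧸ L.lattice}
  {B : Set (ℂ ⧸ L.lattice)} {ρ : (Fin (m + 1) → ℂ) → Fin (n + 1) → ℂ}

namespace H97E

/-- lifts of chains of discs -/
theorem lift_chain (hF' : ∀ i, IsForm (F' i)) (hF : ∀ i, IsForm (F i))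
    (hC : EtaleCovering F F' Q) : ∀ (k : ℕ) (r : Fin (k + 1) → ℙ ℂ (Fin (n + 1) → ℂ))
    (f : Fin k → ℂ → ℙ ℂ (Fin (n + 1) → ℂ)) (s t : Fin k → ℂ),
    (∀ i : Fin k, HolMapOn (ball 0 1) (f i) ∧ (∀ z ∈ ball (0 : ℂ) 1, (f i z).rep ∈ Cone F) ∧
      s i ∈ ball (0 : ℂ) 1 ∧ t i ∈ ball (0 : ℂ) 1 ∧
      f i (s i) = r i.castSucc ∧ f i (t i) = r i.succ) →
    ∀ p' : ℙ ℂ (Fin (m + 1) → ℂ), p'.rep ∈ Cone F' → (∃ c : ℂ, mapBy Q p'.rep = c • (r 0).rep) →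
    ∃ (r' : Fin (k + 1) → ℙ ℂ (Fin (m + 1) → ℂ)) (f' : Fin k → ℂ → ℙ ℂ (Fin (m + 1) → ℂ)),
      r' 0 = p' ∧ ((r' (Fin.last k)).rep ∈ Cone F' ∧
        ∃ c : ℂ, mapBy Q (r' (Fin.last k)).rep = c • (r (Fin.last k)).rep) ∧
      ∀ i : Fin k, HolMapOn (ball 0 1) (f' i) ∧ (∀ z ∈ ball (0 : ℂ) 1, (f' i z).rep ∈ Cone F') ∧
        f' i (s i) = r' i.castSucc ∧ f' i (t i) = r' i.succ := by
  intro k
  induction k with
  | zero =>
    intro r f s t _ p' hp' h0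
    exact ⟨fun _ => p', Fin.elim0, rfl, ⟨hp', h0⟩, fun i => i.elim0⟩
  | succ k ih =>
    intro r f s t h p' hp' h0
    obtain ⟨h1, h2, h3, h4, h5, h6⟩ := h 0
    have h0' : ∃ c : ℂ, mapBy Q p'.rep = c • (f 0 (s 0)).rep := by
      rw [h5]
      exact h0
    obtain ⟨g, hg1, hg2, hg3, hg4⟩ := etale_lift hF' hF hC isOpen_ball (convex_ball 0 1) h1 h2 h3
      hp' h0'
    have hover : ∃ c : ℂ, mapBy Q (g (t 0)).rep = c • (r (Fin.succ 0)).rep := by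
      rw [← h6]
      exact hg4 (t 0) h4
    obtain ⟨r', f', e1, e2, e3⟩ := ih (fun i => r i.succ) (fun i => f i.succ) (fun i => s i.succ)
      (fun i => t i.succ) (fun i => h i.succ) (g (t 0)) (hg2 _ h4) hover
    refine ⟨Fin.cons p' r', Fin.cons g f', rfl, ?_, ?_⟩
    · have e4 : (Fin.cons p' r' : Fin (k + 1 + 1) → ℙ ℂ (Fin (m + 1) → ℂ)) (Fin.last (k + 1)) =
          r' (Fin.last k) := by
        rw [← Fin.succ_last, Fin.cons_succ]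
      rw [e4]
      exact e2
    · intro i
      refine Fin.cases ?_ (fun j => ?_) i
      · refine ⟨hg1, hg2, hg3, ?_⟩
        show g (t 0) = r' 0
        exact e1.symm
      · exact e3 j

theorem chain_lift (hF' : ∀ i, IsForm (F' i)) (hF : ∀ i, IsForm (F i))
    (hC : EtaleCovering F F' Q) {p q : ℙ ℂ (Fin (n + 1) → ℂ)} {c : ℝ}
    (h : IsChainLength (Cone F) p q c) {p' : ℙ ℂ (Fin (m + 1) → ℂ)} (hp' : p'.rep ∈ Cone F')
    (hpp : ∃ c : ℂ, mapBy Q p'.rep = c • p.rep) :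
    ∃ q' : ℙ ℂ (Fin (m + 1) → ℂ), (q'.rep ∈ Cone F' ∧ ∃ c : ℂ, mapBy Q q'.rep = c • q.rep) ∧
      IsChainLength (Cone F') p' q' c := by
  obtain ⟨k, r, f, s, t, hr0, hrk, hall, hc⟩ := h
  obtain ⟨r', f', e1, e2, e3⟩ := lift_chain hF' hF hC k r f s t hall p' hp' (by rw [hr0]; exact hpp)
  refine ⟨r' (Fin.last k), ?_, k, r', f', s, t, e1, rfl, fun i => ?_, hc⟩
  · rw [← hrk]
    exact e2
  · exact ⟨(e3 i).1, (e3 i).2.1, (hall i).2.2.1, (hall i).2.2.2.1, (e3 i).2.2.1, (e3 i).2.2.2⟩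

end H97E

/-- SE-EKOB: Kobayashi hyperbolicity and finite unramified coverings. -/
theorem etale_kob (hF' : ∀ i, IsForm (F' i)) (hF : ∀ i, IsForm (F i)) (hC : EtaleCovering F F' Q)
    {p q : ℙ ℂ (Fin (n + 1) → ℂ)} (hp : p.rep ∈ Cone F) (hq : q.rep ∈ Cone F)
    {p' : ℙ ℂ (Fin (m + 1) → ℂ)} (hp' : p'.rep ∈ Cone F')
    (hpp : ∃ c : ℂ, mapBy Q p'.rep = c • p.rep)
    (h : ∀ q' : ℙ ℂ (Fin (m + 1) → ℂ), q'.rep ∈ Cone F' →
      (∃ c : ℂ, mapBy Q q'.rep = c • q.rep) → 0 < kobayashi (Cone F') p' q') :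
    0 < kobayashi (Cone F) p q := by
  obtain ⟨K, hK⟩ := hC.sheets
  have hfin : {p : ℙ ℂ (Fin (m + 1) → ℂ) | p.rep ∈ Cone F' ∧
      ∃ c : ℂ, mapBy Q p.rep = c • q.rep}.Finite :=
    finite_of_encard_le_coe (hK q.rep hq (notMem_empty _))
  obtain ⟨q₁, hq₁⟩ := etale_onto hC hF' hq
  obtain ⟨q₀, hq₀, hmin⟩ := Set.exists_min_image _ (fun q' => kobayashi (Cone F') p' q') hfin
    ⟨q₁, hq₁⟩
  refine lt_of_lt_of_le (h q₀ hq₀.1 hq₀.2) ?_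
  refine le_iInf₂ fun c hc => ?_
  obtain ⟨q', hq', hchain⟩ := H97E.chain_lift hF' hF hC hc hp' hpp
  exact (hmin q' hq').trans (iInf₂_le c hchain)

end Pool.Agent.H918.SS
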