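import Pool.Agent.H918.E.Etale
import Pool.Agent.H918.E.Tent
import Pool.Agent.H918.E.KGeoR

/-! SE-EPIC (by helper791): the theorem on punctured discs and finite unramified coverings. -/

set_option autoImplicit false

open Filter Topology Metric Set LinearAlgebra.Projectivization

namespace Pool.Agent.H918.SS

open FF Pool.Agent.Y190.OP Pool.Agent.W602.GT Pool.Agent.N154.GG
open Pool.Agent.N155 (TX isCompact_TX TX_PM exists_shift nz nz_Phi nz_dich codis_ev)

variable {m n : ℕ} {ι ι' : Type} {F : ι → MvPolynomial (Fin (n + 1)) ℂ}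
  {F' : ι' → MvPolynomial (Fin (m + 1)) ℂ} {L : PeriodPair}
  {Q : Fin (n + 1) → MvPolynomial (Fin (m + 1)) ℂ}
  {α : (Fin (n + 1) → ℂ) → ℂ ⧸ L.lattice} {α' : (Fin (m + 1) → ℂ) → ℂ ⧸ L.lattice}
  {B : Set (ℂ ⧸ L.lattice)} {ρ : (Fin (m + 1) → ℂ) → Fin (n + 1) → ℂ}

namespace H791e

/-- periodic curves on the half plane are curves on the punctured disc -/
theorem desc_holP {N : ℕ} {P : ℂ → Mat N} (hP : HolP HP P) (hper : ∀ z ∈ HP, P (z + tpi) = P z) :
    HolP PDisc (fun t => P (Complex.log t)) := by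
  intro t0 ht0
  have ht00 : t0 ≠ 0 := ht0.2
  obtain ⟨h1, h2⟩ := log_mem_HP ht0
  obtain ⟨V, G, hV, hzV, hd, hF⟩ := hP (Complex.log t0) h1
  set z0 := Complex.log t0 with hz0
  set f : ℂ → ℂ := fun t => z0 + Complex.log (t / t0) with hf
  set S : Set ℂ := {t | t / t0 ∈ Complex.slitPlane} ∩ PDisc with hS
  have hSo : IsOpen S := by
    refine IsOpen.inter ?_ isOpen_PDisc
    exact Complex.isOpen_slitPlane.preimage (by fun_prop : Continuous fun t : ℂ => t / t0)
  have hfd : DifferentiableOn ℂ f S := by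
    intro t ht
    have e4 : DifferentiableAt ℂ Complex.log (t / t0) := Complex.differentiableAt_log ht.1
    have e5 : DifferentiableAt ℂ (fun t : ℂ => t / t0) t := by fun_prop
    exact ((DifferentiableAt.comp (f := fun t : ℂ => t / t0) t e4 e5).const_add
      z0).differentiableWithinAt
  have hft0 : f t0 = z0 := by
    simp only [hf]
    rw [div_self ht00, Complex.log_one, add_zero]
  have ht0S : t0 ∈ S := ⟨by
    change t0 / t0 ∈ Complex.slitPlane
    rw [div_self ht00]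
    exact Complex.one_mem_slitPlane, ht0⟩
  refine ⟨S ∩ f ⁻¹' (V ∩ HP), fun t => G (f t),
    hfd.continuousOn.isOpen_inter_preimage hSo (hV.inter isOpen_HP),
    ⟨ht0S, by
      change f t0 ∈ V ∩ HP
      rw [hft0]
      exact ⟨hzV, h1⟩⟩,
    hd.comp (hfd.mono inter_subset_left) (fun w hw => hw.2.1), fun t ht => ?_⟩
  obtain ⟨hg1, hg2⟩ := hF (f t) ht.2.1
  refine ⟨hg1, ?_⟩
  have htP : t ∈ PDisc := ht.1.2
  have ht0' : t ≠ 0 := htP.2
  have e1 : Complex.exp (f t) = Complex.exp (Complex.log t) := by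
    simp only [hf]
    rw [Complex.exp_add, h2, Complex.exp_log (div_ne_zero ht0' ht00), Complex.exp_log ht0']
    field_simp
  obtain ⟨n, hn⟩ := Complex.exp_eq_exp_iff_exists_int.1 e1
  have e2 := per_int (F := P) hper (log_mem_HP htP).1 n
  have e3 : P (Complex.log t) = P (f t) := by
    rw [hn]
    exact e2.symm
  change P (Complex.log t) = Phi (G (f t))
  rw [e3]
  exact hg2

/-- the map of the covering applied to curves -/
theorem holP_push (hF' : ∀ i, IsForm (F' i)) (hC : EtaleCovering F F' Q) {U : Set ℂ}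
    (hU : IsOpen U) {P' : ℂ → Mat (m + 1)} (hP' : HolP U P') (hT : ∀ z ∈ U, P' z ∈ TF F') :
    HolP U (fun z => pM Q (P' z)) := by
  obtain ⟨e, he⟩ := hC.form
  intro z hz
  obtain ⟨V, G, hV, hzV, hd, hG⟩ := hP' z hz
  refine ⟨V ∩ U, fun w => mapBy Q (G w), hV.inter hU, ⟨hzV, hz⟩, ?_, fun w hw => ?_⟩
  · intro w hw
    exact (Pool.Agent.H721.SE.mapBy_an Q (G w)).differentiableAt.comp_differentiableWithinAt w
      ((hd w hw.1).mono inter_subset_left)
  · obtain ⟨h1, h2⟩ := hG w hw.1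
    have h3 : G w ∈ Cone F' := by
      obtain ⟨u, hu, h4⟩ := hT w hw.2
      rw [h2] at h4
      obtain ⟨c, hc, h5⟩ := Phi_inj hu.1 h1 h4.symm
      rw [h5]
      exact cone_smulF hF' hu hc
    refine ⟨(hC.map _ h3).1.1, ?_⟩
    change pM Q (P' w) = Phi (mapBy Q (G w))
    rw [h2, Pool.Agent.H721.SE.pM_Phi he h1]

/-- roots of points of the punctured disc -/
theorem exists_root {k : ℕ} (hk : 0 < k) {z : ℂ} (hz : z ∈ PDisc) :
    ∃ s ∈ PDisc, s ^ k = z ∧ ‖s‖ ^ k = ‖z‖ := by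
  obtain ⟨s, hs⟩ := IsAlgClosed.exists_pow_nat_eq z hk
  have hs1 : ‖s‖ ^ k = ‖z‖ := by rw [← norm_pow, hs]
  refine ⟨s, ⟨?_, ?_⟩, hs, hs1⟩
  · rw [mem_ball_zero_iff]
    refine lt_of_pow_lt_pow_left₀ k zero_le_one ?_
    rw [hs1, one_pow]
    exact mem_ball_zero_iff.1 hz.1
  · intro h0
    have h0' : s = 0 := h0
    rw [h0', zero_pow hk.ne'] at hs
    exact hz.2 hs.symm

end H791e

open H791e in
/-- SE-EPIC: the theorem on punctured discs and finite unramified coverings. -/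
theorem etale_pic (hF' : ∀ i, IsForm (F' i)) (hF : ∀ i, IsForm (F i)) (hC : EtaleCovering F F' Q)
    {S : Set (ℂ → ℙ ℂ (Fin (m + 1) → ℂ))} (hS : S.Finite) (hSm : ∀ g ∈ S, HolIn F' g)
    (hmain : ∀ f, PunctIn F' f → Extends F' f ∨ (∃ b ∈ B, ∀ z ∈ PDisc, α' (f z).rep = b) ∨
        ∃ g ∈ S, ∃ φ : ℂ → ℂ, DifferentiableOn ℂ φ {z | z.re < 0} ∧
          ∀ z : ℂ, z.re < 0 → f (Complex.exp z) = g (φ z)) :
    ∃ S₁ : Set (ℂ → ℙ ℂ (Fin (n + 1) → ℂ)), S₁.Finite ∧
      (∀ g₁ ∈ S₁, HolIn F g₁ ∧ ∃ g ∈ S, ∀ z, ∃ c : ℂ, mapBy Q (g z).rep = c • (g₁ z).rep) ∧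
      ∀ f, PunctIn F f → Extends F f ∨
        (∃ b ∈ B, ∀ z ∈ PDisc, ∃ x ∈ Cone F', α' x = b ∧ ∃ c : ℂ, mapBy Q x = c • (f z).rep) ∨
        ∃ g₁ ∈ S₁, ∃ φ : ℂ → ℂ, DifferentiableOn ℂ φ {z | z.re < 0} ∧
          ∀ z : ℂ, z.re < 0 → f (Complex.exp z) = g₁ (φ z) := by
  classical
  have hT := tdF hF (hol_const (Cone F) L)
  have hT' := tdF hF' (hol_const (Cone F') L)
  have hc := hC.cov hF hF' L
  obtain ⟨δ, hb⟩ := bdF hT (B := (∅ : Set (ℂ ⧸ L.lattice))) finite_empty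
  obtain ⟨k, hk, hper⟩ := hc.periodic hb
  have havoid : ∀ M : Mat (n + 1), aM L (fun _ => 0) F M ∉ BB L ∅ := by
    intro M
    rw [BB_empty]
    exact notMem_empty _
  refine ⟨(fun g z => toProj (pM Q (Phi (g z).rep))) '' S, hS.image _, ?_, ?_⟩
  · rintro _ ⟨g, hg, rfl⟩
    have h1 := hSm g hg
    have h2 : HolP univ (fun z => pM Q (Phi (g z).rep)) :=
      holP_push hF' hC isOpen_univ (holP_of h1.1) (fun z _ => mem_TF (h1.2 z))
    refine ⟨⟨holMap_of h2, fun z => rep_toProjF hF (hc.map _ (mem_TF (h1.2 z)))⟩, g, hg,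
      fun z => ?_⟩
    rw [← pM_iff hF' hF hC (h1.2 z)]
    exact (Phi_rep_toProj (TF_PM (hc.map _ (mem_TF (h1.2 z))))).symm
  · intro f hf
    set P0 : ℂ → Mat (n + 1) := fun z => Phi (f z).rep with hP0def
    have hP0 : HolP PDisc P0 := holP_of_on hf.1
    have hP0T : ∀ z ∈ PDisc, P0 z ∈ TF F := fun z hz => mem_TF (hf.2 z hz)
    set P : ℂ → Mat (n + 1) := fun z => P0 (Complex.exp z) with hPdef
    have hP : HolP HP P := holP_comp_l hP0 Complex.differentiable_exp.differentiableOn isOpen_HP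
      (fun z hz => exp_mem_PDisc hz)
    have hPT : ∀ z ∈ HP, P z ∈ TF F := fun z hz => hP0T _ (exp_mem_PDisc hz)
    have hPper : ∀ z ∈ HP, P (z + tpi) = P z := by
      intro z _
      change P0 (Complex.exp (z + tpi)) = P0 (Complex.exp z)
      rw [show Complex.exp (z + tpi) = Complex.exp z from Complex.exp_periodic z]
    have hm1 : (-1 : ℂ) ∈ HP := by
      change (-1 : ℂ).re < 0
      norm_num
    obtain ⟨x0, hx0, hpx0⟩ := hc.surj (P (-1)) (hPT _ hm1) (havoid _)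
    obtain ⟨P', hP', hP'T, hpP', -⟩ := hc.lift hb hT'.comp isOpen_HP convex_HP hP hPT
      (fun z _ => havoid _) hm1 hx0 hpx0
    have hP'per : ∀ z ∈ HP, P' (z + k * tpi) = P' z :=
      hper P P' hP' (fun z hz => ⟨hP'T z hz, hpP' z hz⟩) (fun z hz => ⟨hPT z hz, havoid _⟩) hPper
    have hk0 : (k : ℂ) ≠ 0 := Nat.cast_ne_zero.2 hk.ne'
    have hkR : (0 : ℝ) < k := Nat.cast_pos.2 hk
    have hkHP : ∀ z ∈ HP, (k : ℂ) * z ∈ HP := by
      intro z hz
      have hz' : z.re < 0 := hz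
      change ((k : ℂ) * z).re < 0
      rw [← Complex.ofReal_natCast, Complex.re_ofReal_mul]
      exact mul_neg_of_pos_of_neg hkR hz'
    have hkHP' : ∀ z ∈ HP, z / (k : ℂ) ∈ HP := by
      intro z hz
      have hz' : z.re < 0 := hz
      change (z / (k : ℂ)).re < 0
      rw [← Complex.ofReal_natCast, Complex.div_ofReal_re]
      exact div_neg_of_neg_of_pos hz' hkR
    set R : ℂ → Mat (m + 1) := fun z => P' (k * z) with hRdef
    have hR : HolP HP R := holP_comp_l hP' (differentiable_id.const_mul (k : ℂ)).differentiableOn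
      isOpen_HP hkHP
    have hRT : ∀ z ∈ HP, R z ∈ TF F' := fun z hz => hP'T _ (hkHP z hz)
    have hRper : ∀ z ∈ HP, R (z + tpi) = R z := by
      intro z hz
      change P' (k * (z + tpi)) = P' (k * z)
      rw [mul_add]
      exact hP'per _ (hkHP z hz)
    have hRf : ∀ z ∈ HP, pM Q (R z) = P0 (Complex.exp (k * z)) := fun z hz => hpP' _ (hkHP z hz)
    set f' : ℂ → ℙ ℂ (Fin (m + 1) → ℂ) := fun s => toProj (R (Complex.log s)) with hf'def
    have hf'h : HolP PDisc (fun s => R (Complex.log s)) := desc_holP hR hRper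
    have hf' : PunctIn F' f' :=
      ⟨holMapOn_of hf'h, fun z hz => rep_toProjF hF' (hRT _ (log_mem_HP hz).1)⟩
    have hRf' : ∀ s ∈ PDisc, pM Q (Phi (f' s).rep) = P0 (s ^ k) := by
      intro s hs
      obtain ⟨h1, h2⟩ := log_mem_HP hs
      change pM Q (Phi (toProj (R (Complex.log s))).rep) = P0 (s ^ k)
      rw [Phi_rep_toProj (TF_PM (hRT _ h1)), hRf _ h1, Complex.exp_nat_mul, h2]
    have hexp : ∀ z ∈ HP, f' (Complex.exp z) = toProj (R z) := by
      intro z hz
      have h1 := exp_mem_PDisc hz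
      obtain ⟨h2, h3⟩ := log_mem_HP h1
      obtain ⟨j, hj⟩ := Complex.exp_eq_exp_iff_exists_int.1 h3
      change toProj (R (Complex.log (Complex.exp z))) = toProj (R z)
      rw [hj]
      congr 1
      exact per_int (F := R) hRper hz j
    rcases hmain f' hf' with ⟨f1, hf1, hf1F, hf1e⟩ | ⟨b, hbB, hfb⟩ | ⟨g, hg, φ, hφ, hgφ⟩
    · left
      have h01 : (0 : ℂ) ∈ ball (0 : ℂ) 1 := mem_ball_self one_pos
      set M0 : Mat (n + 1) := pM Q (Phi (f1 0).rep) with hM0def
      have hM0 : M0 ∈ TF F := hc.map _ (mem_TF (hf1F 0 h01))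
      have hlim : ∀ ε : ℝ, 0 < ε → ∃ δ : ℝ, 0 < δ ∧ ∀ z ∈ PDisc, ‖z‖ < δ → ‖P0 z - M0‖ ≤ ε := by
        intro ε hε
        have h1 : HolP (ball 0 1) (fun s => pM Q (Phi (f1 s).rep)) :=
          holP_push hF' hC isOpen_ball (holP_of_on hf1) (fun z hz => mem_TF (hf1F z hz))
        have h2 := h1.continuousAt h01
        rw [Metric.continuousAt_iff] at h2
        obtain ⟨η, hη, h3⟩ := h2 ε hε
        refine ⟨η ^ k, pow_pos hη k, fun z hz hzη => ?_⟩
        obtain ⟨s, hsP, hs, hs1⟩ := exists_root hk hz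
        have hsη : ‖s‖ < η := lt_of_pow_lt_pow_left₀ k hη.le (by rw [hs1]; exact hzη)
        have h4 := hRf' s hsP
        rw [hs, ← hf1e s hsP] at h4
        have h5 := h3 (x := s) (by rw [dist_zero_right]; exact hsη)
        rw [dist_eq_norm] at h5
        rw [← h4]
        exact h5.le
      have hext := holP_remove hP0 (TF_PM hM0) hlim
      refine ⟨_, holMapOn_of hext, fun z hz => rep_toProjF hF ?_, fun z hz => ?_⟩
      · by_cases h0 : z = 0
        · rw [if_pos h0]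
          exact hM0
        · rw [if_neg h0]
          exact hP0T z ⟨hz, h0⟩
      · have h0 : z ≠ 0 := hz.2
        rw [if_neg h0]
        exact toProj_Phi_rep _
    · right
      left
      refine ⟨b, hbB, fun z hz => ?_⟩
      obtain ⟨s, hsP, hs, -⟩ := exists_root hk hz
      refine ⟨(f' s).rep, hf'.2 s hsP, hfb s hsP, ?_⟩
      rw [← pM_iff hF' hF hC (hf'.2 s hsP), hRf' s hsP, hs]
    · right
      right
      refine ⟨_, ⟨g, hg, rfl⟩, fun z => φ (z / k), ?_, fun z hz => ?_⟩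
      · exact DifferentiableOn.comp (f := fun z : ℂ => z / k) (t := {z | z.re < 0}) hφ
          (differentiable_id.div_const (k : ℂ)).differentiableOn (fun z hz => hkHP' z hz)
      · have hzk : z / (k : ℂ) ∈ HP := hkHP' z hz
        change f (Complex.exp z) = toProj (pM Q (Phi (g (φ (z / k))).rep))
        rw [← hgφ (z / k) hzk, hexp (z / k) hzk, Phi_rep_toProj (TF_PM (hRT _ hzk)), hRf _ hzk,
          mul_div_cancel₀ _ hk0]
        exact (toProj_Phi_rep _).symm

end Pool.Agent.H918.SS
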