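import Pool.Agent.H918.E.Etale
import Pool.Agent.H918.E.Tent
import Pool.Agent.H918.E.KGeoR

/-! Transfer of the Kobayashi hyperbolicity (helper376). -/

set_option autoImplicit false

open Filter Topology Metric Set LinearAlgebra.Projectivization

namespace Pool.Agent.H918.SS

open FF Pool.Agent.Y190.OP Pool.Agent.W602.GT Pool.Agent.N154.GG
open Pool.Agent.N155 (TX isCompact_TX TX_PM exists_shift nz nz_Phi nz_dich codis_ev)

variable {m n : ℕ} {ι ι' : Type} {F : ι → MvPolynomial (Fin (n + 1)) ℂ}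
  {F' : ι' → MvPolynomial (Fin (m + 1)) ℂ} {L : PeriodPair}
  {Q : Fin (n + 1) → MvPolynomial (Fin (m + 1)) ℂ}
  {α : (Fin (n + 1) → ℂ) → ℂ ⧸ L.lattice} {α' : (Fin (m + 1) → ℂ) → ℂ ⧸ L.lattice}
  {B : Set (ℂ ⧸ L.lattice)} {ρ : (Fin (m + 1) → ℂ) → Fin (n + 1) → ℂ}

namespace H376

theorem cost_nonneg {s t : ℂ} (hs : s ∈ ball (0 : ℂ) 1) (ht : t ∈ ball (0 : ℂ) 1) :
    0 ≤ Pool.Agent.Helper206.cost s t :=
  (Pool.Agent.Helper206.phd_nonneg s t).trans (Pool.Agent.Helper206.phd_le_cost hs ht)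

/-- chains of discs and functions which are Lipschitz along discs -/
theorem chain_u {X : Set (Fin (m + 1) → ℂ)} {u : ℙ ℂ (Fin (m + 1) → ℂ) → ℝ} {A : ℝ} (hA : 0 ≤ A)
    (h : ∀ f : ℂ → ℙ ℂ (Fin (m + 1) → ℂ), HolMapOn (ball 0 1) f →
      (∀ z ∈ ball (0 : ℂ) 1, (f z).rep ∈ X) → ∀ s ∈ ball (0 : ℂ) 1, ∀ t ∈ ball (0 : ℂ) 1,
        dist (u (f t)) (u (f s)) ≤ A * Pool.Agent.Helper206.cost s t)
    {p q : ℙ ℂ (Fin (m + 1) → ℂ)} {c : ℝ} (hc : IsChainLength X p q c) :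
    dist (u q) (u p) ≤ A * c := by
  obtain ⟨k, r, f, s, t, h0, hl, hi, rfl⟩ := hc
  have h1 := Pool.Agent.Helper206.chain_bound k (fun j => u (r j))
    (fun i => A * poincareDist (s i) (t i))
    (by
      intro i
      obtain ⟨-, -, hs, ht, -, -⟩ := hi i
      exact mul_nonneg hA (cost_nonneg hs ht))
    (by
      intro i
      obtain ⟨hf, hfS, hs, ht, es, et⟩ := hi i
      have := h (f i) hf hfS _ hs _ ht
      simp only [es, et, cost_eq] at this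
      exact this) (Fin.last k)
  simp only [h0, hl] at h1
  rw [← Finset.mul_sum] at h1
  exact h1

end H376

/-- SE-TKOB: transfer of the Kobayashi hyperbolicity. -/
theorem transfer_kob (hF' : ∀ i, IsForm (F' i)) (hF : ∀ i, IsForm (F i))
    (hα' : HolToTorus (Cone F') L α') (hα : HolToTorus (Cone F) L α) (hB : B.Finite)
    (hI : IsoOff F' F α' α B ρ) {Z : Set (ℙ ℂ (Fin (n + 1) → ℂ))}
    (hmain : ∀ p : ℙ ℂ (Fin (n + 1) → ℂ), p.rep ∈ Cone F → α p.rep ∉ B → p ∉ Z →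
      ∃ A r : ℝ, 0 < A ∧ 0 < r ∧
      (∀ q : ℙ ℂ (Fin (n + 1) → ℂ), q.rep ∈ Cone F → α q.rep ∈ B →
        r ≤ ‖Phi q.rep - Phi p.rep‖) ∧
      ∀ P : ℂ → Mat (n + 1), HolP (ball 0 1) P → (∀ w ∈ ball (0 : ℂ) 1, P w ∈ TF F) →
        ∀ s ∈ ball (0 : ℂ) 1, ∀ t ∈ ball (0 : ℂ) 1,
        dist (min ‖P t - Phi p.rep‖ r) (min ‖P s - Phi p.rep‖ r) ≤
          A * Pool.Agent.Helper206.cost s t)
    {p q : ℙ ℂ (Fin (m + 1) → ℂ)} (hp : p.rep ∈ Cone F') (hq : q.rep ∈ Cone F') (hpq : p ≠ q)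
    (hpB : α' p.rep ∉ B)
    (hpZ : ∀ p₁ : ℙ ℂ (Fin (n + 1) → ℂ), (∃ c : ℂ, p₁.rep = c • ρ p.rep) → p₁ ∉ Z) :
    0 < kobayashi (Cone F') p q := by
  classical
  obtain ⟨hρp, hαp⟩ := hI.map _ hp hpB
  obtain ⟨a, ha⟩ := Projectivization.exists_smul_eq_mk_rep ℂ (ρ p.rep) hρp.1
  obtain ⟨p1, hp1⟩ : ∃ p1, p1 = Projectivization.mk ℂ (ρ p.rep) hρp.1 := ⟨_, rfl⟩
  rw [← hp1] at ha
  have ha' : p1.rep = (a : ℂ) • ρ p.rep := ha.symm
  have hPhi1 : Phi p1.rep = Phi (ρ p.rep) := by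
    rw [ha']
    exact Phi_smul a.ne_zero _
  have hp1F : p1.rep ∈ Cone F := by
    rw [ha']
    exact cone_smulF hF hρp a.ne_zero
  have hp1B : α p1.rep ∉ B := by
    rw [ha', hα.homog _ hρp _ a.ne_zero, hαp]
    exact hpB
  obtain ⟨A, r, hA, hr, hfar, hlip⟩ := hmain p1 hp1F hp1B (hpZ p1 ⟨_, ha'⟩)
  rw [hPhi1] at hfar hlip
  obtain ⟨M0, hM0⟩ : ∃ M0, M0 = Phi (ρ p.rep) := ⟨_, rfl⟩
  rw [← hM0] at hfar hlip
  obtain ⟨u, hu⟩ : ∃ u : ℙ ℂ (Fin (m + 1) → ℂ) → ℝ, u = fun x =>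
      if α' x.rep ∉ B then min ‖Phi (ρ x.rep) - M0‖ r else r := ⟨_, rfl⟩
  have hu1 : ∀ x : ℙ ℂ (Fin (m + 1) → ℂ), α' x.rep ∉ B → u x = min ‖Phi (ρ x.rep) - M0‖ r := by
    intro x hx
    rw [hu]
    exact if_pos hx
  have hu2 : ∀ x : ℙ ℂ (Fin (m + 1) → ℂ), α' x.rep ∈ B → u x = r := by
    intro x hx
    rw [hu]
    exact if_neg (not_not.2 hx)
  have hclaim : ∀ f : ℂ → ℙ ℂ (Fin (m + 1) → ℂ), HolMapOn (ball 0 1) f →
      (∀ z ∈ ball (0 : ℂ) 1, (f z).rep ∈ Cone F') → ∀ s ∈ ball (0 : ℂ) 1, ∀ t ∈ ball (0 : ℂ) 1,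
        dist (u (f t)) (u (f s)) ≤ A * Pool.Agent.Helper206.cost s t := by
    intro f hf hfF s hs t ht
    by_cases hg : ∃ z1 ∈ ball (0 : ℂ) 1, α' (f z1).rep ∉ B
    · obtain ⟨z1, hz1, hz1B⟩ := hg
      obtain ⟨g, hg1, hg2, hg3⟩ := push_curve hF' hF hα' hα hB hI.map hI.regular isOpen_ball
        (convex_ball (0 : ℂ) 1).isPreconnected hf hfF hz1 hz1B
      have hug : ∀ z ∈ ball (0 : ℂ) 1, u (f z) = min ‖Phi (g z).rep - M0‖ r := by
        intro z hz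
        obtain ⟨h1, h2⟩ := hg2 z hz
        by_cases hzB : α' (f z).rep ∈ B
        · rw [hu2 _ hzB]
          have h3 := hfar (g z) h1 (by rw [h2]; exact hzB)
          rw [min_eq_right h3]
        · obtain ⟨c, hc⟩ := hg3 z hz hzB
          have hc0 := H662.ne_zero_of_rep hc
          rw [hu1 _ hzB, hc, Phi_smul hc0]
      rw [hug t ht, hug s hs]
      exact hlip (fun z => Phi (g z).rep) (holP_of_on hg1)
        (fun w hw => mem_TF (hg2 w hw).1) s hs t ht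
    · push Not at hg
      rw [hu2 _ (hg t ht), hu2 _ (hg s hs), dist_self]
      exact mul_nonneg hA.le (H376.cost_nonneg hs ht)
  have hup : u p = 0 := by
    rw [hu1 p hpB, hM0, sub_self, norm_zero, min_eq_left hr.le]
  have huq : 0 < u q := by
    by_cases hqB : α' q.rep ∈ B
    · rw [hu2 q hqB]
      exact hr
    · rw [hu1 q hqB]
      refine lt_min (norm_pos_iff.2 fun h => ?_) hr
      have h1 : Phi (ρ p.rep) = Phi (ρ q.rep) := by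
        rw [← hM0]
        exact (sub_eq_zero.1 h).symm
      obtain ⟨hρq, -⟩ := hI.map _ hq hqB
      obtain ⟨c, hc0, hc⟩ := Phi_inj hρp.1 hρq.1 h1
      obtain ⟨b, hb⟩ := H662.inj_rho hI hq hqB hp hpB hc0 hc
      exact hpq (H662.proj_eq hb).symm
  refine lt_of_lt_of_le (ENNReal.ofReal_pos.2 (div_pos huq hA)) ?_
  unfold kobayashi
  refine le_iInf₂ fun c hc => ENNReal.ofReal_le_ofReal ?_
  have h1 := H376.chain_u hA.le hclaim hc
  rw [hup, dist_zero_right, Real.norm_eq_abs, abs_of_pos huq] at h1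
  rw [div_le_iff₀ hA, mul_comm]
  exact h1

end Pool.Agent.H918.SS
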