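import Pool.Agent.H918.E.Main
import Pool.Agent.H918.E.Tkob

/-! The Kobayashi pseudodistance of projective varieties with a semistable reduction. -/

set_option autoImplicit false

open Filter Topology Metric Set LinearAlgebra.Projectivization

namespace Pool.Agent.H918.SS

open FF Pool.Agent.Y190.OP Pool.Agent.W602.GT Pool.Agent.N154.GG
open Pool.Agent.N155 (TX isCompact_TX TX_PM exists_shift nz nz_Phi nz_dich codis_ev)

variable {m n : ℕ} {ι ι' : Type} {F : ι → MvPolynomial (Fin (n + 1)) ℂ}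
  {F' : ι' → MvPolynomial (Fin (m + 1)) ℂ} {L : PeriodPair}
  {α : (Fin (n + 1) → ℂ) → ℂ ⧸ L.lattice} {α' : (Fin (m + 1) → ℂ) → ℂ ⧸ L.lattice}
  {B : Set (ℂ ⧸ L.lattice)} {ρ : (Fin (m + 1) → ℂ) → Fin (n + 1) → ℂ}

/-- smaller truncations -/
theorem min_shrink {r r' a b A : ℝ} (hr : r' ≤ r) (h : dist (min a r) (min b r) ≤ A) :
    dist (min a r') (min b r') ≤ A := by
  refine le_trans ?_ h
  have e : ∀ a : ℝ, min a r' = min (min a r) r' := fun a => by
    rw [min_assoc, min_eq_right hr]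
  rw [e a, e b, Real.dist_eq, Real.dist_eq]
  have h1 := abs_min_sub_min_le_max (min a r) r' (min b r) r'
  rwa [sub_self, abs_zero, max_eq_left (abs_nonneg _)] at h1

/-- the estimates of discs -/
theorem kobX (hF : ∀ i, IsForm (F i)) (hG : RIG (TF F) (La L) (aM L α F))
    (hα : HolToTorus (Cone F) L α) (hB : B.Finite) (hf : FibL (TF F) (La L) (aM L α F) (BB L B))
    {p : ℙ ℂ (Fin (n + 1) → ℂ)} (hp : p.rep ∈ Cone F) (hpB : α p.rep ∉ B)
    (hpS : ∀ g, HolIn F g → (∀ z, α (g z).rep = Submodule.Quotient.mk z) → ∀ z, p ≠ g z) :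
    ∃ A r : ℝ, 0 < A ∧ 0 < r ∧
      (∀ q : ℙ ℂ (Fin (n + 1) → ℂ), q.rep ∈ Cone F → α q.rep ∈ B →
        r ≤ ‖Phi q.rep - Phi p.rep‖) ∧
      ∀ P : ℂ → Mat (n + 1), HolP (ball 0 1) P → (∀ w ∈ ball (0 : ℂ) 1, P w ∈ TF F) →
        ∀ s ∈ ball (0 : ℂ) 1, ∀ t ∈ ball (0 : ℂ) 1,
        dist (min ‖P t - Phi p.rep‖ r) (min ‖P s - Phi p.rep‖ r) ≤
          A * Pool.Agent.Helper206.cost s t := by
  classical
  have hT := tdF hF hα
  obtain ⟨δ, hb⟩ := bdF hT hB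
  obtain ⟨r, e, q', K', hE, hK', hLM⟩ := exists_core hT hG hb hf
  obtain ⟨C0, -, hC0⟩ := exists_GS hT hb hf
  obtain ⟨k, hk, hper⟩ := S0_period (S0_finiteS hT hG hC0)
  have hXic := isCompact_Xi hT hE hk fun j l hl z => hper _ (hE.mem j) l hl z
  have hpn : Phi p.rep ∉ Xi e := by
    rintro ⟨j, z, hz⟩
    obtain ⟨h1, h2⟩ := S0_iffF hF hα (hE.mem j)
    refine hpS _ h1 h2 z (proj_ext ?_)
    rw [Phi_rep_toProj (TF_PM ((hE.mem j).2.1 z))]
    exact hz
  obtain ⟨D1, hD1, hD1b⟩ := Metric.isOpen_iff.1 hXic.isClosed.isOpen_compl _ hpn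
  -- the distance to the bad values
  have hpB' : aM L α F (Phi p.rep) ∉ BB L B := by
    intro h1
    have h2 : (Submodule.Quotient.mk (aM L α F (Phi p.rep)) : ℂ ⧸ L.lattice) ∈ B := h1
    rw [aM_Phi hα hp] at h2
    exact hpB h2
  obtain ⟨D2, hD2, hD2b⟩ := hb.far hpB'
  set D : ℝ := min (min D1 D2) 1 with hD
  have hD0 : 0 < D := lt_min (lt_min hD1 hD2) one_pos
  have hDM : ∀ M ∈ Xi e, D ≤ ‖Phi p.rep - M‖ := by
    intro M hM
    by_contra hlt
    have h1 : M ∈ ball (Phi p.rep) D1 := by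
      rw [mem_ball, dist_comm, dist_eq_norm]
      exact (not_le.1 hlt).trans_le ((min_le_left _ _).trans (min_le_left _ _))
    exact hD1b h1 hM
  have hfar : Far (BB L B) (aM L α F) D (Phi p.rep) := fun b hbb =>
    ((min_le_left _ _).trans (min_le_right _ _)).trans (hD2b b hbb)
  obtain ⟨C, L', hC, hL', hdisc⟩ := disc_truncB hT hG hb hf hE hK' hLM one_pos
  obtain ⟨L1, hL1, hlip⟩ := TD.lip hT
  have hL10 : 0 < L1 := one_pos.trans_le hL1
  have hL0 : 0 < L' := one_pos.trans_le hL'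
  have hDε : 0 < D ^ (1 + (1 : ℝ)) := Real.rpow_pos_of_pos hD0 _
  refine ⟨C / D ^ (1 + (1 : ℝ)), min (D / (2 * L')) (D / L1), by positivity, by positivity,
    fun q hq hqB => ?_, fun P hP hPT s hs t ht => ?_⟩
  · obtain ⟨l, hl, h1⟩ := hlip _ (mem_TF hq) _ (mem_TF hp)
    have h2 : aM L α F (Phi q.rep) - l ∈ BB L B := by
      have h3 : aM L α F (Phi q.rep) ∈ BB L B := by
        change (Submodule.Quotient.mk (aM L α F (Phi q.rep)) : ℂ ⧸ L.lattice) ∈ B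
        rw [aM_Phi hα hq]
        exact hqB
      have h4 := hb.inv _ h3 _ ((La L).neg_mem hl)
      rwa [← sub_eq_add_neg] at h4
    have h3 := hfar _ h2
    have h4 : D ≤ L1 * ‖Phi q.rep - Phi p.rep‖ := by
      refine h3.trans (le_trans (le_of_eq ?_) h1)
      rw [← norm_neg]
      congr 1
      ring
    refine (min_le_right _ _).trans ?_
    rw [div_le_iff₀ hL10]
    linarith
  · exact min_shrink (min_le_left _ _) (hdisc D hD0 (min_le_right _ _) _ (mem_TF hp) hDM hfar P hP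
      hPT s hs t ht)

/-- **Kobayashi hyperbolicity modulo the fibres over `B` and the curves over the identity.** -/
theorem kobM (hF : ∀ i, IsForm (F i)) (hα : HolToTorus (Cone F) L α) (hB : B.Finite)
    (h : HasReduction F α B) {p q : ℙ ℂ (Fin (n + 1) → ℂ)} (hp : p.rep ∈ Cone F)
    (hq : q.rep ∈ Cone F) (hpq : p ≠ q) (hpB : α p.rep ∉ B)
    (hpS : ∀ g, HolIn F g → (∀ z, α (g z).rep = Submodule.Quotient.mk z) → ∀ z, p ≠ g z) :
    0 < kobayashi (Cone F) p q := by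
  obtain ⟨n1, ι1, F1, α1, ρ, hF1, hα1, hI, d1, k1, m1, ι', F', α', Q, κ, η, hS⟩ := h
  obtain ⟨hR, hf⟩ := red_rig hF1 hα1 hB hS
  refine transfer_kob (Z := {p₁ | ∃ g, HolIn F1 g ∧ (∀ z, α1 (g z).rep = Submodule.Quotient.mk z) ∧
    ∃ z, p₁ = g z}) hF hF1 hα hα1 hB hI (fun p₁ hp₁ hp₁B hp₁Z => ?_) hp hq hpq hpB ?_
  · exact kobX hF1 hR hα1 hB hf hp₁ hp₁B fun g hg hg' z hz => hp₁Z ⟨g, hg, hg', z, hz⟩
  · rintro p₁ ⟨c, hc⟩ ⟨g, hg, hgα, z0, rfl⟩
    -- the curve in `{F = 0}`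
    obtain ⟨σ, hσmap, hσinv, hσreg⟩ := H662.exists_inv hI
    have hρp := hI.map _ hp hpB
    have hc0 : c ≠ 0 := H662.ne_zero_of_rep hc
    have hgood : α1 (g z0).rep ∉ B := by
      rw [hc, hα1.homog _ hρp.1 c hc0, hρp.2]
      exact hpB
    obtain ⟨g', hg1, hg2, hg3⟩ := push_curve hF1 hF hα1 hα hB hσmap hσreg isOpen_univ
      isPreconnected_univ (fun z _ => hg.1 z) (fun z _ => hg.2 z) (mem_univ z0) hgood
    refine hpS g' ⟨fun z => hg1 z (mem_univ z), fun z => (hg2 z (mem_univ z)).1⟩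
      (fun z => by rw [(hg2 z (mem_univ z)).2, hgα z]) z0 ?_
    obtain ⟨c', hc'⟩ := hg3 z0 (mem_univ z0) hgood
    have hcone := hg.2 z0
    obtain ⟨c'', hc''⟩ := hσinv _ hcone hgood
    obtain ⟨h3, h4⟩ := hσmap _ hcone hgood
    have hc0' := H662.ne_zero_of_rep hc'
    have hc0'' := H662.ne_zero_of_rep hc''
    obtain ⟨b, hb⟩ := H662.inj_rho hI hp hpB h3 (by rw [h4]; exact hgood) (c := c⁻¹ * c'')
      (mul_ne_zero (inv_ne_zero hc0) hc0'')
      (by rw [mul_smul, ← hc'', hc, smul_smul, inv_mul_cancel₀ hc0, one_smul])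
    refine H662.proj_eq (c := b * c'⁻¹) ?_
    rw [hc', smul_smul, mul_assoc, inv_mul_cancel₀ hc0', mul_one]
    exact hb

end Pool.Agent.H918.SS
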