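import Pool.Agent.H918.E.Virt
import Pool.Agent.H918.E.Epic
import Pool.Agent.H918.E.Ekob
import Pool.Agent.H918.E.KobM

/-! The theorems on all special sets and on the Kobayashi pseudodistance, for projective varieties
with a finite unramified covering which has a semistable reduction. -/

set_option autoImplicit false

open Filter Topology Metric Set LinearAlgebra.Projectivization

namespace Pool.Agent.H918.SS

open FF Pool.Agent.Y190.OP Pool.Agent.W602.GT Pool.Agent.N154.GG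
open Pool.Agent.N155 (TX isCompact_TX TX_PM exists_shift nz nz_Phi nz_dich codis_ev)

variable {m n : ℕ} {ι ι' : Type} {F : ι → MvPolynomial (Fin (n + 1)) ℂ}
  {F' : ι' → MvPolynomial (Fin (m + 1)) ℂ} {d : ℕ} {K : Type} [Field K]
  [Algebra ℂ K] {y : Fin (n + 1) → K} {L : PeriodPair}
  {Q : Fin (n + 1) → MvPolynomial (Fin (m + 1)) ℂ}
  {α : (Fin (m + 1) → ℂ) → ℂ ⧸ L.lattice} {B : Set (ℂ ⧸ L.lattice)}

/-- punctured discs -/
theorem picV (hF : ∀ i, IsForm (F i)) (hF' : ∀ i, IsForm (F' i)) (hC : EtaleCovering F F' Q)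
    (hα : HolToTorus (Cone F') L α) (hB : B.Finite) (h : HasReduction F' α B) :
    ∃ S₂ : Set (ℂ → ℙ ℂ (Fin (n + 1) → ℂ)), S₂.Finite ∧
      (∀ g ∈ S₂, HolIn F g ∧ ∃ g', HolIn F' g' ∧ (∀ z, α (g' z).rep = Submodule.Quotient.mk z) ∧
          ∀ z, ∃ c : ℂ, mapBy Q (g' z).rep = c • (g z).rep) ∧
      ∀ f, PunctIn F f → Extends F f ∨ (∃ b ∈ B, ∀ z ∈ PDisc, OverPoint F' α Q b (f z).rep) ∨
        ∃ g ∈ S₂, ∃ φ : ℂ → ℂ, DifferentiableOn ℂ φ {z | z.re < 0} ∧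
          ∀ z : ℂ, z.re < 0 → f (Complex.exp z) = g (φ z) := by
  obtain ⟨S', b1, b2, b3⟩ := picM hF' hα hB h
  obtain ⟨S₂, c1, c2, c3⟩ := etale_pic hF' hF hC b1 (fun g hg => (b2 g hg).1) b3
  refine ⟨S₂, c1, fun g hg => ?_, c3⟩
  obtain ⟨e1, g', hg', e2⟩ := c2 g hg
  exact ⟨e1, g', (b2 g' hg').1, (b2 g' hg').2, e2⟩

/-- **All special sets.** -/
theorem allV (hX : ProjVariety F d y) (hd : 2 ≤ d) (hF' : ∀ i, IsForm (F' i))
    (hC : EtaleCovering F F' Q) (hα : HolToTorus (Cone F') L α) (hB : B.Finite)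
    (h : HasReduction F' α B) :
    ∃ (S : Set (ℂ → ℙ ℂ (Fin (n + 1) → ℂ))) (k : ℕ), S.Finite ∧ 0 < k ∧
      (∀ g ∈ S, HolIn F g ∧ (∀ l ∈ L.lattice, ∀ z, g (z + k * l) = g z) ∧
        ∃ g', HolIn F' g' ∧ (∀ z, α (g' z).rep = Submodule.Quotient.mk z) ∧
          ∀ z, ∃ c : ℂ, mapBy Q (g' z).rep = c • (g z).rep) ∧
      (∀ f, PunctIn F f → Extends F f ∨ (∃ b ∈ B, ∀ z ∈ PDisc, OverPoint F' α Q b (f z).rep) ∨
        ∃ g ∈ S, ∃ φ : ℂ → ℂ, DifferentiableOn ℂ φ {z | z.re < 0} ∧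
          ∀ z : ℂ, z.re < 0 → f (Complex.exp z) = g (φ z)) ∧
      (∀ f, HolIn F f → (∀ z w, f z = f w) ∨ (∃ b ∈ B, ∀ z, OverPoint F' α Q b (f z).rep) ∨
        ∃ g ∈ S, ∃ φ : ℂ → ℂ, Differentiable ℂ φ ∧ ∀ z, f z = g (φ z)) ∧
      (∀ (m : ℕ) (h : (Fin m → ℂ) → Fin (n + 1) → ℂ), MeroIn F h →
        (∀ z, h z ≠ 0 → ∃ b ∈ B, OverPoint F' α Q b (h z)) ∨
        ∃ g ∈ S, ∀ G : MvPolynomial (Fin (n + 1)) ℂ, IsForm G → (∀ z, val (g z).rep G = 0) →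
          ∀ z, val (h z) G = 0) ∧
      (∀ (K' : Type) [Field K'] [Algebra ℂ K'] (y' : Fin (n + 1) → K'), SubVar F K' 1 y' →
        ¬ GeneralType ℂ K' 1 →
        (∀ H : MvPolynomial (Fin (n + 1)) ℂ, IsForm H →
          (∀ u ∈ Cone F, (∃ b ∈ B, OverPoint F' α Q b u) → val u H = 0) → val y' H = 0) ∨
        ∃ g ∈ S, ∀ G : MvPolynomial (Fin (n + 1)) ℂ, IsForm G →
          (val y' G = 0 ↔ ∀ z, val (g z).rep G = 0)) ∧
      ∃ G : MvPolynomial (Fin (n + 1)) ℂ, IsForm G ∧ val y G ≠ 0 ∧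
        (∀ g ∈ S, ∀ z, val (g z).rep G = 0) ∧
        ∀ H : MvPolynomial (Fin (n + 1)) ℂ, IsForm H → val y H ≠ 0 →
          (∀ u ∈ Cone F, (∃ b ∈ B, OverPoint F' α Q b u) → val u H = 0) →
          IsForm (G * H) ∧ val y (G * H) ≠ 0 ∧
          (∀ f, PunctIn F f → Extends F f ∨ ∀ z ∈ PDisc, val (f z).rep (G * H) = 0) ∧
          (∀ f, HolIn F f → (∀ z w, f z = f w) ∨ ∀ z, val (f z).rep (G * H) = 0) ∧
          (∀ (m : ℕ) (h : (Fin m → ℂ) → Fin (n + 1) → ℂ), MeroIn F h →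
            ∀ z, h z ≠ 0 → val (h z) (G * H) = 0) ∧
          ∀ (K' : Type) [Field K'] [Algebra ℂ K'] (y' : Fin (n + 1) → K'), SubVar F K' 1 y' →
            ¬ GeneralType ℂ K' 1 → val y' (G * H) = 0 := by
  obtain ⟨S₂, c1, c2, c3⟩ := picV hX.form hF' hC hα hB h
  exact specV hX hd hF' hC hα hB h c1 c2 c3

/-- **Kobayashi hyperbolicity modulo the fibres over `B` and the elliptic curves.** -/
theorem kobV (hF : ∀ i, IsForm (F i)) (hF' : ∀ i, IsForm (F' i)) (hC : EtaleCovering F F' Q)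
    (hα : HolToTorus (Cone F') L α) (hB : B.Finite) (h : HasReduction F' α B)
    {p q : ℙ ℂ (Fin (n + 1) → ℂ)} (hp : p.rep ∈ Cone F) (hq : q.rep ∈ Cone F) (hpq : p ≠ q)
    {p' : ℙ ℂ (Fin (m + 1) → ℂ)} (hp' : p'.rep ∈ Cone F')
    (hpp : ∃ c : ℂ, mapBy Q p'.rep = c • p.rep) (hpB : α p'.rep ∉ B)
    (hpS : ∀ g, HolIn F' g → (∀ z, α (g z).rep = Submodule.Quotient.mk z) → ∀ z, p' ≠ g z) :
    0 < kobayashi (Cone F) p q := by
  refine etale_kob hF' hF hC hp hq hp' hpp fun q' hq' hqq => ?_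
  refine kobM hF' hα hB h hp' hq' ?_ hpB hpS
  rintro rfl
  exact hpq (over_unique hC hp' hpp hqq)

end Pool.Agent.H918.SS
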