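import Pool.Agent.H918.E.Vuh

/-! BD1: the values are bounded outside of neighbourhoods of the points over bad values. -/

set_option autoImplicit false

open Filter Topology Metric Set

namespace Pool.Agent.H918.SS

open Pool.Agent.Y190.OP Pool.Agent.N155 Pool.Agent.N154.GG

variable {N M : ℕ} {T : Set (Mat N)} {Λ : AddSubgroup ℂ} {a : Mat N → ℂ} {T' : Set (Mat M)}
  {a' : Mat M → ℂ} {p : Mat M → Mat N} {𝔅 : Set ℂ} {δ : ℝ} {κ : Type} {k : ℕ}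
  {η : κ → (Fin M → ℂ) → (Fin M → ℂ) → ℂ}

namespace H353BD1

/-- bounded sequences converge along ultrafilters -/
theorem ultra_lim {E : Type*} [NormedAddCommGroup E] [ProperSpace E] {𝓤 : Ultrafilter ℕ}
    {f : ℕ → E} {R : ℝ} (hf : ∀ᶠ m in (𝓤 : Filter ℕ), ‖f m‖ ≤ R) :
    ∃ v : E, Tendsto f 𝓤 (𝓝 v) := by
  have h1 : ((𝓤.map f : Ultrafilter E) : Filter E) ≤ 𝓟 (closedBall 0 R) := by
    rw [le_principal_iff]
    change ∀ᶠ m in (𝓤 : Filter ℕ), f m ∈ closedBall 0 R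
    filter_upwards [hf] with m hm
    exact mem_closedBall_zero_iff.2 hm
  obtain ⟨v, -, hv⟩ := (isCompact_closedBall (0 : E) R).ultrafilter_le_nhds (𝓤.map f) h1
  exact ⟨v, hv⟩

/-- local bound -/
theorem local_bound (hT' : TD T' Λ a') (hb : Bd Λ 𝔅 δ)
    (hc : Cov T Λ a T' a' 𝔅 p) (hL : LF k T' Λ a' 𝔅 η) {𝓤 : Ultrafilter ℕ} {g : ℂ → Mat N}
    {α β : ℂ} {B B' : ℝ} {P Q : ℕ → ℂ → Mat N} {φ wt : ℕ → ℂ → ℂ}
    (h : RDl T Λ a 𝓤 g (fun t => α * t + β) B B' P Q φ wt) (q : κ) (l : Fin M)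
    {y0 : Mat M} (hy0 : y0 ∈ T') (hgood : a' y0 ∉ 𝔅) :
    ∃ W ∈ 𝓝 y0, ∃ C : ℝ, ∀ t : ℂ, ∀ y ∈ W, y ∈ T' → a' y ∉ 𝔅 → p y = g (α * t + β) →
      ∀ θ, Val k T' Λ a' p η 𝓤 P Q wt q l t y θ → ‖θ‖ ≤ C := by
  obtain ⟨O, O', σ, Lc, hO, hO', hpO, hyO', hLc, hlip, hsec, huni, -, -⟩ := hc.loc y0 hy0 hgood
  obtain ⟨i, O2, r, u, V, H, K, hO2, hyO2, hO2V, hV, hK, hH, hu, hunz, hlim⟩ := hL.loc y0 hy0
  have hi0 := (hO2V y0 hyO2).1
  obtain ⟨L3, O3, hL3, hO3, hyO3, -, hlip3, -⟩ := lip_chart hi0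
  have hB' := h.B'0
  -- a compact neighbourhood of the chart point
  obtain ⟨ε, hε, hεV⟩ := Metric.nhds_basis_closedBall.mem_iff.1
    (hV.mem_nhds (hO2V y0 hyO2).2)
  -- the lower bound for the `u j`
  have hu0 : ∀ j, 0 < ‖u j y0‖ := fun j => norm_pos_iff.2 (hunz y0 ⟨hyO2, hy0⟩ hgood j)
  have hucont : ∀ j, ContinuousAt (u j) y0 := fun j =>
    (hu j).1.continuousAt (hO2.mem_nhds hyO2)
  have hev1 : ∀ᶠ y in 𝓝 y0, ∀ j, ‖u j y0‖ / 2 < ‖u j y‖ := by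
    rw [eventually_all]
    intro j
    exact (hucont j).norm.eventually_const_lt (half_lt_self (hu0 j))
  have hev2 : ∀ᶠ y in 𝓝 y0, chart i y ∈ closedBall (chart i y0) ε :=
    (continuousAt_chart hi0).eventually (closedBall_mem_nhds _ hε)
  set KK : ℝ := K * (Lc * B') with hKK
  have hKK0 : 0 ≤ KK := by positivity
  set R : ℝ := ∑ j, KK / (‖u j y0‖ / 2) with hR
  have hRj : ∀ j, KK / (‖u j y0‖ / 2) ≤ R := by
    intro j
    refine Finset.single_le_sum (f := fun j => KK / (‖u j y0‖ / 2)) (fun k _ => ?_)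
      (Finset.mem_univ j)
    exact div_nonneg hKK0 (half_pos (hu0 k)).le
  have hR0 : 0 ≤ R := Finset.sum_nonneg fun k _ => div_nonneg hKK0 (half_pos (hu0 k)).le
  have hcomp : IsCompact (closedBall (chart i y0) ε ×ˢ closedBall (0 : Fin r → ℂ) R) :=
    (isCompact_closedBall _ _).prod (isCompact_closedBall _ _)
  obtain ⟨CH, hCH⟩ := hcomp.exists_bound_of_continuousOn (f := H q)
    ((hH q).continuousOn.mono (prod_mono hεV (subset_univ _)))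
  refine ⟨(O' ∩ (O2 ∩ O3)) ∩ ({y | ∀ j, ‖u j y0‖ / 2 < ‖u j y‖} ∩
      {y | chart i y ∈ closedBall (chart i y0) ε}),
    inter_mem (inter_mem (hO'.mem_nhds hyO') (inter_mem (hO2.mem_nhds hyO2) (hO3.mem_nhds hyO3)))
      (inter_mem hev1 hev2), CH * (‖chart i y0‖ + ε) ^ k, ?_⟩
  rintro t y ⟨⟨hyO'1, hyO21, hyO31⟩, hyu, hych⟩ hyT hyg hpy θ hθ
  obtain ⟨hpyO, hσpy⟩ := huni y ⟨hyO'1, hyT⟩
  have hpyT : p y ∈ T := hc.map y hyT
  -- the points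
  have hPlim : Tendsto (fun m => P m t) 𝓤 (𝓝 (p y)) := by
    rw [hpy]
    exact h.cP.pointwise (mem_univ t)
  have hQlim : Tendsto (fun m => Q m t) 𝓤 (𝓝 (p y)) := by
    rw [hpy]
    exact h.cQ.pointwise (mem_univ t)
  have hPO : ∀ᶠ m in (𝓤 : Filter ℕ), P m t ∈ O ∩ T := by
    filter_upwards [hPlim.eventually (hO.mem_nhds hpyO), h.pt t] with m e1 e2
    exact ⟨e1, e2.1⟩
  have hQO : ∀ᶠ m in (𝓤 : Filter ℕ), Q m t ∈ O ∩ T := by
    filter_upwards [hQlim.eventually (hO.mem_nhds hpyO), h.pt t] with m e1 e2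
    exact ⟨e1, e2.2.1⟩
  have hσlim : ∀ {F : ℕ → Mat N}, Tendsto F 𝓤 (𝓝 (p y)) →
      (∀ᶠ m in (𝓤 : Filter ℕ), F m ∈ O ∩ T) → Tendsto (fun m => σ (F m)) 𝓤 (𝓝 y) := by
    intro F hF hFO
    rw [tendsto_iff_norm_sub_tendsto_zero]
    have h1 : Tendsto (fun m => Lc * ‖F m - p y‖) 𝓤 (𝓝 0) := by
      have := (tendsto_iff_norm_sub_tendsto_zero.1 hF).const_mul Lc
      rwa [mul_zero] at this
    refine squeeze_zero' (Eventually.of_forall fun m => norm_nonneg _) ?_ h1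
    filter_upwards [hFO] with m hm
    have := hlip _ hm _ ⟨hpyO, hpyT⟩
    rwa [hσpy] at this
  have hP'lim := hσlim hPlim hPO
  have hQ'lim := hσlim hQlim hQO
  have hdiff : ∀ᶠ m in (𝓤 : Filter ℕ), ‖wt m t‖ * ‖σ (Q m t) - σ (P m t)‖ ≤ Lc * B' := by
    filter_upwards [hPO, hQO, h.bdp t] with m e1 e2 e3
    have e4 := hlip _ e2 _ e1
    calc ‖wt m t‖ * ‖σ (Q m t) - σ (P m t)‖ ≤ ‖wt m t‖ * (Lc * ‖Q m t - P m t‖) :=
          mul_le_mul_of_nonneg_left e4 (norm_nonneg _)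
      _ = Lc * (‖Q m t - P m t‖ * ‖wt m t‖) := by ring
      _ ≤ Lc * B' := mul_le_mul_of_nonneg_left e3 hLc
  -- the limit vector
  have hvb : ∀ᶠ m in (𝓤 : Filter ℕ),
      ‖wt m t • (chart i (σ (Q m t)) - chart i (σ (P m t)))‖ ≤ L3 * (Lc * B') := by
    filter_upwards [hdiff, hP'lim.eventually (hO3.mem_nhds hyO31),
      hQ'lim.eventually (hO3.mem_nhds hyO31)] with m e1 e2 e3
    rw [norm_smul]
    have e4 := hlip3 _ e3 _ e2
    calc ‖wt m t‖ * ‖chart i (σ (Q m t)) - chart i (σ (P m t))‖ ≤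
          ‖wt m t‖ * (L3 * ‖σ (Q m t) - σ (P m t)‖) :=
          mul_le_mul_of_nonneg_left e4 (norm_nonneg _)
      _ = L3 * (‖wt m t‖ * ‖σ (Q m t) - σ (P m t)‖) := by ring
      _ ≤ L3 * (Lc * B') := mul_le_mul_of_nonneg_left e1 hL3
  obtain ⟨v, hv⟩ := ultra_lim hvb
  have hVL : VL T' Λ a' 𝓤 i (fun m => σ (P m t)) (fun m => σ (Q m t)) (fun m => wt m t) y v := by
    refine ⟨hyT, (hO2V y hyO21).1, ?_, hP'lim, hQ'lim, hv⟩
    filter_upwards [hPO, hQO, h.pt t] with m e1 e2 e3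
    have s1 := hsec _ e1
    have s2 := hsec _ e2
    refine ⟨s1.1, s2.1, ?_⟩
    have o1 := hc.ovr _ s1.1
    have o2 := hc.ovr _ s2.1
    rw [s1.2] at o1
    rw [s2.2] at o2
    have o3 := Λ.sub_mem (Λ.sub_mem o1 o2) (Λ.sub_mem e3.2.2.1 e3.2.2.2)
    have e : a' (σ (P m t)) - a' (σ (Q m t)) =
        a' (σ (P m t)) - a (P m t) - (a' (σ (Q m t)) - a (Q m t)) -
          (φ m t - a (P m t) - (φ m t - a (Q m t))) := by ring
    rw [e]
    exact o3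
  have hval : Val k T' Λ a' p η 𝓤 P Q wt q l t y (η q (chart i y) v * chart i y l ^ k) := by
    refine ⟨i, _, _, v, hVL, ?_, rfl⟩
    filter_upwards [hPO, hQO] with m e1 e2
    exact ⟨(hsec _ e1).2, (hsec _ e2).2⟩
  rw [val_unique hT' hb hc hL hyg hθ hval]
  obtain ⟨s, hs, hηs⟩ := hlim 𝓤 _ _ _ y v hVL hyO21 hyg
  have hsb : ∀ j, ‖s j‖ ≤ KK := by
    intro j
    refine le_of_tendsto (hs j).norm ?_
    filter_upwards [hdiff, hP'lim.eventually (hO2.mem_nhds hyO21),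
      hQ'lim.eventually (hO2.mem_nhds hyO21)] with m e1 e2 e3
    rw [norm_mul]
    have e4 := (hu j).2.2 _ e3 _ e2
    calc ‖wt m t‖ * ‖u j (σ (Q m t)) - u j (σ (P m t))‖ ≤
          ‖wt m t‖ * (K * ‖σ (Q m t) - σ (P m t)‖) :=
          mul_le_mul_of_nonneg_left e4 (norm_nonneg _)
      _ = K * (‖wt m t‖ * ‖σ (Q m t) - σ (P m t)‖) := by ring
      _ ≤ K * (Lc * B') := mul_le_mul_of_nonneg_left e1 hK
  have harg : (chart i y, fun j => s j / u j y) ∈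
      closedBall (chart i y0) ε ×ˢ closedBall (0 : Fin r → ℂ) R := by
    refine ⟨hych, ?_⟩
    rw [mem_closedBall_zero_iff, pi_norm_le_iff_of_nonneg hR0]
    intro j
    rw [norm_div]
    refine le_trans ?_ (hRj j)
    exact div_le_div₀ hKK0 (hsb j) (half_pos (hu0 j)) (hyu j).le
  rw [norm_mul, hηs q, norm_pow]
  have b1 := hCH _ harg
  have b2 : ‖chart i y l‖ ≤ ‖chart i y0‖ + ε := by
    have e1 : ‖chart i y l‖ ≤ ‖chart i y‖ := norm_le_pi_norm _ l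
    have e2 : ‖chart i y - chart i y0‖ ≤ ε := by
      have := mem_closedBall.1 hych
      rwa [dist_eq_norm] at this
    have e3 : ‖chart i y‖ ≤ ‖chart i y - chart i y0‖ + ‖chart i y0‖ := by
      have := norm_add_le (chart i y - chart i y0) (chart i y0)
      rwa [sub_add_cancel] at this
    linarith
  exact mul_le_mul b1 (pow_le_pow_left₀ (norm_nonneg _) b2 k) (pow_nonneg (norm_nonneg _) k)
    ((norm_nonneg _).trans b1)

end H353BD1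

open H353BD1 in
/-- BD1: the values are bounded outside of neighbourhoods of the points over bad values -/
theorem val_bound (hT : TD T Λ a) (hT' : TD T' Λ a') (hb : Bd Λ 𝔅 δ)
    (hc : Cov T Λ a T' a' 𝔅 p) (hL : LF k T' Λ a' 𝔅 η) {𝓤 : Ultrafilter ℕ} {g : ℂ → Mat N}
    {α β : ℂ} {B B' : ℝ} {P Q : ℕ → ℂ → Mat N} {φ wt : ℕ → ℂ → ℂ} (hα : α ≠ 0)
    (h : RDl T Λ a 𝓤 g (fun t => α * t + β) B B' P Q φ wt) (q : κ) (l : Fin M) {ρ : ℝ}
    (hρ : 0 < ρ) : ∃ C : ℝ, ∀ t : ℂ, (∀ z : ℂ, α * z + β ∈ 𝔅 → ρ ≤ ‖t - z‖) →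
      ∀ y ∈ T', p y = g (α * t + β) → ∀ θ, Val k T' Λ a' p η 𝓤 P Q wt q l t y θ → ‖θ‖ ≤ C := by
  have hr : 0 < ‖α‖ * ρ := mul_pos (norm_pos_iff.2 hα) hρ
  have key : ∀ t : ℂ, (∀ z : ℂ, α * z + β ∈ 𝔅 → ρ ≤ ‖t - z‖) → ∀ y ∈ T',
      p y = g (α * t + β) → ∀ b ∈ 𝔅, ‖α‖ * ρ ≤ ‖a' y - b‖ := by
    intro t ht y hy hpy b hbb
    have l1 := hc.ovr y hy
    have l2 := h.gov (α * t + β)
    rw [hpy] at l1
    have hb' := hb.inv b hbb _ (Λ.sub_mem l2 l1)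
    have e1 : b + (α * t + β - a (g (α * t + β)) - (a' y - a (g (α * t + β)))) =
        α * ((b + (α * t + β) - a' y - β) / α) + β := by
      field_simp
      ring
    rw [e1] at hb'
    have h1 := ht _ hb'
    have e2 : α * (t - (b + (α * t + β) - a' y - β) / α) = a' y - b := by
      field_simp
      ring
    rw [← e2, norm_mul]
    exact mul_le_mul_of_nonneg_left h1 (norm_nonneg _)
  have hmain : ∃ C : ℝ, ∀ t : ℂ, (∀ z : ℂ, α * z + β ∈ 𝔅 → ρ ≤ ‖t - z‖) →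
      ∀ y ∈ T', y ∈ T' → p y = g (α * t + β) → ∀ θ, Val k T' Λ a' p η 𝓤 P Q wt q l t y θ →
      ‖θ‖ ≤ C := by
    refine IsCompact.induction_on (p := fun S : Set (Mat M) => ∃ C : ℝ, ∀ t : ℂ,
      (∀ z : ℂ, α * z + β ∈ 𝔅 → ρ ≤ ‖t - z‖) →
      ∀ y ∈ S, y ∈ T' → p y = g (α * t + β) → ∀ θ, Val k T' Λ a' p η 𝓤 P Q wt q l t y θ →
      ‖θ‖ ≤ C) hT'.comp ?_ ?_ ?_ ?_
    · exact ⟨0, fun t _ y hy => absurd hy (notMem_empty y)⟩
    · rintro S S' hSS' ⟨C, hC⟩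
      exact ⟨C, fun t ht y hy => hC t ht y (hSS' hy)⟩
    · rintro S S' ⟨C, hC⟩ ⟨C', hC'⟩
      refine ⟨max C C', fun t ht y hy hyT hpy θ hθ => ?_⟩
      rcases hy with hy | hy
      · exact (hC t ht y hy hyT hpy θ hθ).trans (le_max_left _ _)
      · exact (hC' t ht y hy hyT hpy θ hθ).trans (le_max_right _ _)
    · intro y0 hy0
      by_cases hbad : a' y0 ∈ 𝔅
      · obtain ⟨O, w, hO, hyO, hw, haw, -⟩ := hT'.loc y0 hy0
        have h1 : ∀ᶠ y in 𝓝 y0, ‖w y - w y0‖ < ‖α‖ * ρ := by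
          filter_upwards [Metric.tendsto_nhds.1 (hw y0 hyO).continuousAt _ hr] with y hy
          rwa [dist_eq_norm] at hy
        refine ⟨_, mem_nhdsWithin_of_mem_nhds (inter_mem (hO.mem_nhds hyO) h1), 0, ?_⟩
        rintro t ht y ⟨hyO1, hyw⟩ hyT hpy θ hθ
        exfalso
        have l1 := haw y ⟨hyO1, hyT⟩
        have l2 := haw y0 ⟨hyO, hy0⟩
        have hb' := hb.inv _ hbad _ (Λ.sub_mem l1 l2)
        have h2 := key t ht y hyT hpy _ hb'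
        have e1 : a' y - (a' y0 + (a' y - w y - (a' y0 - w y0))) = w y - w y0 := by ring
        rw [e1] at h2
        exact absurd hyw (not_lt.2 h2)
      · obtain ⟨W, hW, C, hC⟩ := local_bound hT' hb hc hL h q l hy0 hbad
        refine ⟨W, mem_nhdsWithin_of_mem_nhds hW, C, ?_⟩
        intro t ht y hy hyT hpy θ hθ
        refine hC t y hy hyT (fun hbb => ?_) hpy θ hθ
        have h2 := key t ht y hyT hpy _ hbb
        rw [sub_self, norm_zero] at h2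
        exact absurd hr (not_lt.2 h2)
  obtain ⟨C, hC⟩ := hmain
  exact ⟨C, fun t ht y hy hpy θ hθ => hC t ht y hy hy hpy θ hθ⟩

end Pool.Agent.H918.SS
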