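import Pool.Agent.H918.E.LF
import Pool.Graph.R_pool_sql_team_seeded_63374d34.N154.DD.Kw

/-! Lifts of periodic curves on the half plane are periodic. -/

set_option autoImplicit false

open Filter Topology Metric Set

namespace Pool.Agent.H918.SS

open Pool.Agent.Y190.OP Pool.Agent.N155 Pool.Agent.N154.GG

variable {N M : ℕ} {T : Set (Mat N)} {Λ : AddSubgroup ℂ} {a : Mat N → ℂ} {T' : Set (Mat M)}
  {a' : Mat M → ℂ} {p : Mat M → Mat N} {𝔅 : Set ℂ} {δ : ℝ}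

namespace H337

theorem add_mem {z : ℂ} (hz : z ∈ HP) (n : ℤ) : z + n * tpi ∈ HP := by
  change (z + (n : ℂ) * tpi).re < 0
  rw [add_tpi_re]
  exact hz

theorem per_aux (hc : Cov T Λ a T' a' 𝔅 p) (hb : Bd Λ 𝔅 δ) {P : ℂ → Mat N} {P' : ℂ → Mat M}
    (hP' : HolP HP P') (hl : ∀ z ∈ HP, P' z ∈ T' ∧ p (P' z) = P z)
    (hg : ∀ z ∈ HP, P z ∈ T ∧ a (P z) ∉ 𝔅) (hper : ∀ z ∈ HP, P (z + tpi) = P z) {z0 : ℂ}
    (hz0 : z0 ∈ HP) (n1 n2 : ℤ) (h0 : P' (z0 + n1 * tpi) = P' (z0 + n2 * tpi)) :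
    ∀ z ∈ HP, P' (z + (n2 - n1 : ℤ) * tpi) = P' z := by
  have hcont : ∀ n : ℤ, ContinuousOn (fun z : ℂ => P' (z + n * tpi)) HP := by
    intro n z hz
    have h1 : ContinuousAt P' (z + n * tpi) := hP'.continuousAt (add_mem hz n)
    exact (ContinuousAt.comp (f := fun z : ℂ => z + n * tpi) h1
      (continuousAt_id.add continuousAt_const)).continuousWithinAt
  have h1 := hc.unique convex_HP.isPreconnected (hcont n1) (hcont n2)
    (fun z hz => (hl _ (add_mem hz n1)).1) (fun z hz => (hl _ (add_mem hz n2)).1)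
    (fun z hz h => by
      have h2 := (hc.bad_iff hb (hl _ (add_mem hz n1)).1).1 h
      rw [(hl _ (add_mem hz n1)).2, per_int hper hz n1] at h2
      exact (hg z hz).2 h2)
    (fun z hz => by
      rw [(hl _ (add_mem hz n1)).2, (hl _ (add_mem hz n2)).2, per_int hper hz n1,
        per_int hper hz n2]) hz0 h0
  intro z hz
  have h2 := h1 (z + ((-n1 : ℤ) : ℂ) * tpi) (add_mem hz (-n1))
  have e1 : z + ((-n1 : ℤ) : ℂ) * tpi + n1 * tpi = z := by
    push_cast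
    ring
  have e2 : z + ((-n1 : ℤ) : ℂ) * tpi + n2 * tpi = z + ((n2 - n1 : ℤ) : ℂ) * tpi := by
    push_cast
    ring
  rw [e1, e2] at h2
  exact h2.symm

theorem per_mul {P' : ℂ → Mat M} {d : ℕ}
    (h : ∀ z ∈ HP, P' (z + ((d : ℤ) : ℂ) * tpi) = P' z) (m : ℕ) :
    ∀ z ∈ HP, P' (z + ((d * m : ℕ) : ℂ) * tpi) = P' z := by
  induction m with
  | zero =>
    intro z _
    simp
  | succ m ih =>
    intro z hz
    have h1 : z + ((d * m : ℕ) : ℂ) * tpi ∈ HP := by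
      have := add_mem hz ((d * m : ℕ) : ℤ)
      rwa [Int.cast_natCast] at this
    have h2 := h _ h1
    rw [ih z hz] at h2
    rw [← h2]
    congr 1
    push_cast
    ring

end H337

/-- PER: all lifts of periodic curves on the half plane are `k!`-periodic -/
theorem Cov.periodic (hc : Cov T Λ a T' a' 𝔅 p) (hb : Bd Λ 𝔅 δ) : ∃ k : ℕ, 0 < k ∧
    ∀ (P : ℂ → Mat N) (P' : ℂ → Mat M), HolP HP P' → (∀ z ∈ HP, P' z ∈ T' ∧ p (P' z) = P z) →
      (∀ z ∈ HP, P z ∈ T ∧ a (P z) ∉ 𝔅) → (∀ z ∈ HP, P (z + tpi) = P z) →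
      ∀ z ∈ HP, P' (z + k * tpi) = P' z := by
  obtain ⟨k0, hk0⟩ := hc.fin
  refine ⟨k0.factorial, Nat.factorial_pos _, ?_⟩
  intro P P' hP' hl hg hper z hz
  have hS : {x | x ∈ T' ∧ p x = P z}.encard ≤ k0 := hk0 (P z) (hg z hz).1 (hg z hz).2
  have hfin : {x | x ∈ T' ∧ p x = P z}.Finite := Set.finite_of_encard_le_coe hS
  have hcard : hfin.toFinset.card ≤ k0 := by
    rw [hfin.encard_eq_coe_toFinset_card] at hS
    exact_mod_cast hS
  obtain ⟨j1, hj1, j2, hj2, hne, heq⟩ := Finset.exists_ne_map_eq_of_card_lt_of_maps_to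
    (s := Finset.range (k0 + 1)) (t := hfin.toFinset) (f := fun j => P' (z + ((j : ℤ) : ℂ) * tpi))
    (by rw [Finset.card_range]; omega) (by
      intro j _
      have h1 := hl _ (H337.add_mem hz (j : ℤ))
      rw [Finset.mem_coe, Set.Finite.mem_toFinset]
      exact ⟨h1.1, by rw [h1.2, per_int hper hz]⟩)
  rw [Finset.mem_range] at hj1 hj2
  have key : ∀ i1 i2 : ℕ, i1 < i2 → i2 < k0 + 1 →
      P' (z + ((i1 : ℤ) : ℂ) * tpi) = P' (z + ((i2 : ℤ) : ℂ) * tpi) →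
      P' (z + (k0.factorial : ℂ) * tpi) = P' z := by
    intro i1 i2 h12 h2 he
    have h3 := H337.per_aux hc hb hP' hl hg hper hz (i1 : ℤ) (i2 : ℤ) he
    obtain ⟨m, hm⟩ : (i2 - i1) ∣ k0.factorial := Nat.dvd_factorial (by omega) (by omega)
    have h4 : ∀ z ∈ HP, P' (z + (((i2 - i1 : ℕ) : ℤ) : ℂ) * tpi) = P' z := by
      intro w hw
      have h5 := h3 w hw
      rw [← Nat.cast_sub h12.le] at h5
      exact h5
    have h6 := H337.per_mul h4 m z hz
    rw [hm]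
    exact h6
  rcases lt_or_gt_of_ne hne with h | h
  · exact key j1 j2 h hj2 heq
  · exact key j2 j1 h hj1 heq.symm

end Pool.Agent.H918.SS
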