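import Pool.Agent.H918.E.LF
import Pool.Agent.H918.D.Cnf
import Pool.Graph.R_pool_sql_team_seeded_63374d34.N154.DD.PGeo

/-! Curves on the punctured disc without hits extend, with uniform oscillation. -/

set_option autoImplicit false

open Filter Topology Metric Set

namespace Pool.Agent.H918.SS

open Pool.Agent.Y190.OP Pool.Agent.N155 Pool.Agent.N154.GG

namespace H400Pun

variable {N : ℕ} {T : Set (Mat N)} {Λ : AddSubgroup ℂ} {a : Mat N → ℂ} {𝔅 : Set ℂ} {δ : ℝ}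

/-- periodic curves on the half plane are curves on the punctured disc -/
theorem desc_holP {P : ℂ → Mat N} (hP : HolP HP P) (hper : ∀ z ∈ HP, P (z + tpi) = P z) :
    HolP PDisc (fun t => P (Complex.log t)) := by
  intro t0 ht0
  have ht00 : t0 ≠ 0 := ht0.2
  obtain ⟨h1, h2⟩ := log_mem_HP ht0
  obtain ⟨V, G, hV, hzV, hd, hF⟩ := hP (Complex.log t0) h1
  set z0 := Complex.log t0 with hz0
  set f : ℂ → ℂ := fun t => z0 + Complex.log (t / t0) with hf
  set S : Set ℂ := {t | t / t0 ∈ Complex.slitPlane} ∩ PDisc with hS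
  have hSo : IsOpen S := by
    refine IsOpen.inter ?_ isOpen_PDisc
    exact Complex.isOpen_slitPlane.preimage (by fun_prop : Continuous fun t : ℂ => t / t0)
  have hfd : DifferentiableOn ℂ f S := by
    intro t ht
    have e4 : DifferentiableAt ℂ Complex.log (t / t0) := Complex.differentiableAt_log ht.1
    have e5 : DifferentiableAt ℂ (fun t : ℂ => t / t0) t := by fun_prop
    exact ((DifferentiableAt.comp (f := fun t : ℂ => t / t0) t e4 e5).const_add
      z0).differentiableWithinAt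
  have hft0 : f t0 = z0 := by
    simp only [hf]
    rw [div_self ht00, Complex.log_one, add_zero]
  have ht0S : t0 ∈ S := ⟨by
    change t0 / t0 ∈ Complex.slitPlane
    rw [div_self ht00]
    exact Complex.one_mem_slitPlane, ht0⟩
  refine ⟨S ∩ f ⁻¹' (V ∩ HP), fun t => G (f t),
    hfd.continuousOn.isOpen_inter_preimage hSo (hV.inter isOpen_HP),
    ⟨ht0S, by
      change f t0 ∈ V ∩ HP
      rw [hft0]
      exact ⟨hzV, h1⟩⟩,
    hd.comp (hfd.mono inter_subset_left) (fun w hw => hw.2.1), fun t ht => ?_⟩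
  obtain ⟨hg1, hg2⟩ := hF (f t) ht.2.1
  refine ⟨hg1, ?_⟩
  have htP : t ∈ PDisc := ht.1.2
  have ht0' : t ≠ 0 := htP.2
  have e1 : Complex.exp (f t) = Complex.exp (Complex.log t) := by
    simp only [hf]
    rw [Complex.exp_add, h2, Complex.exp_log (div_ne_zero ht0' ht00), Complex.exp_log ht0']
    field_simp
  obtain ⟨n, hn⟩ := Complex.exp_eq_exp_iff_exists_int.1 e1
  have e2 := per_int (F := P) hper (log_mem_HP htP).1 n
  have e3 : P (Complex.log t) = P (f t) := by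
    rw [hn]
    exact e2.symm
  change P (Complex.log t) = Phi (G (f t))
  rw [e3]
  exact hg2

/-- the first part -/
theorem osc (h : TD T Λ a) (hb : Bd Λ 𝔅 δ) (hf : FibL T Λ a 𝔅) {ε : ℝ} (hε : 0 < ε) :
    ∃ X : ℝ, 0 < X ∧ ∀ (P : ℂ → Mat N) (φ : ℂ → ℂ) (c : ℂ), HolP HP P → (∀ z ∈ HP, P z ∈ T) →
      (∀ z ∈ HP, P (z + tpi) = P z) → DifferentiableOn ℂ φ HP →
      (∀ z ∈ HP, φ z - a (P z) ∈ Λ ∧ ‖φ z - c‖ ≤ 1 ∧ φ z ∉ 𝔅) →
      ∀ z z' : ℂ, z.re ≤ -X → z'.re ≤ -X → ‖P z - P z'‖ ≤ ε := by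
  obtain ⟨C0, hC0, hG⟩ := grad_free h hb hf
  have hpi : 0 < 2 * Real.pi := Real.two_pi_pos
  obtain ⟨τ, hτ, hconf⟩ := confine h.comp h.sub hε
  set X : ℝ := 2 * Real.pi * C0 / τ + 1 with hX
  have hX0 : 0 < X := by positivity
  refine ⟨X, hX0, fun P φ c hP hPT hper hφ hov => ?_⟩
  have hQg : ∀ w : ℂ, w.re < 0 → ‖fderiv ℝ P w‖ ≤ C0 * (1 / (-w.re)) := by
    intro w hw
    have hwb : ball w (-w.re) ⊆ HP := ball_sub_HP
    have h1 := hG P φ w (-w.re) c (by linarith) ⟨hP.mono hwb,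
      fun t ht => hPT t (hwb ht), hφ.mono hwb,
      fun t ht => (hov t (hwb ht)).1⟩ (fun t ht => (hov t (hwb ht)).2.1)
      (fun t ht => (hov t (hwb ht)).2.2)
    rwa [mul_one_div]
  have hlines : ∀ x : ℝ, x ≤ -X → ∀ y ∈ Icc (0 : ℝ) (2 * Real.pi),
      ∀ y' ∈ Icc (0 : ℝ) (2 * Real.pi),
        ‖P ((x : ℂ) + y * Complex.I) - P ((x : ℂ) + y' * Complex.I)‖ ≤ τ := by
    intro x hx y hy y' hy'
    have h1 := (convex_halfSpace_re_le (-X)).norm_image_sub_le_of_norm_fderiv_le (𝕜 := ℝ) (f := P)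
      (C := C0 * (1 / X))
      (fun z (hz : z.re ≤ -X) => hP.differentiableAt (show z.re < 0 by linarith))
      (fun z (hz : z.re ≤ -X) => (hQg z (by linarith)).trans (by
        apply mul_le_mul_of_nonneg_left _ hC0.le
        exact one_div_le_one_div_of_le hX0 (by linarith)))
      (x := (x : ℂ) + y' * Complex.I) (y := (x : ℂ) + y * Complex.I)
      (show ((x : ℂ) + y' * Complex.I).re ≤ -X by simpa using hx)
      (show ((x : ℂ) + y * Complex.I).re ≤ -X by simpa using hx)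
    refine h1.trans ?_
    have h2 : (x : ℂ) + y * Complex.I - ((x : ℂ) + y' * Complex.I) =
        ((y - y' : ℝ) : ℂ) * Complex.I := by
      push_cast
      ring
    rw [h2, norm_mul, Complex.norm_I, mul_one, Complex.norm_real, Real.norm_eq_abs]
    have h3 : |y - y'| ≤ 2 * Real.pi := by
      rw [abs_le]
      constructor <;> linarith [hy.1, hy.2, hy'.1, hy'.2]
    have h4 : C0 * (1 / X) * |y - y'| ≤ C0 * (1 / X) * (2 * Real.pi) :=
      mul_le_mul_of_nonneg_left h3 (by positivity)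
    refine h4.trans ?_
    rw [mul_one_div, div_mul_eq_mul_div, div_le_iff₀ hX0, hX, mul_add, mul_div_cancel₀ _ hτ.ne']
    linarith
  exact hconf P hP hPT hper (-X) (by linarith) hlines

end H400Pun

open H400Pun in
/-- PUN: curves on the punctured disc without hits -/
theorem punct {N : ℕ} {T : Set (Mat N)} {Λ : AddSubgroup ℂ} {a : Mat N → ℂ} {𝔅 : Set ℂ} {δ : ℝ}
    (h : TD T Λ a) (hb : Bd Λ 𝔅 δ) (hf : FibL T Λ a 𝔅) {ε : ℝ} (hε : 0 < ε) :
    ∃ X : ℝ, 0 < X ∧ ∀ (P : ℂ → Mat N) (φ : ℂ → ℂ) (c : ℂ), HolP HP P → (∀ z ∈ HP, P z ∈ T) →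
      (∀ z ∈ HP, P (z + tpi) = P z) → DifferentiableOn ℂ φ HP →
      (∀ z ∈ HP, φ z - a (P z) ∈ Λ ∧ ‖φ z - c‖ ≤ 1 ∧ φ z ∉ 𝔅) →
      (∀ z z' : ℂ, z.re ≤ -X → z'.re ≤ -X → ‖P z - P z'‖ ≤ ε) ∧
      ∃ E : ℂ → Mat N, HolP (ball 0 1) E ∧ (∀ s ∈ ball (0 : ℂ) 1, E s ∈ T) ∧
        ∀ z ∈ HP, E (Complex.exp z) = P z := by
  obtain ⟨X, hX, hosc⟩ := osc h hb hf hε
  refine ⟨X, hX, fun P φ c hP hPT hper hφ hov => ⟨hosc P φ c hP hPT hper hφ hov, ?_⟩⟩
  have hall : ∀ ε : ℝ, 0 < ε → ∃ X : ℝ, 0 < X ∧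
      ∀ z z' : ℂ, z.re ≤ -X → z'.re ≤ -X → ‖P z - P z'‖ ≤ ε := by
    intro ε hε
    obtain ⟨X, hX, hosc⟩ := osc h hb hf hε
    exact ⟨X, hX, hosc P φ c hP hPT hper hφ hov⟩
  -- the limit
  have hseq : ∀ n : ℕ, (-((n : ℂ) + 1)).re < 0 := by
    intro n
    simp only [Complex.neg_re, Complex.add_re, Complex.natCast_re, Complex.one_re]
    have : (0 : ℝ) ≤ n := Nat.cast_nonneg n
    linarith
  obtain ⟨M0, hM0, ψ, hψ, hlimψ⟩ := h.comp.tendsto_subseq
    (x := fun n : ℕ => P (-((n : ℂ) + 1))) (fun n => hPT _ (hseq n))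
  have hlim : ∀ ε : ℝ, 0 < ε → ∃ X : ℝ, 0 < X ∧ ∀ z : ℂ, z.re ≤ -X → ‖P z - M0‖ ≤ ε := by
    intro ε hε
    obtain ⟨X, hX, hX'⟩ := hall ε hε
    refine ⟨X, hX, fun z hz => ?_⟩
    have h1 : Tendsto (fun n => ‖P z - P (-(((ψ n : ℕ) : ℂ) + 1))‖) atTop (𝓝 ‖P z - M0‖) :=
      (tendsto_const_nhds.sub hlimψ).norm
    refine le_of_tendsto h1 ?_
    obtain ⟨n0, hn0⟩ := exists_nat_ge X
    filter_upwards [eventually_ge_atTop n0] with n hn
    apply hX' z _ hz
    have h2 : (n : ℝ) ≤ (ψ n : ℝ) := by exact_mod_cast hψ.id_le n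
    have h3 : (n0 : ℝ) ≤ (n : ℝ) := by exact_mod_cast hn
    simp only [Complex.neg_re, Complex.add_re, Complex.natCast_re, Complex.one_re]
    linarith
  have hQ := desc_holP hP hper
  have hM0P : M0 ∈ PM := h.sub hM0
  have hext := holP_remove hQ hM0P (by
    intro ε hε
    obtain ⟨A, hA, hA'⟩ := hlim ε hε
    refine ⟨Real.exp (-A), Real.exp_pos _, fun z hz hzA => ?_⟩
    apply hA'
    rw [Complex.log_re, ← Real.log_exp (-A)]
    exact Real.log_le_log (norm_pos_iff.2 hz.2) hzA.le)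
  refine ⟨_, hext, fun s hs => ?_, fun z hz => ?_⟩
  · by_cases h0 : s = 0
    · simp only [if_pos h0]
      exact hM0
    · simp only [if_neg h0]
      exact hPT _ (log_mem_HP ⟨hs, h0⟩).1
  · simp only [if_neg (Complex.exp_ne_zero z)]
    have hzP := exp_mem_PDisc hz
    have e1 : Complex.exp z = Complex.exp (Complex.log (Complex.exp z)) :=
      (log_mem_HP hzP).2.symm
    obtain ⟨n, hn⟩ := Complex.exp_eq_exp_iff_exists_int.1 e1
    have e2 := per_int (F := P) hper (log_mem_HP hzP).1 n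
    have e3 : P z = P (Complex.log (Complex.exp z)) := by
      rw [← e2]
      exact congrArg P hn
    exact e3.symm

end Pool.Agent.H918.SS
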