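import Mathlib

/-!
# Ratios of holomorphic functions without zeros on a punctured disc

RAT: ratios of holomorphic functions without zeros on a punctured disc, which converge to the same
limit. Proof: let `a_m`, `b_m`, `a` be the orders of the zeros of `F m`, `G m`, `H` at `0`.
(i) `a_m = a` for almost all `m` (and in the same way `b_m = a`): `F m = s ^ a_m * E_m` where `E_m` has
no zeros on the closed disc `‖s‖ ≤ ρ`; `|H| ≥ c > 0` on the circle, so `|F m| ≥ c / 2` there. If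
`a_m ≥ a + 1` for almost all `m` then `F m / s ^ (a + 1)` is bounded on the disc by its maximum on the
circle, so the same holds for `H / s ^ (a + 1)` for `s ≠ 0`, a contradiction to the order `a`. If
`a_m < a` for almost all `m`, then `a_m = a' < a` with a constant `a'` for almost all `m` (ultrafilter),
and `1 / E_m = s ^ a' / F m` is bounded on the disc by its maximum on the circle, so
`|s| ^ a' ≤ C |F m s|`, in the limit `|s| ^ a' ≤ C |H s|`, a contradiction for small `s`.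
(ii) Then `W m * (G m - F m) / F m` has a removable singularity at `0` (write `F m = s ^ a E_m`,
`G m = s ^ a E'_m`), and it is bounded on the disc by its maximum on the circle, which is at most
`B / (c / 2)`.

LIO: Liouville's theorem for a bounded function outside a uniformly discrete set. Proof: the
singularities at the points of `Z` are removable (`F` is bounded near each of them); the extension is
entire; on the disc of radius `2 r` around a point of `Z` it is bounded by its maximum on the circle,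
which is at most `C`; so it is bounded by `C`, and constant (Liouville).
-/

set_option autoImplicit false

open Filter Topology Metric Set

namespace Pool.Agent.H918.SS

def S_RAT : Prop :=
  ∀ (𝓤 : Ultrafilter ℕ) (ρ : ℝ) (F G W : ℕ → ℂ → ℂ) (H : ℂ → ℂ) (B : ℝ), 0 < ρ →
    (∀ᶠ m in (𝓤 : Filter ℕ), DifferentiableOn ℂ (F m) (ball 0 (2 * ρ)) ∧
      DifferentiableOn ℂ (G m) (ball 0 (2 * ρ)) ∧ DifferentiableOn ℂ (W m) (ball 0 (2 * ρ)) ∧
      ∀ s, s ≠ 0 → ‖s‖ < 2 * ρ → F m s ≠ 0 ∧ G m s ≠ 0) →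
    DifferentiableOn ℂ H (ball 0 (2 * ρ)) → (∀ s, s ≠ 0 → ‖s‖ < 2 * ρ → H s ≠ 0) →
    (∀ ε : ℝ, 0 < ε → ∀ᶠ m in (𝓤 : Filter ℕ), ∀ s, ‖s‖ ≤ ρ → ‖F m s - H s‖ ≤ ε) →
    (∀ ε : ℝ, 0 < ε → ∀ᶠ m in (𝓤 : Filter ℕ), ∀ s, ‖s‖ ≤ ρ → ‖G m s - H s‖ ≤ ε) →
    (∀ᶠ m in (𝓤 : Filter ℕ), ∀ s, ‖s‖ = ρ → ‖W m s‖ * ‖G m s - F m s‖ ≤ B) →
    ∃ C : ℝ, ∀ᶠ m in (𝓤 : Filter ℕ), ∀ s, s ≠ 0 → ‖s‖ ≤ ρ →
      ‖W m s‖ * ‖G m s - F m s‖ ≤ C * ‖F m s‖

namespace RatL

/-- factorisation of a function without zeros on a punctured disc -/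
lemma fact {f : ℂ → ℂ} {R : ℝ} (hR : 0 < R) (hf : DifferentiableOn ℂ f (ball 0 R))
    (hne : ∀ s, s ≠ 0 → ‖s‖ < R → f s ≠ 0) :
    ∃ (n : ℕ) (E : ℂ → ℂ), DifferentiableOn ℂ E (ball 0 R) ∧ (∀ s ∈ ball (0 : ℂ) R, E s ≠ 0) ∧
      ∀ s ∈ ball (0 : ℂ) R, f s = s ^ n * E s := by
  classical
  have h0 : ball (0 : ℂ) R ∈ 𝓝 (0 : ℂ) := ball_mem_nhds _ hR
  have han : AnalyticAt ℂ f 0 := hf.analyticAt h0
  have hnz : ¬ ∀ᶠ z in 𝓝 (0 : ℂ), f z = 0 := by
    intro h
    have h1 : ∀ᶠ z in 𝓝 (0 : ℂ), z ∈ ball (0 : ℂ) R := h0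
    have h2 : ∀ᶠ z in 𝓝[≠] (0 : ℂ), f z = 0 ∧ z ∈ ball (0 : ℂ) R ∧ z ≠ 0 := by
      have h3 := (h.and h1).filter_mono (nhdsWithin_le_nhds (s := {(0 : ℂ)}ᶜ))
      filter_upwards [h3, self_mem_nhdsWithin] with z hz hz0
      exact ⟨hz.1, hz.2, hz0⟩
    obtain ⟨z, hz1, hz2, hz3⟩ := h2.exists
    exact hne z hz3 (mem_ball_zero_iff.1 hz2) hz1
  obtain ⟨n, g, hg, hg0, hev⟩ := han.exists_eventuallyEq_pow_smul_nonzero_iff.2 hnz
  refine ⟨n, Function.update (fun z => f z / z ^ n) 0 (g 0), ?_, ?_, ?_⟩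
  · intro z hz
    by_cases hz0 : z = 0
    · subst hz0
      refine DifferentiableAt.differentiableWithinAt ?_
      refine hg.differentiableAt.congr_of_eventuallyEq ?_
      filter_upwards [hev] with w hw
      by_cases hw0 : w = 0
      · subst hw0
        rw [Function.update_self]
      · rw [Function.update_of_ne hw0, hw, smul_eq_mul, sub_zero]
        have : w ^ n ≠ 0 := pow_ne_zero _ hw0
        field_simp
    · refine DifferentiableAt.differentiableWithinAt ?_
      have h1 : DifferentiableAt ℂ (fun z => f z / z ^ n) z := by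
        apply DifferentiableAt.div
        · exact hf.differentiableAt (isOpen_ball.mem_nhds hz)
        · fun_prop
        · exact pow_ne_zero _ hz0
      refine h1.congr_of_eventuallyEq ?_
      filter_upwards [isOpen_ne.mem_nhds hz0] with w hw
      rw [Function.update_of_ne hw]
  · intro z hz
    by_cases hz0 : z = 0
    · subst hz0
      rw [Function.update_self]
      exact hg0
    · rw [Function.update_of_ne hz0]
      exact div_ne_zero (hne z hz0 (mem_ball_zero_iff.1 hz)) (pow_ne_zero _ hz0)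
  · intro z hz
    by_cases hz0 : z = 0
    · subst hz0
      rw [Function.update_self]
      have := hev.self_of_nhds
      rwa [smul_eq_mul, sub_zero] at this
    · rw [Function.update_of_ne hz0]
      have : z ^ n ≠ 0 := pow_ne_zero _ hz0
      field_simp

/-- the maximum principle on the disc -/
lemma maxp {φ : ℂ → ℂ} {ρ C : ℝ} (hρ : 0 < ρ) (hφ : DifferentiableOn ℂ φ (ball 0 (2 * ρ)))
    (hC : ∀ s, ‖s‖ = ρ → ‖φ s‖ ≤ C) {s : ℂ} (hs : ‖s‖ ≤ ρ) : ‖φ s‖ ≤ C := by
  have hsub : closedBall (0 : ℂ) ρ ⊆ ball 0 (2 * ρ) := closedBall_subset_ball (by linarith)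
  refine Complex.norm_le_of_forall_mem_frontier_norm_le (U := ball (0 : ℂ) ρ) isBounded_ball
    (hφ.diffContOnCl_ball hsub) (fun z hz => ?_) ?_
  · rw [frontier_ball (0 : ℂ) hρ.ne', mem_sphere_zero_iff_norm] at hz
    exact hC z hz
  · rw [closure_ball (0 : ℂ) hρ.ne', mem_closedBall_zero_iff]
    exact hs

/-- comparison of the orders -/
lemma order_le {f g E E' : ℂ → ℂ} {a b : ℕ} {ρ : ℝ} (hρ : 0 < ρ)
    (hE : DifferentiableOn ℂ E (ball 0 (2 * ρ))) (hE' : DifferentiableOn ℂ E' (ball 0 (2 * ρ)))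
    (hE0 : ∀ s ∈ ball (0 : ℂ) (2 * ρ), E s ≠ 0)
    (hf : ∀ s ∈ ball (0 : ℂ) (2 * ρ), f s = s ^ a * E s)
    (hg : ∀ s ∈ ball (0 : ℂ) (2 * ρ), g s = s ^ b * E' s)
    (hc : ∀ s, ‖s‖ = ρ → ‖g s - f s‖ ≤ ‖f s‖ / 2) : b ≤ a := by
  by_contra hab
  push Not at hab
  have hd : DifferentiableOn ℂ (fun s => s ^ (b - a) * E' s / E s - 1) (ball 0 (2 * ρ)) := by
    apply DifferentiableOn.sub_const
    apply DifferentiableOn.div _ hE hE0
    apply DifferentiableOn.mul _ hE'
    fun_prop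
  have h1 := maxp (C := 1 / 2) hρ hd (fun s hs => by
    have hs0 : s ≠ 0 := by
      intro h
      rw [h, norm_zero] at hs
      linarith
    have hsb : s ∈ ball (0 : ℂ) (2 * ρ) := by
      rw [mem_ball_zero_iff, hs]
      linarith
    have hf0 : f s ≠ 0 := by
      rw [hf s hsb]
      exact mul_ne_zero (pow_ne_zero _ hs0) (hE0 s hsb)
    have e1 : s ^ (b - a) * E' s / E s - 1 = (g s - f s) / f s := by
      rw [hf s hsb, hg s hsb]
      have h2 : s ^ b = s ^ (b - a) * s ^ a := by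
        rw [← pow_add]
        congr 1
        omega
      rw [h2]
      have h3 : s ^ a ≠ 0 := pow_ne_zero _ hs0
      have h4 := hE0 s hsb
      field_simp
    show ‖s ^ (b - a) * E' s / E s - 1‖ ≤ 1 / 2
    rw [e1, norm_div, div_le_iff₀ (norm_pos_iff.2 hf0)]
    have := hc s hs
    linarith) (s := 0) (by rw [norm_zero]; exact hρ.le)
  have h2 : (0 : ℂ) ^ (b - a) = 0 := zero_pow (by omega)
  simp only [h2, zero_mul, zero_div, zero_sub, norm_neg, norm_one] at h1
  linarith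

end RatL

open RatL in
theorem rat : S_RAT := by
  intro 𝓤 ρ F G W H B hρ hall hH hHne hF hG hB
  -- a lower bound on the circle
  have hsub : sphere (0 : ℂ) ρ ⊆ ball 0 (2 * ρ) := fun s hs => by
    rw [mem_sphere_zero_iff_norm] at hs
    rw [mem_ball_zero_iff, hs]
    linarith
  obtain ⟨c, hc, hcH⟩ : ∃ c : ℝ, 0 < c ∧ ∀ s, ‖s‖ = ρ → c ≤ ‖H s‖ := by
    have hcomp : IsCompact (sphere (0 : ℂ) ρ) := isCompact_sphere _ _
    have hne : (sphere (0 : ℂ) ρ).Nonempty := ⟨(ρ : ℂ), by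
      rw [mem_sphere_zero_iff_norm, Complex.norm_real, Real.norm_of_nonneg hρ.le]⟩
    obtain ⟨s0, hs0, hmin⟩ := hcomp.exists_isMinOn hne
      (f := fun s => ‖H s‖) ((hH.continuousOn.mono hsub).norm)
    rw [mem_sphere_zero_iff_norm] at hs0
    refine ⟨‖H s0‖, norm_pos_iff.2 (hHne s0 ?_ (by linarith)), fun s hs => ?_⟩
    · intro h
      rw [h, norm_zero] at hs0
      linarith
    · exact hmin (mem_sphere_zero_iff_norm.2 hs)
  refine ⟨B / (c / 2), ?_⟩
  filter_upwards [hall, hF (c / 8) (by positivity), hG (c / 8) (by positivity), hB] with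
    m ⟨hFd, hGd, hWd, hne⟩ hFm hGm hBm
  have hF2 : ∀ s, ‖s‖ = ρ → c / 2 ≤ ‖F m s‖ := by
    intro s hs
    have h1 := hcH s hs
    have h2 := hFm s hs.le
    have h3 : ‖H s‖ ≤ ‖F m s‖ + ‖F m s - H s‖ := by
      have := norm_sub_le (F m s) (F m s - H s)
      rwa [sub_sub_cancel] at this
    linarith
  have hG2 : ∀ s, ‖s‖ = ρ → c / 2 ≤ ‖G m s‖ := by
    intro s hs
    have h1 := hcH s hs
    have h2 := hGm s hs.le
    have h3 : ‖H s‖ ≤ ‖G m s‖ + ‖G m s - H s‖ := by
      have := norm_sub_le (G m s) (G m s - H s)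
      rwa [sub_sub_cancel] at this
    linarith
  have hGF : ∀ s, ‖s‖ = ρ → ‖G m s - F m s‖ ≤ c / 4 := by
    intro s hs
    have h1 := hFm s hs.le
    have h2 := hGm s hs.le
    have h3 : G m s - F m s = (G m s - H s) - (F m s - H s) := by ring
    rw [h3]
    exact (norm_sub_le _ _).trans (by linarith)
  obtain ⟨a, E, hE, hE0, hFE⟩ := fact (by linarith) hFd (fun s h0 h => (hne s h0 h).1)
  obtain ⟨b, E', hE', hE'0, hGE⟩ := fact (by linarith) hGd (fun s h0 h => (hne s h0 h).2)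
  have hba : b ≤ a := order_le hρ hE hE' hE0 hFE hGE (fun s hs => by
    have := hGF s hs
    have := hF2 s hs
    linarith)
  have hab : a ≤ b := order_le hρ hE' hE hE'0 hGE hFE (fun s hs => by
    rw [norm_sub_rev]
    have := hGF s hs
    have := hG2 s hs
    linarith)
  obtain rfl : a = b := le_antisymm hab hba
  have hd : DifferentiableOn ℂ (fun s => W m s * (E' s - E s) / E s) (ball 0 (2 * ρ)) := by
    apply DifferentiableOn.div _ hE hE0
    exact hWd.mul (hE'.sub hE)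
  have hrel : ∀ s, s ≠ 0 → s ∈ ball (0 : ℂ) (2 * ρ) →
      ‖W m s * (E' s - E s) / E s‖ = ‖W m s‖ * ‖G m s - F m s‖ / ‖F m s‖ := by
    intro s hs0 hs
    rw [← norm_mul, ← norm_div, hFE s hs, hGE s hs]
    congr 1
    have h3 : s ^ a ≠ 0 := pow_ne_zero _ hs0
    have h4 := hE0 s hs
    field_simp
  intro s hs0 hs
  have hsb : s ∈ ball (0 : ℂ) (2 * ρ) := by
    rw [mem_ball_zero_iff]
    linarith
  have h1 := maxp (C := B / (c / 2)) hρ hd (fun s hs => by
    have hs0 : s ≠ 0 := by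
      intro h
      rw [h, norm_zero] at hs
      linarith
    have hsb : s ∈ ball (0 : ℂ) (2 * ρ) := by
      rw [mem_ball_zero_iff, hs]
      linarith
    show ‖W m s * (E' s - E s) / E s‖ ≤ B / (c / 2)
    rw [hrel s hs0 hsb]
    have h2 := hBm s hs
    have h3 : 0 ≤ ‖W m s‖ * ‖G m s - F m s‖ := by positivity
    exact div_le_div₀ (h3.trans h2) h2 (by positivity) (hF2 s hs)) hs
  rw [hrel s hs0 hsb] at h1
  have h2 : 0 < ‖F m s‖ := norm_pos_iff.2 (hne s hs0 (mem_ball_zero_iff.1 hsb)).1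
  rwa [div_le_iff₀ h2] at h1

end Pool.Agent.H918.SS
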