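import Pool.Agent.H918.E.LF

/-! Uniqueness and holomorphy of the values of relative logarithmic forms. -/

set_option autoImplicit false

open Filter Topology Metric Set

namespace Pool.Agent.H225.SE

open Pool.Agent.Y190.OP Pool.Agent.N155 Pool.Agent.N154.GG Pool.Agent.H918.SS

variable {N M : ℕ} {T : Set (Mat N)} {Λ : AddSubgroup ℂ} {a : Mat N → ℂ} {T' : Set (Mat M)}
  {a' : Mat M → ℂ} {p : Mat M → Mat N} {𝔅 : Set ℂ} {δ : ℝ} {κ : Type} {k : ℕ}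
  {η : κ → (Fin M → ℂ) → (Fin M → ℂ) → ℂ}

/-- the bad values form a closed set -/
theorem bd_closed (hb : Bd Λ 𝔅 δ) : IsClosed 𝔅 := by
  rw [← isOpen_compl_iff, isOpen_iff_mem_nhds]
  intro s hs
  have hδ := hb.pos
  by_cases hex : ∃ b ∈ 𝔅, ‖s - b‖ < 2 * δ
  · obtain ⟨b, hbB, hbs⟩ := hex
    have hne : s ≠ b := fun h => hs (h ▸ hbB)
    have h1 : ∀ᶠ w in 𝓝 s, w ≠ b := isOpen_ne.mem_nhds hne
    filter_upwards [h1, ball_mem_nhds s (show (0 : ℝ) < 2 * δ by positivity)] with w hw hw2 hwB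
    apply hw
    apply hb.sep w hwB b hbB
    rw [mem_ball, dist_eq_norm] at hw2
    calc ‖w - b‖ = ‖(w - s) + (s - b)‖ := by congr 1; ring
      _ ≤ ‖w - s‖ + ‖s - b‖ := norm_add_le _ _
      _ < 4 * δ := by linarith
  · push Not at hex
    filter_upwards [ball_mem_nhds s (show (0 : ℝ) < 2 * δ by positivity)] with w hw2 hwB
    have h1 := hex w hwB
    rw [mem_ball, dist_comm, dist_eq_norm] at hw2
    linarith

/-- the lifts of a sequence which converge to the same point agree -/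
theorem lift_eq (hc : Cov T Λ a T' a' 𝔅 p) {𝓤 : Ultrafilter ℕ} {y : Mat M} (hyT : y ∈ T')
    (hy : a' y ∉ 𝔅) {P' P'' : ℕ → Mat M} (hP : ∀ᶠ m in (𝓤 : Filter ℕ), P' m ∈ T')
    (hP' : ∀ᶠ m in (𝓤 : Filter ℕ), P'' m ∈ T') (h : Tendsto P' 𝓤 (𝓝 y))
    (h' : Tendsto P'' 𝓤 (𝓝 y)) (hp : ∀ᶠ m in (𝓤 : Filter ℕ), p (P' m) = p (P'' m)) :
    ∀ᶠ m in (𝓤 : Filter ℕ), P' m = P'' m := by
  obtain ⟨O, O', σ, L, hO, hO', hpO, hyO, hL, hlip, hsec, huni, -, -⟩ := hc.loc y hyT hy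
  filter_upwards [hP, hP', h.eventually (hO'.mem_nhds hyO), h'.eventually (hO'.mem_nhds hyO), hp]
    with m h1 h2 h3 h4 h5
  rw [← (huni _ ⟨h3, h1⟩).2, ← (huni _ ⟨h4, h2⟩).2, h5]

end Pool.Agent.H225.SE

namespace Pool.Agent.H918.SS

open Pool.Agent.Y190.OP Pool.Agent.N155 Pool.Agent.N154.GG Pool.Agent.H225.SE

variable {N M : ℕ} {T : Set (Mat N)} {Λ : AddSubgroup ℂ} {a : Mat N → ℂ} {T' : Set (Mat M)}
  {a' : Mat M → ℂ} {p : Mat M → Mat N} {𝔅 : Set ℂ} {δ : ℝ} {κ : Type} {k : ℕ}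
  {η : κ → (Fin M → ℂ) → (Fin M → ℂ) → ℂ}

/-- VEX: existence and uniqueness of the values -/
theorem val_unique (hT' : TD T' Λ a') (hb : Bd Λ 𝔅 δ) (hc : Cov T Λ a T' a' 𝔅 p)
    (hL : LF k T' Λ a' 𝔅 η) {𝓤 : Ultrafilter ℕ} {P Q : ℕ → ℂ → Mat N} {wt : ℕ → ℂ → ℂ}
    {q : κ} {l : Fin M} {t : ℂ} {y : Mat M} {θ θ' : ℂ} (hy : a' y ∉ 𝔅)
    (h : Val k T' Λ a' p η 𝓤 P Q wt q l t y θ) (h' : Val k T' Λ a' p η 𝓤 P Q wt q l t y θ') :
    θ = θ' := by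
  obtain ⟨i, P', Q', v, hV, hpp, rfl⟩ := h
  obtain ⟨i', P'', Q'', v', hV', hpp', rfl⟩ := h'
  have hyT := hV.mem
  have hM := hT'.sub hyT
  have hi := hV.nz
  have hi' := hV'.nz
  have hPe : ∀ᶠ m in (𝓤 : Filter ℕ), P' m = P'' m := by
    refine lift_eq hc hyT hy ?_ ?_ hV.cP hV'.cP ?_
    · filter_upwards [hV.hP] with m hm using hm.1
    · filter_upwards [hV'.hP] with m hm using hm.1
    · filter_upwards [hpp, hpp'] with m h1 h2
      rw [h1.1, h2.1]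
  have hQe : ∀ᶠ m in (𝓤 : Filter ℕ), Q' m = Q'' m := by
    refine lift_eq hc hyT hy ?_ ?_ hV.cQ hV'.cQ ?_
    · filter_upwards [hV.hP] with m hm using hm.2.1
    · filter_upwards [hV'.hP] with m hm using hm.2.1
    · filter_upwards [hpp, hpp'] with m h1 h2
      rw [h1.2, h2.2]
  have hx := chart_i'_ne hM hi hi'
  obtain ⟨f', hf', hfv⟩ := tr_strict hx
  have hci := (continuous_apply_apply (ρ := fun (_ : Fin M) (_ : Fin M) => ℂ) i i).continuousAt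
    (x := y)
  have hci' := (continuous_apply_apply (ρ := fun (_ : Fin M) (_ : Fin M) => ℂ) i' i').continuousAt
    (x := y)
  have e1 : v' = f' v := by
    apply tendsto_nhds_unique hV'.lim
    have hp : Tendsto (fun m => chart i (P' m)) 𝓤 (𝓝 (chart i y)) :=
      (continuousAt_chart hi).tendsto.comp hV.cP
    have hq : Tendsto (fun m => chart i (Q' m)) 𝓤 (𝓝 (chart i y)) :=
      (continuousAt_chart hi).tendsto.comp hV.cQ
    refine (strict_lim hf' hp hq hV.lim).congr' ?_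
    filter_upwards [hPe, hQe, hV.hP, (hci.tendsto.comp hV.cP).eventually_ne hi,
      (hci'.tendsto.comp hV.cP).eventually_ne hi', (hci.tendsto.comp hV.cQ).eventually_ne hi,
      (hci'.tendsto.comp hV.cQ).eventually_ne hi'] with m h1 h2 h3 h4 h5 h6 h7
    rw [← h1, ← h2, chart_tr (hT'.sub h3.1) h4 h5, chart_tr (hT'.sub h3.2.1) h6 h7]
  rw [e1, hfv, chart_tr hM hi hi']
  unfold tr
  rw [hL.homog _ hyT i hi q _ _ _ (inv_ne_zero hx), Pi.smul_apply, smul_eq_mul, inv_inv, mul_pow,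
    inv_pow]
  have := pow_ne_zero k hx
  field_simp

/-- VH: the values exist and are holomorphic along local lifts -/
theorem val_hol (hT : TD T Λ a) (hT' : TD T' Λ a') (hb : Bd Λ 𝔅 δ)
    (hc : Cov T Λ a T' a' 𝔅 p) (hL : LF k T' Λ a' 𝔅 η) {𝓤 : Ultrafilter ℕ} {g : ℂ → Mat N}
    {α β : ℂ} {B B' : ℝ} {P Q : ℕ → ℂ → Mat N} {φ wt : ℕ → ℂ → ℂ}
    (h : RDl T Λ a 𝓤 g (fun t => α * t + β) B B' P Q φ wt) (q : κ) (l : Fin M) {t0 : ℂ}
    (ht0 : α * t0 + β ∉ 𝔅) {L : ℂ → Mat M} (hLc : ContinuousAt L t0)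
    (hLl : ∀ᶠ t in 𝓝 t0, L t ∈ T' ∧ p (L t) = g (α * t + β)) :
    ∃ θ : ℂ → ℂ, DifferentiableAt ℂ θ t0 ∧ ∀ᶠ t in 𝓝 t0, Val k T' Λ a' p η 𝓤 P Q wt q l t (L t) (θ t) := by
  have hgood : ∀ t, α * t + β ∉ 𝔅 → a (g (α * t + β)) ∉ 𝔅 := by
    intro t ht hbad
    apply ht
    have h1 := hb.inv _ hbad _ (h.gov (α * t + β))
    rwa [add_sub_cancel] at h1
  have hgood' : ∀ t, L t ∈ T' → p (L t) = g (α * t + β) → α * t + β ∉ 𝔅 → a' (L t) ∉ 𝔅 := by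
    intro t h1 h2 h3 h4
    have h5 := (hc.bad_iff hb h1).1 h4
    rw [h2] at h5
    exact hgood t h3 h5
  obtain ⟨hL0T, hL0p⟩ := hLl.self_of_nhds
  have hL0b := hgood' t0 hL0T hL0p ht0
  obtain ⟨O, O', σ, C, hO, hO', hpO, hxO, hC, hlip, hsec, huni, hhol, -⟩ := hc.loc (L t0) hL0T hL0b
  obtain ⟨i, O2, r, u, V, H, K, hO2, hxO2, hch, hV, hK, hH, hu, hune, hval⟩ := hL.loc (L t0) hL0T
  obtain ⟨C3, O3, hC3, hO3, hxO3, -, hlip3, -⟩ := lip_chart (hch _ hxO2).1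
  have hσ0 : σ (p (L t0)) = L t0 := (huni _ ⟨hxO, hL0T⟩).2
  have hp0T : p (L t0) ∈ T := hc.map _ hL0T
  -- the lifts converge
  have hDm : ∀ᶠ m in (𝓤 : Filter ℕ), Dsc T Λ a 0 (‖t0‖ + 1) (P m) (φ m) ∧
      Dsc T Λ a 0 (‖t0‖ + 1) (Q m) (φ m) ∧ DifferentiableOn ℂ (wt m) (ball 0 (‖t0‖ + 1)) ∧
      ∀ z ∈ closedBall (0 : ℂ) (‖t0‖ + 1), ‖Q m z - P m z‖ * ‖wt m z‖ ≤ B' := by
    filter_upwards [h.hP (‖t0‖ + 1), h.hQ (‖t0‖ + 1), h.wtd (‖t0‖ + 1), h.bd (‖t0‖ + 1)]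
      with m h1 h2 h3 h4
    exact ⟨h1, h2, h3, h4⟩
  have ht0B : t0 ∈ ball (0 : ℂ) (‖t0‖ + 1) := mem_ball_zero_iff.2 (by linarith)
  have hTev : ∀ᶠ w : ℕ × ℂ in (𝓤 : Filter ℕ) ×ˢ 𝓝 t0, P w.1 w.2 ∈ T ∧ Q w.1 w.2 ∈ T := by
    rw [eventually_prod_iff]
    refine ⟨_, hDm, fun t => t ∈ ball (0 : ℂ) (‖t0‖ + 1), isOpen_ball.mem_nhds ht0B, ?_⟩
    intro m hm t ht
    exact ⟨hm.1.mem t ht, hm.2.1.mem t ht⟩
  have hcP0 : Tendsto (fun w : ℕ × ℂ => P w.1 w.2) ((𝓤 : Filter ℕ) ×ˢ 𝓝 t0) (𝓝 (p (L t0))) := by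
    rw [hL0p]
    exact h.cP t0 (mem_univ _)
  have hcQ0 : Tendsto (fun w : ℕ × ℂ => Q w.1 w.2) ((𝓤 : Filter ℕ) ×ˢ 𝓝 t0) (𝓝 (p (L t0))) := by
    rw [hL0p]
    exact h.cQ t0 (mem_univ _)
  have hσlim : ∀ {ι : Type} {F : Filter ι} {R : ι → Mat N} {x : Mat M}, x ∈ O' → x ∈ T' →
      (∀ᶠ w in F, R w ∈ T) → Tendsto R F (𝓝 (p x)) → Tendsto (fun w => σ (R w)) F (𝓝 x) := by
    intro ι F R x hx hxT hRT hR
    have hxp := huni x ⟨hx, hxT⟩
    rw [tendsto_iff_norm_sub_tendsto_zero]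
    have h1 : Tendsto (fun w => C * ‖R w - p x‖) F (𝓝 0) := by
      have := (tendsto_iff_norm_sub_tendsto_zero.1 hR).const_mul C
      rwa [mul_zero] at this
    refine squeeze_zero_norm' ?_ h1
    filter_upwards [hRT, hR.eventually (hO.mem_nhds hxp.1)] with w h2 h3
    rw [norm_norm]
    have h4 := hlip _ ⟨h3, h2⟩ _ ⟨hxp.1, hc.map _ hxT⟩
    rwa [hxp.2] at h4
  have hσP := hσlim hxO hL0T (hTev.mono fun w hw => hw.1) hcP0
  have hσQ := hσlim hxO hL0T (hTev.mono fun w hw => hw.2) hcQ0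
  have hOn2 : O2 ∩ O3 ∈ 𝓝 (L t0) := (hO2.inter hO3).mem_nhds ⟨hxO2, hxO3⟩
  have hall := ((hcP0.eventually (hO.mem_nhds hpO)).and (hcQ0.eventually (hO.mem_nhds hpO))).and
    ((hσP.eventually hOn2).and (hσQ.eventually hOn2))
  rw [eventually_prod_iff] at hall
  obtain ⟨pa, hpa, pb, hpb, hab⟩ := hall
  -- the neighbourhood
  have hev1 : ∀ᶠ t in 𝓝 t0, α * t + β ∉ 𝔅 := by
    have hcont : ContinuousAt (fun t : ℂ => α * t + β) t0 := by fun_prop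
    exact hcont.eventually ((bd_closed hb).isOpen_compl.mem_nhds ht0)
  have hev2 : ∀ᶠ t in 𝓝 t0, L t ∈ O' ∩ (O2 ∩ O3) :=
    hLc.eventually ((hO'.inter (hO2.inter hO3)).mem_nhds ⟨hxO, hxO2, hxO3⟩)
  obtain ⟨W, hWs, hW, htW⟩ := _root_.mem_nhds_iff.1
    ((hpb.and (ball_mem_nhds t0 one_pos)).and (hev1.and (hev2.and hLl)))
  have hWB : ∀ z ∈ W, z ∈ ball (0 : ℂ) (‖t0‖ + 1) := by
    intro z hz
    have e4 : ‖z - t0‖ < 1 := by
      have := (hWs hz).1.2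
      rwa [dist_eq_norm] at this
    rw [mem_ball_zero_iff]
    have := norm_add_le (z - t0) t0
    rw [sub_add_cancel] at this
    linarith
  have hm0 : ∀ᶠ m in (𝓤 : Filter ℕ), pa m ∧ (Dsc T Λ a 0 (‖t0‖ + 1) (P m) (φ m) ∧
      Dsc T Λ a 0 (‖t0‖ + 1) (Q m) (φ m) ∧ DifferentiableOn ℂ (wt m) (ball 0 (‖t0‖ + 1)) ∧
      ∀ z ∈ closedBall (0 : ℂ) (‖t0‖ + 1), ‖Q m z - P m z‖ * ‖wt m z‖ ≤ B') := hpa.and hDm
  have hB'0 : 0 ≤ B' := h.B'0
  -- the differences of the lifts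
  have hdiff : ∀ᶠ m in (𝓤 : Filter ℕ), ∀ t ∈ W,
      ‖wt m t‖ * ‖σ (Q m t) - σ (P m t)‖ ≤ C * B' := by
    filter_upwards [hm0] with m hm t ht
    obtain ⟨hm1, hm2, hm3, hm4, hm5⟩ := hm
    have e1 := hab hm1 (hWs ht).1.1
    have e2 := hlip _ ⟨e1.1.2, hm3.mem t (hWB t ht)⟩ _ ⟨e1.1.1, hm2.mem t (hWB t ht)⟩
    have e3 := hm5 t (ball_subset_closedBall (hWB t ht))
    calc ‖wt m t‖ * ‖σ (Q m t) - σ (P m t)‖ ≤ ‖wt m t‖ * (C * ‖Q m t - P m t‖) :=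
          mul_le_mul_of_nonneg_left e2 (norm_nonneg _)
      _ = C * (‖Q m t - P m t‖ * ‖wt m t‖) := by ring
      _ ≤ C * B' := mul_le_mul_of_nonneg_left e3 hC
  have hPhol : ∀ᶠ m in (𝓤 : Filter ℕ), HolP W (fun t => σ (P m t)) ∧ HolP W (fun t => σ (Q m t)) := by
    filter_upwards [hm0] with m hm
    obtain ⟨hm1, hm2, hm3, hm4, hm5⟩ := hm
    refine ⟨hhol W (P m) hW (hm2.hol.mono hWB) fun t ht => ?_,
      hhol W (Q m) hW (hm3.hol.mono hWB) fun t ht => ?_⟩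
    · exact ⟨(hab hm1 (hWs ht).1.1).1.1, hm2.mem t (hWB t ht)⟩
    · exact ⟨(hab hm1 (hWs ht).1.1).1.2, hm3.mem t (hWB t ht)⟩
  -- the limits of the functions
  have hmon : ∀ j : Fin r, ∃ S : ℂ → ℂ, CConv (𝓤 : Filter ℕ) W
      (fun m t => wt m t * (u j (σ (Q m t)) - u j (σ (P m t)))) S ∧ AnalyticAt ℂ S t0 := by
    intro j
    obtain ⟨huc, huh, hul⟩ := hu j
    have hd1 : ∀ᶠ m in (𝓤 : Filter ℕ), DifferentiableOn ℂ
        (fun t => wt m t * (u j (σ (Q m t)) - u j (σ (P m t)))) W := by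
      filter_upwards [hm0, hPhol] with m hm hh t ht
      obtain ⟨hm1, hm2, hm3, hm4, hm5⟩ := hm
      have e1 := (hab hm1 (hWs ht).1.1).2
      have e3 := huh W _ t hW ht hh.1 e1.1.1
      have e4 := huh W _ t hW ht hh.2 e1.2.1
      exact ((hm4.differentiableAt (isOpen_ball.mem_nhds (hWB t ht))).mul
        (e4.sub e3)).differentiableWithinAt
    obtain ⟨S, hS⟩ := ultra_montel (𝓤 := 𝓤) (U := W)
      (h := fun m t => wt m t * (u j (σ (Q m t)) - u j (σ (P m t)))) (by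
        intro z hz
        refine ⟨W, hW.mem_nhds hz, K * (C * B'), ?_⟩
        filter_upwards [hm0, hd1, hdiff] with m hm hd hdf
        refine ⟨hd, fun w hw => ?_⟩
        obtain ⟨hm1, hm2, hm3, hm4, hm5⟩ := hm
        have e1 := (hab hm1 (hWs hw).1.1).2
        rw [norm_mul]
        calc ‖wt m w‖ * ‖u j (σ (Q m w)) - u j (σ (P m w))‖ ≤
              ‖wt m w‖ * (K * ‖σ (Q m w) - σ (P m w)‖) :=
              mul_le_mul_of_nonneg_left (hul _ e1.2.1 _ e1.1.1) (norm_nonneg _)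
          _ = K * (‖wt m w‖ * ‖σ (Q m w) - σ (P m w)‖) := by ring
          _ ≤ K * (C * B') := mul_le_mul_of_nonneg_left (hdf w hw) hK)
    exact ⟨S, hS, (CConv.an hS hW htW ⟨W, hW.mem_nhds htW, hd1⟩).1⟩
  choose S hS hSan using hmon
  -- the limit vector
  have hvec : ∀ t ∈ W, ∃ v : Fin M → ℂ,
      Tendsto (fun m => wt m t • (chart i (σ (Q m t)) - chart i (σ (P m t)))) 𝓤 (𝓝 v) := by
    intro t ht
    have h1 : ∀ k : Fin M, ∃ y : ℂ, Tendsto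
        (fun m => wt m t * (chart i (σ (Q m t)) k - chart i (σ (P m t)) k)) 𝓤 (𝓝 y) := by
      intro k
      apply exists_lim (C := C3 * (C * B'))
      filter_upwards [hm0, hdiff] with m hm hdf
      obtain ⟨hm1, hm2, hm3, hm4, hm5⟩ := hm
      have e1 := (hab hm1 (hWs ht).1.1).2
      rw [norm_mul]
      have e4 : ‖chart i (σ (Q m t)) k - chart i (σ (P m t)) k‖ ≤
          C3 * ‖σ (Q m t) - σ (P m t)‖ :=
        (norm_le_pi_norm (chart i (σ (Q m t)) - chart i (σ (P m t))) k).trans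
          (hlip3 _ e1.2.2 _ e1.1.2)
      calc ‖wt m t‖ * ‖chart i (σ (Q m t)) k - chart i (σ (P m t)) k‖ ≤
            ‖wt m t‖ * (C3 * ‖σ (Q m t) - σ (P m t)‖) :=
            mul_le_mul_of_nonneg_left e4 (norm_nonneg _)
        _ = C3 * (‖wt m t‖ * ‖σ (Q m t) - σ (P m t)‖) := by ring
        _ ≤ C3 * (C * B') := mul_le_mul_of_nonneg_left (hdf t ht) hC3
    choose v hv using h1
    exact ⟨v, tendsto_pi_nhds.2 hv⟩
  refine ⟨fun t => H q (chart i (L t), fun j => S j t / u j (L t)) * chart i (L t) l ^ k, ?_, ?_⟩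
  · -- differentiability
    have hgW : HolP W (fun t => g (α * t + β)) :=
      holP_comp_l h.hg (f := fun t => α * t + β) (by fun_prop) hW (fun _ _ => mem_univ _)
    have hσg : HolP W (fun t => σ (g (α * t + β))) := by
      refine hhol W _ hW hgW fun t ht => ?_
      obtain ⟨hLt, hLp⟩ := (hWs ht).2.2.2
      have e1 := (huni _ ⟨(hWs ht).2.2.1.1, hLt⟩).1
      rw [hLp] at e1
      exact ⟨e1, h.gT _⟩
    have hLeq : ∀ t ∈ W, L t = σ (g (α * t + β)) := by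
      intro t ht
      obtain ⟨hLt, hLp⟩ := (hWs ht).2.2.2
      have e1 := (huni _ ⟨(hWs ht).2.2.1.1, hLt⟩).2
      rw [hLp] at e1
      exact e1.symm
    have hLev : L =ᶠ[𝓝 t0] fun t => σ (g (α * t + β)) := by
      filter_upwards [hW.mem_nhds htW] with t ht
      exact hLeq t ht
    have hgi : (fun t => σ (g (α * t + β))) t0 ∈ O2 := by
      change σ (g (α * t0 + β)) ∈ O2
      rw [← hLeq t0 htW]
      exact hxO2
    have hdc : DifferentiableAt ℂ (fun t => chart i (L t)) t0 := by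
      have h1 := hσg.diff_chart htW (hch _ hgi).1
      refine h1.congr_of_eventuallyEq ?_
      filter_upwards [hLev] with t ht
      rw [ht]
    have hdu : ∀ j, DifferentiableAt ℂ (fun t => u j (L t)) t0 := by
      intro j
      have h1 := (hu j).2.1 W _ t0 hW htW hσg hgi
      refine h1.congr_of_eventuallyEq ?_
      filter_upwards [hLev] with t ht
      rw [ht]
    have hne : ∀ j, u j (L t0) ≠ 0 := hune _ ⟨hxO2, hL0T⟩ hL0b
    have hd2 : DifferentiableAt ℂ (fun t => (chart i (L t), fun j => S j t / u j (L t))) t0 := by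
      refine hdc.prodMk (differentiableAt_pi.2 fun j => ?_)
      exact (hSan j).differentiableAt.div (hdu j) (hne j)
    have hd3 : DifferentiableAt ℂ (H q) (chart i (L t0), fun j => S j t0 / u j (L t0)) :=
      (hH q _ ⟨(hch _ hxO2).2, mem_univ _⟩).differentiableAt
    exact (hd3.comp t0 hd2).mul ((differentiableAt_pi.1 hdc l).pow k)
  · filter_upwards [hW.mem_nhds htW] with t ht
    obtain ⟨hLt, hLp⟩ := (hWs ht).2.2.2
    obtain ⟨v, hv⟩ := hvec t ht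
    have hbt : α * t + β ∉ 𝔅 := (hWs ht).2.1
    have hpt := h.pt t
    have hcPt : Tendsto (fun m => P m t) 𝓤 (𝓝 (p (L t))) := by
      rw [hLp]
      exact h.cP.pointwise (mem_univ t)
    have hcQt : Tendsto (fun m => Q m t) 𝓤 (𝓝 (p (L t))) := by
      rw [hLp]
      exact h.cQ.pointwise (mem_univ t)
    have hpO' : p (L t) ∈ O := (huni _ ⟨(hWs ht).2.2.1.1, hLt⟩).1
    have hPO := hcPt.eventually (hO.mem_nhds hpO')
    have hQO := hcQt.eventually (hO.mem_nhds hpO')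
    have hVL : VL T' Λ a' 𝓤 i (fun m => σ (P m t)) (fun m => σ (Q m t)) (fun m => wt m t) (L t) v := by
      refine ⟨hLt, (hch _ (hWs ht).2.2.1.2.1).1, ?_, ?_, ?_, hv⟩
      · filter_upwards [hpt, hPO, hQO] with m h1 h2 h3
        obtain ⟨e1, e2⟩ := hsec _ ⟨h2, h1.1⟩
        obtain ⟨e3, e4⟩ := hsec _ ⟨h3, h1.2.1⟩
        refine ⟨e1, e3, ?_⟩
        have e5 := hc.ovr _ e1
        have e6 := hc.ovr _ e3
        rw [e2] at e5
        rw [e4] at e6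
        have e7 := Λ.add_mem (Λ.sub_mem e5 e6) (Λ.sub_mem h1.2.2.2 h1.2.2.1)
        have e8 : a' (σ (P m t)) - a' (σ (Q m t)) = a' (σ (P m t)) - a (P m t) -
            (a' (σ (Q m t)) - a (Q m t)) + (φ m t - a (Q m t) - (φ m t - a (P m t))) := by ring
        rw [e8]
        exact e7
      · exact hσlim (hWs ht).2.2.1.1 hLt (hpt.mono fun m hm => hm.1) hcPt
      · exact hσlim (hWs ht).2.2.1.1 hLt (hpt.mono fun m hm => hm.2.1) hcQt
    obtain ⟨s, hs, hηs⟩ := hval 𝓤 _ _ _ _ _ hVL (hWs ht).2.2.1.2.1 (hgood' t hLt hLp hbt)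
    have hsS : s = fun j => S j t := by
      funext j
      exact tendsto_nhds_unique (hs j) ((hS j).pointwise ht)
    refine ⟨i, fun m => σ (P m t), fun m => σ (Q m t), v, hVL, ?_, ?_⟩
    · filter_upwards [hpt, hPO, hQO] with m h1 h2 h3
      exact ⟨(hsec _ ⟨h2, h1.1⟩).2, (hsec _ ⟨h3, h1.2.1⟩).2⟩
    · rw [hηs q, hsS]

end Pool.Agent.H918.SS
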