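import Pool.Agent.H918.E.Cl
import Pool.Agent.H918.E.Per
import Pool.Agent.H918.E.Pun
import Pool.Agent.H918.E.Rat
import Pool.Agent.H918.E.Vuh

/-! The values are bounded near the points over bad values. -/

set_option autoImplicit false

open Filter Topology Metric Set

namespace Pool.Agent.H376.BD2

open Pool.Agent.H918.SS Pool.Agent.Y190.OP Pool.Agent.N155 Pool.Agent.N154.GG

variable {N M : ℕ} {T : Set (Mat N)} {Λ : AddSubgroup ℂ} {a : Mat N → ℂ} {T' : Set (Mat M)}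
  {a' : Mat M → ℂ} {p : Mat M → Mat N} {𝔅 : Set ℂ} {δ : ℝ} {κ : Type} {ex : ℕ}
  {η : κ → (Fin M → ℂ) → (Fin M → ℂ) → ℂ} {𝓤 : Ultrafilter ℕ} {g : ℂ → Mat N}
  {α β : ℂ} {B B' : ℝ} {P Q : ℕ → ℂ → Mat N} {φ wt : ℕ → ℂ → ℂ}

/-- the functions over which the curves lie, normalised -/
theorem psi_exists (hT : TD T Λ a) (h : RDl T Λ a 𝓤 g (fun t => α * t + β) B B' P Q φ wt) (z0 : ℂ) :
    ∃ r : ℝ, 0 < r ∧ ∃ ψ : ℕ → ℂ → ℂ, CConv (𝓤 : Filter ℕ) (ball z0 r) ψ (fun t => α * t + β) ∧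
      ∀ᶠ m in (𝓤 : Filter ℕ), DifferentiableOn ℂ (ψ m) (ball z0 r) ∧
        ∀ t ∈ ball z0 r, ψ m t - a (P m t) ∈ Λ ∧ ψ m t - a (Q m t) ∈ Λ := by
  obtain ⟨O, w, hO, hM0, hcd, ha, hd⟩ := hT.loc _ (h.gT (α * z0 + β))
  have hgc : Continuous fun t : ℂ => g (α * t + β) := (hp_cont h.hg).comp (by fun_prop)
  have hgO : ∀ᶠ t in 𝓝 z0, g (α * t + β) ∈ O := hgc.continuousAt.eventually (hO.mem_nhds hM0)
  set f : ℂ → ℂ := fun t => w (g (α * t + β)) - (α * t + β) with hf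
  have hfc : ContinuousAt f z0 := by
    have h1 : ContinuousAt (fun t => w (g (α * t + β))) z0 :=
      ContinuousAt.comp (f := fun t => g (α * t + β)) (hcd _ hM0).continuousAt hgc.continuousAt
    exact h1.sub (by fun_prop)
  have hfΛ : ∀ t, g (α * t + β) ∈ O → f t ∈ Λ := by
    intro t ht
    have h1 := ha _ ⟨ht, h.gT (α * t + β)⟩
    have h2 := h.gov (α * t + β)
    have h3 := Λ.neg_mem (Λ.add_mem h1 h2)
    have e : -(a (g (α * t + β)) - w (g (α * t + β)) + ((α * t + β) - a (g (α * t + β)))) = f t := by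
      rw [hf]
      ring
    simp only at h3
    rwa [e] at h3
  have hfe := hT.ev_const hfc (hgO.mono hfΛ)
  have hc0 : f z0 ∈ Λ := hfΛ z0 hM0
  have h1 : ∀ᶠ x : ℕ × ℂ in (𝓤 : Filter ℕ) ×ˢ 𝓝 z0, P x.1 x.2 ∈ O :=
    (h.cP z0 (mem_univ _)).eventually (hO.mem_nhds hM0)
  rw [eventually_prod_iff] at h1
  obtain ⟨pa, hpa, pb, hpb, hab⟩ := h1
  obtain ⟨r, hr, hsub⟩ := Metric.mem_nhds_iff.1 (inter_mem (inter_mem (inter_mem hpb hfe) hgO)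
    (ball_mem_nhds z0 one_pos))
  refine ⟨r, hr, fun m t => w (P m t) - f z0, ?_, ?_⟩
  · intro t ht
    obtain ⟨⟨⟨h2, h3⟩, h4⟩, h5⟩ := hsub ht
    have h3' : f t = f z0 := h3
    have e : α * t + β = w (g (α * t + β)) - f z0 := by
      rw [← h3', hf]
      ring
    change Tendsto (fun x : ℕ × ℂ => w (P x.1 x.2) - f z0) _ (𝓝 (α * t + β))
    rw [e]
    exact (((hcd _ h4).continuousAt.tendsto).comp (h.cP t (mem_univ _))).sub_const _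
  · filter_upwards [hpa, h.hP (‖z0‖ + 1), h.hQ (‖z0‖ + 1)] with m hm hPm hQm
    have hin : ∀ t ∈ ball z0 r, t ∈ ball (0 : ℂ) (‖z0‖ + 1) := by
      intro t ht
      have h5 := (hsub ht).2
      rw [mem_ball, dist_eq_norm] at h5
      rw [mem_ball_zero_iff]
      have := norm_add_le (t - z0) z0
      rw [sub_add_cancel] at this
      linarith
    refine ⟨fun t ht => ?_, fun t ht => ?_⟩
    · have h2 := hd _ (P m) t isOpen_ball (hin t ht) hPm.hol (hab hm (hsub ht).1.1.1)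
      exact (h2.sub_const _).differentiableWithinAt
    · have hPO : P m t ∈ O := hab hm (hsub ht).1.1.1
      have h2 := ha _ ⟨hPO, hPm.mem t (hin t ht)⟩
      have h3 := Λ.neg_mem (Λ.add_mem h2 hc0)
      have h4 : w (P m t) - f z0 - a (P m t) ∈ Λ := by
        have e : w (P m t) - f z0 - a (P m t) = -(a (P m t) - w (P m t) + f z0) := by ring
        rw [e]
        exact h3
      refine ⟨h4, ?_⟩
      have h5 := Λ.sub_mem (hQm.ov t (hin t ht)) (hPm.ov t (hin t ht))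
      have h6 := Λ.add_mem h4 h5
      have e : w (P m t) - f z0 - a (P m t) + (φ m t - a (Q m t) - (φ m t - a (P m t))) =
        w (P m t) - f z0 - a (Q m t) := by ring
      rwa [e] at h6

/-- the hits -/
theorem hits {ψ : ℕ → ℂ → ℂ} {z0 : ℂ} {r : ℝ} (hr : 0 < r) (hα : α ≠ 0)
    (hc : CConv (𝓤 : Filter ℕ) (ball z0 r) ψ (fun t => α * t + β))
    (hd : ∀ᶠ m in (𝓤 : Filter ℕ), DifferentiableOn ℂ (ψ m) (ball z0 r)) {c : ℝ} (hc0 : 0 < c) :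
    ∃ ρ : ℝ, 0 < ρ ∧ ρ ≤ r ∧ ρ ≤ 1 ∧ (∀ t ∈ ball z0 ρ, ‖α * t + β - (α * z0 + β)‖ < c) ∧
      ∃ tm : ℕ → ℂ, Tendsto tm 𝓤 (𝓝 z0) ∧ ∀ᶠ m in (𝓤 : Filter ℕ), ∀ t ∈ ball z0 ρ,
        ‖ψ m t - (α * z0 + β)‖ < c ∧ (t ≠ tm m → ψ m t ≠ α * z0 + β) := by
  classical
  have hα0 : 0 < ‖α‖ := norm_pos_iff.2 hα
  set ρ : ℝ := min (min (r / 4) 1) (c / (4 * ‖α‖)) with hρ
  have hρ0 : 0 < ρ := by positivity
  have hρr : ρ ≤ r / 4 := (min_le_left _ _).trans (min_le_left _ _)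
  have hρ1 : ρ ≤ 1 := (min_le_left _ _).trans (min_le_right _ _)
  have hρc : ρ * ‖α‖ ≤ c / 4 := by
    have h1 : ρ ≤ c / (4 * ‖α‖) := min_le_right _ _
    calc ρ * ‖α‖ ≤ c / (4 * ‖α‖) * ‖α‖ := mul_le_mul_of_nonneg_right h1 hα0.le
      _ = c / 4 := by field_simp
  -- the derivative estimate
  set e : ℝ := min (c / 4) (‖α‖ / 2 * (r / 4)) with he
  have he0 : 0 < e := by positivity
  have hU : ∀ {e' : ℝ}, 0 < e' → ∀ᶠ m in (𝓤 : Filter ℕ), ∀ t ∈ closedBall z0 (r / 2),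
      ‖ψ m t - (α * t + β)‖ < e' := fun he' =>
    CConv.unif isOpen_ball hc (isCompact_closedBall z0 (r / 2))
      (closedBall_subset_ball (by linarith)) he'
  have hlip : ∀ᶠ m in (𝓤 : Filter ℕ), ∀ t ∈ ball z0 ρ, ∀ s ∈ ball z0 ρ, ψ m t = ψ m s → t = s := by
    filter_upwards [hU he0, hd] with m hm hdm t ht s hs hts
    have hD : DifferentiableOn ℂ (fun t => ψ m t - (α * t + β)) (ball z0 r) :=
      hdm.sub (by fun_prop)
    have hder : ∀ x ∈ ball z0 (r / 4), ‖deriv (fun t => ψ m t - (α * t + β)) x‖ ≤ e / (r / 4) := by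
      intro x hx
      have hsub : closedBall x (r / 4) ⊆ closedBall z0 (r / 2) := by
        intro y hy
        rw [mem_ball] at hx
        rw [mem_closedBall] at hy ⊢
        have := dist_triangle y x z0
        linarith
      apply Complex.norm_deriv_le_of_forall_mem_sphere_norm_le (by positivity)
      · have h1 : DifferentiableOn ℂ (fun t => ψ m t - (α * t + β)) (closedBall x (r / 4)) :=
          hD.mono (hsub.trans (closedBall_subset_ball (by linarith)))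
        exact h1.diffContOnCl_ball (subset_refl _)
      · intro y hy
        exact (hm y (hsub (sphere_subset_closedBall hy))).le
    have hbs : ball z0 ρ ⊆ ball z0 (r / 4) := ball_subset_ball hρr
    have h1 := (convex_ball z0 (r / 4)).norm_image_sub_le_of_norm_deriv_le
      (fun x hx => hD.differentiableAt (isOpen_ball.mem_nhds (ball_subset_ball (by linarith) hx)))
      hder (hbs hs) (hbs ht)
    have e1 : ψ m t - (α * t + β) - (ψ m s - (α * s + β)) = -(α * (t - s)) := by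
      rw [hts]
      ring
    rw [e1, norm_neg, norm_mul] at h1
    have e2 : e / (r / 4) ≤ ‖α‖ / 2 := by
      rw [div_le_iff₀ (by positivity)]
      exact min_le_right _ _
    have e3 : ‖α‖ * ‖t - s‖ ≤ ‖α‖ / 2 * ‖t - s‖ :=
      h1.trans (mul_le_mul_of_nonneg_right e2 (norm_nonneg _))
    have e4 : ‖t - s‖ ≤ 0 := by
      by_contra hcon
      push Not at hcon
      nlinarith [mul_pos hα0 hcon]
    exact sub_eq_zero.1 (norm_le_zero_iff.1 e4)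
  have hlin : ∀ t ∈ ball z0 ρ, ‖α * t + β - (α * z0 + β)‖ < c / 2 := by
    intro t ht
    rw [mem_ball, dist_eq_norm] at ht
    have e1 : α * t + β - (α * z0 + β) = α * (t - z0) := by ring
    rw [e1, norm_mul]
    have := mul_lt_mul_of_pos_left ht hα0
    linarith
  have hsubρ : ball z0 ρ ⊆ closedBall z0 (r / 2) :=
    ball_subset_closedBall.trans (closedBall_subset_closedBall (by linarith))
  -- the points
  have hex : ∀ m, ∃ t, (∃ s ∈ ball z0 ρ, ψ m s = α * z0 + β) → t ∈ ball z0 ρ ∧ ψ m t = α * z0 + β := by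
    intro m
    by_cases hm : ∃ s ∈ ball z0 ρ, ψ m s = α * z0 + β
    · obtain ⟨s, hs, hs'⟩ := hm
      exact ⟨s, fun _ => ⟨hs, hs'⟩⟩
    · exact ⟨0, fun h => absurd h hm⟩
  choose tm0 htm0 using hex
  set tm : ℕ → ℂ := fun m => if ∃ s ∈ ball z0 ρ, ψ m s = α * z0 + β then tm0 m else z0 with htm
  refine ⟨ρ, hρ0, by linarith, hρ1, fun t ht => (hlin t ht).trans (by linarith), tm, ?_, ?_⟩
  · rw [Metric.tendsto_nhds]
    intro ε hε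
    filter_upwards [hU (mul_pos hα0 hε)] with m hm
    rw [dist_eq_norm]
    by_cases h1 : ∃ s ∈ ball z0 ρ, ψ m s = α * z0 + β
    · have e1 : tm m = tm0 m := if_pos h1
      obtain ⟨h2, h3⟩ := htm0 m h1
      have h4 := hm _ (hsubρ h2)
      rw [h3] at h4
      have e2 : α * z0 + β - (α * tm0 m + β) = -(α * (tm0 m - z0)) := by ring
      rw [e2, norm_neg, norm_mul] at h4
      rw [e1]
      exact lt_of_mul_lt_mul_left h4 hα0.le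
    · have e1 : tm m = z0 := if_neg h1
      rw [e1, sub_self, norm_zero]
      exact hε
  · filter_upwards [hU (show 0 < c / 2 by positivity), hlip] with m hm hinj t ht
    refine ⟨?_, fun hne heq => hne ?_⟩
    · have h1 := hm t (hsubρ ht)
      have h2 := hlin t ht
      have h3 := norm_add_le (ψ m t - (α * t + β)) (α * t + β - (α * z0 + β))
      rw [sub_add_sub_cancel] at h3
      linarith
    · have h1 : ∃ s ∈ ball z0 ρ, ψ m s = α * z0 + β := ⟨t, ht, heq⟩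
      have e1 : tm m = tm0 m := if_pos h1
      obtain ⟨h2, h3⟩ := htm0 m h1
      rw [e1]
      exact hinj t ht _ h2 (heq.trans h3.symm)

/-! ### the punctured disc -/

theorem exp_mem {z : ℂ} (hz : z ∈ HP) : Complex.exp z ∈ ball (0 : ℂ) 1 ∧ Complex.exp z ≠ 0 := by
  refine ⟨?_, Complex.exp_ne_zero z⟩
  rw [mem_ball_zero_iff, Complex.norm_exp]
  have h1 : Real.exp z.re < Real.exp 0 := Real.exp_lt_exp.2 hz
  rwa [Real.exp_zero] at h1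

theorem log_mem {s : ℂ} (hs : s ∈ ball (0 : ℂ) 1) (h0 : s ≠ 0) :
    Complex.log s ∈ HP ∧ Complex.exp (Complex.log s) = s := by
  refine ⟨?_, Complex.exp_log h0⟩
  change (Complex.log s).re < 0
  rw [Complex.log_re]
  exact Real.log_neg (norm_pos_iff.2 h0) (mem_ball_zero_iff.1 hs)

theorem cconv_exp {E : Type*} [TopologicalSpace E] {R : ℕ → ℂ → E} {G : ℂ → E}
    (h : CConv (𝓤 : Filter ℕ) (ball 0 1 \ {0}) R G) :
    CConv (𝓤 : Filter ℕ) HP (fun m z => R m (Complex.exp z)) (fun z => G (Complex.exp z)) := by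
  intro z hz
  obtain ⟨h1, h2⟩ := exp_mem hz
  have h3 : Tendsto (fun x : ℕ × ℂ => (x.1, Complex.exp x.2)) ((𝓤 : Filter ℕ) ×ˢ 𝓝 z)
      ((𝓤 : Filter ℕ) ×ˢ 𝓝 (Complex.exp z)) :=
    tendsto_fst.prodMk ((Complex.continuous_exp.tendsto z).comp tendsto_snd)
  exact (h _ ⟨h1, h2⟩).comp h3

theorem cconv_log {E : Type*} [TopologicalSpace E] {R : ℕ → ℂ → E} {G : ℂ → E}
    (h : CConv (𝓤 : Filter ℕ) HP (fun m z => R m (Complex.exp z)) (fun z => G (Complex.exp z))) :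
    CConv (𝓤 : Filter ℕ) (ball 0 1 \ {0}) R G := by
  rintro s ⟨hs, hs0⟩
  have hs0' : s ≠ 0 := hs0
  obtain ⟨h1, h2⟩ := log_mem hs hs0'
  have h3 : ContinuousAt (fun s' => Complex.log s + Complex.log (s' / s)) s := by
    have e1 : ContinuousAt (fun s' : ℂ => s' / s) s := by fun_prop
    have e2 : ContinuousAt Complex.log (s / s) := by
      rw [div_self hs0']
      exact continuousAt_clog (by simp [Complex.mem_slitPlane_iff])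
    exact continuousAt_const.add (ContinuousAt.comp (f := fun s' : ℂ => s' / s) e2 e1)
  have h4 : Tendsto (fun s' => Complex.log s + Complex.log (s' / s)) (𝓝 s)
      (𝓝 (Complex.log s)) := by
    have := h3.tendsto
    rw [div_self hs0', Complex.log_one, add_zero] at this
    exact this
  have h5 : Tendsto (fun x : ℕ × ℂ => (x.1, Complex.log s + Complex.log (x.2 / s)))
      ((𝓤 : Filter ℕ) ×ˢ 𝓝 s) ((𝓤 : Filter ℕ) ×ˢ 𝓝 (Complex.log s)) :=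
    tendsto_fst.prodMk (h4.comp tendsto_snd)
  have h6 := (h _ h1).comp h5
  simp only [h2] at h6
  refine h6.congr' ?_
  have h7 : ∀ᶠ x : ℕ × ℂ in (𝓤 : Filter ℕ) ×ˢ 𝓝 s, x.2 ≠ 0 :=
    tendsto_snd.eventually (isOpen_ne.mem_nhds hs0')
  filter_upwards [h7] with x hx
  simp only [Function.comp_apply]
  rw [Complex.exp_add, h2, Complex.exp_log (div_ne_zero hx hs0')]
  congr 1
  field_simp

/-- a curve on the disc, which meets the bad fibres at most at the centre -/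
structure Cd (T : Set (Mat N)) (Λ : AddSubgroup ℂ) (a : Mat N → ℂ) (𝔅 : Set ℂ) (b : ℂ)
    (R : ℂ → Mat N) (ω : ℂ → ℂ) : Prop where
  hol : HolP (ball 0 1) R
  mem : ∀ s ∈ ball (0 : ℂ) 1, R s ∈ T
  dif : DifferentiableOn ℂ ω (ball 0 1)
  ov : ∀ s ∈ ball (0 : ℂ) 1, ω s - a (R s) ∈ Λ
  bd : ∀ s ∈ ball (0 : ℂ) 1, ‖ω s - b‖ ≤ 1
  nb : ∀ s ∈ ball (0 : ℂ) 1, s ≠ 0 → ω s ∉ 𝔅

/-- a lift of the curve -/
structure Lft (T' : Set (Mat M)) (p : Mat M → Mat N) (R : ℂ → Mat N) (E : ℂ → Mat M) : Prop where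
  hol : HolP (ball 0 1) E
  mem : ∀ s ∈ ball (0 : ℂ) 1, E s ∈ T'
  ov : ∀ s ∈ ball (0 : ℂ) 1, s ≠ 0 → p (E s) = R s

/-- the periods of the lifts -/
def Prd (T' : Set (Mat M)) (p : Mat M → Mat N) (R : ℂ → Mat N) : Prop :=
  ∀ R' : ℂ → Mat M, HolP HP R' → (∀ z ∈ HP, R' z ∈ T' ∧ p (R' z) = R (Complex.exp z)) →
    ∀ z ∈ HP, R' (z + tpi) = R' z

variable {b : ℂ} {R : ℂ → Mat N} {ω : ℂ → ℂ} {E : ℂ → Mat M}

theorem Cd.nba (h : Cd T Λ a 𝔅 b R ω) (hb : Bd Λ 𝔅 δ) {s : ℂ} (hs : s ∈ ball (0 : ℂ) 1)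
    (h0 : s ≠ 0) : a (R s) ∉ 𝔅 := by
  intro hbad
  have h1 := hb.inv _ hbad _ (h.ov s hs)
  rw [add_sub_cancel] at h1
  exact h.nb s hs h0 h1

theorem Lft.nba (hE : Lft T' p R E) (h : Cd T Λ a 𝔅 b R ω) (hc : Cov T Λ a T' a' 𝔅 p)
    (hb : Bd Λ 𝔅 δ) {s : ℂ} (hs : s ∈ ball (0 : ℂ) 1) (h0 : s ≠ 0) : a' (E s) ∉ 𝔅 := by
  intro hbad
  rw [hc.bad_iff hb (hE.mem s hs), hE.ov s hs h0] at hbad
  exact h.nba hb hs h0 hbad

theorem exp_per (z : ℂ) : Complex.exp (z + tpi) = Complex.exp z := by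
  have h1 := Complex.exp_periodic z
  have e : z + tpi = z + 2 * Real.pi * Complex.I := by rw [tpi]
  rw [e]
  exact h1

theorem holP_exp {K : ℕ} {R : ℂ → Mat K} (h : HolP (ball 0 1) R) :
    HolP HP (fun z => R (Complex.exp z)) :=
  holP_comp_l h Complex.differentiable_exp.differentiableOn isOpen_HP fun _ hz => (exp_mem hz).1

/-- existence of lifts -/
theorem Lft.exists (hT' : TD T' Λ a') (hb : Bd Λ 𝔅 δ) (hc : Cov T Λ a T' a' 𝔅 p)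
    (hf : FibL T' Λ a' 𝔅) (h : Cd T Λ a 𝔅 b R ω) (hper : Prd T' p R) {s1 : ℂ}
    (hs1 : s1 ∈ ball (0 : ℂ) 1) (h0 : s1 ≠ 0) {y : Mat M} (hy : y ∈ T') (hpy : p y = R s1) :
    ∃ E, Lft T' p R E ∧ E s1 = y := by
  obtain ⟨hz1, hz1'⟩ := log_mem hs1 h0
  obtain ⟨R', hR', hRT, hRp, hRy⟩ := hc.lift hb hT'.comp isOpen_HP convex_HP (holP_exp h.hol)
    (fun z hz => h.mem _ (exp_mem hz).1) (fun z hz => h.nba hb (exp_mem hz).1 (exp_mem hz).2) hz1 hy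
    (by rw [hz1']; exact hpy)
  obtain ⟨X, -, hX⟩ := punct hT' hb hf one_pos
  obtain ⟨-, E, hE, hET, hER⟩ := hX R' (fun z => ω (Complex.exp z)) b hR' hRT
    (hper R' hR' fun z hz => ⟨hRT z hz, hRp z hz⟩)
    (h.dif.comp Complex.differentiable_exp.differentiableOn fun z hz => (exp_mem hz).1)
    (fun z hz => by
      obtain ⟨e1, e2⟩ := exp_mem hz
      refine ⟨?_, h.bd _ e1, h.nb _ e1 e2⟩
      have e3 := Λ.sub_mem (h.ov _ e1) (hc.ovr _ (hRT z hz))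
      rw [hRp z hz] at e3
      have e : ω (Complex.exp z) - a (R (Complex.exp z)) - (a' (R' z) - a (R (Complex.exp z))) =
        ω (Complex.exp z) - a' (R' z) := by ring
      rwa [e] at e3)
  refine ⟨E, ⟨hE, hET, fun s hs hs0 => ?_⟩, ?_⟩
  · obtain ⟨e1, e2⟩ := log_mem hs hs0
    have e3 := hER _ e1
    rw [e2] at e3
    rw [e3, hRp _ e1, e2]
  · have e3 := hER _ hz1
    rw [hz1'] at e3
    rw [e3, hRy]

/-- uniqueness of lifts -/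
theorem Lft.unique {E' : ℂ → Mat M} (hb : Bd Λ 𝔅 δ) (hc : Cov T Λ a T' a' 𝔅 p)
    (h : Cd T Λ a 𝔅 b R ω) (hE : Lft T' p R E) (hE' : Lft T' p R E') {s1 : ℂ}
    (hs1 : s1 ∈ ball (0 : ℂ) 1) (h0 : s1 ≠ 0) (heq : E s1 = E' s1) {s : ℂ}
    (hs : s ∈ ball (0 : ℂ) 1) (hs0 : s ≠ 0) : E s = E' s := by
  obtain ⟨hz1, hz1'⟩ := log_mem hs1 h0
  obtain ⟨hz, hz'⟩ := log_mem hs hs0
  have h1 := hc.unique (U := HP) convex_HP.isPreconnected (P := fun z => E (Complex.exp z))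
    (Q := fun z => E' (Complex.exp z))
    (fun z hz => ((holP_exp hE.hol).continuousAt hz).continuousWithinAt)
    (fun z hz => ((holP_exp hE'.hol).continuousAt hz).continuousWithinAt)
    (fun z hz => hE.mem _ (exp_mem hz).1) (fun z hz => hE'.mem _ (exp_mem hz).1)
    (fun z hz => hE.nba h hc hb (exp_mem hz).1 (exp_mem hz).2)
    (fun z hz => by
      rw [hE.ov _ (exp_mem hz).1 (exp_mem hz).2, hE'.ov _ (exp_mem hz).1 (exp_mem hz).2])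
    hz1 (by rw [hz1']; exact heq) _ hz
  rwa [hz'] at h1

/-- the oscillation of lifts -/
theorem Lft.osc (hT' : TD T' Λ a') (hb : Bd Λ 𝔅 δ) (hc : Cov T Λ a T' a' 𝔅 p)
    (hf : FibL T' Λ a' 𝔅) {ε : ℝ} (hε : 0 < ε) : ∃ ρ : ℝ, 0 < ρ ∧ ρ < 1 ∧
      ∀ (b : ℂ) (R : ℂ → Mat N) (ω : ℂ → ℂ) (E : ℂ → Mat M), Cd T Λ a 𝔅 b R ω → Lft T' p R E →
        ∀ s s' : ℂ, s ≠ 0 → s' ≠ 0 → ‖s‖ ≤ ρ → ‖s'‖ ≤ ρ → ‖E s - E s'‖ ≤ ε := by
  obtain ⟨X, hX0, hX⟩ := punct hT' hb hf hε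
  have hX1 : Real.exp (-X) < 1 := by
    have h1 : Real.exp (-X) < Real.exp 0 := Real.exp_lt_exp.2 (by linarith)
    rwa [Real.exp_zero] at h1
  refine ⟨Real.exp (-X), Real.exp_pos _, hX1, ?_⟩
  intro b R ω E h hE s s' hs0 hs0' hs hs'
  obtain ⟨h1, -⟩ := hX (fun z => E (Complex.exp z)) (fun z => ω (Complex.exp z)) b
    (holP_exp hE.hol) (fun z hz => hE.mem _ (exp_mem hz).1) (fun z _ => by
      rw [exp_per])
    (h.dif.comp Complex.differentiable_exp.differentiableOn fun z hz => (exp_mem hz).1)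
    (fun z hz => by
      obtain ⟨e1, e2⟩ := exp_mem hz
      refine ⟨?_, h.bd _ e1, h.nb _ e1 e2⟩
      have e3 := Λ.sub_mem (h.ov _ e1) (hc.ovr _ (hE.mem _ e1))
      rw [hE.ov _ e1 e2] at e3
      have e : ω (Complex.exp z) - a (R (Complex.exp z)) - (a' (E (Complex.exp z)) -
        a (R (Complex.exp z))) = ω (Complex.exp z) - a' (E (Complex.exp z)) := by ring
      rwa [e] at e3)
  have hre : ∀ s : ℂ, s ≠ 0 → ‖s‖ ≤ Real.exp (-X) → (Complex.log s).re ≤ -X ∧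
      Complex.exp (Complex.log s) = s := by
    intro s hs0 hs
    refine ⟨?_, Complex.exp_log hs0⟩
    rw [Complex.log_re]
    have h2 := Real.log_le_log (norm_pos_iff.2 hs0) hs
    rwa [Real.log_exp] at h2
  obtain ⟨e1, e2⟩ := hre s hs0 hs
  obtain ⟨e3, e4⟩ := hre s' hs0' hs'
  have h2 := h1 _ _ e1 e3
  rwa [e2, e4] at h2

/-- convergence of lifts -/
theorem Lft.conv (hT' : TD T' Λ a') (hb : Bd Λ 𝔅 δ) (hc : Cov T Λ a T' a' 𝔅 p)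
    (hf : FibL T' Λ a' 𝔅) {R : ℕ → ℂ → Mat N} {ω : ℕ → ℂ → ℂ} {E : ℕ → ℂ → Mat M} {G : ℂ → Mat N}
    {ωG : ℂ → ℂ} {EG : ℂ → Mat M} (h : ∀ᶠ m in (𝓤 : Filter ℕ), Cd T Λ a 𝔅 b (R m) (ω m))
    (hG : Cd T Λ a 𝔅 b G ωG) (hE : ∀ᶠ m in (𝓤 : Filter ℕ), Lft T' p (R m) (E m))
    (hEG : Lft T' p G EG) (hRG : CConv (𝓤 : Filter ℕ) (ball 0 1) R G) {s1 : ℂ}
    (hs1 : s1 ∈ ball (0 : ℂ) 1) (h0 : s1 ≠ 0)
    (hten : Tendsto (fun m => E m s1) 𝓤 (𝓝 (EG s1))) :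
    CConv (𝓤 : Filter ℕ) (ball 0 1) E EG := by
  obtain ⟨hz1, hz1'⟩ := log_mem hs1 h0
  have hcc : CConv (𝓤 : Filter ℕ) HP (fun m z => E m (Complex.exp z))
      (fun z => EG (Complex.exp z)) := by
    refine hc.conv_lift hb isOpen_HP convex_HP.isPreconnected
      (P := fun m z => R m (Complex.exp z)) (G := fun z => G (Complex.exp z)) ?_ ?_ ?_
      (cconv_exp fun s hs => hRG s hs.1) hz1 (by rw [hz1']; exact hten)
    · filter_upwards [h, hE] with m hm hEm z hz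
      obtain ⟨e1, e2⟩ := exp_mem hz
      exact ⟨(holP_exp hm.hol).continuousAt hz, hm.mem _ e1, (holP_exp hEm.hol).continuousAt hz,
        hEm.mem _ e1, hEm.ov _ e1 e2⟩
    · intro z hz
      obtain ⟨e1, e2⟩ := exp_mem hz
      exact ⟨hEG.nba hG hc hb e1 e2, (holP_exp hEG.hol).continuousAt hz, hEG.mem _ e1,
        hEG.ov _ e1 e2⟩
    · intro z hz
      exact ⟨(holP_exp hG.hol).continuousAt hz, hG.mem _ (exp_mem hz).1⟩
  have hcp := cconv_log hcc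
  intro s hs
  by_cases hs0 : s = 0
  swap
  · exact hcp s ⟨hs, hs0⟩
  subst hs0
  rw [Metric.tendsto_nhds]
  intro ε hε
  obtain ⟨ρ, hρ0, hρ1, hρ⟩ := Lft.osc (a := a) hT' hb hc hf (ε := ε / 8) (by positivity)
  have hcont : ContinuousAt EG 0 := hEG.hol.continuousAt hs
  obtain ⟨r, hr, hrs⟩ := Metric.continuousAt_iff.1 hcont (ε / 8) (by positivity)
  -- the comparison point
  set s2 : ℂ := ((min (ρ / 2) (r / 2) : ℝ) : ℂ) with hs2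
  have hs2n : ‖s2‖ = min (ρ / 2) (r / 2) := by
    rw [hs2, Complex.norm_real, Real.norm_of_nonneg (by positivity)]
  have hs20 : s2 ≠ 0 := by
    rw [← norm_pos_iff, hs2n]
    positivity
  have hs2ρ : ‖s2‖ ≤ ρ / 2 := by rw [hs2n]; exact min_le_left _ _
  have hs2r : ‖s2‖ ≤ r / 2 := by rw [hs2n]; exact min_le_right _ _
  have hs2b : s2 ∈ ball (0 : ℂ) 1 := mem_ball_zero_iff.2 (by linarith)
  have h2 : dist (EG s2) (EG 0) < ε / 8 := hrs (by rw [dist_zero_right]; linarith)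
  have h3 := Metric.tendsto_nhds.1 (hcp.pointwise ⟨hs2b, hs20⟩) (ε / 8) (by positivity)
  have h4 : ∀ᶠ m in (𝓤 : Filter ℕ), ∀ x ∈ ball (0 : ℂ) ρ, dist (E m x) (EG 0) < ε := by
    filter_upwards [h, hE, h3] with m hm hEm hm3
    have h5 : ∀ x : ℂ, x ≠ 0 → ‖x‖ ≤ ρ → dist (E m x) (EG 0) ≤ 3 * ε / 8 := by
      intro x hx0 hx
      have e1 := hρ b (R m) (ω m) (E m) hm hEm x s2 hx0 hs20 hx (by linarith)
      rw [← dist_eq_norm] at e1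
      have e2 := dist_triangle (E m x) (E m s2) (EG 0)
      have e3 := dist_triangle (E m s2) (EG s2) (EG 0)
      linarith
    intro x hx
    rw [mem_ball_zero_iff] at hx
    by_cases hx0 : x = 0
    · subst hx0
      have e1 : ContinuousAt (E m) 0 := hEm.hol.continuousAt hs
      have e2 : Tendsto (fun x => dist (E m x) (EG 0)) (𝓝[≠] (0 : ℂ)) (𝓝 (dist (E m 0) (EG 0))) :=
        (Tendsto.dist (Continuous.tendsto continuous_id _ |>.comp e1.tendsto)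
          tendsto_const_nhds).mono_left nhdsWithin_le_nhds
      have e3 : dist (E m 0) (EG 0) ≤ 3 * ε / 8 := by
        refine le_of_tendsto e2 ?_
        filter_upwards [self_mem_nhdsWithin, nhdsWithin_le_nhds (ball_mem_nhds (0 : ℂ) hρ0)] with x h6 h7
        exact h5 x h6 (mem_ball_zero_iff.1 h7).le
      linarith
    · have := h5 x hx0 hx.le
      linarith
  rw [eventually_prod_iff]
  exact ⟨_, h4, fun x => x ∈ ball (0 : ℂ) ρ, ball_mem_nhds _ hρ0, fun hm x hx => hm x hx⟩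

/-! ### limits of pairs of points -/

theorem VL.congr {i : Fin M} {P Q P1 Q1 : ℕ → Mat M} {w w1 : ℕ → ℂ} {x : Mat M} {v : Fin M → ℂ}
    (h : VL T' Λ a' 𝓤 i P Q w x v) (hP : ∀ᶠ m in (𝓤 : Filter ℕ), P m = P1 m)
    (hQ : ∀ᶠ m in (𝓤 : Filter ℕ), Q m = Q1 m) (hw : ∀ᶠ m in (𝓤 : Filter ℕ), w m = w1 m) :
    VL T' Λ a' 𝓤 i P1 Q1 w1 x v where
  mem := h.mem
  nz := h.nz
  hP := by
    filter_upwards [h.hP, hP, hQ] with m h1 h2 h3
    rwa [h2, h3] at h1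
  cP := h.cP.congr' hP
  cQ := h.cQ.congr' hQ
  lim := by
    refine h.lim.congr' ?_
    filter_upwards [hP, hQ, hw] with m h2 h3 h4
    rw [h2, h3, h4]

/-- the change of charts -/
theorem VL.chg (hTP : T' ⊆ PM) (hL : LF ex T' Λ a' 𝔅 η) {i i' : Fin M} {P Q : ℕ → Mat M} {w : ℕ → ℂ}
    {x : Mat M} {v : Fin M → ℂ} (h : VL T' Λ a' 𝓤 i P Q w x v) (hi' : x i' i' ≠ 0) :
    ∃ v', VL T' Λ a' 𝓤 i' P Q w x v' ∧ ∀ (q : κ) (l : Fin M),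
      η q (chart i' x) v' * chart i' x l ^ ex = η q (chart i x) v * chart i x l ^ ex := by
  have hM := hTP h.mem
  have hx := chart_i'_ne hM h.nz hi'
  obtain ⟨f', hf', hfv⟩ := tr_strict hx
  have hdiag : ∀ {S : ℕ → Mat M} {j : Fin M}, Tendsto S 𝓤 (𝓝 x) → x j j ≠ 0 →
      ∀ᶠ m in (𝓤 : Filter ℕ), S m j j ≠ 0 := by
    intro S j hS hj
    have hc := (continuous_apply_apply (ρ := fun (_ : Fin M) (_ : Fin M) => ℂ) j j).continuousAt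
      (x := x)
    exact (hc.tendsto.comp hS).eventually_ne hj
  refine ⟨f' v, ⟨h.mem, hi', h.hP, h.cP, h.cQ, ?_⟩, fun q l => ?_⟩
  · have hp : Tendsto (fun m => chart i (P m)) 𝓤 (𝓝 (chart i x)) :=
      (continuousAt_chart h.nz).tendsto.comp h.cP
    have hq : Tendsto (fun m => chart i (Q m)) 𝓤 (𝓝 (chart i x)) :=
      (continuousAt_chart h.nz).tendsto.comp h.cQ
    refine (strict_lim hf' hp hq h.lim).congr' ?_
    filter_upwards [h.hP, hdiag h.cP h.nz, hdiag h.cQ h.nz, hdiag h.cP hi', hdiag h.cQ hi']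
      with m h1 h2 h3 h4 h5
    rw [chart_tr (hTP h1.1) h2 h4, chart_tr (hTP h1.2.1) h3 h5]
  · rw [hfv, chart_tr hM h.nz hi']
    unfold tr
    rw [hL.homog x h.mem i h.nz q _ _ _ (inv_ne_zero hx), Pi.smul_apply, smul_eq_mul, inv_inv,
      mul_pow, inv_pow]
    have := pow_ne_zero ex hx
    field_simp

/-- the core: bounds of the values near the centre of the disc -/
theorem core (hRAT : S_RAT) (hT' : TD T' Λ a') (hL : LF ex T' Λ a' 𝔅 η) (q : κ) (l : Fin M)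
    {EP EQ : ℕ → ℂ → Mat M} {EG : ℂ → Mat M} {W : ℕ → ℂ → ℂ}
    (hP : ∀ᶠ m in (𝓤 : Filter ℕ), HolP (ball 0 1) (EP m) ∧ HolP (ball 0 1) (EQ m) ∧
      DifferentiableOn ℂ (W m) (ball 0 1) ∧ ∀ s ∈ ball (0 : ℂ) 1, EP m s ∈ T' ∧ EQ m s ∈ T' ∧
        (s ≠ 0 → a' (EP m s) ∉ 𝔅 ∧ a' (EQ m s) ∉ 𝔅))
    (hG : HolP (ball 0 1) EG) (hGT : ∀ s ∈ ball (0 : ℂ) 1, EG s ∈ T' ∧ (s ≠ 0 → a' (EG s) ∉ 𝔅))
    (hcP : CConv (𝓤 : Filter ℕ) (ball 0 1) EP EG) (hcQ : CConv (𝓤 : Filter ℕ) (ball 0 1) EQ EG)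
    (hcirc : ∀ ρ : ℝ, 0 < ρ → ρ < 1 → ∃ B : ℝ, ∀ᶠ m in (𝓤 : Filter ℕ), ∀ s : ℂ, ‖s‖ = ρ →
      ‖W m s‖ * ‖EQ m s - EP m s‖ ≤ B) :
    ∃ ρ : ℝ, 0 < ρ ∧ ρ ≤ 1 ∧ ∃ C : ℝ, ∀ s1 : ℂ, s1 ≠ 0 → ‖s1‖ < ρ → ∀ sm : ℕ → ℂ,
      Tendsto sm 𝓤 (𝓝 s1) → ∀ (i : Fin M) (v : Fin M → ℂ),
      VL T' Λ a' 𝓤 i (fun m => EP m (sm m)) (fun m => EQ m (sm m)) (fun m => W m (sm m)) (EG s1) v →
      ‖η q (chart i (EG s1)) v * chart i (EG s1) l ^ ex‖ ≤ C := by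
  classical
  have h01 : (0 : ℂ) ∈ ball (0 : ℂ) 1 := mem_ball_self one_pos
  obtain ⟨i, O, n, u, V, H, K, hO, hM0, hOi, hV, hK, hHan, hu, hune, hlim⟩ :=
    hL.loc (EG 0) (hGT 0 h01).1
  have hOn : O ∈ 𝓝 (EG 0) := hO.mem_nhds hM0
  -- the radius
  have h1 : ∀ᶠ x : ℕ × ℂ in (𝓤 : Filter ℕ) ×ˢ 𝓝 0, EP x.1 x.2 ∈ O ∧ EQ x.1 x.2 ∈ O :=
    ((hcP 0 h01).eventually hOn).and ((hcQ 0 h01).eventually hOn)
  rw [eventually_prod_iff] at h1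
  obtain ⟨pa, hpa, pb, hpb, hab⟩ := h1
  have h2 : ∀ᶠ s in 𝓝 (0 : ℂ), EG s ∈ O := (hG.continuousAt h01).eventually hOn
  obtain ⟨r, hr, hrs⟩ := Metric.mem_nhds_iff.1 (inter_mem (inter_mem hpb h2)
    (ball_mem_nhds (0 : ℂ) one_pos))
  set ρ : ℝ := min (r / 2) (1 / 4) with hρdef
  have hρ0 : 0 < ρ := by positivity
  have hρr : 2 * ρ ≤ r := by
    have := min_le_left (r / 2) (1 / 4 : ℝ)
    linarith
  have hρ4 : ρ ≤ 1 / 4 := min_le_right _ _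
  have hb2 : ∀ s : ℂ, ‖s‖ < 2 * ρ → pb s ∧ EG s ∈ O ∧ s ∈ ball (0 : ℂ) 1 := by
    intro s hs
    obtain ⟨⟨e1, e2⟩, e3⟩ := hrs (mem_ball_zero_iff.2 (hs.trans_le hρr))
    exact ⟨e1, e2, e3⟩
  have huc : ∀ j, ∀ x ∈ O, ContinuousAt (u j) x := fun j x hx =>
    (hu j).1.continuousAt (hO.mem_nhds hx)
  -- the differentiability and the zeros
  have hm1 : ∀ᶠ m in (𝓤 : Filter ℕ), ∀ s : ℂ, ‖s‖ < 2 * ρ → EP m s ∈ O ∧ EQ m s ∈ O := by
    filter_upwards [hpa] with m hm s hs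
    exact hab hm (hb2 s hs).1
  obtain ⟨B, hB⟩ := hcirc ρ hρ0 (by linarith)
  have hrat : ∀ j, ∃ C : ℝ, ∀ᶠ m in (𝓤 : Filter ℕ), ∀ s, s ≠ 0 → ‖s‖ ≤ ρ →
      ‖W m s‖ * ‖u j (EQ m s) - u j (EP m s)‖ ≤ C * ‖u j (EP m s)‖ := by
    intro j
    refine hRAT 𝓤 ρ (fun m s => u j (EP m s)) (fun m s => u j (EQ m s)) W (fun s => u j (EG s))
      (K * B) hρ0 ?_ ?_ ?_ ?_ ?_ ?_
    · filter_upwards [hP, hm1] with m hm hmO
      refine ⟨fun s hs => ?_, fun s hs => ?_, ?_, fun s hs0 hs => ?_⟩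
      · have hs' := mem_ball_zero_iff.1 hs
        exact ((hu j).2.1 _ (EP m) s isOpen_ball (hb2 s hs').2.2 hm.1
          (hmO s hs').1).differentiableWithinAt
      · have hs' := mem_ball_zero_iff.1 hs
        exact ((hu j).2.1 _ (EQ m) s isOpen_ball (hb2 s hs').2.2 hm.2.1
          (hmO s hs').2).differentiableWithinAt
      · exact hm.2.2.1.mono (ball_subset_ball (by linarith))
      · obtain ⟨e1, e2, e3⟩ := hm.2.2.2 s (hb2 s hs).2.2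
        exact ⟨hune _ ⟨(hmO s hs).1, e1⟩ (e3 hs0).1 j, hune _ ⟨(hmO s hs).2, e2⟩ (e3 hs0).2 j⟩
    · intro s hs
      have hs' := mem_ball_zero_iff.1 hs
      exact ((hu j).2.1 _ EG s isOpen_ball (hb2 s hs').2.2 hG
        (hb2 s hs').2.1).differentiableWithinAt
    · intro s hs0 hs
      obtain ⟨e1, e2⟩ := hGT s (hb2 s hs).2.2
      exact hune _ ⟨(hb2 s hs).2.1, e1⟩ (e2 hs0) j
    · intro ε hε
      have hc1 : CConv (𝓤 : Filter ℕ) (ball 0 (2 * ρ)) (fun m s => u j (EP m s))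
          (fun s => u j (EG s)) :=
        CConv.comp (fun s hs => hcP s (hb2 s (mem_ball_zero_iff.1 hs)).2.2)
          (fun s hs => huc j _ (hb2 s (mem_ball_zero_iff.1 hs)).2.1)
      filter_upwards [CConv.unif isOpen_ball hc1 (isCompact_closedBall (0 : ℂ) ρ)
        (closedBall_subset_ball (by linarith)) hε] with m hm s hs
      exact (hm s (mem_closedBall_zero_iff.2 hs)).le
    · intro ε hε
      have hc1 : CConv (𝓤 : Filter ℕ) (ball 0 (2 * ρ)) (fun m s => u j (EQ m s))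
          (fun s => u j (EG s)) :=
        CConv.comp (fun s hs => hcQ s (hb2 s (mem_ball_zero_iff.1 hs)).2.2)
          (fun s hs => huc j _ (hb2 s (mem_ball_zero_iff.1 hs)).2.1)
      filter_upwards [CConv.unif isOpen_ball hc1 (isCompact_closedBall (0 : ℂ) ρ)
        (closedBall_subset_ball (by linarith)) hε] with m hm s hs
      exact (hm s (mem_closedBall_zero_iff.2 hs)).le
    · filter_upwards [hB, hm1] with m hm hmO s hs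
      have hs' : ‖s‖ < 2 * ρ := by linarith
      have e1 := (hu j).2.2 _ (hmO s hs').2 _ (hmO s hs').1
      calc ‖W m s‖ * ‖u j (EQ m s) - u j (EP m s)‖ ≤ ‖W m s‖ * (K * ‖EQ m s - EP m s‖) :=
            mul_le_mul_of_nonneg_left e1 (norm_nonneg _)
        _ = K * (‖W m s‖ * ‖EQ m s - EP m s‖) := by ring
        _ ≤ K * B := mul_le_mul_of_nonneg_left (hm s hs) hK
  choose C hC using hrat
  set C0 : ℝ := ∑ j, |C j| with hC0
  have hCj : ∀ j, C j ≤ C0 := fun j => (le_abs_self _).trans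
    (Finset.single_le_sum (f := fun j => |C j|) (fun j _ => abs_nonneg _) (Finset.mem_univ j))
  have hC00 : 0 ≤ C0 := Finset.sum_nonneg fun j _ => abs_nonneg _
  -- the compact set
  have hsb : ∀ s ∈ closedBall (0 : ℂ) ρ, ‖s‖ < 2 * ρ := by
    intro s hs
    rw [mem_closedBall_zero_iff] at hs
    linarith
  have hchc : ContinuousOn (fun s => chart i (EG s)) (closedBall 0 ρ) := by
    intro s hs
    have e1 := hb2 s (hsb s hs)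
    exact (ContinuousAt.comp (f := EG) (continuousAt_chart (hOi _ e1.2.1).1)
      (hG.continuousAt e1.2.2)).continuousWithinAt
  have hK1 : IsCompact ((fun s => chart i (EG s)) '' closedBall 0 ρ) :=
    (isCompact_closedBall (0 : ℂ) ρ).image_of_continuousOn hchc
  have hK2 : IsCompact (((fun s => chart i (EG s)) '' closedBall 0 ρ) ×ˢ
      closedBall (0 : Fin n → ℂ) C0) := hK1.prod (isCompact_closedBall _ _)
  have hHc : ContinuousOn (H q) (((fun s => chart i (EG s)) '' closedBall 0 ρ) ×ˢ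
      closedBall (0 : Fin n → ℂ) C0) := by
    refine (hHan q).continuousOn.mono ?_
    rintro ⟨x, y⟩ ⟨⟨s, hs, hx⟩, -⟩
    refine ⟨?_, mem_univ _⟩
    have hx' : chart i (EG s) = x := hx
    rw [← hx']
    exact (hOi _ (hb2 s (hsb s hs)).2.1).2
  obtain ⟨C1, hC1⟩ := hK2.exists_bound_of_continuousOn hHc
  obtain ⟨C2, hC2⟩ := (isCompact_closedBall (0 : ℂ) ρ).exists_bound_of_continuousOn hchc
  refine ⟨ρ, hρ0, by linarith, C1 * C2 ^ ex, ?_⟩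
  intro s1 hs10 hs1 sm hsm i0 v0 hVL0
  have hs1' : s1 ∈ closedBall (0 : ℂ) ρ := mem_closedBall_zero_iff.2 hs1.le
  have e1 := hb2 s1 (hsb s1 hs1')
  obtain ⟨e2, e3⟩ := hGT s1 e1.2.2
  have hnb := e3 hs10
  obtain ⟨v, hVL, hval⟩ := VL.chg hT'.sub hL hVL0 (hOi _ e1.2.1).1
  rw [← hval q l]
  obtain ⟨sv, hsv, hη⟩ := hlim 𝓤 _ _ _ _ _ hVL e1.2.1 hnb
  rw [hη q]
  have hune1 : ∀ j, u j (EG s1) ≠ 0 := hune _ ⟨e1.2.1, e2⟩ hnb
  have hsmall : ∀ᶠ m in (𝓤 : Filter ℕ), sm m ≠ 0 ∧ ‖sm m‖ ≤ ρ := by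
    have e4 : ∀ᶠ s in 𝓝 s1, s ≠ 0 ∧ s ∈ ball (0 : ℂ) ρ :=
      inter_mem (isOpen_ne.mem_nhds hs10) (isOpen_ball.mem_nhds (mem_ball_zero_iff.2 hs1))
    filter_upwards [hsm.eventually e4] with m hm
    exact ⟨hm.1, (mem_ball_zero_iff.1 hm.2).le⟩
  have hsj : ∀ j, ‖sv j‖ ≤ C0 * ‖u j (EG s1)‖ := by
    intro j
    have h3 : Tendsto (fun m => ‖W m (sm m) * (u j (EQ m (sm m)) - u j (EP m (sm m)))‖) 𝓤
      (𝓝 ‖sv j‖) := (hsv j).norm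
    have h4 : Tendsto (fun m => C0 * ‖u j (EP m (sm m))‖) 𝓤 (𝓝 (C0 * ‖u j (EG s1)‖)) :=
      (((huc j _ e1.2.1).tendsto.comp hVL.cP).norm).const_mul C0
    refine le_of_tendsto_of_tendsto h3 h4 ?_
    filter_upwards [hC j, hsmall] with m hm1 hm2
    rw [norm_mul]
    exact (hm1 _ hm2.1 hm2.2).trans (mul_le_mul_of_nonneg_right (hCj j) (norm_nonneg _))
  have hin : (fun j => sv j / u j (EG s1)) ∈ closedBall (0 : Fin n → ℂ) C0 := by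
    rw [mem_closedBall_zero_iff, pi_norm_le_iff_of_nonneg hC00]
    intro j
    rw [norm_div, div_le_iff₀ (norm_pos_iff.2 (hune1 j))]
    exact hsj j
  have h5 := hC1 (chart i (EG s1), fun j => sv j / u j (EG s1)) ⟨⟨s1, hs1', rfl⟩, hin⟩
  have h6 := (norm_le_pi_norm (chart i (EG s1)) l).trans (hC2 s1 hs1')
  rw [norm_mul, norm_pow]
  exact mul_le_mul h5 (pow_le_pow_left₀ (norm_nonneg _) h6 ex) (pow_nonneg (norm_nonneg _) ex)
    ((norm_nonneg _).trans h5)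

/-- points over the same points, near a good point, are equal -/
theorem sig_ev (hc : Cov T Λ a T' a' 𝔅 p) {y : Mat M} (hy : y ∈ T') (hya : a' y ∉ 𝔅)
    {S1 S2 : ℕ → Mat M} (h1 : Tendsto S1 𝓤 (𝓝 y)) (h2 : Tendsto S2 𝓤 (𝓝 y))
    (hT : ∀ᶠ m in (𝓤 : Filter ℕ), S1 m ∈ T' ∧ S2 m ∈ T' ∧ p (S1 m) = p (S2 m)) :
    ∀ᶠ m in (𝓤 : Filter ℕ), S1 m = S2 m := by
  obtain ⟨O, O', σ, L, hO, hO', hpO, hxO, hL, hlip, hsec, huni, -⟩ := hc.loc y hy hya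
  filter_upwards [h1.eventually (hO'.mem_nhds hxO), h2.eventually (hO'.mem_nhds hxO), hT]
    with m e1 e2 e3
  have e4 := (huni _ ⟨e1, e3.1⟩).2
  have e5 := (huni _ ⟨e2, e3.2.1⟩).2
  rw [← e4, ← e5, e3.2.2]

/-- the bound on the circles -/
theorem circ (hb : Bd Λ 𝔅 δ) (hc : Cov T Λ a T' a' 𝔅 p) {R1 R2 : ℕ → ℂ → Mat N}
    {EP EQ : ℕ → ℂ → Mat M} {G : ℂ → Mat N} {ωG : ℂ → ℂ} {EG : ℂ → Mat M} {W : ℕ → ℂ → ℂ} {B' : ℝ}
    (hP : ∀ᶠ m in (𝓤 : Filter ℕ), Lft T' p (R1 m) (EP m))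
    (hQ : ∀ᶠ m in (𝓤 : Filter ℕ), Lft T' p (R2 m) (EQ m)) (hG : Cd T Λ a 𝔅 b G ωG)
    (hEG : Lft T' p G EG) (hcP : CConv (𝓤 : Filter ℕ) (ball 0 1) EP EG)
    (hcQ : CConv (𝓤 : Filter ℕ) (ball 0 1) EQ EG)
    (hRT : ∀ᶠ m in (𝓤 : Filter ℕ), ∀ s ∈ ball (0 : ℂ) 1, R1 m s ∈ T ∧ R2 m s ∈ T)
    (hbd : ∀ᶠ m in (𝓤 : Filter ℕ), ∀ s ∈ ball (0 : ℂ) 1, ‖R2 m s - R1 m s‖ * ‖W m s‖ ≤ B')
    (ρ : ℝ) (hρ0 : 0 < ρ) (hρ1 : ρ < 1) : ∃ B : ℝ, ∀ᶠ m in (𝓤 : Filter ℕ), ∀ s : ℂ, ‖s‖ = ρ →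
      ‖W m s‖ * ‖EQ m s - EP m s‖ ≤ B := by
  have hcomp : ∃ B : ℝ, ∀ᶠ m in (𝓤 : Filter ℕ), ∀ s ∈ sphere (0 : ℂ) ρ,
      ‖W m s‖ * ‖EQ m s - EP m s‖ ≤ B := by
    refine (isCompact_sphere (0 : ℂ) ρ).induction_on
      (p := fun A => ∃ B : ℝ, ∀ᶠ m in (𝓤 : Filter ℕ), ∀ s ∈ A, ‖W m s‖ * ‖EQ m s - EP m s‖ ≤ B)
      ?_ ?_ ?_ ?_
    · exact ⟨0, Eventually.of_forall fun m s hs => absurd hs (notMem_empty s)⟩
    · rintro A1 A2 h12 ⟨B, hB⟩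
      refine ⟨B, ?_⟩
      filter_upwards [hB] with m hm s hs
      exact hm s (h12 hs)
    · rintro A1 A2 ⟨B1, hB1⟩ ⟨B2, hB2⟩
      refine ⟨max B1 B2, ?_⟩
      filter_upwards [hB1, hB2] with m hm1 hm2 s hs
      rcases hs with hs | hs
      · exact (hm1 s hs).trans (le_max_left _ _)
      · exact (hm2 s hs).trans (le_max_right _ _)
    · intro s0 hs0
      have hs0n : ‖s0‖ = ρ := mem_sphere_zero_iff_norm.1 hs0
      have hs0b : s0 ∈ ball (0 : ℂ) 1 := mem_ball_zero_iff.2 (by rw [hs0n]; exact hρ1)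
      have hs00 : s0 ≠ 0 := by
        rw [← norm_pos_iff, hs0n]
        exact hρ0
      obtain ⟨O, O', σ, L, hO, hO', hpO, hxO, hL, hlip, hsec, huni, -⟩ :=
        hc.loc (EG s0) (hEG.mem s0 hs0b) (hEG.nba hG hc hb hs0b hs00)
      have h1 : ∀ᶠ x : ℕ × ℂ in (𝓤 : Filter ℕ) ×ˢ 𝓝 s0, EP x.1 x.2 ∈ O' ∧ EQ x.1 x.2 ∈ O' :=
        ((hcP s0 hs0b).eventually (hO'.mem_nhds hxO)).and
          ((hcQ s0 hs0b).eventually (hO'.mem_nhds hxO))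
      rw [eventually_prod_iff] at h1
      obtain ⟨pa, hpa, pb, hpb, hab⟩ := h1
      have h2 : ∀ᶠ s in 𝓝 s0, s ≠ 0 ∧ s ∈ ball (0 : ℂ) 1 :=
        inter_mem (isOpen_ne.mem_nhds hs00) (isOpen_ball.mem_nhds hs0b)
      refine ⟨{s | pb s ∧ s ≠ 0 ∧ s ∈ ball (0 : ℂ) 1}, mem_nhdsWithin_of_mem_nhds (hpb.and h2),
        L * B', ?_⟩
      filter_upwards [hpa, hP, hQ, hRT, hbd] with m hm hPm hQm hRm hbm s hs
      obtain ⟨hs1, hs2, hs3⟩ := hs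
      obtain ⟨e1, e2⟩ := hab hm hs1
      have e3 := huni _ ⟨e1, hPm.mem s hs3⟩
      have e4 := huni _ ⟨e2, hQm.mem s hs3⟩
      rw [hPm.ov s hs3 hs2] at e3
      rw [hQm.ov s hs3 hs2] at e4
      have e5 := hlip _ ⟨e4.1, (hRm s hs3).2⟩ _ ⟨e3.1, (hRm s hs3).1⟩
      rw [e3.2, e4.2] at e5
      calc ‖W m s‖ * ‖EQ m s - EP m s‖ ≤ ‖W m s‖ * (L * ‖R2 m s - R1 m s‖) :=
            mul_le_mul_of_nonneg_left e5 (norm_nonneg _)
        _ = L * (‖R2 m s - R1 m s‖ * ‖W m s‖) := by ring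
        _ ≤ L * B' := mul_le_mul_of_nonneg_left (hbm s hs3) hL
  obtain ⟨B, hB⟩ := hcomp
  refine ⟨B, ?_⟩
  filter_upwards [hB] with m hm s hs
  exact hm s (mem_sphere_zero_iff_norm.2 hs)

/-- converging lifts -/
theorem lift_seq (hT' : TD T' Λ a') (hb : Bd Λ 𝔅 δ) (hc : Cov T Λ a T' a' 𝔅 p)
    (hf : FibL T' Λ a' 𝔅) {R : ℕ → ℂ → Mat N} {ω : ℕ → ℂ → ℂ} {G : ℂ → Mat N}
    {ωG : ℂ → ℂ} {EG : ℂ → Mat M}
    (h : ∀ᶠ m in (𝓤 : Filter ℕ), Cd T Λ a 𝔅 b (R m) (ω m) ∧ Prd T' p (R m))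
    (hG : Cd T Λ a 𝔅 b G ωG) (hEG : Lft T' p G EG) (hRG : CConv (𝓤 : Filter ℕ) (ball 0 1) R G)
    {s0 : ℂ} (hs0 : s0 ∈ ball (0 : ℂ) 1) (h0 : s0 ≠ 0) :
    ∃ E : ℕ → ℂ → Mat M, (∀ᶠ m in (𝓤 : Filter ℕ), Lft T' p (R m) (E m)) ∧
      CConv (𝓤 : Filter ℕ) (ball 0 1) E EG := by
  obtain ⟨O, O', σ, L, hO, hO', hpO, hxO, hL, hlip, hsec, huni, -⟩ :=
    hc.loc (EG s0) (hEG.mem s0 hs0) (hEG.nba hG hc hb hs0 h0)
  have hpG : p (EG s0) = G s0 := hEG.ov s0 hs0 h0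
  have hten := hRG.pointwise hs0
  have hO1 : ∀ᶠ m in (𝓤 : Filter ℕ), R m s0 ∈ O := by
    refine hten.eventually (hO.mem_nhds ?_)
    rw [← hpG]
    exact hpO
  have h1 : ∀ᶠ m in (𝓤 : Filter ℕ), ∃ E, Lft T' p (R m) E ∧ E s0 = σ (R m s0) := by
    filter_upwards [h, hO1] with m hm hmO
    obtain ⟨e1, e2⟩ := hsec _ ⟨hmO, hm.1.mem s0 hs0⟩
    exact Lft.exists hT' hb hc hf hm.1 hm.2 hs0 h0 e1 e2
  obtain ⟨E, hE⟩ := h1.choice
  refine ⟨E, hE.mono fun _ h => h.1, ?_⟩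
  refine Lft.conv hT' hb hc hf (h.mono fun _ h => h.1) hG (hE.mono fun _ h => h.1) hEG hRG hs0 h0 ?_
  have h2 := (huni _ ⟨hxO, hEG.mem s0 hs0⟩).2
  rw [tendsto_iff_norm_sub_tendsto_zero]
  have h3 : Tendsto (fun m => L * ‖R m s0 - G s0‖) 𝓤 (𝓝 0) := by
    have := (tendsto_iff_norm_sub_tendsto_zero.1 hten).const_mul L
    rwa [mul_zero] at this
  refine squeeze_zero' (Eventually.of_forall fun _ => norm_nonneg _) ?_ h3
  filter_upwards [hE, hO1, h] with m hm hmO hmC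
  rw [hm.2, ← h2, ← hpG]
  exact hlip _ ⟨hmO, hmC.1.mem s0 hs0⟩ _ ⟨hpO, hc.map _ (hEG.mem s0 hs0)⟩

/-- bounds for a branch -/
theorem key (hRAT : S_RAT) (hT' : TD T' Λ a') (hb : Bd Λ 𝔅 δ) (hc : Cov T Λ a T' a' 𝔅 p)
    (hf : FibL T' Λ a' 𝔅) (hL : LF ex T' Λ a' 𝔅 η) (q : κ) (l : Fin M) {R1 R2 : ℕ → ℂ → Mat N}
    {ω : ℕ → ℂ → ℂ} {G : ℂ → Mat N} {ωG : ℂ → ℂ} {W : ℕ → ℂ → ℂ} {B' : ℝ}
    (h1 : ∀ᶠ m in (𝓤 : Filter ℕ), Cd T Λ a 𝔅 b (R1 m) (ω m) ∧ Prd T' p (R1 m))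
    (h2 : ∀ᶠ m in (𝓤 : Filter ℕ), Cd T Λ a 𝔅 b (R2 m) (ω m) ∧ Prd T' p (R2 m))
    (hG : Cd T Λ a 𝔅 b G ωG) (hGp : Prd T' p G) (hc1 : CConv (𝓤 : Filter ℕ) (ball 0 1) R1 G)
    (hc2 : CConv (𝓤 : Filter ℕ) (ball 0 1) R2 G)
    (hW : ∀ᶠ m in (𝓤 : Filter ℕ), DifferentiableOn ℂ (W m) (ball 0 1))
    (hbd : ∀ᶠ m in (𝓤 : Filter ℕ), ∀ s ∈ ball (0 : ℂ) 1, ‖R2 m s - R1 m s‖ * ‖W m s‖ ≤ B')
    {s0 : ℂ} (hs0 : s0 ∈ ball (0 : ℂ) 1) (h0 : s0 ≠ 0) {y : Mat M} (hy : y ∈ T')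
    (hpy : p y = G s0) : ∃ ρ : ℝ, 0 < ρ ∧ ρ ≤ 1 ∧ ∃ C : ℝ, ∀ E' : ℂ → Mat M, Lft T' p G E' →
      E' s0 = y → ∀ s1 : ℂ, s1 ≠ 0 → ‖s1‖ < ρ → ∀ sm : ℕ → ℂ, Tendsto sm 𝓤 (𝓝 s1) →
      ∀ (i : Fin M) (P0 Q0 : ℕ → Mat M) (v : Fin M → ℂ),
      VL T' Λ a' 𝓤 i P0 Q0 (fun m => W m (sm m)) (E' s1) v →
      (∀ᶠ m in (𝓤 : Filter ℕ), p (P0 m) = R1 m (sm m) ∧ p (Q0 m) = R2 m (sm m)) →
      ‖η q (chart i (E' s1)) v * chart i (E' s1) l ^ ex‖ ≤ C := by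
  obtain ⟨EG, hEG, hEGy⟩ := Lft.exists hT' hb hc hf hG hGp hs0 h0 hy hpy
  obtain ⟨EP, hEP, hcP⟩ := lift_seq hT' hb hc hf h1 hG hEG hc1 hs0 h0
  obtain ⟨EQ, hEQ, hcQ⟩ := lift_seq hT' hb hc hf h2 hG hEG hc2 hs0 h0
  obtain ⟨ρ, hρ0, hρ1, C, hC⟩ := core hRAT hT' hL q l (EP := EP) (EQ := EQ) (EG := EG) (W := W)
    (𝓤 := 𝓤) (𝔅 := 𝔅) (by
      filter_upwards [h1, h2, hEP, hEQ, hW] with m e1 e2 e3 e4 e5
      exact ⟨e3.hol, e4.hol, e5, fun s hs => ⟨e3.mem s hs, e4.mem s hs, fun hs0 =>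
        ⟨e3.nba e1.1 hc hb hs hs0, e4.nba e2.1 hc hb hs hs0⟩⟩⟩)
    hEG.hol (fun s hs => ⟨hEG.mem s hs, fun hs0 => hEG.nba hG hc hb hs hs0⟩) hcP hcQ
    (circ hb hc hEP hEQ hG hEG hcP hcQ (by
      filter_upwards [h1, h2] with m e1 e2 s hs
      exact ⟨e1.1.mem s hs, e2.1.mem s hs⟩) hbd)
  refine ⟨ρ, hρ0, hρ1, C, ?_⟩
  intro E' hE' hE'y s1 hs10 hs1 sm hsm i P0 Q0 v hVL hpp
  have hs1b : s1 ∈ ball (0 : ℂ) 1 := mem_ball_zero_iff.2 (by linarith)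
  have heq : E' s1 = EG s1 := hE'.unique hb hc hG hEG hs0 h0 (by rw [hE'y, hEGy]) hs1b hs10
  rw [heq] at hVL ⊢
  have hnb := hEG.nba hG hc hb hs1b hs10
  have hsmall : ∀ᶠ m in (𝓤 : Filter ℕ), sm m ≠ 0 ∧ sm m ∈ ball (0 : ℂ) 1 :=
    hsm.eventually (inter_mem (isOpen_ne.mem_nhds hs10) (isOpen_ball.mem_nhds hs1b))
  have e1 : ∀ᶠ m in (𝓤 : Filter ℕ), P0 m = EP m (sm m) := by
    refine sig_ev hc (hEG.mem s1 hs1b) hnb hVL.cP (CConv.seq hcP hs1b hsm) ?_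
    filter_upwards [hVL.hP, hpp, hEP, hsmall] with m f1 f2 f3 f4
    exact ⟨f1.1, f3.mem _ f4.2, by rw [f2.1, f3.ov _ f4.2 f4.1]⟩
  have e2 : ∀ᶠ m in (𝓤 : Filter ℕ), Q0 m = EQ m (sm m) := by
    refine sig_ev hc (hEG.mem s1 hs1b) hnb hVL.cQ (CConv.seq hcQ hs1b hsm) ?_
    filter_upwards [hVL.hP, hpp, hEQ, hsmall] with m f1 f2 f3 f4
    exact ⟨f1.2.1, f3.mem _ f4.2, by rw [f2.2, f3.ov _ f4.2 f4.1]⟩
  exact hC s1 hs10 hs1 sm hsm i v (VL.congr hVL e1 e2 (Eventually.of_forall fun _ => rfl))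

/-! ### the curves near the point over a bad value -/

theorem map_disc {z0 t0 : ℂ} {ρ : ℝ} (hρ : 0 < ρ) (ht0 : ‖t0 - z0‖ < ρ / 2) (k : ℕ) {s : ℂ}
    (hs : s ∈ ball (0 : ℂ) 1) : t0 + ((ρ / 2 : ℝ) : ℂ) * s ^ k ∈ ball z0 ρ := by
  rw [mem_ball_zero_iff] at hs
  rw [mem_ball, dist_eq_norm]
  have e1 : ‖((ρ / 2 : ℝ) : ℂ) * s ^ k‖ ≤ ρ / 2 := by
    rw [norm_mul, Complex.norm_real, Real.norm_of_nonneg (by positivity), norm_pow]
    have h1 : ‖s‖ ^ k ≤ 1 := pow_le_one₀ (norm_nonneg _) hs.le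
    have h2 : 0 < ρ / 2 := by positivity
    calc ρ / 2 * ‖s‖ ^ k ≤ ρ / 2 * 1 := mul_le_mul_of_nonneg_left h1 h2.le
      _ = ρ / 2 := mul_one _
  have e2 := norm_add_le (t0 - z0) (((ρ / 2 : ℝ) : ℂ) * s ^ k)
  have e3 : t0 - z0 + ((ρ / 2 : ℝ) : ℂ) * s ^ k = t0 + ((ρ / 2 : ℝ) : ℂ) * s ^ k - z0 := by ring
  rw [e3] at e2
  linarith

theorem mk_cd (hb : Bd Λ 𝔅 δ) {k : ℕ} (hk : 0 < k)
    (hkper : ∀ (P : ℂ → Mat N) (P' : ℂ → Mat M), HolP HP P' →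
      (∀ z ∈ HP, P' z ∈ T' ∧ p (P' z) = P z) → (∀ z ∈ HP, P z ∈ T ∧ a (P z) ∉ 𝔅) →
      (∀ z ∈ HP, P (z + tpi) = P z) → ∀ z ∈ HP, P' (z + k * tpi) = P' z)
    {S : ℂ → Mat N} {χ : ℂ → ℂ} {z0 t0 : ℂ} {ρ : ℝ} (hρ : 0 < ρ) (ht0 : ‖t0 - z0‖ < ρ / 2)
    (hS : HolP (ball z0 ρ) S) (hST : ∀ t ∈ ball z0 ρ, S t ∈ T)
    (hχ : DifferentiableOn ℂ χ (ball z0 ρ)) (hov : ∀ t ∈ ball z0 ρ, χ t - a (S t) ∈ Λ)
    (hbd : ∀ t ∈ ball z0 ρ, ‖χ t - b‖ ≤ 1) (hnb : ∀ t ∈ ball z0 ρ, t ≠ t0 → χ t ∉ 𝔅) :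
    Cd T Λ a 𝔅 b (fun s => S (t0 + ((ρ / 2 : ℝ) : ℂ) * s ^ k))
      (fun s => χ (t0 + ((ρ / 2 : ℝ) : ℂ) * s ^ k)) ∧
      Prd T' p (fun s => S (t0 + ((ρ / 2 : ℝ) : ℂ) * s ^ k)) := by
  have hρ2 : ((ρ / 2 : ℝ) : ℂ) ≠ 0 := by
    have : (ρ / 2 : ℝ) ≠ 0 := by positivity
    exact_mod_cast this
  have hm : MapsTo (fun s : ℂ => t0 + ((ρ / 2 : ℝ) : ℂ) * s ^ k) (ball 0 1) (ball z0 ρ) :=
    fun s hs => map_disc hρ ht0 k hs
  have hd : Differentiable ℂ (fun s : ℂ => t0 + ((ρ / 2 : ℝ) : ℂ) * s ^ k) := by fun_prop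
  refine ⟨⟨holP_comp_l hS hd.differentiableOn isOpen_ball hm, fun s hs => hST _ (hm hs),
    hχ.comp hd.differentiableOn hm, fun s hs => hov _ (hm hs), fun s hs => hbd _ (hm hs),
    fun s hs hs0 => hnb _ (hm hs) fun h => ?_⟩, ?_⟩
  · have h1 : ((ρ / 2 : ℝ) : ℂ) * s ^ k = 0 := by linear_combination h
    exact (mul_ne_zero hρ2 (pow_ne_zero k hs0)) h1
  · intro R' hR' hRp z hz
    have hk0 : (k : ℂ) ≠ 0 := by exact_mod_cast hk.ne'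
    have hkr : (0 : ℝ) < k := by exact_mod_cast hk
    have hdiv : MapsTo (fun z : ℂ => z / k) HP HP := by
      intro w hw
      have hw' : w.re < 0 := hw
      change (w / (k : ℂ)).re < 0
      have : (w / (k : ℂ)).re = w.re / k := Complex.div_natCast_re w k
      rw [this]
      exact div_neg_of_neg_of_pos hw' hkr
    have h1 := hkper (fun z => S (t0 + ((ρ / 2 : ℝ) : ℂ) * Complex.exp z ^ 1))
      (fun z => R' (z / k))
      (holP_comp_l hR' (by fun_prop) isOpen_HP hdiv) (fun w hw => by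
        obtain ⟨e1, e2⟩ := hRp _ (hdiv hw)
        refine ⟨e1, ?_⟩
        rw [e2]
        simp only
        rw [← Complex.exp_nat_mul, mul_div_cancel₀ _ hk0, pow_one])
      (fun w hw => by
        have e1 := map_disc hρ ht0 1 (exp_mem hw).1
        refine ⟨hST _ e1, fun hbad => ?_⟩
        have e2 := hb.inv _ hbad _ (hov _ e1)
        rw [add_sub_cancel] at e2
        refine hnb _ e1 (fun h => ?_) e2
        have h1 : ((ρ / 2 : ℝ) : ℂ) * Complex.exp w ^ 1 = 0 := by linear_combination h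
        exact (mul_ne_zero hρ2 (pow_ne_zero 1 (Complex.exp_ne_zero w))) h1)
      (fun w _ => by rw [exp_per])
    have hkz : (k : ℂ) * z ∈ HP := by
      have hz' : z.re < 0 := hz
      change ((k : ℂ) * z).re < 0
      have e0 : ((k : ℂ) * z).re = k * z.re := by simp [Complex.mul_re]
      rw [e0]
      exact mul_neg_of_pos_of_neg hkr hz'
    have h2 := h1 _ hkz
    have e1 : ((k : ℂ) * z + k * tpi) / k = z + tpi := by field_simp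
    have e2 : ((k : ℂ) * z) / k = z := by field_simp
    rwa [e1, e2] at h2

/-- the values are bounded near the points over bad values -/
theorem near (hRAT : S_RAT) (hT : TD T Λ a) (hT' : TD T' Λ a') (hb : Bd Λ 𝔅 δ)
    (hc : Cov T Λ a T' a' 𝔅 p) (hf : FibL T' Λ a' 𝔅) (hL : LF ex T' Λ a' 𝔅 η) (hα : α ≠ 0)
    (h : RDl T Λ a 𝓤 g (fun t => α * t + β) B B' P Q φ wt) (q : κ) (l : Fin M) {z0 : ℂ}
    (hz0 : α * z0 + β ∈ 𝔅) : ∃ ε > 0, ∃ C : ℝ, ∀ t : ℂ, t ≠ z0 → ‖t - z0‖ < ε →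
      ∀ y ∈ T', p y = g (α * t + β) → ∀ θ, Val ex T' Λ a' p η 𝓤 P Q wt q l t y θ → ‖θ‖ ≤ C := by
  classical
  obtain ⟨k, hk, hkper⟩ := hc.periodic hb
  obtain ⟨r0, hr0, ψ, hψc, hψ⟩ := psi_exists hT h z0
  have hδ := hb.pos
  obtain ⟨ρ, hρ0, hρr, hρ1, hlin, tm, htm, hhit⟩ := hits hr0 hα hψc (hψ.mono fun _ h => h.1)
    (c := min (4 * δ) 1) (by positivity)
  have hρ2 : ((ρ / 2 : ℝ) : ℂ) ≠ 0 := by
    have : (ρ / 2 : ℝ) ≠ 0 := by positivity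
    exact_mod_cast this
  have hsub0 : ball z0 ρ ⊆ ball (0 : ℂ) (‖z0‖ + 1) := by
    intro t ht
    rw [mem_ball, dist_eq_norm] at ht
    rw [mem_ball_zero_iff]
    have := norm_add_le (t - z0) z0
    rw [sub_add_cancel] at this
    linarith
  have hsubr : ball z0 ρ ⊆ ball z0 r0 := ball_subset_ball hρr
  have htm2 : ∀ᶠ m in (𝓤 : Filter ℕ), ‖tm m - z0‖ < ρ / 2 := by
    have := Metric.tendsto_nhds.1 htm (ρ / 2) (by positivity)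
    filter_upwards [this] with m hm
    rwa [dist_eq_norm] at hm
  have hnb0 : ∀ {x : ℂ}, ‖x - (α * z0 + β)‖ < min (4 * δ) 1 → x ≠ α * z0 + β → x ∉ 𝔅 :=
    fun hx hne hbad => hne (hb.sep _ hbad _ hz0 (hx.trans_le (min_le_left _ _)))
  -- the curves
  obtain ⟨hG, hGp⟩ := mk_cd (T' := T') (p := p) hb hk hkper (S := fun t => g (α * t + β))
    (χ := fun t => α * t + β) (z0 := z0) (t0 := z0) (b := α * z0 + β) hρ0
    (by rw [sub_self, norm_zero]; positivity)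
    (holP_comp_l h.hg (by fun_prop) isOpen_ball fun _ _ => mem_univ _) (fun t _ => h.gT _)
    (by fun_prop) (fun t _ => h.gov _)
    (fun t ht => (hlin t ht).le.trans (min_le_right _ _)) (fun t ht hne => by
      refine hnb0 (hlin t ht) fun heq => hne ?_
      have h1 : α * (t - z0) = 0 := by linear_combination heq
      exact sub_eq_zero.1 ((mul_eq_zero.1 h1).resolve_left hα))
  have h1 : ∀ᶠ m in (𝓤 : Filter ℕ), Cd T Λ a 𝔅 (α * z0 + β)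
      (fun s => P m (tm m + ((ρ / 2 : ℝ) : ℂ) * s ^ k))
      (fun s => ψ m (tm m + ((ρ / 2 : ℝ) : ℂ) * s ^ k)) ∧
      Prd T' p (fun s => P m (tm m + ((ρ / 2 : ℝ) : ℂ) * s ^ k)) := by
    filter_upwards [hψ, hhit, htm2, h.hP (‖z0‖ + 1)] with m e1 e2 e3 e4
    exact mk_cd hb hk hkper hρ0 e3 (e4.hol.mono hsub0) (fun t ht => e4.mem t (hsub0 ht))
      (e1.1.mono hsubr) (fun t ht => (e1.2 t (hsubr ht)).1)
      (fun t ht => (e2 t ht).1.le.trans (min_le_right _ _))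
      (fun t ht hne => hnb0 (e2 t ht).1 ((e2 t ht).2 hne))
  have h2 : ∀ᶠ m in (𝓤 : Filter ℕ), Cd T Λ a 𝔅 (α * z0 + β)
      (fun s => Q m (tm m + ((ρ / 2 : ℝ) : ℂ) * s ^ k))
      (fun s => ψ m (tm m + ((ρ / 2 : ℝ) : ℂ) * s ^ k)) ∧
      Prd T' p (fun s => Q m (tm m + ((ρ / 2 : ℝ) : ℂ) * s ^ k)) := by
    filter_upwards [hψ, hhit, htm2, h.hQ (‖z0‖ + 1)] with m e1 e2 e3 e4
    exact mk_cd hb hk hkper hρ0 e3 (e4.hol.mono hsub0) (fun t ht => e4.mem t (hsub0 ht))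
      (e1.1.mono hsubr) (fun t ht => (e1.2 t (hsubr ht)).2)
      (fun t ht => (e2 t ht).1.le.trans (min_le_right _ _))
      (fun t ht hne => hnb0 (e2 t ht).1 ((e2 t ht).2 hne))
  -- the convergence
  have hten : ∀ s : ℂ, Tendsto (fun x : ℕ × ℂ => (x.1, tm x.1 + ((ρ / 2 : ℝ) : ℂ) * x.2 ^ k))
      ((𝓤 : Filter ℕ) ×ˢ 𝓝 s) ((𝓤 : Filter ℕ) ×ˢ 𝓝 (z0 + ((ρ / 2 : ℝ) : ℂ) * s ^ k)) := by
    intro s
    refine tendsto_fst.prodMk ((htm.comp tendsto_fst).add ?_)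
    have hcont : Continuous fun s : ℂ => ((ρ / 2 : ℝ) : ℂ) * s ^ k := by fun_prop
    exact (hcont.tendsto s).comp tendsto_snd
  have hc1 : CConv (𝓤 : Filter ℕ) (ball 0 1) (fun m s => P m (tm m + ((ρ / 2 : ℝ) : ℂ) * s ^ k))
      (fun s => g (α * (z0 + ((ρ / 2 : ℝ) : ℂ) * s ^ k) + β)) := fun s _ =>
    (h.cP _ (mem_univ _)).comp (hten s)
  have hc2 : CConv (𝓤 : Filter ℕ) (ball 0 1) (fun m s => Q m (tm m + ((ρ / 2 : ℝ) : ℂ) * s ^ k))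
      (fun s => g (α * (z0 + ((ρ / 2 : ℝ) : ℂ) * s ^ k) + β)) := fun s _ =>
    (h.cQ _ (mem_univ _)).comp (hten s)
  have hW : ∀ᶠ m in (𝓤 : Filter ℕ), DifferentiableOn ℂ
      (fun s => wt m (tm m + ((ρ / 2 : ℝ) : ℂ) * s ^ k)) (ball 0 1) := by
    filter_upwards [h.wtd (‖z0‖ + 1), htm2] with m e1 e2
    have hd : Differentiable ℂ (fun s : ℂ => tm m + ((ρ / 2 : ℝ) : ℂ) * s ^ k) := by fun_prop
    exact e1.comp hd.differentiableOn fun s hs => hsub0 (map_disc hρ0 e2 k hs)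
  have hbd : ∀ᶠ m in (𝓤 : Filter ℕ), ∀ s ∈ ball (0 : ℂ) 1,
      ‖Q m (tm m + ((ρ / 2 : ℝ) : ℂ) * s ^ k) - P m (tm m + ((ρ / 2 : ℝ) : ℂ) * s ^ k)‖ *
        ‖wt m (tm m + ((ρ / 2 : ℝ) : ℂ) * s ^ k)‖ ≤ B' := by
    filter_upwards [h.bd (‖z0‖ + 1), htm2] with m e1 e2 s hs
    exact e1 _ (ball_subset_closedBall (hsub0 (map_disc hρ0 e2 k hs)))
  -- the base point
  obtain ⟨s0, hs0, h0⟩ : ∃ s0 : ℂ, s0 ∈ ball (0 : ℂ) 1 ∧ s0 ≠ 0 := by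
    refine ⟨1 / 2, ?_, by norm_num⟩
    rw [mem_ball_zero_iff]
    norm_num
  obtain ⟨kf, hkf⟩ := hc.fin
  have hfin : {y | y ∈ T' ∧ p y = g (α * (z0 + ((ρ / 2 : ℝ) : ℂ) * s0 ^ k) + β)}.Finite :=
    Set.finite_of_encard_le_coe (hkf _ (hG.mem s0 hs0) (hG.nba hb hs0 h0))
  have hall : ∀ᶠ n : ℕ in atTop, ∀ y ∈ {y | y ∈ T' ∧
      p y = g (α * (z0 + ((ρ / 2 : ℝ) : ℂ) * s0 ^ k) + β)}, ∀ E' : ℂ → Mat M,
      Lft T' p (fun s => g (α * (z0 + ((ρ / 2 : ℝ) : ℂ) * s ^ k) + β)) E' →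
      E' s0 = y → ∀ s1 : ℂ, s1 ≠ 0 → ‖s1‖ < 1 / ((n : ℝ) + 1) → ∀ sm : ℕ → ℂ,
      Tendsto sm 𝓤 (𝓝 s1) → ∀ (i : Fin M) (P0 Q0 : ℕ → Mat M) (v : Fin M → ℂ),
      VL T' Λ a' 𝓤 i P0 Q0 (fun m => wt m (tm m + ((ρ / 2 : ℝ) : ℂ) * sm m ^ k)) (E' s1) v →
      (∀ᶠ m in (𝓤 : Filter ℕ), p (P0 m) = P m (tm m + ((ρ / 2 : ℝ) : ℂ) * sm m ^ k) ∧
        p (Q0 m) = Q m (tm m + ((ρ / 2 : ℝ) : ℂ) * sm m ^ k)) →
      ‖η q (chart i (E' s1)) v * chart i (E' s1) l ^ ex‖ ≤ n := by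
    rw [eventually_all_finite hfin]
    rintro y ⟨hy, hpy⟩
    obtain ⟨ρy, hρy0, hρy1, C, hC⟩ := key hRAT hT' hb hc hf hL q l h1 h2 hG hGp hc1 hc2 hW hbd hs0
      h0 hy hpy
    have e1 : ∀ᶠ n : ℕ in atTop, C ≤ n := by
      obtain ⟨n0, hn0⟩ := exists_nat_ge C
      filter_upwards [eventually_ge_atTop n0] with n hn
      exact hn0.trans (by exact_mod_cast hn)
    have e2 : ∀ᶠ n : ℕ in atTop, 1 / ((n : ℝ) + 1) < ρy :=
      tendsto_one_div_add_atTop_nhds_zero_nat.eventually_lt_const hρy0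
    filter_upwards [e1, e2] with n hn1 hn2 E' hE' hE'y s1 hs10 hs1 sm hsm i P0 Q0 v hVL hpp
    exact (hC E' hE' hE'y s1 hs10 (hs1.trans hn2) sm hsm i P0 Q0 v hVL hpp).trans hn1
  obtain ⟨n, hn⟩ := hall.exists
  have hn0 : (0 : ℝ) < 1 / ((n : ℝ) + 1) := by positivity
  refine ⟨ρ / 2 * (1 / ((n : ℝ) + 1)) ^ k, by positivity, n, ?_⟩
  rintro t htz ht y hy hpy θ ⟨i, P0, Q0, v, hVL, hpp, rfl⟩
  have htz' : t - z0 ≠ 0 := sub_ne_zero.2 htz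
  have hk0 : (k : ℂ) ≠ 0 := by exact_mod_cast hk.ne'
  obtain ⟨s1, hs1⟩ := IsAlgClosed.exists_pow_nat_eq ((t - z0) / ((ρ / 2 : ℝ) : ℂ)) hk
  have hs10 : s1 ≠ 0 := by
    intro hz
    rw [hz, zero_pow hk.ne'] at hs1
    exact (div_ne_zero htz' hρ2) hs1.symm
  have hs1n : ‖s1‖ < 1 / ((n : ℝ) + 1) := by
    apply lt_of_pow_lt_pow_left₀ k hn0.le
    rw [← norm_pow, hs1, norm_div, Complex.norm_real, Real.norm_of_nonneg (by positivity),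
      div_lt_iff₀ (by positivity)]
    linarith
  have hn1 : 1 / ((n : ℝ) + 1) ≤ 1 := by
    rw [div_le_one (by positivity)]
    have : (0 : ℝ) ≤ n := Nat.cast_nonneg n
    linarith
  have hs1b : s1 ∈ ball (0 : ℂ) 1 := mem_ball_zero_iff.2 (by linarith)
  have hs1t : z0 + ((ρ / 2 : ℝ) : ℂ) * s1 ^ k = t := by
    rw [hs1, mul_div_cancel₀ _ hρ2]
    ring
  obtain ⟨E', hE', hE'y⟩ := Lft.exists hT' hb hc hf hG hGp hs1b hs10 hy (by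
    rw [hs1t]
    exact hpy)
  -- the points
  have htm' : Tendsto (fun m => (t - tm m) / (t - z0)) 𝓤 (𝓝 1) := by
    have h3 : Tendsto (fun m => (t - tm m) / (t - z0)) 𝓤 (𝓝 ((t - z0) / (t - z0))) :=
      (tendsto_const_nhds.sub htm).div_const _
    rwa [div_self htz'] at h3
  have hsm : Tendsto (fun m => s1 * Complex.exp (Complex.log ((t - tm m) / (t - z0)) / k)) 𝓤
      (𝓝 s1) := by
    have h3 : ContinuousAt (fun x : ℂ => s1 * Complex.exp (Complex.log x / k)) 1 := by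
      have e1 : ContinuousAt Complex.log 1 := continuousAt_clog (by simp [Complex.mem_slitPlane_iff])
      exact continuousAt_const.mul (Complex.continuous_exp.continuousAt.comp (e1.div_const _))
    have h4 := h3.tendsto.comp htm'
    simp only [Complex.log_one, zero_div, Complex.exp_zero, mul_one] at h4
    exact h4
  have hev : ∀ᶠ m in (𝓤 : Filter ℕ), tm m + ((ρ / 2 : ℝ) : ℂ) *
      (s1 * Complex.exp (Complex.log ((t - tm m) / (t - z0)) / k)) ^ k = t := by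
    have h3 : ∀ᶠ m in (𝓤 : Filter ℕ), (t - tm m) / (t - z0) ≠ 0 := htm'.eventually_ne one_ne_zero
    filter_upwards [h3] with m hm
    rw [mul_pow, ← Complex.exp_nat_mul, mul_div_cancel₀ _ hk0, Complex.exp_log hm, hs1]
    field_simp
    ring
  rw [← hE'y] at hVL ⊢
  refine hn (E' s0) ⟨hE'.mem s0 hs0, hE'.ov s0 hs0 h0⟩ E' hE' rfl s1 hs10 hs1n _ hsm i P0 Q0 v ?_ ?_
  · refine VL.congr hVL (Eventually.of_forall fun _ => rfl) (Eventually.of_forall fun _ => rfl) ?_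
    filter_upwards [hev] with m hm
    rw [hm]
  · filter_upwards [hev, hpp] with m hm hpm
    rw [hm]
    exact hpm

end Pool.Agent.H376.BD2

namespace Pool.Agent.H918.SS

open Pool.Agent.Y190.OP Pool.Agent.N155 Pool.Agent.N154.GG

variable {N M : ℕ} {T : Set (Mat N)} {Λ : AddSubgroup ℂ} {a : Mat N → ℂ} {T' : Set (Mat M)}
  {a' : Mat M → ℂ} {p : Mat M → Mat N} {𝔅 : Set ℂ} {δ : ℝ} {κ : Type} {ex : ℕ}
  {η : κ → (Fin M → ℂ) → (Fin M → ℂ) → ℂ}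

/-- BD2: the values are bounded near the points over bad values -/
theorem val_bound_near (hT : TD T Λ a) (hT' : TD T' Λ a') (hb : Bd Λ 𝔅 δ)
    (hc : Cov T Λ a T' a' 𝔅 p) (hf : FibL T' Λ a' 𝔅) (hL : LF ex T' Λ a' 𝔅 η) {𝓤 : Ultrafilter ℕ}
    {g : ℂ → Mat N} {α β : ℂ} {B B' : ℝ} {P Q : ℕ → ℂ → Mat N} {φ wt : ℕ → ℂ → ℂ} (hα : α ≠ 0)
    (h : RDl T Λ a 𝓤 g (fun t => α * t + β) B B' P Q φ wt) (q : κ) (l : Fin M) {z0 : ℂ}
    (hz0 : α * z0 + β ∈ 𝔅) : ∃ ε > 0, ∃ C : ℝ, ∀ t : ℂ, t ≠ z0 → ‖t - z0‖ < ε →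
      ∀ y ∈ T', p y = g (α * t + β) → ∀ θ, Val ex T' Λ a' p η 𝓤 P Q wt q l t y θ → ‖θ‖ ≤ C :=
  Pool.Agent.H376.BD2.near rat hT hT' hb hc hf hL hα h q l hz0

end Pool.Agent.H918.SS
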