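import Pool.Agent.H918.E.LF

/-! Multiple fibres and regular forms. -/

set_option autoImplicit false

open Filter Topology Metric Set

namespace Pool.Agent.H918.SS

open Pool.Agent.Y190.OP Pool.Agent.N155 Pool.Agent.N154.GG

variable {N M : ℕ} {κ : Type}

/-- the values `η q` are regular near the point `x0` -/
def RegF (T' : Set (Mat M)) (Λ : AddSubgroup ℂ) (a' : Mat M → ℂ) (𝔅 : Set ℂ)
    (η : κ → (Fin M → ℂ) → (Fin M → ℂ) → ℂ) (x0 : Mat M) : Prop :=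
  ∃ (i : Fin M) (O : Set (Mat M)) (r : ℕ) (u : Fin r → Mat M → ℂ)
    (V : Set (Fin M → ℂ)) (H : κ → (Fin M → ℂ) × (Fin r → ℂ) → ℂ) (K : ℝ),
    IsOpen O ∧ x0 ∈ O ∧ (∀ x ∈ O, x i i ≠ 0 ∧ chart i x ∈ V) ∧ IsOpen V ∧ 0 ≤ K ∧
    (∀ q, AnalyticOnNhd ℂ (H q) (V ×ˢ univ)) ∧ (∀ q, ∀ x ∈ V, H q (x, 0) = 0) ∧
    (∀ j, ContinuousOn (u j) O ∧ HLw O (u j) ∧ ∀ x ∈ O, ∀ x' ∈ O,
      ‖u j x - u j x'‖ ≤ K * ‖x - x'‖) ∧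
    ∀ (𝓤 : Ultrafilter ℕ) (P Q : ℕ → Mat M) (wt : ℕ → ℂ) (x : Mat M) (v : Fin M → ℂ),
      VL T' Λ a' 𝓤 i P Q wt x v → x ∈ O → a' x ∉ 𝔅 → ∃ s : Fin r → ℂ,
      (∀ j, Tendsto (fun m => wt m * (u j (Q m) - u j (P m))) 𝓤 (𝓝 (s j))) ∧
      ∀ q, η q (chart i x) v = H q (chart i x, s)

/-- the fibre over `b0` is multiple outside of `S`, and the forms are regular on it -/
structure Mul (T : Set (Mat N)) (Λ : AddSubgroup ℂ) (a : Mat N → ℂ) (T' : Set (Mat M))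
    (a' : Mat M → ℂ) (𝔅 : Set ℂ) (p : Mat M → Mat N) (η : κ → (Fin M → ℂ) → (Fin M → ℂ) → ℂ)
    (b0 : ℂ) (S : Set (Mat N)) : Prop where
  bad : b0 ∈ 𝔅
  fin : {x | x ∈ T' ∧ p x ∈ S}.Finite
  ram : ∀ (R : ℂ → Mat N) (ω : ℂ → ℂ) (U : Set ℂ) (t0 : ℂ), IsOpen U → t0 ∈ U → HolP U R →
    (∀ t ∈ U, R t ∈ T ∧ ω t - a (R t) ∈ Λ) → DifferentiableOn ℂ ω U → ω t0 = b0 →
    deriv ω t0 ≠ 0 → R t0 ∈ S
  reg : ∀ x0 ∈ T', a' x0 - b0 ∈ Λ → RegF T' Λ a' 𝔅 η x0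

end Pool.Agent.H918.SS
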