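import Pool.Agent.H918.E.Bd2
import Pool.Agent.H918.E.Rf

/-! The values are small near the points over the value of a multiple fibre. -/

set_option autoImplicit false

open Filter Topology Metric Set

namespace Pool.Agent.H918.BD3

open Pool.Agent.H918.SS Pool.Agent.Y190.OP Pool.Agent.N155 Pool.Agent.N154.GG Pool.Agent.H376.BD2

variable {N M : ℕ} {T : Set (Mat N)} {Λ : AddSubgroup ℂ} {a : Mat N → ℂ} {T' : Set (Mat M)}
  {a' : Mat M → ℂ} {p : Mat M → Mat N} {𝔅 : Set ℂ} {δ : ℝ} {κ : Type}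
  {η : κ → (Fin M → ℂ) → (Fin M → ℂ) → ℂ} {𝓤 : Ultrafilter ℕ} {g : ℂ → Mat N}
  {α β : ℂ} {B B' : ℝ} {P Q : ℕ → ℂ → Mat N} {φ wt : ℕ → ℂ → ℂ}

/-- the hits exist, with nonzero derivatives -/
theorem hits2 {ψ : ℕ → ℂ → ℂ} {z0 : ℂ} {r : ℝ} (hα : α ≠ 0)
    (hc : CConv (𝓤 : Filter ℕ) (ball z0 r) ψ (fun t => α * t + β))
    (hd : ∀ᶠ m in (𝓤 : Filter ℕ), DifferentiableOn ℂ (ψ m) (ball z0 r)) {ρ : ℝ} (hρ : 0 < ρ)
    (hρr : ρ ≤ r) {tm : ℕ → ℂ}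
    (hu : ∀ᶠ m in (𝓤 : Filter ℕ), ∀ t ∈ ball z0 ρ, t ≠ tm m → ψ m t ≠ α * z0 + β) :
    ∀ᶠ m in (𝓤 : Filter ℕ), ψ m (tm m) = α * z0 + β ∧ deriv (ψ m) (tm m) ≠ 0 := by
  have hα0 : 0 < ‖α‖ := norm_pos_iff.2 hα
  set s : ℝ := ρ / 4 with hs
  have hs0 : 0 < s := by positivity
  set e : ℝ := ‖α‖ * s / 8 with he
  have he0 : 0 < e := by positivity
  have hU : ∀ᶠ m in (𝓤 : Filter ℕ), ∀ t ∈ closedBall z0 (2 * s),
      ‖ψ m t - (α * t + β)‖ < e := 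
    CConv.unif isOpen_ball hc (isCompact_closedBall z0 (2 * s))
      (closedBall_subset_ball (by linarith)) he0
  filter_upwards [hU, hd, hu] with m hm hdm hum
  have hD : DifferentiableOn ℂ (fun t => ψ m t - (α * t + β)) (ball z0 r) :=
    hdm.sub (by fun_prop)
  have hder : ∀ x ∈ closedBall z0 s, deriv (ψ m) x ≠ 0 := by
    intro x hx
    have hsub : closedBall x s ⊆ closedBall z0 (2 * s) := by
      intro y hy
      rw [mem_closedBall] at hx hy ⊢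
      have := dist_triangle y x z0
      linarith
    have h1 : ‖deriv (fun t => ψ m t - (α * t + β)) x‖ ≤ e / s := by
      apply Complex.norm_deriv_le_of_forall_mem_sphere_norm_le hs0
      · have h1 : DifferentiableOn ℂ (fun t => ψ m t - (α * t + β)) (closedBall x s) :=
          hD.mono (hsub.trans (closedBall_subset_ball (by linarith)))
        exact h1.diffContOnCl_ball (subset_refl _)
      · intro y hy
        exact (hm y (hsub (sphere_subset_closedBall hy))).le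
    have hxr : x ∈ ball z0 r := by
      rw [mem_closedBall] at hx
      rw [mem_ball]
      linarith
    have h2 : DifferentiableAt ℂ (ψ m) x := hdm.differentiableAt (isOpen_ball.mem_nhds hxr)
    have h3 : HasDerivAt (fun t => α * t + β) α x := by
      have h4 := ((hasDerivAt_id x).const_mul α).add_const β
      simpa using h4
    have h4 : deriv (fun t => ψ m t - (α * t + β)) x = deriv (ψ m) x - α :=
      (h2.hasDerivAt.sub h3).deriv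
    rw [h4] at h1
    intro h0
    rw [h0, zero_sub, norm_neg] at h1
    have h5 : e / s = ‖α‖ / 8 := by
      rw [he]
      field_simp
    rw [h5] at h1
    linarith
  have hz0 : z0 ∈ closedBall z0 s := mem_closedBall_self hs0.le
  have hz2 : z0 ∈ closedBall z0 (2 * s) := mem_closedBall_self (by linarith)
  have hψz : HasDerivAt (ψ m) (deriv (ψ m) z0) z0 :=
    (hdm.differentiableAt (isOpen_ball.mem_nhds (mem_ball_self (by linarith)))).hasDerivAt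
  have hfr : ∃ᶠ z in 𝓝 z0, ψ m z ≠ ψ m z0 := by
    have h1 : ∀ᶠ z in 𝓝[≠] z0, ψ m z ≠ ψ m z0 := hψz.eventually_ne (hder z0 hz0)
    exact h1.frequently.filter_mono nhdsWithin_le_nhds
  have hsph : ∀ z ∈ sphere z0 s, ‖α‖ * s / 2 ≤ ‖ψ m z - ψ m z0‖ := by
    intro z hz
    have h1 := hm z (closedBall_subset_closedBall (by linarith) (sphere_subset_closedBall hz))
    have h2 := hm z0 hz2
    have h3 : ‖α * (z - z0)‖ = ‖α‖ * s := by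
      rw [norm_mul, ← dist_eq_norm, mem_sphere.1 hz]
    have h4 : α * (z - z0) = (ψ m z - ψ m z0) - (ψ m z - (α * z + β)) +
      (ψ m z0 - (α * z0 + β)) := by ring
    have h5 := norm_add_le ((ψ m z - ψ m z0) - (ψ m z - (α * z + β))) (ψ m z0 - (α * z0 + β))
    have h6 := norm_sub_le (ψ m z - ψ m z0) (ψ m z - (α * z + β))
    rw [← h4, h3] at h5
    have h7 : 0 < ‖α‖ * s := by positivity
    linarith
  have hcl : DiffContOnCl ℂ (ψ m) (ball z0 s) :=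
    (hdm.mono ((closedBall_subset_ball (by linarith)))).diffContOnCl_ball (subset_refl _)
  have himg := hcl.ball_subset_image_closedBall hs0 hsph hfr
  have hmem : α * z0 + β ∈ ball (ψ m z0) (‖α‖ * s / 2 / 2) := by
    rw [mem_ball, dist_eq_norm, norm_sub_rev]
    have h7 : 0 < ‖α‖ * s := by positivity
    refine (hm z0 hz2).trans ?_
    linarith
  obtain ⟨t, ht, hψt⟩ := himg hmem
  have htm : t = tm m := by
    by_contra hne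
    exact hum t (closedBall_subset_ball (by linarith) ht) hne hψt
  rw [← htm]
  exact ⟨hψt, hder t ht⟩

/-- the bound of Schwarz -/
theorem schw {f : ℂ → ℂ} {ρ C : ℝ} (hρ : 0 < ρ) (hf : DifferentiableOn ℂ f (ball 0 (2 * ρ)))
    (h0 : f 0 = 0) (hC : ∀ s : ℂ, ‖s‖ = ρ → ‖f s‖ ≤ C) {s : ℂ} (hs : ‖s‖ < ρ) :
    ‖f s‖ ≤ C / ρ * ‖s‖ := by
  have h1 : DiffContOnCl ℂ f (ball 0 ρ) :=
    (hf.mono (closedBall_subset_ball (by linarith))).diffContOnCl_ball (subset_refl _)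
  have h2 : ∀ z ∈ ball (0 : ℂ) ρ, ‖f z‖ ≤ C := by
    intro z hz
    refine Complex.norm_le_of_forall_mem_frontier_norm_le isBounded_ball h1 (fun w hw => ?_)
      (subset_closure hz)
    rw [frontier_ball (0 : ℂ) hρ.ne'] at hw
    exact hC w (mem_sphere_zero_iff_norm.1 hw)
  have h3 := Complex.dist_le_div_mul_dist_of_mapsTo_ball (f := f) (c := 0) (R₁ := ρ) (R₂ := C)
    (z := s) (hf.mono (ball_subset_ball (by linarith))) (fun z hz => by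
      rw [h0, mem_closedBall_zero_iff]
      exact h2 z hz) (mem_ball_zero_iff.2 hs)
  rwa [h0, dist_zero_right, dist_zero_right] at h3

/-- the core -/
theorem core0 (hT' : TD T' Λ a') (hL : LF 0 T' Λ a' 𝔅 η) (q : κ) (l : Fin M)
    {EP EQ : ℕ → ℂ → Mat M} {EG : ℂ → Mat M} {W : ℕ → ℂ → ℂ}
    (hreg : RegF T' Λ a' 𝔅 η (EG 0))
    (hP : ∀ᶠ m in (𝓤 : Filter ℕ), HolP (ball 0 1) (EP m) ∧ HolP (ball 0 1) (EQ m) ∧
      DifferentiableOn ℂ (W m) (ball 0 1) ∧ EP m 0 = EQ m 0)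
    (hG : HolP (ball 0 1) EG) (hGT : ∀ s ∈ ball (0 : ℂ) 1, EG s ∈ T' ∧ (s ≠ 0 → a' (EG s) ∉ 𝔅))
    (hcP : CConv (𝓤 : Filter ℕ) (ball 0 1) EP EG) (hcQ : CConv (𝓤 : Filter ℕ) (ball 0 1) EQ EG)
    (hcirc : ∀ ρ : ℝ, 0 < ρ → ρ < 1 → ∃ B : ℝ, ∀ᶠ m in (𝓤 : Filter ℕ), ∀ s : ℂ, ‖s‖ = ρ →
      ‖W m s‖ * ‖EQ m s - EP m s‖ ≤ B) {ε : ℝ} (hε : 0 < ε) :
    ∃ ρ : ℝ, 0 < ρ ∧ ρ ≤ 1 ∧ ∀ s1 : ℂ, s1 ≠ 0 → ‖s1‖ < ρ → ∀ sm : ℕ → ℂ,
      Tendsto sm 𝓤 (𝓝 s1) → ∀ (i : Fin M) (v : Fin M → ℂ),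
      VL T' Λ a' 𝓤 i (fun m => EP m (sm m)) (fun m => EQ m (sm m)) (fun m => W m (sm m)) (EG s1) v →
      ‖η q (chart i (EG s1)) v * chart i (EG s1) l ^ 0‖ ≤ ε := by
  classical
  have h01 : (0 : ℂ) ∈ ball (0 : ℂ) 1 := mem_ball_self one_pos
  obtain ⟨i, O, n, u, V, H, K, hO, hM0, hOi, hV, hK, hHan, hH0, hu, hlim⟩ := hreg
  have hOn : O ∈ 𝓝 (EG 0) := hO.mem_nhds hM0
  -- the radius
  have h1 : ∀ᶠ x : ℕ × ℂ in (𝓤 : Filter ℕ) ×ˢ 𝓝 0, EP x.1 x.2 ∈ O ∧ EQ x.1 x.2 ∈ O :=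
    ((hcP 0 h01).eventually hOn).and ((hcQ 0 h01).eventually hOn)
  rw [eventually_prod_iff] at h1
  obtain ⟨pa, hpa, pb, hpb, hab⟩ := h1
  have h2 : ∀ᶠ s in 𝓝 (0 : ℂ), EG s ∈ O := (hG.continuousAt h01).eventually hOn
  obtain ⟨r, hr, hrs⟩ := Metric.mem_nhds_iff.1 (inter_mem (inter_mem hpb h2)
    (ball_mem_nhds (0 : ℂ) one_pos))
  set ρ : ℝ := min (r / 2) (1 / 4) with hρdef
  have hρ0 : 0 < ρ := by positivity
  have hρr : 2 * ρ ≤ r := by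
    have := min_le_left (r / 2) (1 / 4 : ℝ)
    linarith
  have hρ4 : ρ ≤ 1 / 4 := min_le_right _ _
  have hb2 : ∀ s : ℂ, ‖s‖ < 2 * ρ → pb s ∧ EG s ∈ O ∧ s ∈ ball (0 : ℂ) 1 := by
    intro s hs
    obtain ⟨⟨e1, e2⟩, e3⟩ := hrs (mem_ball_zero_iff.2 (hs.trans_le hρr))
    exact ⟨e1, e2, e3⟩
  have huc : ∀ j, ∀ x ∈ O, ContinuousAt (u j) x := fun j x hx =>
    (hu j).1.continuousAt (hO.mem_nhds hx)
  have hm1 : ∀ᶠ m in (𝓤 : Filter ℕ), ∀ s : ℂ, ‖s‖ < 2 * ρ → EP m s ∈ O ∧ EQ m s ∈ O := by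
    filter_upwards [hpa] with m hm s hs
    exact hab hm (hb2 s hs).1
  obtain ⟨B, hB⟩ := hcirc ρ hρ0 (by linarith)
  have hrat : ∀ j, ∀ᶠ m in (𝓤 : Filter ℕ), ∀ s : ℂ, ‖s‖ < ρ →
      ‖W m s * (u j (EQ m s) - u j (EP m s))‖ ≤ K * B / ρ * ‖s‖ := by
    intro j
    filter_upwards [hP, hm1, hB] with m hm hmO hmB s hs
    refine schw hρ0 (f := fun s => W m s * (u j (EQ m s) - u j (EP m s))) ?_ ?_ ?_ hs
    · have e1 : DifferentiableOn ℂ (fun s => u j (EP m s)) (ball 0 (2 * ρ)) := fun s hs => by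
        have hs' := mem_ball_zero_iff.1 hs
        exact ((hu j).2.1 _ (EP m) s isOpen_ball (hb2 s hs').2.2 hm.1
          (hmO s hs').1).differentiableWithinAt
      have e2 : DifferentiableOn ℂ (fun s => u j (EQ m s)) (ball 0 (2 * ρ)) := fun s hs => by
        have hs' := mem_ball_zero_iff.1 hs
        exact ((hu j).2.1 _ (EQ m) s isOpen_ball (hb2 s hs').2.2 hm.2.1
          (hmO s hs').2).differentiableWithinAt
      exact (hm.2.2.1.mono (ball_subset_ball (by linarith))).mul (e2.sub e1)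
    · rw [hm.2.2.2, sub_self, mul_zero]
    · intro s hs
      have hs' : ‖s‖ < 2 * ρ := by linarith
      have e1 := (hu j).2.2 _ (hmO s hs').2 _ (hmO s hs').1
      calc ‖W m s * (u j (EQ m s) - u j (EP m s))‖ = ‖W m s‖ * ‖u j (EQ m s) - u j (EP m s)‖ :=
            norm_mul _ _
        _ ≤ ‖W m s‖ * (K * ‖EQ m s - EP m s‖) := mul_le_mul_of_nonneg_left e1 (norm_nonneg _)
        _ = K * (‖W m s‖ * ‖EQ m s - EP m s‖) := by ring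
        _ ≤ K * B := mul_le_mul_of_nonneg_left (hmB s hs) hK
  -- the continuity
  have hcont : Tendsto (fun x : ℂ × (Fin n → ℂ) => H q (chart i (EG x.1), x.2)) (𝓝 (0, 0)) (𝓝 0) := by
    have e1 : ContinuousAt (H q) (chart i (EG 0), (0 : Fin n → ℂ)) :=
      ((hHan q) _ ⟨(hOi _ hM0).2, mem_univ _⟩).continuousAt
    have e2 : ContinuousAt (fun s => chart i (EG s)) (0 : ℂ) :=
      ContinuousAt.comp (f := EG) (continuousAt_chart (hOi _ hM0).1) (hG.continuousAt h01)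
    have e3 : ContinuousAt (fun x : ℂ × (Fin n → ℂ) => (chart i (EG x.1), x.2)) (0, 0) :=
      (ContinuousAt.comp (f := Prod.fst) (x := ((0 : ℂ), (0 : Fin n → ℂ))) e2
        continuousAt_fst).prodMk continuousAt_snd
    have e4 := (ContinuousAt.comp (f := fun x : ℂ × (Fin n → ℂ) => (chart i (EG x.1), x.2))
      (g := H q) (x := ((0 : ℂ), (0 : Fin n → ℂ))) e1 e3).tendsto
    simp only [Function.comp_def] at e4
    rwa [hH0 q _ (hOi _ hM0).2] at e4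
  obtain ⟨r1, hr1, hr1s⟩ := Metric.mem_nhds_iff.1 (hcont (ball_mem_nhds (0 : ℂ) hε))
  set C1 : ℝ := |K * B / ρ| with hC1
  have hC10 : 0 ≤ C1 := abs_nonneg _
  refine ⟨min (min ρ r1) (r1 / (C1 + 1)), by positivity,
    ((min_le_left _ _).trans (min_le_left _ _)).trans (by linarith), ?_⟩
  intro s1 hs10 hs1 sm hsm i0 v0 hVL0
  have hs1ρ : ‖s1‖ < ρ := hs1.trans_le ((min_le_left _ _).trans (min_le_left _ _))
  have hs1r : ‖s1‖ < r1 := hs1.trans_le ((min_le_left _ _).trans (min_le_right _ _))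
  have hs1C : ‖s1‖ < r1 / (C1 + 1) := hs1.trans_le (min_le_right _ _)
  have e1 := hb2 s1 (by linarith)
  obtain ⟨e2, e3⟩ := hGT s1 e1.2.2
  have hnb := e3 hs10
  obtain ⟨v, hVL, hval⟩ := VL.chg hT'.sub hL hVL0 (hOi _ e1.2.1).1
  rw [← hval q l, pow_zero, mul_one]
  obtain ⟨sv, hsv, hη⟩ := hlim 𝓤 _ _ _ _ _ hVL e1.2.1 hnb
  rw [hη q]
  have hsj : ∀ j, ‖sv j‖ ≤ C1 * ‖s1‖ := by
    intro j
    have h3 : Tendsto (fun m => ‖W m (sm m) * (u j (EQ m (sm m)) - u j (EP m (sm m)))‖) 𝓤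
      (𝓝 ‖sv j‖) := (hsv j).norm
    have h4 : Tendsto (fun m => C1 * ‖sm m‖) 𝓤 (𝓝 (C1 * ‖s1‖)) := (hsm.norm).const_mul C1
    refine le_of_tendsto_of_tendsto h3 h4 ?_
    have h5 : ∀ᶠ m in (𝓤 : Filter ℕ), ‖sm m‖ < ρ := hsm.norm.eventually_lt_const hs1ρ
    filter_upwards [hrat j, h5] with m hm1 hm2
    exact (hm1 _ hm2).trans (mul_le_mul_of_nonneg_right (le_abs_self _) (norm_nonneg _))
  have hsn : ‖sv‖ < r1 := by
    have h5 : C1 * ‖s1‖ < r1 := by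
      rw [lt_div_iff₀ (by positivity)] at hs1C
      have : ‖s1‖ * (C1 + 1) = C1 * ‖s1‖ + ‖s1‖ := by ring
      have h6 := norm_nonneg s1
      linarith
    refine lt_of_le_of_lt ?_ h5
    rw [pi_norm_le_iff_of_nonneg (by positivity)]
    exact hsj
  have h7 := hr1s (show ((s1, sv) : ℂ × (Fin n → ℂ)) ∈ ball (0, 0) r1 by
    rw [mem_ball, Prod.dist_eq, dist_zero_right, dist_zero_right]
    exact max_lt hs1r hsn)
  have h8 : H q (chart i (EG s1), sv) ∈ ball (0 : ℂ) ε := h7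
  exact (mem_ball_zero_iff.1 h8).le

/-- the centres of lifts -/
theorem ov0 {b : ℂ} {R : ℂ → Mat N} {ω : ℂ → ℂ} {E : ℂ → Mat M} (hc : Cov T Λ a T' a' 𝔅 p)
    (hR : Cd T Λ a 𝔅 b R ω) (hE : Lft T' p R E) : p (E 0) = R 0 := by
  have h01 : (0 : ℂ) ∈ ball (0 : ℂ) 1 := mem_ball_self one_pos
  have h1 : Tendsto E (𝓝[≠] 0) (𝓝[T'] (E 0)) := by
    refine tendsto_nhdsWithin_iff.2 ⟨(hE.hol.continuousAt h01).tendsto.mono_left
      nhdsWithin_le_nhds, ?_⟩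
    filter_upwards [nhdsWithin_le_nhds (ball_mem_nhds (0 : ℂ) one_pos)] with s hs
    exact hE.mem s hs
  have h2 : Tendsto (fun s => p (E s)) (𝓝[≠] 0) (𝓝 (p (E 0))) :=
    (hc.cont _ (hE.mem 0 h01)).tendsto.comp h1
  have h3 : Tendsto (fun s => p (E s)) (𝓝[≠] 0) (𝓝 (R 0)) := by
    refine ((hR.hol.continuousAt h01).tendsto.mono_left nhdsWithin_le_nhds).congr' ?_
    filter_upwards [nhdsWithin_le_nhds (ball_mem_nhds (0 : ℂ) one_pos), self_mem_nhdsWithin]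
      with s hs hs0
    exact (hE.ov s hs hs0).symm
  exact tendsto_nhds_unique h2 h3

/-- sequences in a finite set -/
theorem fin_ev {X : Type*} [TopologicalSpace X] [T1Space X] {S : Set X} (hS : S.Finite) {x : ℕ → X}
    {y : X} (h : Tendsto x 𝓤 (𝓝 y)) (hx : ∀ᶠ m in (𝓤 : Filter ℕ), x m ∈ S) :
    ∀ᶠ m in (𝓤 : Filter ℕ), x m = y := by
  have h1 : IsClosed (S \ {y}) := (hS.subset sdiff_subset).isClosed
  filter_upwards [h.eventually (h1.isOpen_compl.mem_nhds fun h2 => h2.2 rfl), hx] with m h2 h3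
  by_contra hne
  exact h2 ⟨h3, hne⟩

/-- bounds for a branch -/
theorem key0 {b0 : ℂ} {S : Set (Mat N)} (hM : Mul T Λ a T' a' 𝔅 p η b0 S) (hT' : TD T' Λ a')
    (hb : Bd Λ 𝔅 δ) (hc : Cov T Λ a T' a' 𝔅 p)
    (hf : FibL T' Λ a' 𝔅) (hL : LF 0 T' Λ a' 𝔅 η) (q : κ) (l : Fin M) {R1 R2 : ℕ → ℂ → Mat N}
    {ω : ℕ → ℂ → ℂ} {G : ℂ → Mat N} {ωG : ℂ → ℂ} {W : ℕ → ℂ → ℂ} {B' : ℝ}
    (h1 : ∀ᶠ m in (𝓤 : Filter ℕ), Cd T Λ a 𝔅 b0 (R1 m) (ω m) ∧ Prd T' p (R1 m))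
    (h2 : ∀ᶠ m in (𝓤 : Filter ℕ), Cd T Λ a 𝔅 b0 (R2 m) (ω m) ∧ Prd T' p (R2 m))
    (hG : Cd T Λ a 𝔅 b0 G ωG) (hG0 : ωG 0 = b0) (hGp : Prd T' p G)
    (hc1 : CConv (𝓤 : Filter ℕ) (ball 0 1) R1 G)
    (hc2 : CConv (𝓤 : Filter ℕ) (ball 0 1) R2 G)
    (hW : ∀ᶠ m in (𝓤 : Filter ℕ), DifferentiableOn ℂ (W m) (ball 0 1))
    (hbd : ∀ᶠ m in (𝓤 : Filter ℕ), ∀ s ∈ ball (0 : ℂ) 1, ‖R2 m s - R1 m s‖ * ‖W m s‖ ≤ B')
    (hS : ∀ᶠ m in (𝓤 : Filter ℕ), R1 m 0 ∈ S ∧ R2 m 0 ∈ S)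
    {s0 : ℂ} (hs0 : s0 ∈ ball (0 : ℂ) 1) (h0 : s0 ≠ 0) {y : Mat M} (hy : y ∈ T')
    (hpy : p y = G s0) {ε : ℝ} (hε : 0 < ε) :
    ∃ ρ : ℝ, 0 < ρ ∧ ρ ≤ 1 ∧ ∀ E' : ℂ → Mat M, Lft T' p G E' →
      E' s0 = y → ∀ s1 : ℂ, s1 ≠ 0 → ‖s1‖ < ρ → ∀ sm : ℕ → ℂ, Tendsto sm 𝓤 (𝓝 s1) →
      ∀ (i : Fin M) (P0 Q0 : ℕ → Mat M) (v : Fin M → ℂ),
      VL T' Λ a' 𝓤 i P0 Q0 (fun m => W m (sm m)) (E' s1) v →
      (∀ᶠ m in (𝓤 : Filter ℕ), p (P0 m) = R1 m (sm m) ∧ p (Q0 m) = R2 m (sm m)) →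
      ‖η q (chart i (E' s1)) v * chart i (E' s1) l ^ 0‖ ≤ ε := by
  have h01 : (0 : ℂ) ∈ ball (0 : ℂ) 1 := mem_ball_self one_pos
  obtain ⟨EG, hEG, hEGy⟩ := Lft.exists hT' hb hc hf hG hGp hs0 h0 hy hpy
  obtain ⟨EP, hEP, hcP⟩ := lift_seq hT' hb hc hf h1 hG hEG hc1 hs0 h0
  obtain ⟨EQ, hEQ, hcQ⟩ := lift_seq hT' hb hc hf h2 hG hEG hc2 hs0 h0
  have hP0 : ∀ᶠ m in (𝓤 : Filter ℕ), EP m 0 = EG 0 := by
    refine fin_ev hM.fin (hcP.pointwise h01) ?_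
    filter_upwards [h1, hEP, hS] with m e1 e2 e3
    refine ⟨e2.mem 0 h01, ?_⟩
    rw [ov0 hc e1.1 e2]
    exact e3.1
  have hQ0 : ∀ᶠ m in (𝓤 : Filter ℕ), EQ m 0 = EG 0 := by
    refine fin_ev hM.fin (hcQ.pointwise h01) ?_
    filter_upwards [h2, hEQ, hS] with m e1 e2 e3
    refine ⟨e2.mem 0 h01, ?_⟩
    rw [ov0 hc e1.1 e2]
    exact e3.2
  have hreg : RegF T' Λ a' 𝔅 η (EG 0) := by
    refine hM.reg _ (hEG.mem 0 h01) ?_
    have e1 := hc.ovr _ (hEG.mem 0 h01)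
    rw [ov0 hc hG hEG] at e1
    have e2 := hG.ov 0 h01
    rw [hG0] at e2
    have e3 := Λ.sub_mem e1 e2
    have e : a' (EG 0) - a (G 0) - (b0 - a (G 0)) = a' (EG 0) - b0 := by ring
    rwa [e] at e3
  obtain ⟨ρ, hρ0, hρ1, hC⟩ := core0 hT' hL q l (EP := EP) (EQ := EQ) (EG := EG) (W := W)
    (𝓤 := 𝓤) (𝔅 := 𝔅) hreg (by
      filter_upwards [hEP, hEQ, hW, hP0, hQ0] with m e3 e4 e5 e6 e7
      exact ⟨e3.hol, e4.hol, e5, by rw [e6, e7]⟩)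
    hEG.hol (fun s hs => ⟨hEG.mem s hs, fun hs0 => hEG.nba hG hc hb hs hs0⟩) hcP hcQ
    (circ hb hc hEP hEQ hG hEG hcP hcQ (by
      filter_upwards [h1, h2] with m e1 e2 s hs
      exact ⟨e1.1.mem s hs, e2.1.mem s hs⟩) hbd) hε
  refine ⟨ρ, hρ0, hρ1, ?_⟩
  intro E' hE' hE'y s1 hs10 hs1 sm hsm i P0 Q0 v hVL hpp
  have hs1b : s1 ∈ ball (0 : ℂ) 1 := mem_ball_zero_iff.2 (by linarith)
  have heq : E' s1 = EG s1 := hE'.unique hb hc hG hEG hs0 h0 (by rw [hE'y, hEGy]) hs1b hs10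
  rw [heq] at hVL ⊢
  have hnb := hEG.nba hG hc hb hs1b hs10
  have hsmall : ∀ᶠ m in (𝓤 : Filter ℕ), sm m ≠ 0 ∧ sm m ∈ ball (0 : ℂ) 1 :=
    hsm.eventually (inter_mem (isOpen_ne.mem_nhds hs10) (isOpen_ball.mem_nhds hs1b))
  have e1 : ∀ᶠ m in (𝓤 : Filter ℕ), P0 m = EP m (sm m) := by
    refine sig_ev hc (hEG.mem s1 hs1b) hnb hVL.cP (CConv.seq hcP hs1b hsm) ?_
    filter_upwards [hVL.hP, hpp, hEP, hsmall] with m f1 f2 f3 f4
    exact ⟨f1.1, f3.mem _ f4.2, by rw [f2.1, f3.ov _ f4.2 f4.1]⟩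
  have e2 : ∀ᶠ m in (𝓤 : Filter ℕ), Q0 m = EQ m (sm m) := by
    refine sig_ev hc (hEG.mem s1 hs1b) hnb hVL.cQ (CConv.seq hcQ hs1b hsm) ?_
    filter_upwards [hVL.hP, hpp, hEQ, hsmall] with m f1 f2 f3 f4
    exact ⟨f1.2.1, f3.mem _ f4.2, by rw [f2.2, f3.ov _ f4.2 f4.1]⟩
  exact hC s1 hs10 hs1 sm hsm i v (VL.congr hVL e1 e2 (Eventually.of_forall fun _ => rfl))

/-- the values are small near the points over the value of the multiple fibre -/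
theorem near0 {b0 : ℂ} {S : Set (Mat N)} (hM : Mul T Λ a T' a' 𝔅 p η b0 S)
    (hT : TD T Λ a) (hT' : TD T' Λ a') (hb : Bd Λ 𝔅 δ)
    (hc : Cov T Λ a T' a' 𝔅 p) (hf : FibL T' Λ a' 𝔅) (hL : LF 0 T' Λ a' 𝔅 η) (hα : α ≠ 0)
    (h : RDl T Λ a 𝓤 g (fun t => α * t + β) B B' P Q φ wt) (q : κ) (l : Fin M) {z0 : ℂ}
    (hz0b : α * z0 + β = b0) {ε₀ : ℝ} (hε₀ : 0 < ε₀) : ∃ ε > 0, ∀ t : ℂ, t ≠ z0 → ‖t - z0‖ < ε →
      ∀ y ∈ T', p y = g (α * t + β) → ∀ θ, Val 0 T' Λ a' p η 𝓤 P Q wt q l t y θ → ‖θ‖ ≤ ε₀ := by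
  classical
  have hz0 : α * z0 + β ∈ 𝔅 := hz0b ▸ hM.bad
  obtain ⟨k, hk, hkper⟩ := hc.periodic hb
  obtain ⟨r0, hr0, ψ, hψc, hψ⟩ := psi_exists hT h z0
  have hδ := hb.pos
  obtain ⟨ρ, hρ0, hρr, hρ1, hlin, tm, htm, hhit⟩ := hits hr0 hα hψc (hψ.mono fun _ h => h.1)
    (c := min (4 * δ) 1) (by positivity)
  have hρ2 : ((ρ / 2 : ℝ) : ℂ) ≠ 0 := by
    have : (ρ / 2 : ℝ) ≠ 0 := by positivity
    exact_mod_cast this
  have hsub0 : ball z0 ρ ⊆ ball (0 : ℂ) (‖z0‖ + 1) := by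
    intro t ht
    rw [mem_ball, dist_eq_norm] at ht
    rw [mem_ball_zero_iff]
    have := norm_add_le (t - z0) z0
    rw [sub_add_cancel] at this
    linarith
  have hsubr : ball z0 ρ ⊆ ball z0 r0 := ball_subset_ball hρr
  have htm2 : ∀ᶠ m in (𝓤 : Filter ℕ), ‖tm m - z0‖ < ρ / 2 := by
    have := Metric.tendsto_nhds.1 htm (ρ / 2) (by positivity)
    filter_upwards [this] with m hm
    rwa [dist_eq_norm] at hm
  have hhit2 := hits2 hα hψc (hψ.mono fun _ h => h.1) hρ0 hρr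
    (hhit.mono fun m hm t ht hne => (hm t ht).2 hne)
  have hnb0 : ∀ {x : ℂ}, ‖x - (α * z0 + β)‖ < min (4 * δ) 1 → x ≠ α * z0 + β → x ∉ 𝔅 :=
    fun hx hne hbad => hne (hb.sep _ hbad _ hz0 (hx.trans_le (min_le_left _ _)))
  -- the curves
  obtain ⟨hG, hGp⟩ := mk_cd (T' := T') (p := p) hb hk hkper (S := fun t => g (α * t + β))
    (χ := fun t => α * t + β) (z0 := z0) (t0 := z0) (b := α * z0 + β) hρ0
    (by rw [sub_self, norm_zero]; positivity)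
    (holP_comp_l h.hg (by fun_prop) isOpen_ball fun _ _ => mem_univ _) (fun t _ => h.gT _)
    (by fun_prop) (fun t _ => h.gov _)
    (fun t ht => (hlin t ht).le.trans (min_le_right _ _)) (fun t ht hne => by
      refine hnb0 (hlin t ht) fun heq => hne ?_
      have h1 : α * (t - z0) = 0 := by linear_combination heq
      exact sub_eq_zero.1 ((mul_eq_zero.1 h1).resolve_left hα))
  have h1 : ∀ᶠ m in (𝓤 : Filter ℕ), Cd T Λ a 𝔅 (α * z0 + β)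
      (fun s => P m (tm m + ((ρ / 2 : ℝ) : ℂ) * s ^ k))
      (fun s => ψ m (tm m + ((ρ / 2 : ℝ) : ℂ) * s ^ k)) ∧
      Prd T' p (fun s => P m (tm m + ((ρ / 2 : ℝ) : ℂ) * s ^ k)) := by
    filter_upwards [hψ, hhit, htm2, h.hP (‖z0‖ + 1)] with m e1 e2 e3 e4
    exact mk_cd hb hk hkper hρ0 e3 (e4.hol.mono hsub0) (fun t ht => e4.mem t (hsub0 ht))
      (e1.1.mono hsubr) (fun t ht => (e1.2 t (hsubr ht)).1)
      (fun t ht => (e2 t ht).1.le.trans (min_le_right _ _))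
      (fun t ht hne => hnb0 (e2 t ht).1 ((e2 t ht).2 hne))
  have h2 : ∀ᶠ m in (𝓤 : Filter ℕ), Cd T Λ a 𝔅 (α * z0 + β)
      (fun s => Q m (tm m + ((ρ / 2 : ℝ) : ℂ) * s ^ k))
      (fun s => ψ m (tm m + ((ρ / 2 : ℝ) : ℂ) * s ^ k)) ∧
      Prd T' p (fun s => Q m (tm m + ((ρ / 2 : ℝ) : ℂ) * s ^ k)) := by
    filter_upwards [hψ, hhit, htm2, h.hQ (‖z0‖ + 1)] with m e1 e2 e3 e4
    exact mk_cd hb hk hkper hρ0 e3 (e4.hol.mono hsub0) (fun t ht => e4.mem t (hsub0 ht))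
      (e1.1.mono hsubr) (fun t ht => (e1.2 t (hsubr ht)).2)
      (fun t ht => (e2 t ht).1.le.trans (min_le_right _ _))
      (fun t ht hne => hnb0 (e2 t ht).1 ((e2 t ht).2 hne))
  -- the convergence
  have hten : ∀ s : ℂ, Tendsto (fun x : ℕ × ℂ => (x.1, tm x.1 + ((ρ / 2 : ℝ) : ℂ) * x.2 ^ k))
      ((𝓤 : Filter ℕ) ×ˢ 𝓝 s) ((𝓤 : Filter ℕ) ×ˢ 𝓝 (z0 + ((ρ / 2 : ℝ) : ℂ) * s ^ k)) := by
    intro s
    refine tendsto_fst.prodMk ((htm.comp tendsto_fst).add ?_)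
    have hcont : Continuous fun s : ℂ => ((ρ / 2 : ℝ) : ℂ) * s ^ k := by fun_prop
    exact (hcont.tendsto s).comp tendsto_snd
  have hc1 : CConv (𝓤 : Filter ℕ) (ball 0 1) (fun m s => P m (tm m + ((ρ / 2 : ℝ) : ℂ) * s ^ k))
      (fun s => g (α * (z0 + ((ρ / 2 : ℝ) : ℂ) * s ^ k) + β)) := fun s _ =>
    (h.cP _ (mem_univ _)).comp (hten s)
  have hc2 : CConv (𝓤 : Filter ℕ) (ball 0 1) (fun m s => Q m (tm m + ((ρ / 2 : ℝ) : ℂ) * s ^ k))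
      (fun s => g (α * (z0 + ((ρ / 2 : ℝ) : ℂ) * s ^ k) + β)) := fun s _ =>
    (h.cQ _ (mem_univ _)).comp (hten s)
  have hW : ∀ᶠ m in (𝓤 : Filter ℕ), DifferentiableOn ℂ
      (fun s => wt m (tm m + ((ρ / 2 : ℝ) : ℂ) * s ^ k)) (ball 0 1) := by
    filter_upwards [h.wtd (‖z0‖ + 1), htm2] with m e1 e2
    have hd : Differentiable ℂ (fun s : ℂ => tm m + ((ρ / 2 : ℝ) : ℂ) * s ^ k) := by fun_prop
    exact e1.comp hd.differentiableOn fun s hs => hsub0 (map_disc hρ0 e2 k hs)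
  have hbd : ∀ᶠ m in (𝓤 : Filter ℕ), ∀ s ∈ ball (0 : ℂ) 1,
      ‖Q m (tm m + ((ρ / 2 : ℝ) : ℂ) * s ^ k) - P m (tm m + ((ρ / 2 : ℝ) : ℂ) * s ^ k)‖ *
        ‖wt m (tm m + ((ρ / 2 : ℝ) : ℂ) * s ^ k)‖ ≤ B' := by
    filter_upwards [h.bd (‖z0‖ + 1), htm2] with m e1 e2 s hs
    exact e1 _ (ball_subset_closedBall (hsub0 (map_disc hρ0 e2 k hs)))
  have hS : ∀ᶠ m in (𝓤 : Filter ℕ), P m (tm m + ((ρ / 2 : ℝ) : ℂ) * 0 ^ k) ∈ S ∧
      Q m (tm m + ((ρ / 2 : ℝ) : ℂ) * 0 ^ k) ∈ S := by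
    filter_upwards [hψ, hhit2, htm2, h.hP (‖z0‖ + 1), h.hQ (‖z0‖ + 1)] with m e1 e2 e3 e4 e5
    rw [zero_pow hk.ne', mul_zero, add_zero]
    have e6 : tm m ∈ ball z0 ρ := by
      rw [mem_ball, dist_eq_norm]
      linarith
    exact ⟨hM.ram (P m) (ψ m) (ball z0 ρ) (tm m) isOpen_ball e6 (e4.hol.mono hsub0)
      (fun t ht => ⟨e4.mem t (hsub0 ht), (e1.2 t (hsubr ht)).1⟩) (e1.1.mono hsubr)
      (e2.1.trans hz0b) e2.2,
      hM.ram (Q m) (ψ m) (ball z0 ρ) (tm m) isOpen_ball e6 (e5.hol.mono hsub0)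
      (fun t ht => ⟨e5.mem t (hsub0 ht), (e1.2 t (hsubr ht)).2⟩) (e1.1.mono hsubr)
      (e2.1.trans hz0b) e2.2⟩
  rw [hz0b] at h1 h2
  have hG' := hG
  rw [hz0b] at hG'
  -- the base point
  obtain ⟨s0, hs0, h0⟩ : ∃ s0 : ℂ, s0 ∈ ball (0 : ℂ) 1 ∧ s0 ≠ 0 := by
    refine ⟨1 / 2, ?_, by norm_num⟩
    rw [mem_ball_zero_iff]
    norm_num
  obtain ⟨kf, hkf⟩ := hc.fin
  have hfin : {y | y ∈ T' ∧ p y = g (α * (z0 + ((ρ / 2 : ℝ) : ℂ) * s0 ^ k) + β)}.Finite :=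
    Set.finite_of_encard_le_coe (hkf _ (hG.mem s0 hs0) (hG.nba hb hs0 h0))
  have hall : ∀ᶠ n : ℕ in atTop, ∀ y ∈ {y | y ∈ T' ∧
      p y = g (α * (z0 + ((ρ / 2 : ℝ) : ℂ) * s0 ^ k) + β)}, ∀ E' : ℂ → Mat M,
      Lft T' p (fun s => g (α * (z0 + ((ρ / 2 : ℝ) : ℂ) * s ^ k) + β)) E' →
      E' s0 = y → ∀ s1 : ℂ, s1 ≠ 0 → ‖s1‖ < 1 / ((n : ℝ) + 1) → ∀ sm : ℕ → ℂ,
      Tendsto sm 𝓤 (𝓝 s1) → ∀ (i : Fin M) (P0 Q0 : ℕ → Mat M) (v : Fin M → ℂ),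
      VL T' Λ a' 𝓤 i P0 Q0 (fun m => wt m (tm m + ((ρ / 2 : ℝ) : ℂ) * sm m ^ k)) (E' s1) v →
      (∀ᶠ m in (𝓤 : Filter ℕ), p (P0 m) = P m (tm m + ((ρ / 2 : ℝ) : ℂ) * sm m ^ k) ∧
        p (Q0 m) = Q m (tm m + ((ρ / 2 : ℝ) : ℂ) * sm m ^ k)) →
      ‖η q (chart i (E' s1)) v * chart i (E' s1) l ^ 0‖ ≤ ε₀ := by
    rw [eventually_all_finite hfin]
    rintro y ⟨hy, hpy⟩
    obtain ⟨ρy, hρy0, hρy1, hC⟩ := key0 hM hT' hb hc hf hL q l h1 h2 hG'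
      (by rw [zero_pow hk.ne', mul_zero, add_zero, hz0b]) hGp hc1 hc2 hW hbd hS hs0
      h0 hy hpy hε₀
    have e2 : ∀ᶠ n : ℕ in atTop, 1 / ((n : ℝ) + 1) < ρy :=
      tendsto_one_div_add_atTop_nhds_zero_nat.eventually_lt_const hρy0
    filter_upwards [e2] with n hn2 E' hE' hE'y s1 hs10 hs1 sm hsm i P0 Q0 v hVL hpp
    exact hC E' hE' hE'y s1 hs10 (hs1.trans hn2) sm hsm i P0 Q0 v hVL hpp
  obtain ⟨n, hn⟩ := hall.exists
  have hn0 : (0 : ℝ) < 1 / ((n : ℝ) + 1) := by positivity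
  refine ⟨ρ / 2 * (1 / ((n : ℝ) + 1)) ^ k, by positivity, ?_⟩
  rintro t htz ht y hy hpy θ ⟨i, P0, Q0, v, hVL, hpp, rfl⟩
  have htz' : t - z0 ≠ 0 := sub_ne_zero.2 htz
  have hk0 : (k : ℂ) ≠ 0 := by exact_mod_cast hk.ne'
  obtain ⟨s1, hs1⟩ := IsAlgClosed.exists_pow_nat_eq ((t - z0) / ((ρ / 2 : ℝ) : ℂ)) hk
  have hs10 : s1 ≠ 0 := by
    intro hz
    rw [hz, zero_pow hk.ne'] at hs1
    exact (div_ne_zero htz' hρ2) hs1.symm
  have hs1n : ‖s1‖ < 1 / ((n : ℝ) + 1) := by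
    apply lt_of_pow_lt_pow_left₀ k hn0.le
    rw [← norm_pow, hs1, norm_div, Complex.norm_real, Real.norm_of_nonneg (by positivity),
      div_lt_iff₀ (by positivity)]
    linarith
  have hn1 : 1 / ((n : ℝ) + 1) ≤ 1 := by
    rw [div_le_one (by positivity)]
    have : (0 : ℝ) ≤ n := Nat.cast_nonneg n
    linarith
  have hs1b : s1 ∈ ball (0 : ℂ) 1 := mem_ball_zero_iff.2 (by linarith)
  have hs1t : z0 + ((ρ / 2 : ℝ) : ℂ) * s1 ^ k = t := by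
    rw [hs1, mul_div_cancel₀ _ hρ2]
    ring
  obtain ⟨E', hE', hE'y⟩ := Lft.exists hT' hb hc hf hG hGp hs1b hs10 hy (by
    rw [hs1t]
    exact hpy)
  -- the points
  have htm' : Tendsto (fun m => (t - tm m) / (t - z0)) 𝓤 (𝓝 1) := by
    have h3 : Tendsto (fun m => (t - tm m) / (t - z0)) 𝓤 (𝓝 ((t - z0) / (t - z0))) :=
      (tendsto_const_nhds.sub htm).div_const _
    rwa [div_self htz'] at h3
  have hsm : Tendsto (fun m => s1 * Complex.exp (Complex.log ((t - tm m) / (t - z0)) / k)) 𝓤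
      (𝓝 s1) := by
    have h3 : ContinuousAt (fun x : ℂ => s1 * Complex.exp (Complex.log x / k)) 1 := by
      have e1 : ContinuousAt Complex.log 1 := continuousAt_clog (by simp [Complex.mem_slitPlane_iff])
      exact continuousAt_const.mul (Complex.continuous_exp.continuousAt.comp (e1.div_const _))
    have h4 := h3.tendsto.comp htm'
    simp only [Complex.log_one, zero_div, Complex.exp_zero, mul_one] at h4
    exact h4
  have hev : ∀ᶠ m in (𝓤 : Filter ℕ), tm m + ((ρ / 2 : ℝ) : ℂ) *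
      (s1 * Complex.exp (Complex.log ((t - tm m) / (t - z0)) / k)) ^ k = t := by
    have h3 : ∀ᶠ m in (𝓤 : Filter ℕ), (t - tm m) / (t - z0) ≠ 0 := htm'.eventually_ne one_ne_zero
    filter_upwards [h3] with m hm
    rw [mul_pow, ← Complex.exp_nat_mul, mul_div_cancel₀ _ hk0, Complex.exp_log hm, hs1]
    field_simp
    ring
  rw [← hE'y] at hVL ⊢
  refine hn (E' s0) ⟨hE'.mem s0 hs0, hE'.ov s0 hs0 h0⟩ E' hE' rfl s1 hs10 hs1n _ hsm i P0 Q0 v ?_ ?_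
  · refine VL.congr hVL (Eventually.of_forall fun _ => rfl) (Eventually.of_forall fun _ => rfl) ?_
    filter_upwards [hev] with m hm
    rw [hm]
  · filter_upwards [hev, hpp] with m hm hpm
    rw [hm]
    exact hpm

end Pool.Agent.H918.BD3
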