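import Pool.Agent.H918.E.LF

/-! Convergence of lifts. -/

set_option autoImplicit false

open Filter Topology Metric Set

namespace Pool.Agent.H788.SE

open Pool.Agent.Y190.OP Pool.Agent.N155 Pool.Agent.N154.GG Pool.Agent.H918.SS

variable {N M : ℕ} {T : Set (Mat N)} {Λ : AddSubgroup ℂ} {a : Mat N → ℂ} {T' : Set (Mat M)}
  {a' : Mat M → ℂ} {p : Mat M → Mat N} {𝔅 : Set ℂ} {δ : ℝ}

/-- The local statement: near every point, the convergence at one point gives the continuous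
convergence. -/
theorem conv_local (hc : Cov T Λ a T' a' 𝔅 p) {U : Set ℂ} (hU : IsOpen U)
    {𝓤 : Ultrafilter ℕ} {P : ℕ → ℂ → Mat N} {G : ℂ → Mat N}
    {P' : ℕ → ℂ → Mat M} {G' : ℂ → Mat M}
    (hP : ∀ᶠ m in (𝓤 : Filter ℕ), ∀ z ∈ U, ContinuousAt (P m) z ∧ P m z ∈ T ∧
      ContinuousAt (P' m) z ∧ P' m z ∈ T' ∧ p (P' m z) = P m z)
    (hG : ∀ z ∈ U, a' (G' z) ∉ 𝔅 ∧ ContinuousAt (G' ) z ∧ G' z ∈ T' ∧ p (G' z) = G z)
    (hGc : ∀ z ∈ U, ContinuousAt G z ∧ G z ∈ T)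
    (hPG : CConv (𝓤 : Filter ℕ) U P G) {z1 : ℂ} (hz1 : z1 ∈ U) :
    ∃ V : Set ℂ, IsOpen V ∧ z1 ∈ V ∧ V ⊆ U ∧
      ∀ z2 ∈ V, Tendsto (fun m => P' m z2) 𝓤 (𝓝 (G' z2)) →
        ∀ z ∈ V, Tendsto (fun x : ℕ × ℂ => P' x.1 x.2) ((𝓤 : Filter ℕ) ×ˢ 𝓝 z) (𝓝 (G' z)) := by
  obtain ⟨hb1, hG'c, hG'T, hpG⟩ := hG z1 hz1
  obtain ⟨O, O', σ, L, hO, hO', hpO, hxO, hL, hlip, hsec, huni, -⟩ := hc.loc (G' z1) hG'T hb1
  rw [hpG] at hpO
  have hσc : ContinuousOn σ (O ∩ T) := by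
    have h1 : LipschitzOnWith (Real.toNNReal L) σ (O ∩ T) := by
      apply LipschitzOnWith.of_dist_le_mul
      intro y hy y' hy'
      rw [dist_eq_norm, dist_eq_norm, Real.coe_toNNReal L hL]
      exact hlip y hy y' hy'
    exact h1.continuousOn
  have hσG : ∀ z ∈ U, G' z ∈ O' → σ (G z) = G' z ∧ G z ∈ O := by
    intro z hz h
    have h1 := huni (G' z) ⟨h, (hG z hz).2.2.1⟩
    rw [(hG z hz).2.2.2] at h1
    exact ⟨h1.2, h1.1⟩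
  -- eventually the points are in `O ∩ T`
  have hT : ∀ z ∈ U, ∀ᶠ x : ℕ × ℂ in (𝓤 : Filter ℕ) ×ˢ 𝓝 z, P x.1 x.2 ∈ T ∧ x.2 ∈ U := by
    intro z hz
    have h1 : ∀ᶠ x : ℕ × ℂ in (𝓤 : Filter ℕ) ×ˢ 𝓝 z, (∀ z ∈ U, ContinuousAt (P x.1) z ∧
        P x.1 z ∈ T ∧ ContinuousAt (P' x.1) z ∧ P' x.1 z ∈ T' ∧ p (P' x.1 z) = P x.1 z) :=
      tendsto_fst.eventually hP
    have h2 : ∀ᶠ x : ℕ × ℂ in (𝓤 : Filter ℕ) ×ˢ 𝓝 z, x.2 ∈ U :=
      tendsto_snd.eventually (hU.mem_nhds hz)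
    filter_upwards [h1, h2] with x hx1 hx2
    exact ⟨(hx1 x.2 hx2).2.1, hx2⟩
  -- the convergence of the local lifts
  have hσP : ∀ z ∈ U, G' z ∈ O' →
      Tendsto (fun x : ℕ × ℂ => σ (P x.1 x.2)) ((𝓤 : Filter ℕ) ×ˢ 𝓝 z) (𝓝 (G' z)) := by
    intro z hz hzO
    obtain ⟨e1, e2⟩ := hσG z hz hzO
    have h1 : Tendsto (fun x : ℕ × ℂ => P x.1 x.2) ((𝓤 : Filter ℕ) ×ˢ 𝓝 z) (𝓝[O ∩ T] (G z)) := by
      rw [tendsto_nhdsWithin_iff]
      refine ⟨hPG z hz, ?_⟩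
      filter_upwards [(hPG z hz).eventually (hO.mem_nhds e2), hT z hz] with x hx1 hx2
      exact ⟨hx1, hx2.1⟩
    have h2 : Tendsto σ (𝓝[O ∩ T] (G z)) (𝓝 (σ (G z))) := hσc (G z) ⟨e2, (hGc z hz).2⟩
    rw [e1] at h2
    exact h2.comp h1
  -- the neighbourhood
  have hev : ∀ᶠ x : ℕ × ℂ in (𝓤 : Filter ℕ) ×ˢ 𝓝 z1, σ (P x.1 x.2) ∈ O' ∧ P x.1 x.2 ∈ O := by
    have h1 := (hσP z1 hz1 hxO).eventually (hO'.mem_nhds hxO)
    have h2 := (hPG z1 hz1).eventually (hO.mem_nhds hpO)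
    exact h1.and h2
  rw [eventually_prod_iff] at hev
  obtain ⟨pa, hpa, pb, hpb, hab⟩ := hev
  obtain ⟨r, hr, hrs⟩ := Metric.mem_nhds_iff.1 (inter_mem (inter_mem hpb
    (hG'c.preimage_mem_nhds (hO'.mem_nhds hxO))) (hU.mem_nhds hz1))
  refine ⟨ball z1 r, isOpen_ball, mem_ball_self hr, fun z hz => (hrs hz).2, ?_⟩
  intro z2 hz2 h2
  -- the lifts agree on the ball
  have hagree : ∀ᶠ m in (𝓤 : Filter ℕ), ∀ z ∈ ball z1 r, P' m z = σ (P m z) := by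
    have h3 : ∀ᶠ m in (𝓤 : Filter ℕ), P' m z2 ∈ O' :=
      h2.eventually (hO'.mem_nhds (hrs hz2).1.2)
    filter_upwards [h3, hpa, hP] with m hm1 hm2 hm3
    have hcP' : Continuous fun z : ball z1 r => P' m z := continuousOn_iff_continuous_domRestrict.1
      fun z hz => (hm3 z (hrs hz).2).2.2.1.continuousWithinAt
    have hcP : Continuous fun z : ball z1 r => σ (P m z) := by
      have h4 : ContinuousOn (fun z => σ (P m z)) (ball z1 r) := by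
        refine hσc.comp (fun z hz => (hm3 z (hrs hz).2).1.continuousWithinAt) ?_
        intro z hz
        exact ⟨(hab hm2 (hrs hz).1.1).2, (hm3 z (hrs hz).2).2.1⟩
      exact continuousOn_iff_continuous_domRestrict.1 h4
    have hcl : IsClosed {z : ball z1 r | P' m z = σ (P m z)} := isClosed_eq hcP' hcP
    have heq : {z : ball z1 r | P' m z = σ (P m z)} = {z : ball z1 r | P' m z ∈ O'} := by
      ext z
      constructor
      · intro h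
        have h' : P' m z = σ (P m z) := h
        change P' m z ∈ O'
        rw [h']
        exact (hab hm2 (hrs z.2).1.1).1
      · intro h
        change P' m z = σ (P m z)
        have h5 := (huni _ ⟨h, (hm3 z (hrs z.2).2).2.2.2.1⟩).2
        rw [(hm3 z (hrs z.2).2).2.2.2.2] at h5
        exact h5.symm
    have hop : IsOpen {z : ball z1 r | P' m z = σ (P m z)} := by
      rw [heq]
      exact hO'.preimage hcP'
    have : PreconnectedSpace (ball z1 r) :=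
      isPreconnected_iff_preconnectedSpace.1 (convex_ball z1 r).isPreconnected
    have h1 := IsClopen.eq_univ ⟨hcl, hop⟩ ⟨⟨z2, hz2⟩, by rw [heq]; exact hm1⟩
    intro z hz
    have h6 : (⟨z, hz⟩ : ball z1 r) ∈ {z : ball z1 r | P' m z = σ (P m z)} := by
      rw [h1]
      exact mem_univ _
    exact h6
  intro z hz
  refine (hσP z (hrs hz).2 (hrs hz).1.2).congr' ?_
  have h7 : ∀ᶠ x : ℕ × ℂ in (𝓤 : Filter ℕ) ×ˢ 𝓝 z, ∀ z ∈ ball z1 r, P' x.1 z = σ (P x.1 z) :=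
    tendsto_fst.eventually hagree
  have h8 : ∀ᶠ x : ℕ × ℂ in (𝓤 : Filter ℕ) ×ˢ 𝓝 z, x.2 ∈ ball z1 r :=
    tendsto_snd.eventually (isOpen_ball.mem_nhds hz)
  filter_upwards [h7, h8] with x hx1 hx2
  exact (hx1 x.2 hx2).symm

end Pool.Agent.H788.SE

namespace Pool.Agent.H918.SS

open Pool.Agent.Y190.OP Pool.Agent.N155 Pool.Agent.N154.GG

variable {N M : ℕ} {T : Set (Mat N)} {Λ : AddSubgroup ℂ} {a : Mat N → ℂ} {T' : Set (Mat M)}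
  {a' : Mat M → ℂ} {p : Mat M → Mat N} {𝔅 : Set ℂ} {δ : ℝ} {κ : Type}
  {η : κ → (Fin M → ℂ) → (Fin M → ℂ) → ℂ}

/-- CL -/
theorem Cov.conv_lift (hc : Cov T Λ a T' a' 𝔅 p) (hb : Bd Λ 𝔅 δ) {U : Set ℂ} (hU : IsOpen U)
    (hUc : IsPreconnected U) {𝓤 : Ultrafilter ℕ} {P : ℕ → ℂ → Mat N} {G : ℂ → Mat N}
    {P' : ℕ → ℂ → Mat M} {G' : ℂ → Mat M}
    (hP : ∀ᶠ m in (𝓤 : Filter ℕ), ∀ z ∈ U, ContinuousAt (P m) z ∧ P m z ∈ T ∧
      ContinuousAt (P' m) z ∧ P' m z ∈ T' ∧ p (P' m z) = P m z)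
    (hG : ∀ z ∈ U, a' (G' z) ∉ 𝔅 ∧ ContinuousAt (G' ) z ∧ G' z ∈ T' ∧ p (G' z) = G z)
    (hGc : ∀ z ∈ U, ContinuousAt G z ∧ G z ∈ T)
    (hPG : CConv (𝓤 : Filter ℕ) U P G) {z0 : ℂ} (hz0 : z0 ∈ U)
    (h0 : Tendsto (fun m => P' m z0) 𝓤 (𝓝 (G' z0))) : CConv (𝓤 : Filter ℕ) U P' G' := by
  have hloc := fun z1 hz1 => Pool.Agent.H788.SE.conv_local hc hU hP hG hGc hPG (z1 := z1) hz1
  -- the pointwise convergence everywhere
  have hpt : ∀ z ∈ U, ∀ V : Set ℂ, z ∈ V →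
      Tendsto (fun x : ℕ × ℂ => P' x.1 x.2) ((𝓤 : Filter ℕ) ×ˢ 𝓝 z) (𝓝 (G' z)) →
      Tendsto (fun m => P' m z) 𝓤 (𝓝 (G' z)) := by
    intro z _ _ _ h
    exact h.comp (tendsto_id.prodMk tendsto_const_nhds)
  have hop : IsOpen {z : U | Tendsto (fun m => P' m z) 𝓤 (𝓝 (G' z))} := by
    rw [isOpen_iff_mem_nhds]
    intro z hz
    obtain ⟨V, hV, hzV, hVU, hVc⟩ := hloc z z.2
    have h1 : ∀ᶠ w : U in 𝓝 z, (w : ℂ) ∈ V :=
      continuous_subtype_val.continuousAt.eventually (hV.mem_nhds hzV)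
    filter_upwards [h1] with w hw
    exact hpt w w.2 V hw (hVc z hzV hz w hw)
  have hcl : IsClosed {z : U | Tendsto (fun m => P' m z) 𝓤 (𝓝 (G' z))} := by
    rw [← isOpen_compl_iff, isOpen_iff_mem_nhds]
    intro z hz
    obtain ⟨V, hV, hzV, hVU, hVc⟩ := hloc z z.2
    have h1 : ∀ᶠ w : U in 𝓝 z, (w : ℂ) ∈ V :=
      continuous_subtype_val.continuousAt.eventually (hV.mem_nhds hzV)
    filter_upwards [h1] with w hw hw'
    exact hz (hpt z z.2 V hzV (hVc w hw hw' z hzV))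
  have : PreconnectedSpace U := isPreconnected_iff_preconnectedSpace.1 hUc
  have h1 := IsClopen.eq_univ ⟨hcl, hop⟩ ⟨⟨z0, hz0⟩, h0⟩
  intro z hz
  obtain ⟨V, hV, hzV, hVU, hVc⟩ := hloc z hz
  have h2 : (⟨z, hz⟩ : U) ∈ {z : U | Tendsto (fun m => P' m z) 𝓤 (𝓝 (G' z))} := by
    rw [h1]
    exact mem_univ _
  exact hVc z hzV h2 z hzV

end Pool.Agent.H918.SS
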