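import Pool.Agent.H918.E.PGeoR
import Pool.Agent.H918.D.Five

/-! Meromorphic maps from affine spaces and curves which are not of general type: the consequences of
a theorem on entire curves. -/

set_option autoImplicit false

open Filter Topology Metric Set LinearAlgebra.Projectivization

namespace Pool.Agent.H918.SS

open FF Pool.Agent.Y190.OP Pool.Agent.W602.GT Pool.Agent.N154.GG
open Pool.Agent.N155 (TX isCompact_TX TX_PM exists_shift nz nz_Phi nz_dich codis_ev)

variable {n : ℕ} {ι : Type} {F : ι → MvPolynomial (Fin (n + 1)) ℂ}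

/-- **Maps from affine spaces**: the consequences of the theorem on entire curves. -/
theorem sab_ofB (hF : ∀ i, IsForm (F i)) {bad : (Fin (n + 1) → ℂ) → Prop}
    (hbadc : ∀ u, ∀ c : ℂ, c ≠ 0 → bad (c • u) → bad u)
    {S : Set (ℂ → ℙ ℂ (Fin (n + 1) → ℂ))} (hS : S.Finite)
    (hmain : ∀ f, HolIn F f → (∀ z w, f z = f w) ∨ (∀ z, bad (f z).rep) ∨
        ∃ g ∈ S, ∃ φ : ℂ → ℂ, Differentiable ℂ φ ∧ ∀ z, f z = g (φ z))
    {m : ℕ} {h : (Fin m → ℂ) → Fin (n + 1) → ℂ} (hh : MeroIn F h) :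
    (∀ z, h z ≠ 0 → bad (h z)) ∨
    ∃ g ∈ S, ∀ G : MvPolynomial (Fin (n + 1)) ℂ, IsForm G → (∀ z, val (g z).rep G = 0) →
      ∀ z, val (h z) G = 0 := by
  classical
  obtain ⟨hd, hC, z1, z2, hind⟩ := hh
  have hdl : ∀ z0 w : Fin m → ℂ, Differentiable ℂ fun t : ℂ => h (z0 + t • w) := fun z0 w => by
    fun_prop
  by_cases hbad : ∀ z, h z ≠ 0 → bad (h z)
  · exact Or.inl hbad
  right
  push Not at hbad
  obtain ⟨z0, h0, hb0⟩ := hbad
  -- the curves given by the lines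
  have hline : ∀ w : Fin m → ℂ, ∃ f : ℂ → ℙ ℂ (Fin (n + 1) → ℂ), HolIn F f ∧
      ∀ t : ℂ, ∀ ht : h (z0 + t • w) ≠ 0, f t = Projectivization.mk ℂ (h (z0 + t • w)) ht := by
    intro w
    exact line_curve hF (hdl z0 w) ⟨0, by rwa [zero_smul, add_zero]⟩ fun t ht => hC _ ht
  -- along a line: constant, or in one of the curves
  have hstep : ∀ w : Fin m → ℂ, (∀ t : ℂ, h (z0 + t • w) ≠ 0 → ∃ c : ℂ, c ≠ 0 ∧
      h (z0 + t • w) = c • h z0) ∨ ∃ g ∈ S, ∀ G : MvPolynomial (Fin (n + 1)) ℂ, IsForm G →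
        (∀ z, val (g z).rep G = 0) → ∀ t : ℂ, h (z0 + t • w) ≠ 0 → val (h (z0 + t • w)) G = 0 := by
    intro w
    obtain ⟨f, hf, hf'⟩ := hline w
    have e0 := hf' 0 (by rwa [zero_smul, add_zero])
    simp only [zero_smul, add_zero] at e0
    rcases hmain f hf with h1 | h1 | ⟨g, hg, φ, -, h1⟩
    · left
      intro t ht
      have h2 := (hf' t ht).symm.trans ((h1 t 0).trans e0)
      rw [Projectivization.mk_eq_mk_iff'] at h2
      obtain ⟨c, hc⟩ := h2
      refine ⟨c, ?_, hc.symm⟩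
      rintro rfl
      rw [zero_smul] at hc
      exact ht hc.symm
    · exfalso
      obtain ⟨c, hc, h2⟩ := rep_mk h0
      apply hb0
      refine hbadc _ c hc ?_
      rw [← h2, ← e0]
      exact h1 0
    · right
      refine ⟨g, hg, fun G hG hG0 t ht => ?_⟩
      have h2 := hf' t ht
      obtain ⟨c, hc, h3⟩ := rep_mk ht
      have h4 := hG0 (φ t)
      rw [← h1 t, h2, h3, val_smul_form hG hc] at h4
      exact h4
  -- a curve through the point `z0`
  have hg0 : ∃ g ∈ S, ∀ G : MvPolynomial (Fin (n + 1)) ℂ, IsForm G →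
      (∀ z, val (g z).rep G = 0) → val (h z0) G = 0 := by
    by_contra hcon
    push Not at hcon
    have h1 : ∀ w, h w ≠ 0 → ∃ c : ℂ, c ≠ 0 ∧ h w = c • h z0 := by
      intro w hw
      rcases hstep (w - z0) with h2 | ⟨g, hg, h2⟩
      · have h3 := h2 1 (by rwa [one_smul, add_sub_cancel])
        rwa [one_smul, add_sub_cancel] at h3
      · exfalso
        obtain ⟨G, hG, hG0, hG1⟩ := hcon g hg
        apply hG1
        have h3 := h2 G hG hG0 0 (by rwa [zero_smul, add_zero])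
        rwa [zero_smul, add_zero] at h3
    have hz1 : h z1 ≠ 0 := hind.ne_zero 0
    have hz2 : h z2 ≠ 0 := hind.ne_zero 1
    obtain ⟨c1, hc1, h3⟩ := h1 z1 hz1
    obtain ⟨c2, hc2, h4⟩ := h1 z2 hz2
    rw [LinearIndependent.pair_iff] at hind
    have h5 := hind c2 (-c1) (by
      rw [h3, h4, smul_smul, smul_smul, ← add_smul]
      rw [show c2 * c1 + -c1 * c2 = 0 by ring, zero_smul])
    exact hc2 h5.1
  obtain ⟨g0, hg0S, hg0'⟩ := hg0
  -- the closed sets
  let W : S → Set (Fin m → ℂ) := fun g => {w | ∀ G : MvPolynomial (Fin (n + 1)) ℂ, IsForm G →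
    (∀ z, val (g.1 z).rep G = 0) → ∀ t : ℂ, h (z0 + t • w) ≠ 0 → val (h (z0 + t • w)) G = 0}
  have hWcl : ∀ g, IsClosed (W g) := by
    intro g
    have h1 : W g = ⋂ (G : MvPolynomial (Fin (n + 1)) ℂ) (_ : IsForm G)
        (_ : ∀ z, val (g.1 z).rep G = 0) (t : ℂ),
        {w | h (z0 + t • w) ≠ 0 → val (h (z0 + t • w)) G = 0} := by
      ext w
      simp only [W, mem_ofPred_eq, mem_iInter]
    rw [h1]
    refine isClosed_iInter fun G => isClosed_iInter fun hG => isClosed_iInter fun hG0 =>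
      isClosed_iInter fun t => ?_
    have hc : Continuous fun w : Fin m → ℂ => h (z0 + t • w) := hd.continuous.comp (by fun_prop)
    rw [← isOpen_compl_iff]
    have h2 : {w : Fin m → ℂ | h (z0 + t • w) ≠ 0 → val (h (z0 + t • w)) G = 0}ᶜ =
        {w | h (z0 + t • w) ≠ 0} ∩ {w | val (h (z0 + t • w)) G ≠ 0} := by
      ext w
      simp only [mem_compl_iff, mem_ofPred_eq, mem_inter_iff, Classical.not_imp]
    rw [h2]
    exact (isOpen_ne_fun hc continuous_const).inter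
      (isOpen_ne_fun (val_cont.comp hc) continuous_const)
  have hcov : ⋃ g, W g = univ := by
    rw [eq_univ_iff_forall]
    intro w
    rw [mem_iUnion]
    rcases hstep w with h2 | ⟨g, hg, h2⟩
    · refine ⟨⟨g0, hg0S⟩, fun G hG hG0 t ht => ?_⟩
      obtain ⟨c, hc, h3⟩ := h2 t ht
      rw [h3, val_smul_form hG hc]
      exact hg0' G hG hG0
    · exact ⟨⟨g, hg⟩, h2⟩
  have hfin : Finite S := hS
  obtain ⟨g, hgi⟩ := nonempty_interior_of_iUnion_of_closed hWcl hcov
  refine ⟨g.1, g.2, fun G hG hG0 z => ?_⟩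
  obtain ⟨w, hw⟩ := hgi
  obtain ⟨U, hUs, hU, hwU⟩ := mem_interior.1 hw
  have h1 : Differentiable ℂ fun v : Fin m → ℂ => val (h (z0 + v)) G • h (z0 + v) := by
    have := val_diff (hd.comp (differentiable_id.const_add z0)) G
    exact this.smul (hd.comp (differentiable_id.const_add z0))
  have h2 : ∀ᶠ v in 𝓝 w, val (h (z0 + v)) G • h (z0 + v) = 0 := by
    filter_upwards [hU.mem_nhds hwU] with v hv
    by_cases hv0 : h (z0 + v) = 0
    · rw [hv0, smul_zero]
    · have h3 := hUs hv G hG hG0 1 (by rwa [one_smul])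
      rw [one_smul] at h3
      rw [h3, zero_smul]
  have h3 := entire_zero h1 h2
  -- the value of the form is zero on the dense set where `h` is not zero
  by_contra hne
  have h4 : ∀ᶠ v in 𝓝 (z - z0), val (h (z0 + v)) G ≠ 0 := by
    have hc : Continuous fun v : Fin m → ℂ => val (h (z0 + v)) G :=
      val_cont.comp (hd.continuous.comp (by fun_prop))
    refine hc.continuousAt.eventually_ne ?_
    rwa [add_sub_cancel]
  have h5 : ∀ᶠ v in 𝓝 (z - z0), h (z0 + v) = 0 := by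
    filter_upwards [h4] with v hv
    exact (smul_eq_zero.1 (h3 v)).resolve_left hv
  have h6 := entire_zero (hd.comp (differentiable_id.const_add z0)) h5 0
  change h (z0 + 0) = 0 at h6
  rw [add_zero] at h6
  exact h0 h6

/-- **Curves of genus at most one**: the consequences of the theorem on entire curves. -/
theorem lang_ofB (hF : ∀ i, IsForm (F i)) {bad : (Fin (n + 1) → ℂ) → Prop}
    {S : Set (ℂ → ℙ ℂ (Fin (n + 1) → ℂ))} (hS : ∀ g ∈ S, HolIn F g)
    (hmain : ∀ f, HolIn F f → (∀ z w, f z = f w) ∨ (∀ z, bad (f z).rep) ∨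
        ∃ g ∈ S, ∃ φ : ℂ → ℂ, Differentiable ℂ φ ∧ ∀ z, f z = g (φ z))
    (K' : Type) [Field K'] [Algebra ℂ K'] (y' : Fin (n + 1) → K') (hy : SubVar F K' 1 y')
    (hgt : ¬ GeneralType ℂ K' 1) :
    (∀ H : MvPolynomial (Fin (n + 1)) ℂ, IsForm H → (∀ u ∈ Cone F, bad u → val u H = 0) →
      val y' H = 0) ∨
    ∃ g ∈ S, ∀ G : MvPolynomial (Fin (n + 1)) ℂ, IsForm G →
      (val y' G = 0 ↔ ∀ z, val (g z).rep G = 0) := by
  let F' : ι ⊕ {G : MvPolynomial (Fin (n + 1)) ℂ // IsForm G ∧ val y' G = 0} →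
    MvPolynomial (Fin (n + 1)) ℂ := Sum.elim F fun G => G.1
  have hF' : ∀ i, IsForm (F' i) := by
    rintro (i | G)
    · exact hF i
    · exact G.2.1
  have hy' : SubVar F' K' 1 y' := ⟨hy.ne, by
    rintro (i | G)
    · exact hy.mem i
    · exact G.2.2, hy.gen, hy.dim⟩
  obtain ⟨f, hf, ⟨z1, z2, hne⟩, hdense⟩ := gen1 n _ F' hF' K' y' hy' hgt
  have hfF : HolIn F f := ⟨hf.1, fun z => ⟨(hf.2 z).1, fun i => (hf.2 z).2 (Sum.inl i)⟩⟩
  have hvan : ∀ G : MvPolynomial (Fin (n + 1)) ℂ, IsForm G → val y' G = 0 →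
      ∀ z, val (f z).rep G = 0 := fun G hG hG0 z => (hf.2 z).2 (Sum.inr ⟨G, hG, hG0⟩)
  rcases hmain f hfF with h1 | h1 | ⟨g, hg, φ, hφ, h1⟩
  · exact absurd (h1 z1 z2) hne
  · left
    intro H hH hH0
    exact hdense H hH fun z => hH0 _ (hfF.2 z) (h1 z)
  · right
    refine ⟨g, hg, fun G hG => ⟨fun h2 => ?_, fun h2 => ?_⟩⟩
    · exact form_comp (hS g hg).1 hφ h1 ⟨z1, z2, hne⟩ hG (hvan G hG h2)
    · refine hdense G hG fun z => ?_
      rw [h1]
      exact h2 _

end Pool.Agent.H918.SS
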