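import Pool.Agent.H918.D.Ge0

/-! Finite covering maps outside of the bad fibres, and lifts of holomorphic discs. -/

set_option autoImplicit false

open Filter Topology Metric Set

namespace Pool.Agent.H918.SS

open Pool.Agent.Y190.OP Pool.Agent.N155 Pool.Agent.N154.GG

variable {N M : ℕ} {T : Set (Mat N)} {Λ : AddSubgroup ℂ} {a : Mat N → ℂ} {T' : Set (Mat M)}
  {a' : Mat M → ℂ} {p : Mat M → Mat N} {𝔅 : Set ℂ} {δ : ℝ}

/-- `p` is a map from `T'` to `T` which is a finite covering map outside of the bad fibres -/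
structure Cov (T : Set (Mat N)) (Λ : AddSubgroup ℂ) (a : Mat N → ℂ) (T' : Set (Mat M))
    (a' : Mat M → ℂ) (𝔅 : Set ℂ) (p : Mat M → Mat N) : Prop where
  map : ∀ x ∈ T', p x ∈ T
  cont : ContinuousOn p T'
  ovr : ∀ x ∈ T', a' x - a (p x) ∈ Λ
  surj : ∀ y ∈ T, a y ∉ 𝔅 → ∃ x ∈ T', p x = y
  fin : ∃ k : ℕ, ∀ y ∈ T, a y ∉ 𝔅 → {x | x ∈ T' ∧ p x = y}.encard ≤ k
  loc : ∀ x0 ∈ T', a' x0 ∉ 𝔅 → ∃ (O : Set (Mat N)) (O' : Set (Mat M)) (σ : Mat N → Mat M) (L : ℝ),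
    IsOpen O ∧ IsOpen O' ∧ p x0 ∈ O ∧ x0 ∈ O' ∧ 0 ≤ L ∧
    (∀ y ∈ O ∩ T, ∀ y' ∈ O ∩ T, ‖σ y - σ y'‖ ≤ L * ‖y - y'‖) ∧
    (∀ y ∈ O ∩ T, σ y ∈ T' ∧ p (σ y) = y) ∧ (∀ x ∈ O' ∩ T', p x ∈ O ∧ σ (p x) = x) ∧
    (∀ (U : Set ℂ) (P : ℂ → Mat N), IsOpen U → HolP U P → (∀ z ∈ U, P z ∈ O ∩ T) →
      HolP U (fun z => σ (P z))) ∧
    ∀ x ∈ O' ∩ T', ∀ x' ∈ O' ∩ T', ‖p x - p x'‖ ≤ L * ‖x - x'‖

theorem Cov.bad_iff (hc : Cov T Λ a T' a' 𝔅 p) (hb : Bd Λ 𝔅 δ) {x : Mat M} (hx : x ∈ T') :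
    a' x ∈ 𝔅 ↔ a (p x) ∈ 𝔅 := by
  have h1 := hc.ovr x hx
  constructor
  · intro h
    have h2 := hb.inv _ h _ (Λ.neg_mem h1)
    have e : a' x + -(a' x - a (p x)) = a (p x) := by ring
    rwa [e] at h2
  · intro h
    have h2 := hb.inv _ h _ h1
    have e : a (p x) + (a' x - a (p x)) = a' x := by ring
    rwa [e] at h2

/-- the map between the subtypes -/
def Cov.fn (hc : Cov T Λ a T' a' 𝔅 p) : T' → T := fun x => ⟨p x.1, hc.map x.1 x.2⟩

theorem Cov.fn_cont (hc : Cov T Λ a T' a' 𝔅 p) : Continuous hc.fn :=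
  Continuous.subtype_mk (continuousOn_iff_continuous_domRestrict.1 hc.cont) _

/-- the good part -/
def gd (T : Set (Mat N)) (a : Mat N → ℂ) (𝔅 : Set ℂ) : Set T := {y | a y.1 ∉ 𝔅}

theorem Cov.locHomeo (hc : Cov T Λ a T' a' 𝔅 p) (hb : Bd Λ 𝔅 δ) :
    IsLocalHomeomorphOn hc.fn (hc.fn ⁻¹' (gd T a 𝔅)) := by
  classical
  rintro ⟨x0, hx0⟩ h0
  have h0' : a' x0 ∉ 𝔅 := fun h => h0 ((hc.bad_iff hb hx0).1 h)
  obtain ⟨O, O', σ, L, hO, hO', hpO, hxO, hL, hlip, hsec, huni, -⟩ := hc.loc x0 hx0 h0'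
  have hσc : ContinuousOn σ (O ∩ T) := by
    have h1 : LipschitzOnWith (Real.toNNReal L) σ (O ∩ T) := by
      apply LipschitzOnWith.of_dist_le_mul
      intro y hy y' hy'
      rw [dist_eq_norm, dist_eq_norm, Real.coe_toNNReal L hL]
      exact hlip y hy y' hy'
    exact h1.continuousOn
  -- the inverse map
  let σ' : T → T' := fun y => if h : y.1 ∈ O then ⟨σ y.1, (hsec y.1 ⟨h, y.2⟩).1⟩ else ⟨x0, hx0⟩
  have hσ' : ∀ y : T, ∀ h : y.1 ∈ O, (σ' y).1 = σ y.1 := by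
    intro y h
    simp only [σ']
    rw [dif_pos h]
  have hOT : IsOpen {y : T | y.1 ∈ O} := hO.preimage continuous_subtype_val
  have hσ'c : ContinuousOn σ' {y : T | y.1 ∈ O} := by
    have h1 : ContinuousOn (fun y : T => (σ' y).1) {y : T | y.1 ∈ O} := by
      refine ContinuousOn.congr (f := fun y : T => σ y.1) ?_ fun y hy => hσ' y hy
      exact hσc.comp continuous_subtype_val.continuousOn fun y hy => ⟨hy, y.2⟩
    exact Topology.IsInducing.subtypeVal.continuousOn_iff.2 h1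
  refine ⟨{ toFun := hc.fn
            invFun := σ'
            source := {x | x.1 ∈ O'}
            target := {y | y.1 ∈ O} ∩ σ' ⁻¹' {x | x.1 ∈ O'}
            map_source' := ?_
            map_target' := ?_
            left_inv' := ?_
            right_inv' := ?_
            open_source := hO'.preimage continuous_subtype_val
            open_target := hσ'c.isOpen_inter_preimage hOT (hO'.preimage continuous_subtype_val)
            continuousOn_toFun := hc.fn_cont.continuousOn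
            continuousOn_invFun := hσ'c.mono inter_subset_left }, hxO, rfl⟩
  · intro x hx
    have h1 := huni x.1 ⟨hx, x.2⟩
    refine ⟨h1.1, ?_⟩
    change (σ' (hc.fn x)).1 ∈ O'
    rw [hσ' (hc.fn x) h1.1]
    change σ (p x.1) ∈ O'
    rw [h1.2]
    exact hx
  · intro y hy
    exact hy.2
  · intro x hx
    have h1 := huni x.1 ⟨hx, x.2⟩
    apply Subtype.ext
    rw [hσ' (hc.fn x) h1.1]
    exact h1.2
  · intro y hy
    apply Subtype.ext
    change p (σ' y).1 = y.1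
    rw [hσ' _ hy.1]
    exact (hsec y.1 ⟨hy.1, y.2⟩).2

theorem Cov.covering (hc : Cov T Λ a T' a' 𝔅 p) (hb : Bd Λ 𝔅 δ) (hT' : IsCompact T') :
    IsCoveringMapOn hc.fn (gd T a 𝔅) := by
  have : CompactSpace T' := isCompact_iff_compactSpace.1 hT'
  exact IsCoveringMapOn.of_isLocalHomeomorphOn hc.fn_cont (hc.locHomeo hb)

/-- **Uniqueness of lifts** -/
theorem Cov.unique (hc : Cov T Λ a T' a' 𝔅 p) {U : Set ℂ} (hU : IsPreconnected U)
    {P Q : ℂ → Mat M} (hP : ContinuousOn P U) (hQ : ContinuousOn Q U) (hPT : ∀ z ∈ U, P z ∈ T')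
    (hQT : ∀ z ∈ U, Q z ∈ T') (hav : ∀ z ∈ U, a' (P z) ∉ 𝔅) (hpq : ∀ z ∈ U, p (P z) = p (Q z))
    {z0 : ℂ} (hz0 : z0 ∈ U) (h0 : P z0 = Q z0) : ∀ z ∈ U, P z = Q z := by
  have hP' : Continuous fun z : U => P z := continuousOn_iff_continuous_domRestrict.1 hP
  have hQ' : Continuous fun z : U => Q z := continuousOn_iff_continuous_domRestrict.1 hQ
  have hcl : IsClosed {z : U | P z = Q z} := isClosed_eq hP' hQ'
  have hop : IsOpen {z : U | P z = Q z} := by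
    rw [isOpen_iff_mem_nhds]
    intro z hz
    obtain ⟨O, O', σ, L, hO, hO', hpO, hxO, hL, hlip, hsec, huni, -⟩ :=
      hc.loc (P z) (hPT z z.2) (hav z z.2)
    have h1 : ∀ᶠ w : U in 𝓝 z, P w ∈ O' := hP'.continuousAt.eventually (hO'.mem_nhds hxO)
    have h3 : P z = Q z := hz
    have h2 : ∀ᶠ w : U in 𝓝 z, Q w ∈ O' :=
      hQ'.continuousAt.eventually (hO'.mem_nhds (show Q z ∈ O' from h3 ▸ hxO))
    filter_upwards [h1, h2] with w h3 h4
    have h5 := (huni _ ⟨h3, hPT w w.2⟩).2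
    have h6 := (huni _ ⟨h4, hQT w w.2⟩).2
    change P w = Q w
    rw [← h5, ← h6, hpq w w.2]
  have : PreconnectedSpace U := isPreconnected_iff_preconnectedSpace.1 hU
  have h1 := IsClopen.eq_univ ⟨hcl, hop⟩ ⟨⟨z0, hz0⟩, h0⟩
  intro z hz
  have h2 : (⟨z, hz⟩ : U) ∈ {z : U | P z = Q z} := by
    rw [h1]
    exact mem_univ _
  exact h2

/-- **Lifts** of curves on convex sets -/
theorem Cov.lift (hc : Cov T Λ a T' a' 𝔅 p) (hb : Bd Λ 𝔅 δ) (hT' : IsCompact T') {U : Set ℂ}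
    (hU : IsOpen U) (hUc : Convex ℝ U) {P : ℂ → Mat N} (hP : HolP U P) (hPT : ∀ z ∈ U, P z ∈ T)
    (hav : ∀ z ∈ U, a (P z) ∉ 𝔅) {z0 : ℂ} (hz0 : z0 ∈ U) {x0 : Mat M} (hx0 : x0 ∈ T')
    (h0 : p x0 = P z0) :
    ∃ P' : ℂ → Mat M, HolP U P' ∧ (∀ z ∈ U, P' z ∈ T') ∧ (∀ z ∈ U, p (P' z) = P z) ∧
      P' z0 = x0 := by
  classical
  have hcov := hc.covering hb hT'
  have hctr : ContractibleSpace U := hUc.contractibleSpace ⟨z0, hz0⟩
  have hlpc : LocallyPathConnectedSpace U := hU.locallyPathConnectedSpace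
  have hPc : Continuous fun z : U => (⟨P z, hPT z z.2⟩ : T) := by
    apply Continuous.subtype_mk
    exact continuousOn_iff_continuous_domRestrict.1 fun z hz => (hP.continuousAt hz).continuousWithinAt
  obtain ⟨F, ⟨hF0, hF⟩, -⟩ := hcov.existsUnique_continuousMap_lifts
    (⟨fun z : U => (⟨P z, hPT z z.2⟩ : T), hPc⟩ : C(U, T)) (a₀ := ⟨z0, hz0⟩) (e₀ := ⟨x0, hx0⟩)
    (Subtype.ext h0) (fun z => hav z z.2)
  set P' : ℂ → Mat M := fun z => if h : z ∈ U then (F ⟨z, h⟩).1 else x0 with hP'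
  have hP'U : ∀ z, ∀ h : z ∈ U, P' z = (F ⟨z, h⟩).1 := by
    intro z h
    rw [hP']
    simp only
    rw [dif_pos h]
  have hpF : ∀ z : U, p (F z).1 = P z := by
    intro z
    have h1 := congrFun hF z
    exact congrArg Subtype.val h1
  refine ⟨P', ?_, fun z hz => ?_, fun z hz => ?_, ?_⟩
  · intro z hz
    have hFz : (F ⟨z, hz⟩).1 ∈ T' := (F ⟨z, hz⟩).2
    obtain ⟨O, O', σ, L, hO, hO', hpO, hxO, hL, hlip, hsec, huni, hhol, -⟩ :=
      hc.loc _ hFz (fun h => hav z hz (by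
        have := (hc.bad_iff hb hFz).1 h
        rwa [hpF] at this))
    have h1 : ∀ᶠ w in 𝓝 (⟨z, hz⟩ : U), (F w).1 ∈ O' :=
      (continuous_subtype_val.comp F.continuous).continuousAt.eventually (hO'.mem_nhds hxO)
    obtain ⟨V0, hV0s, hV0, hzV0⟩ := _root_.mem_nhds_iff.1 h1
    obtain ⟨V1, hV1, hV1e⟩ := isOpen_induced_iff.1 hV0
    have hzV1 : z ∈ V1 := by
      have : (⟨z, hz⟩ : U) ∈ Subtype.val ⁻¹' V1 := by
        rw [hV1e]
        exact hzV0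
      exact this
    have hVin : ∀ w, ∀ hw : w ∈ V1 ∩ U, (F ⟨w, hw.2⟩).1 ∈ O' := by
      intro w hw
      have : (⟨w, hw.2⟩ : U) ∈ V0 := by
        rw [← hV1e]
        exact hw.1
      exact hV0s this
    have hσP : ∀ w, ∀ hw : w ∈ V1 ∩ U, P w ∈ O ∩ T ∧ σ (P w) = P' w := by
      intro w hw
      have h2 := huni _ ⟨hVin w hw, (F ⟨w, hw.2⟩).2⟩
      rw [hpF] at h2
      exact ⟨⟨h2.1, hPT w hw.2⟩, by rw [hP'U w hw.2]; exact h2.2⟩
    have h3 := hhol (V1 ∩ U) P (hV1.inter hU) (hP.mono inter_subset_right)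
      (fun w hw => (hσP w hw).1)
    obtain ⟨V, f, hV, hzV, hd, hf⟩ := h3 z ⟨hzV1, hz⟩
    refine ⟨V ∩ (V1 ∩ U), f, hV.inter (hV1.inter hU), ⟨hzV, hzV1, hz⟩,
      hd.mono inter_subset_left, fun w hw => ⟨(hf w hw.1).1, ?_⟩⟩
    rw [← (hσP w hw.2).2]
    exact (hf w hw.1).2
  · rw [hP'U z hz]
    exact (F ⟨z, hz⟩).2
  · rw [hP'U z hz]
    exact hpF ⟨z, hz⟩
  · rw [hP'U z0 hz0, hF0]

end Pool.Agent.H918.SS
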