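import Pool.Agent.H918.E.PGeoR

/-! Entire curves and curves on punctured discs in projective sets over elliptic curves, from the
rigidity and the condition on the fibres for sets of matrices. -/

set_option autoImplicit false

open Filter Topology Metric Set LinearAlgebra.Projectivization

namespace Pool.Agent.H918.SS

open FF Pool.Agent.Y190.OP Pool.Agent.W602.GT Pool.Agent.N154.GG
open Pool.Agent.N155 (TX isCompact_TX TX_PM exists_shift nz nz_Phi nz_dich codis_ev)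

variable {n : ℕ} {ι : Type} {F : ι → MvPolynomial (Fin (n + 1)) ℂ} {L : PeriodPair}
  {α : (Fin (n + 1) → ℂ) → ℂ ⧸ L.lattice} {B : Set (ℂ ⧸ L.lattice)}

/-- entire curves -/
theorem entR (hF : ∀ i, IsForm (F i)) (hG : RIG (TF F) (La L) (aM L α F))
    (hα : HolToTorus (Cone F) L α) (hB : B.Finite) (hf : FibL (TF F) (La L) (aM L α F) (BB L B)) :
    ∃ (S : Set (ℂ → ℙ ℂ (Fin (n + 1) → ℂ))) (k : ℕ), S.Finite ∧ 0 < k ∧
      (∀ g ∈ S, HolIn F g ∧ (∀ z, α (g z).rep = Submodule.Quotient.mk z) ∧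
        ∀ l ∈ L.lattice, ∀ z, g (z + k * l) = g z) ∧
      ∀ f, HolIn F f → (∀ z w, f z = f w) ∨
        (∃ b ∈ B, ∀ z, α (f z).rep = b) ∨
        ∃ g ∈ S, ∃ φ : ℂ → ℂ, Differentiable ℂ φ ∧ ∀ z, f z = g (φ z) := by
  classical
  have hT := tdF hF hα
  obtain ⟨δ, hb⟩ := bdF hT hB
  obtain ⟨C, -, hC⟩ := exists_GS hT hb hf
  have hfin := S0_finiteS hT hG hC
  obtain ⟨k, hk, hper⟩ := S0_period hfin
  refine ⟨(fun P z => toProj (P z)) '' S0 (TF F) (La L) (aM L α F), k, hfin.image _, hk, ?_, ?_⟩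
  · rintro _ ⟨P, hP, rfl⟩
    obtain ⟨h1, h2⟩ := S0_iffF hF hα hP
    refine ⟨h1, h2, fun l hl z => ?_⟩
    change toProj (P (z + k * l)) = toProj (P z)
    rw [hper P hP l hl]
  · intro f hf'
    have h1 : ∀ z, Phi (f z).rep ∈ TF F := fun z => mem_TF (hf'.2 z)
    rcases ggl_matB hT hG hb hf (holP_of hf'.1) h1 with h2 | ⟨c, hc, h2⟩ |
      ⟨g, hg, φ, hφ, -, h2⟩
    · left
      intro z w
      exact proj_ext ((h2 z).trans (h2 w).symm)
    · right
      left
      refine ⟨Submodule.Quotient.mk c, hc, fun z => ?_⟩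
      have h3 := mem_La_iff.1 (h2 z)
      rw [aM_Phi hα (hf'.2 z)] at h3
      exact h3.symm
    · right
      right
      refine ⟨_, ⟨g, hg, rfl⟩, φ, hφ, fun z => proj_ext ?_⟩
      rw [Phi_rep_toProj (TF_PM (hg.2.1 _))]
      exact h2 z

/-- curves on punctured discs -/
theorem picR (hF : ∀ i, IsForm (F i)) (hG : RIG (TF F) (La L) (aM L α F))
    (hα : HolToTorus (Cone F) L α) (hB : B.Finite) (hf : FibL (TF F) (La L) (aM L α F) (BB L B)) :
    ∃ S : Set (ℂ → ℙ ℂ (Fin (n + 1) → ℂ)), S.Finite ∧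
      (∀ g ∈ S, HolIn F g ∧ ∀ z, α (g z).rep = Submodule.Quotient.mk z) ∧
      ∀ f, PunctIn F f → Extends F f ∨ (∃ b ∈ B, ∀ z ∈ PDisc, α (f z).rep = b) ∨
        ∃ g ∈ S, ∃ φ : ℂ → ℂ, DifferentiableOn ℂ φ {z | z.re < 0} ∧
          ∀ z : ℂ, z.re < 0 → f (Complex.exp z) = g (φ z) := by
  classical
  have hT := tdF hF hα
  obtain ⟨δ, hb⟩ := bdF hT hB
  obtain ⟨r, e, q, K', hE, hK', hLM⟩ := exists_core hT hG hb hf
  set S : Set (ℂ → ℙ ℂ (Fin (n + 1) → ℂ)) := range fun (j : Fin r) (z : ℂ) => toProj (e j z) with hS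
  have hSmem : ∀ g ∈ S, HolIn F g ∧ ∀ z, α (g z).rep = Submodule.Quotient.mk z := by
    rintro _ ⟨j, rfl⟩
    exact S0_iffF hF hα (hE.mem j)
  refine ⟨S, finite_range _, hSmem, ?_⟩
  intro f hf'
  set Q : ℂ → Mat (n + 1) := fun z => Phi (f z).rep with hQ
  have hQh : HolP PDisc Q := holP_of_on hf'.1
  have hQT : ∀ z ∈ PDisc, Q z ∈ TF F := fun z hz => mem_TF (hf'.2 z hz)
  set P : ℂ → Mat (n + 1) := fun z => Q (Complex.exp z) with hPdef
  have hP : HolP HP P := holP_comp_l hQh Complex.differentiable_exp.differentiableOn isOpen_HP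
    (fun z hz => exp_mem_PDisc hz)
  have hPT : ∀ z ∈ HP, P z ∈ TF F := fun z hz => hQT _ (exp_mem_PDisc hz)
  have hper : ∀ z ∈ HP, P (z + tpi) = P z := by
    intro z _
    change Q (Complex.exp (z + tpi)) = Q (Complex.exp z)
    rw [show Complex.exp (z + tpi) = Complex.exp z from Complex.exp_periodic z]
  obtain ⟨φ, hφ⟩ := exists_PD hT hP hPT hper
  rcases PD.picardB hT hG hb hf hE hK' hLM hφ with ⟨M0, hM0, hlim⟩ | ⟨c, hc, hcφ⟩ | ⟨j, hj⟩
  · left
    have hQext := holP_remove hQh (TF_PM hM0) (by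
      intro ε hε
      obtain ⟨A, hA, hA'⟩ := hlim ε hε
      refine ⟨Real.exp (-A), Real.exp_pos _, fun z hz hzA => ?_⟩
      obtain ⟨h1, h2⟩ := log_mem_HP hz
      have h3 := hA' (Complex.log z) (by
        rw [Complex.log_re]
        rw [← Real.log_exp (-A)]
        exact Real.log_le_log (norm_pos_iff.2 hz.2) hzA.le)
      change ‖Q (Complex.exp (Complex.log z)) - M0‖ ≤ ε at h3
      rwa [h2] at h3)
    refine ⟨_, holMapOn_of hQext, fun z hz => rep_toProjF hF ?_, fun z hz => ?_⟩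
    · by_cases h0 : z = 0
      · rw [if_pos h0]
        exact hM0
      · rw [if_neg h0]
        exact hQT z ⟨hz, h0⟩
    · have h0 : z ≠ 0 := hz.2
      rw [if_neg h0]
      exact toProj_Phi_rep _
  · right
    left
    refine ⟨Submodule.Quotient.mk c, hc, fun z hz => ?_⟩
    obtain ⟨h2, h3⟩ := log_mem_HP hz
    have h4 := mem_La_iff.1 (hφ.ov _ h2)
    rw [hcφ _ h2] at h4
    change _ = (Submodule.Quotient.mk (aM L α F (Q (Complex.exp (Complex.log z)))) :
      ℂ ⧸ L.lattice) at h4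
    rw [h3, aM_Phi hα (hf'.2 z hz)] at h4
    exact h4.symm
  · right
    right
    refine ⟨_, ⟨j, rfl⟩, φ, hφ.dif, fun z hz => ?_⟩
    have h1 := hj z hz
    change Q (Complex.exp z) = e j (φ z) at h1
    change f (Complex.exp z) = toProj (e j (φ z))
    rw [← h1]
    exact (toProj_Phi_rep _).symm

end Pool.Agent.H918.SS
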