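import Pool.Agent.H918.E.Covg
import Pool.Agent.H918.E.Per
import Pool.Agent.H918.E.Ent

/-! Finite unramified coverings: the lifts of holomorphic curves. -/

set_option autoImplicit false

open Filter Topology Metric Set LinearAlgebra.Projectivization

namespace Pool.Agent.H918.SS

open FF Pool.Agent.Y190.OP Pool.Agent.W602.GT Pool.Agent.N154.GG
open Pool.Agent.N155 (TX isCompact_TX TX_PM exists_shift nz nz_Phi nz_dich codis_ev)

variable {m n : ℕ} {ι ι' : Type} {F : ι → MvPolynomial (Fin (n + 1)) ℂ}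
  {F' : ι' → MvPolynomial (Fin (m + 1)) ℂ} {L : PeriodPair}
  {Q : Fin (n + 1) → MvPolynomial (Fin (m + 1)) ℂ}

/-- constant maps are holomorphic -/
theorem hol_const (X : Set (Fin (n + 1) → ℂ)) (L : PeriodPair) :
    HolToTorus X L (fun _ => (0 : ℂ ⧸ L.lattice)) where
  homog := fun _ _ _ _ => rfl
  hol := fun _ _ => ⟨fun _ => 0, analyticAt_const, Eventually.of_forall fun _ _ => rfl⟩

theorem EtaleCovering.off (hC : EtaleCovering F F' Q) (L : PeriodPair) :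
    CoveringOff F F' (fun _ => (0 : ℂ ⧸ L.lattice)) (fun _ => (0 : ℂ ⧸ L.lattice)) ∅ Q where
  form := hC.form
  map := fun x hx => ⟨(hC.map x hx).1, rfl⟩
  onto := fun u hu h => hC.onto u hu h
  sheets := hC.sheets
  unram := fun x hx h => hC.unram x hx h

/-- the covering of sets of matrices -/
theorem EtaleCovering.cov (hC : EtaleCovering F F' Q) (hF : ∀ i, IsForm (F i))
    (hF' : ∀ i, IsForm (F' i)) (L : PeriodPair) :
    Cov (TF F) (La L) (aM L (fun _ => 0) F) (TF F') (aM L (fun _ => 0) F') (BB L ∅) (pM Q) :=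
  cov_of hF (hol_const _ L) hF' (hol_const _ L) finite_empty (hC.off L)

theorem BB_empty (L : PeriodPair) : BB L ∅ = ∅ := by
  ext x
  simp [BB]

/-- a point of the covering, in terms of matrices -/
theorem pM_iff (hF' : ∀ i, IsForm (F' i)) (hF : ∀ i, IsForm (F i)) (hC : EtaleCovering F F' Q)
    {p' : ℙ ℂ (Fin (m + 1) → ℂ)} (hp' : p'.rep ∈ Cone F') {p : ℙ ℂ (Fin (n + 1) → ℂ)} :
    pM Q (Phi p'.rep) = Phi p.rep ↔ ∃ c : ℂ, mapBy Q p'.rep = c • p.rep := by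
  obtain ⟨e, he⟩ := hC.form
  have hne : mapBy Q p'.rep ≠ 0 := (hC.map _ hp').1.1
  rw [Pool.Agent.H721.SE.pM_Phi he p'.rep_nonzero]
  constructor
  · intro h
    obtain ⟨p1, hp1⟩ : ∃ p1, p1 = Projectivization.mk ℂ (mapBy Q p'.rep) hne := ⟨_, rfl⟩
    obtain ⟨c, hc⟩ := Projectivization.exists_smul_eq_mk_rep ℂ (mapBy Q p'.rep) hne
    have h1 : Phi (Projectivization.mk ℂ (mapBy Q p'.rep) hne).rep = Phi p.rep := by
      rw [← hc, ← h]
      exact Phi_smul c.ne_zero _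
    have h2 := proj_ext h1
    rw [← h2, ← hc]
    refine ⟨(c : ℂ)⁻¹, ?_⟩
    have h3 : (c • mapBy Q p'.rep : Fin (n + 1) → ℂ) = (c : ℂ) • mapBy Q p'.rep := rfl
    rw [h3, smul_smul, inv_mul_cancel₀ c.ne_zero, one_smul]
  · rintro ⟨c, hc⟩
    have hc0 : c ≠ 0 := by
      rintro rfl
      rw [zero_smul] at hc
      exact hne hc
    rw [hc, Phi_smul hc0]

/-- the lifts -/
theorem etale_lift (hF' : ∀ i, IsForm (F' i)) (hF : ∀ i, IsForm (F i)) (hC : EtaleCovering F F' Q)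
    {U : Set ℂ} (hU : IsOpen U) (hUc : Convex ℝ U) {f : ℂ → ℙ ℂ (Fin (n + 1) → ℂ)}
    (hf : HolMapOn U f) (hfF : ∀ z ∈ U, (f z).rep ∈ Cone F) {z0 : ℂ} (hz0 : z0 ∈ U)
    {p0 : ℙ ℂ (Fin (m + 1) → ℂ)} (hp0 : p0.rep ∈ Cone F')
    (h0 : ∃ c : ℂ, mapBy Q p0.rep = c • (f z0).rep) :
    ∃ f' : ℂ → ℙ ℂ (Fin (m + 1) → ℂ), HolMapOn U f' ∧ (∀ z ∈ U, (f' z).rep ∈ Cone F') ∧
      f' z0 = p0 ∧ ∀ z ∈ U, ∃ c : ℂ, mapBy Q (f' z).rep = c • (f z).rep := by
  obtain ⟨L⟩ : Nonempty PeriodPair := ⟨⟨1, Complex.I, by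
    rw [LinearIndependent.pair_iff]
    intro s t h
    have h1 := congrArg Complex.re h
    have h2 := congrArg Complex.im h
    simp at h1 h2
    exact ⟨h1, h2⟩⟩⟩
  have hT := tdF hF (hol_const (Cone F) L)
  have hT' := tdF hF' (hol_const (Cone F') L)
  have hc := hC.cov hF hF' L
  obtain ⟨δ, hb⟩ := bdF hT (B := (∅ : Set (ℂ ⧸ L.lattice))) finite_empty
  obtain ⟨P', hP', hPT', hpP, hP0⟩ := hc.lift hb hT'.comp hU hUc
    (P := fun z => Phi (f z).rep) (holP_of_on hf) (fun z hz => mem_TF (hfF z hz))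
    (fun z _ => by rw [BB_empty]; exact notMem_empty _) hz0 (mem_TF hp0)
    ((pM_iff hF' hF hC hp0).2 h0)
  refine ⟨fun z => toProj (P' z), holMapOn_of hP', fun z hz => rep_toProjF hF' (hPT' z hz), ?_,
    fun z hz => ?_⟩
  · simp only [hP0]
    exact toProj_Phi_rep _
  · rw [← pM_iff hF' hF hC (rep_toProjF hF' (hPT' z hz)),
      Phi_rep_toProj (TF_PM (hPT' z hz))]
    exact hpP z hz

/-- points over a point -/
theorem etale_onto (hC : EtaleCovering F F' Q) {p : ℙ ℂ (Fin (n + 1) → ℂ)} (hF' : ∀ i, IsForm (F' i))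
    (hp : p.rep ∈ Cone F) : ∃ p' : ℙ ℂ (Fin (m + 1) → ℂ), p'.rep ∈ Cone F' ∧
      ∃ c : ℂ, mapBy Q p'.rep = c • p.rep := by
  obtain ⟨x, hx, c, hc⟩ := hC.onto _ hp (notMem_empty _)
  obtain ⟨e, he⟩ := hC.form
  obtain ⟨a, ha⟩ := Projectivization.exists_smul_eq_mk_rep ℂ x hx.1
  refine ⟨Projectivization.mk ℂ x hx.1, ?_, ?_⟩
  · rw [← ha]
    exact cone_smulF hF' hx a.ne_zero
  · rw [← ha]
    refine ⟨(a : ℂ) ^ e * c, ?_⟩
    have h3 : (a • x : Fin (m + 1) → ℂ) = (a : ℂ) • x := rfl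
    rw [h3, Pool.Agent.H721.SE.mapBy_smul he, hc, smul_smul]

end Pool.Agent.H918.SS
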