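import Pool.Agent.H918.E.Etale

/-! Finite unramified coverings: images of holomorphic curves, the theorem on entire curves. -/

set_option autoImplicit false

open Filter Topology Metric Set LinearAlgebra.Projectivization

namespace Pool.Agent.H918.SS

open FF Pool.Agent.Y190.OP Pool.Agent.W602.GT Pool.Agent.N154.GG
open Pool.Agent.N155 (TX isCompact_TX TX_PM exists_shift nz nz_Phi nz_dich codis_ev)

variable {m n : ℕ} {ι ι' : Type} {F : ι → MvPolynomial (Fin (n + 1)) ℂ}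
  {F' : ι' → MvPolynomial (Fin (m + 1)) ℂ} {L : PeriodPair}
  {Q : Fin (n + 1) → MvPolynomial (Fin (m + 1)) ℂ}
  {α' : (Fin (m + 1) → ℂ) → ℂ ⧸ L.lattice} {B : Set (ℂ ⧸ L.lattice)}

/-- uniqueness of images -/
theorem over_unique (hC : EtaleCovering F F' Q) {p' : ℙ ℂ (Fin (m + 1) → ℂ)}
    (hp' : p'.rep ∈ Cone F') {p q : ℙ ℂ (Fin (n + 1) → ℂ)}
    (hp : ∃ c : ℂ, mapBy Q p'.rep = c • p.rep) (hq : ∃ c : ℂ, mapBy Q p'.rep = c • q.rep) :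
    p = q := by
  obtain ⟨c, hc⟩ := hp
  obtain ⟨e, he⟩ := hq
  have hne : mapBy Q p'.rep ≠ 0 := (hC.map _ hp').1.1
  have hc0 : c ≠ 0 := by
    rintro rfl
    rw [zero_smul] at hc
    exact hne hc
  rw [← Projectivization.mk_rep p, ← Projectivization.mk_rep q, Projectivization.mk_eq_mk_iff']
  refine ⟨c⁻¹ * e, ?_⟩
  rw [mul_smul, ← he, hc, smul_smul, inv_mul_cancel₀ hc0, one_smul]

/-- images of curves -/
theorem etale_push (hF' : ∀ i, IsForm (F' i)) (hC : EtaleCovering F F' Q) (hF : ∀ i, IsForm (F i))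
    {U : Set ℂ} (hU : IsOpen U) {f' : ℂ → ℙ ℂ (Fin (m + 1) → ℂ)} (hf' : HolMapOn U f')
    (hf'F : ∀ z ∈ U, (f' z).rep ∈ Cone F') :
    ∃ f : ℂ → ℙ ℂ (Fin (n + 1) → ℂ), HolMapOn U f ∧ (∀ z ∈ U, (f z).rep ∈ Cone F) ∧
      ∀ z ∈ U, ∃ c : ℂ, mapBy Q (f' z).rep = c • (f z).rep := by
  classical
  obtain ⟨e, he⟩ := hC.form
  have hne : ∀ z ∈ U, mapBy Q (f' z).rep ≠ 0 := fun z hz => (hC.map _ (hf'F z hz)).1.1
  obtain ⟨w0⟩ : Nonempty (ℙ ℂ (Fin (n + 1) → ℂ)) := ⟨Projectivization.mk ℂ (fun _ => 1) (by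
    intro h
    have := congrFun h 0
    simp at this)⟩
  set f : ℂ → ℙ ℂ (Fin (n + 1) → ℂ) := fun z =>
    if h : mapBy Q (f' z).rep ≠ 0 then Projectivization.mk ℂ _ h else w0 with hf
  have hfe : ∀ z, ∀ hz : z ∈ U, f z = Projectivization.mk ℂ _ (hne z hz) := by
    intro z hz
    simp only [hf]
    rw [dif_pos (hne z hz)]
  have hover : ∀ z ∈ U, ∃ c : ℂ, c ≠ 0 ∧ mapBy Q (f' z).rep = c • (f z).rep := by
    intro z hz
    rw [hfe z hz]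
    obtain ⟨a, ha⟩ := Projectivization.exists_smul_eq_mk_rep ℂ _ (hne z hz)
    refine ⟨(a : ℂ)⁻¹, inv_ne_zero a.ne_zero, ?_⟩
    rw [← ha]
    have h3 : (a • mapBy Q (f' z).rep : Fin (n + 1) → ℂ) = (a : ℂ) • mapBy Q (f' z).rep := rfl
    rw [h3, smul_smul, inv_mul_cancel₀ a.ne_zero, one_smul]
  refine ⟨f, ?_, ?_, fun z hz => ?_⟩
  · intro z hz
    obtain ⟨V, g, hV, hzV, hg, hgf⟩ := hf' z hz
    refine ⟨V ∩ U, fun w => mapBy Q (g w), hV.inter hU, ⟨hzV, hz⟩, ?_, ?_⟩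
    · intro w hw
      have h1 : DifferentiableAt ℂ g w := hg.differentiableAt (hV.mem_nhds hw.1)
      exact ((Pool.Agent.H721.SE.mapBy_an Q (g w)).differentiableAt.comp w h1).differentiableWithinAt
    · intro w hw
      obtain ⟨h1, h2⟩ := hgf w hw.1
      obtain ⟨a, ha⟩ := Projectivization.exists_smul_eq_mk_rep ℂ _ h1
      have h3 : (a • g w : Fin (m + 1) → ℂ) = (a : ℂ) • g w := rfl
      rw [← h2, h3] at ha
      have h4 : mapBy Q (f' w).rep = (a : ℂ) ^ e • mapBy Q (g w) := by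
        rw [← ha, Pool.Agent.H721.SE.mapBy_smul he]
      have h5 : mapBy Q (g w) ≠ 0 := by
        intro h6
        rw [h6, smul_zero] at h4
        exact hne w hw.2 h4
      refine ⟨h5, ?_⟩
      rw [hfe w hw.2, Projectivization.mk_eq_mk_iff']
      exact ⟨(a : ℂ) ^ e, h4.symm⟩
  · intro z hz
    obtain ⟨c, hc0, hc⟩ := hover z hz
    have h1 := cone_smulF hF (hC.map _ (hf'F z hz)).1 (inv_ne_zero hc0)
    rw [hc, smul_smul, inv_mul_cancel₀ hc0, one_smul] at h1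
    exact h1
  · obtain ⟨c, -, hc⟩ := hover z hz
    exact ⟨c, hc⟩

theorem holMapOn_univ {f : ℂ → ℙ ℂ (Fin (n + 1) → ℂ)} : HolMapOn univ f ↔ HolMap f :=
  ⟨fun h z => h z (mem_univ z), fun h z _ => h z⟩

/-- the theorem on entire curves and finite unramified coverings -/
theorem etale_ent (hF' : ∀ i, IsForm (F' i)) (hF : ∀ i, IsForm (F i)) (hC : EtaleCovering F F' Q)
    {S : Set (ℂ → ℙ ℂ (Fin (m + 1) → ℂ))} {k : ℕ} (hS : S.Finite)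
    (hSm : ∀ g ∈ S, HolIn F' g ∧ ∀ l ∈ L.lattice, ∀ z, g (z + k * l) = g z)
    (hmain : ∀ f, HolIn F' f → (∀ z w, f z = f w) ∨ (∃ b ∈ B, ∀ z, α' (f z).rep = b) ∨
      ∃ g ∈ S, ∃ φ : ℂ → ℂ, Differentiable ℂ φ ∧ ∀ z, f z = g (φ z)) :
    ∃ S₁ : Set (ℂ → ℙ ℂ (Fin (n + 1) → ℂ)), S₁.Finite ∧
      (∀ g₁ ∈ S₁, HolIn F g₁ ∧ (∀ l ∈ L.lattice, ∀ z, g₁ (z + k * l) = g₁ z) ∧
        ∃ g ∈ S, ∀ z, ∃ c : ℂ, mapBy Q (g z).rep = c • (g₁ z).rep) ∧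
      ∀ f, HolIn F f → (∀ z w, f z = f w) ∨
        (∃ b ∈ B, ∀ z, ∃ x ∈ Cone F', α' x = b ∧ ∃ c : ℂ, mapBy Q x = c • (f z).rep) ∨
        ∃ g₁ ∈ S₁, ∃ φ : ℂ → ℂ, Differentiable ℂ φ ∧ ∀ z, f z = g₁ (φ z) := by
  classical
  have hpush : ∀ g ∈ S, ∃ g₁ : ℂ → ℙ ℂ (Fin (n + 1) → ℂ), HolIn F g₁ ∧
      ∀ z, ∃ c : ℂ, mapBy Q (g z).rep = c • (g₁ z).rep := by
    intro g hg
    obtain ⟨g₁, h1, h2, h3⟩ := etale_push hF' hC hF isOpen_univ
      (holMapOn_univ.2 (hSm g hg).1.1) (fun z _ => (hSm g hg).1.2 z)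
    exact ⟨g₁, ⟨holMapOn_univ.1 h1, fun z => h2 z (mem_univ z)⟩, fun z => h3 z (mem_univ z)⟩
  choose! π hπ1 hπ2 using hpush
  refine ⟨π '' S, hS.image _, ?_, ?_⟩
  · rintro _ ⟨g, hg, rfl⟩
    refine ⟨hπ1 g hg, fun l hl z => ?_, g, hg, hπ2 g hg⟩
    refine over_unique hC ((hSm g hg).1.2 z) ?_ (hπ2 g hg z)
    rw [← (hSm g hg).2 l hl z]
    exact hπ2 g hg _
  · intro f hf
    obtain ⟨p0, hp0, h0⟩ := etale_onto hC (p := f 0) hF' (hf.2 0)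
    obtain ⟨f', h1, h2, -, h4⟩ := etale_lift hF' hF hC isOpen_univ convex_univ
      (holMapOn_univ.2 hf.1) (fun z _ => hf.2 z) (mem_univ (0 : ℂ)) hp0 h0
    have hf' : HolIn F' f' := ⟨holMapOn_univ.1 h1, fun z => h2 z (mem_univ z)⟩
    rcases hmain f' hf' with h5 | ⟨b, hb, h5⟩ | ⟨g, hg, φ, hφ, h5⟩
    · left
      intro z w
      refine over_unique hC (hf'.2 z) (h4 z (mem_univ z)) ?_
      rw [h5 z w]
      exact h4 w (mem_univ w)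
    · right
      left
      exact ⟨b, hb, fun z => ⟨(f' z).rep, hf'.2 z, h5 z, h4 z (mem_univ z)⟩⟩
    · right
      right
      refine ⟨π g, ⟨g, hg, rfl⟩, φ, hφ, fun z => ?_⟩
      refine over_unique hC (hf'.2 z) (h4 z (mem_univ z)) ?_
      rw [h5 z]
      exact hπ2 g hg _

end Pool.Agent.H918.SS
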