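import Pool.Agent.H918.E.LF

/-! Limits of curves in the covering. -/

set_option autoImplicit false

open Filter Topology Metric Set

namespace Pool.Agent.H918.SS

open Pool.Agent.Y190.OP Pool.Agent.N155 Pool.Agent.N154.GG

variable {N M : ℕ} {T : Set (Mat N)} {Λ : AddSubgroup ℂ} {a : Mat N → ℂ} {T' : Set (Mat M)}
  {a' : Mat M → ℂ} {p : Mat M → Mat N} {𝔅 : Set ℂ} {δ : ℝ} {κ : Type}
  {η : κ → (Fin M → ℂ) → (Fin M → ℂ) → ℂ}

namespace FibLCov734

/-- the lift of a disc which avoids the bad fibres -/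
theorem lift_dsc (hT' : TD T' Λ a') (hb : Bd Λ 𝔅 δ) (hc : Cov T Λ a T' a' 𝔅 p) {L : ℝ}
    {H : ℂ → Mat N} {Φ : ℂ → ℂ} (hD : Dsc T Λ a 0 L H Φ) (hav : ∀ t ∈ ball (0 : ℂ) L, Φ t ∉ 𝔅) :
    ∃ H' : ℂ → Mat M, Dsc T' Λ a' 0 L H' Φ ∧ ∀ z ∈ ball (0 : ℂ) L, p (H' z) = H z := by
  rcases le_or_gt L 0 with hL | hL
  · have he : ball (0 : ℂ) L = ∅ := ball_eq_empty.2 hL
    refine ⟨fun _ => 0, ⟨fun z hz => ?_, fun z hz => ?_, hD.dif, fun z hz => ?_⟩, fun z hz => ?_⟩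
    all_goals
      rw [he] at hz
      exact absurd hz (notMem_empty z)
  · have hava : ∀ z ∈ ball (0 : ℂ) L, a (H z) ∉ 𝔅 := by
      intro z hz hbad
      have h1 := hb.inv _ hbad _ (hD.ov z hz)
      rw [add_sub_cancel] at h1
      exact hav z hz h1
    have h0 : (0 : ℂ) ∈ ball (0 : ℂ) L := mem_ball_self hL
    obtain ⟨x0, hx0, hpx0⟩ := hc.surj (H 0) (hD.mem 0 h0) (hava 0 h0)
    obtain ⟨P', hP', hPT', hpP', -⟩ := hc.lift hb hT'.comp isOpen_ball (convex_ball 0 L) hD.hol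
      hD.mem hava h0 hx0 hpx0
    refine ⟨P', ⟨hP', hPT', hD.dif, fun z hz => ?_⟩, hpP'⟩
    have h2 := hc.ovr (P' z) (hPT' z hz)
    rw [hpP' z hz] at h2
    have h3 := Λ.sub_mem (hD.ov z hz) h2
    have e : Φ z - a (H z) - (a' (P' z) - a (H z)) = Φ z - a' (P' z) := by ring
    rwa [e] at h3

end FibLCov734

/-- FIBL -/
theorem fibL_of_cov (hT : TD T Λ a) (hT' : TD T' Λ a') (hb : Bd Λ 𝔅 δ)
    (hc : Cov T Λ a T' a' 𝔅 p) (hf : FibL T' Λ a' 𝔅) : FibL T Λ a 𝔅 := by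
  classical
  intro H Φ G c hD hav hΦ hG hGT ho hHG
  have _ := hT
  set 𝓤 : Ultrafilter ℕ := hyperfilter ℕ with h𝓤
  -- the radii
  let Good : ℕ → ℕ → Prop := fun n k => Dsc T Λ a 0 (k : ℝ) (H n) (Φ n) ∧
    ∀ t ∈ ball (0 : ℂ) (k : ℝ), Φ n t ∉ 𝔅
  have hG0 : ∀ n, Good n 0 := by
    intro n
    have he : ball (0 : ℂ) ((0 : ℕ) : ℝ) = ∅ := ball_eq_empty.2 (by simp)
    refine ⟨⟨fun z hz => ?_, fun z hz => ?_, ?_, fun z hz => ?_⟩, fun z hz => ?_⟩
    · rw [he] at hz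
      exact absurd hz (notMem_empty z)
    · rw [he] at hz
      exact absurd hz (notMem_empty z)
    · rw [he]
      exact differentiableOn_empty
    · rw [he] at hz
      exact absurd hz (notMem_empty z)
    · rw [he] at hz
      exact absurd hz (notMem_empty z)
  obtain ⟨L, hL⟩ : ∃ L : ℕ → ℕ, L = fun n => Nat.findGreatest (Good n) n := ⟨_, rfl⟩
  have hLG : ∀ n, Good n (L n) := by
    intro n
    rw [hL]
    exact Nat.findGreatest_spec (P := Good n) (Nat.zero_le n) (hG0 n)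
  have hLk : ∀ R : ℝ, ∀ᶠ n in (𝓤 : Filter ℕ), R ≤ (L n : ℝ) := by
    intro R
    obtain ⟨k, hk⟩ := exists_nat_ge R
    filter_upwards [hD k, hav k, hyper_ge (k : ℝ)] with n h1 h2 h3
    have h4 : k ≤ L n := by
      rw [hL]
      exact Nat.le_findGreatest (by exact_mod_cast h3) ⟨h1, h2⟩
    exact hk.trans (by exact_mod_cast h4)
  choose H' hD' hpH' using fun n => FibLCov734.lift_dsc hT' hb hc (hLG n).1 (hLG n).2
  have hDL : ∀ R : ℝ, ∀ᶠ n in (𝓤 : Filter ℕ), Dsc T' Λ a' 0 R (H' n) (Φ n) := by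
    intro R
    filter_upwards [hLk R] with n hn
    exact (hD' n).mono (ball_subset_ball hn)
  have hpz : ∀ z : ℂ, ∀ᶠ n in (𝓤 : Filter ℕ), p (H' n z) = H n z := by
    intro z
    filter_upwards [hLk (‖z‖ + 1)] with n hn
    exact hpH' n z (mem_ball_zero_iff.2 (by linarith))
  -- the gradients
  obtain ⟨C, hC, hgr⟩ := grad_free hT' hb hf
  obtain ⟨G', hG', hGT', hGc', -⟩ := exists_limit_loc_l hT'.comp hT'.sub (𝓤 := 𝓤) (h := H')
    (fun R => (hDL R).mono fun _ h => h.hol) (fun R => (hDL R).mono fun _ h => h.mem) (by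
      intro R
      refine ⟨C / 1, ?_⟩
      have hu := CConv.unif isOpen_univ hΦ (isCompact_closedBall (0 : ℂ) (R + 1))
        (subset_univ _) one_pos
      filter_upwards [hDL (R + 1), hav (R + 1), hu] with n h1 h2 h3 z hz
      have hs : ball z 1 ⊆ ball (0 : ℂ) (R + 1) := by
        intro x hx
        rw [mem_ball, dist_eq_norm] at hx
        rw [mem_ball_zero_iff] at hz ⊢
        have := norm_add_le (x - z) z
        rw [sub_add_cancel] at this
        linarith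
      refine hgr (H' n) (Φ n) z 1 c one_pos (h1.mono hs) (fun w hw => ?_) fun w hw => h2 w (hs hw)
      exact (h3 w (ball_subset_closedBall (hs hw))).le)
  have hover : Over Λ a' G' (fun _ => c) := by
    intro z
    have hz : ∀ᶠ n in (𝓤 : Filter ℕ), H' n z ∈ T' ∧ Φ n z - a' (H' n z) ∈ Λ := by
      filter_upwards [hDL (‖z‖ + 1)] with n hn
      have hzb : z ∈ ball (0 : ℂ) (‖z‖ + 1) := mem_ball_zero_iff.2 (by linarith)
      exact ⟨hn.mem z hzb, hn.ov z hzb⟩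
    exact hT'.lim (l := (𝓤 : Filter ℕ)) (hz.mono fun _ h => h.1)
      (hGc'.pointwise (mem_univ z)) (hGT' z) (hz.mono fun _ h => h.2)
      (hΦ.pointwise (mem_univ z))
  have hconst := hf H' Φ G' c hDL hav hΦ hG' hGT' hover hGc'
  -- the projection
  have hpG : ∀ z, G z = p (G' z) := by
    intro z
    have h1 : Tendsto (fun n => H' n z) 𝓤 (𝓝[T'] (G' z)) := by
      rw [tendsto_nhdsWithin_iff]
      refine ⟨hGc'.pointwise (mem_univ z), ?_⟩
      filter_upwards [hDL (‖z‖ + 1)] with n hn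
      exact hn.mem z (mem_ball_zero_iff.2 (by linarith))
    have h2 : Tendsto (fun n => p (H' n z)) 𝓤 (𝓝 (p (G' z))) := (hc.cont (G' z) (hGT' z)).tendsto.comp h1
    have h3 : Tendsto (fun n => H n z) 𝓤 (𝓝 (p (G' z))) := h2.congr' (hpz z)
    exact tendsto_nhds_unique (hHG.pointwise (mem_univ z)) h3
  intro z
  rw [hpG z, hpG 0, hconst z]

end Pool.Agent.H918.SS
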