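import Pool.Agent.H918.E.Rf
import Pool.Agent.H918.E.Covg
import Pool.Agent.H918.E.Lfg

/-! Finiteness of preimages on matrices (helper376). -/

set_option autoImplicit false

open Filter Topology Metric Set LinearAlgebra.Projectivization

namespace Pool.Agent.H918.SS

open FF Pool.Agent.Y190.OP Pool.Agent.W602.GT Pool.Agent.N154.GG
open Pool.Agent.N155 (TX isCompact_TX TX_PM exists_shift nz nz_Phi)

variable {m n : ℕ} {ι ι' : Type} {F : ι → MvPolynomial (Fin (n + 1)) ℂ}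
  {F' : ι' → MvPolynomial (Fin (m + 1)) ℂ} {L : PeriodPair}
  {α : (Fin (n + 1) → ℂ) → ℂ ⧸ L.lattice} {α' : (Fin (m + 1) → ℂ) → ℂ ⧸ L.lattice}
  {Q : Fin (n + 1) → MvPolynomial (Fin (m + 1)) ℂ} {κ : Type}
  {η : κ → (Fin (m + 1) → ℂ) → (Fin (m + 1) → ℂ) → ℂ} {B : Set (ℂ ⧸ L.lattice)}

/-- SE-FINS. The map `x ↦ toProj x` is injective on `TF F'` (`x = Phi (toProj x).rep`), its values are
in the given finite set: `pM Q x = Phi (mapBy Q (toProj x).rep)`, and `Phi u = Phi s` with `u ≠ 0`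
implies `u = c • s` for a number `c`. -/
theorem fins_of (hF' : ∀ i, IsForm (F' i)) (hC : CoveringOff F F' α α' B Q)
    {S : Set (Fin (n + 1) → ℂ)} (hS : {q : ℙ ℂ (Fin (m + 1) → ℂ) | q.rep ∈ Cone F' ∧
      ∃ s ∈ S, ∃ c : ℂ, mapBy Q q.rep = c • s}.Finite) :
    {x | x ∈ TF F' ∧ pM Q x ∈ Phi '' S}.Finite := by
  refine Set.Finite.of_injOn (f := toProj) ?_ ?_ hS
  · rintro x ⟨hx, s, hs, hxs⟩
    have h1 := rep_toProjF hF' hx
    have h2 : pM Q x = Phi (mapBy Q (toProj x).rep) := rfl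
    rw [h2] at hxs
    have h3 : mapBy Q (toProj x).rep ≠ 0 := (hC.map _ h1).1.1
    have hs0 : s ≠ 0 := by
      rintro rfl
      obtain ⟨i, hi⟩ := Function.ne_iff.1 h3
      apply (Phi_diag_ne h3).2 hi
      rw [← hxs]
      change (0 : Fin (n + 1) → ℂ) i * _ / _ = 0
      rw [Pi.zero_apply, zero_mul, zero_div]
    obtain ⟨c, -, hc⟩ := Phi_inj hs0 h3 hxs
    exact ⟨h1, s, hs, c, hc⟩
  · intro x hx x' hx' h
    have h1 := Phi_rep_toProj (TF_PM hx.1)
    have h2 := Phi_rep_toProj (TF_PM hx'.1)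
    rw [← h1, ← h2, h]

end Pool.Agent.H918.SS
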