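import Pool.Agent.H918.E.Rf
import Pool.Agent.H918.E.Covg
import Pool.Agent.H918.E.Lfg

/-! Task SE-RAM of helper918, written by helper946. -/

set_option autoImplicit false

open Filter Topology Metric Set LinearAlgebra.Projectivization

namespace Pool.Agent.H918.SS

open FF Pool.Agent.Y190.OP Pool.Agent.W602.GT Pool.Agent.N154.GG
open Pool.Agent.N155 (TX isCompact_TX TX_PM exists_shift nz nz_Phi)

variable {m n : ℕ} {ι ι' : Type} {F : ι → MvPolynomial (Fin (n + 1)) ℂ}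
  {F' : ι' → MvPolynomial (Fin (m + 1)) ℂ} {L : PeriodPair}
  {α : (Fin (n + 1) → ℂ) → ℂ ⧸ L.lattice} {α' : (Fin (m + 1) → ℂ) → ℂ ⧸ L.lattice}
  {Q : Fin (n + 1) → MvPolynomial (Fin (m + 1)) ℂ} {κ : Type}
  {η : κ → (Fin (m + 1) → ℂ) → (Fin (m + 1) → ℂ) → ℂ} {B : Set (ℂ ⧸ L.lattice)}

/-- SE-RAM. -/
theorem ram_of (hF : ∀ i, IsForm (F i)) (hα : HolToTorus (Cone F) L α) {b0 : ℂ}
    {S : Set (Fin (n + 1) → ℂ)}
    (hM : MultipleOutside (Cone F) L α (Submodule.Quotient.mk b0) S)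
    {R : ℂ → Mat (n + 1)} {ω : ℂ → ℂ} {U : Set ℂ} {t0 : ℂ} (hU : IsOpen U) (ht0 : t0 ∈ U)
    (hR : HolP U R) (hRT : ∀ t ∈ U, R t ∈ TF F ∧ ω t - aM L α F (R t) ∈ La L)
    (hω : DifferentiableOn ℂ ω U) (h0 : ω t0 = b0) (hd : deriv ω t0 ≠ 0) : R t0 ∈ Phi '' S := by
  obtain ⟨i, hi⟩ := PM.exists_diag (TF_PM (hRT t0 ht0).1)
  have hxC : chart i (R t0) ∈ Cone F := chart_coneF hF (hRT t0 ht0).1 hi
  have hαx : α (chart i (R t0)) = Submodule.Quotient.mk b0 := by
    rw [← aM_chartF hF hα (hRT t0 ht0).1 hi, ← h0]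
    exact (mem_La_iff.1 (hRT t0 ht0).2).symm
  by_cases hS : ∃ s ∈ S, ∃ c : ℂ, chart i (R t0) = c • s
  · obtain ⟨s, hs, c, hc⟩ := hS
    have hc0 : c ≠ 0 := by
      rintro rfl
      rw [zero_smul] at hc
      exact PM.chart_ne hi hc
    refine ⟨s, hs, ?_⟩
    rw [← PM.Phi_chart (TF_PM (hRT t0 ht0).1) hi, hc, Phi_smul hc0]
  · exfalso
    obtain ⟨e, b, w, he, hw, hw0, hev⟩ := hM _ hxC hαx fun s hs c hc => hS ⟨s, hs, c, hc⟩
    have hdc : DifferentiableAt ℂ (fun t => chart i (R t)) t0 := hR.diff_chart ht0 hi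
    have hcc : ContinuousAt (fun t => chart i (R t)) t0 := hdc.continuousAt
    have hRi : ∀ᶠ t in 𝓝 t0, R t i i ≠ 0 :=
      ((continuous_apply_apply (ρ := fun (_ : Fin (n + 1)) (_ : Fin (n + 1)) => ℂ) i
        i).continuousAt.comp (hR.continuousAt ht0)).eventually_ne hi
    have hwd : DifferentiableAt ℂ (fun t => w (chart i (R t))) t0 :=
      DifferentiableAt.fun_comp' t0 hw.differentiableAt hdc
    have hωd : DifferentiableAt ℂ ω t0 := (hω t0 ht0).differentiableAt (hU.mem_nhds ht0)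
    have hder2 : HasDerivAt (fun t => b + w (chart i (R t)) ^ e) 0 t0 := by
      have h1 := (hwd.hasDerivAt.fun_pow e).const_add b
      have h2 : (e : ℂ) * w (chart i (R t0)) ^ (e - 1) * deriv (fun t => w (chart i (R t))) t0 = 0 := by
        rw [hw0, zero_pow (by omega), mul_zero, zero_mul]
      rwa [h2] at h1
    have hfc : ContinuousAt (fun t => ω t - (b + w (chart i (R t)) ^ e)) t0 :=
      hωd.continuousAt.sub hder2.continuousAt
    have hfΛ : ∀ᶠ t in 𝓝 t0, ω t - (b + w (chart i (R t)) ^ e) ∈ La L := by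
      filter_upwards [hU.mem_nhds ht0, hRi, hcc.eventually hev] with t h1 h2 h3
      rw [mem_La_iff, ← h3 (chart_coneF hF (hRT t h1).1 h2), ← aM_chartF hF hα (hRT t h1).1 h2]
      exact mem_La_iff.1 (hRT t h1).2
    have hconst := (tdF hF hα).ev_const hfc hfΛ
    have hder : HasDerivAt (fun t => ω t - (b + w (chart i (R t)) ^ e)) 0 t0 :=
      (hasDerivAt_const t0 _).congr_of_eventuallyEq hconst
    have h3 : HasDerivAt ω 0 t0 := by
      have h4 := hder.fun_add hder2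
      rw [add_zero] at h4
      refine h4.congr_of_eventuallyEq (Filter.Eventually.of_forall fun t => ?_)
      change ω t = ω t - (b + w (chart i (R t)) ^ e) + (b + w (chart i (R t)) ^ e)
      ring
    exact hd h3.deriv

end Pool.Agent.H918.SS
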