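import Pool.Agent.H918.E.Push

/-! TPIC (by helper357): transfer of the big Picard theorem. -/

set_option autoImplicit false

open Filter Topology Metric Set LinearAlgebra.Projectivization

namespace Pool.Agent.H918.SS

open FF Pool.Agent.Y190.OP Pool.Agent.W602.GT Pool.Agent.N154.GG
open Pool.Agent.N155 (TX isCompact_TX TX_PM exists_shift nz nz_Phi)

variable {m n : ℕ} {ι ι' : Type} {F : ι → MvPolynomial (Fin (n + 1)) ℂ}
  {F' : ι' → MvPolynomial (Fin (m + 1)) ℂ} {L : PeriodPair}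
  {α : (Fin (n + 1) → ℂ) → ℂ ⧸ L.lattice} {α' : (Fin (m + 1) → ℂ) → ℂ ⧸ L.lattice}
  {B : Set (ℂ ⧸ L.lattice)} {ρ : (Fin (m + 1) → ℂ) → Fin (n + 1) → ℂ}

namespace TPIC357

theorem mapBy_smul {W : Fin (n + 1) → MvPolynomial (Fin (m + 1)) ℂ} {e : ℕ}
    (hW : ∀ j, (W j).IsHomogeneous e) (c : ℂ) (u : Fin (m + 1) → ℂ) :
    mapBy W (c • u) = c ^ e • mapBy W u := by
  funext j
  change val (c • u) (W j) = c ^ e * val u (W j)
  rw [Pool.Agent.N155.val_eval, Pool.Agent.N155.eval_smul (hW j), ← Pool.Agent.N155.val_eval]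

/-- the inverse map -/
theorem exists_inv (hI : IsoOff F' F α' α B ρ) :
    ∃ ρ' : (Fin (n + 1) → ℂ) → Fin (m + 1) → ℂ,
      (∀ u ∈ Cone F, α u ∉ B → ρ' u ∈ Cone F' ∧ α' (ρ' u) = α u) ∧
      (∀ u ∈ Cone F, α u ∉ B → ∃ W : Fin (m + 1) → MvPolynomial (Fin (n + 1)) ℂ,
        (∃ e : ℕ, ∀ j, (W j).IsHomogeneous e) ∧ mapBy W u ≠ 0 ∧
        ∀ u' ∈ Cone F, α u' ∉ B → ∃ c : ℂ, mapBy W u' = c • ρ' u') ∧
      ∀ x ∈ Cone F', α' x ∉ B → ∀ u ∈ Cone F, α u ∉ B → (∃ c : ℂ, u = c • ρ x) →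
        ∃ c : ℂ, ρ' u = c • x := by
  classical
  have h : ∀ u : Fin (n + 1) → ℂ, ∃ x : Fin (m + 1) → ℂ, u ∈ Cone F → α u ∉ B →
      (x ∈ Cone F' ∧ α' x = α u ∧ (∃ c : ℂ, u = c • ρ x) ∧
      ∃ W : Fin (m + 1) → MvPolynomial (Fin (n + 1)) ℂ, (∃ e : ℕ, ∀ j, (W j).IsHomogeneous e) ∧
      mapBy W u ≠ 0 ∧ ∀ x' ∈ Cone F', α' x' ∉ B → ∃ c : ℂ, mapBy W (ρ x') = c • x') := by
    intro u
    by_cases hu : u ∈ Cone F ∧ α u ∉ B
    · obtain ⟨x, hx⟩ := hI.inverse u hu.1 hu.2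
      exact ⟨x, fun _ _ => hx⟩
    · exact ⟨0, fun h1 h2 => absurd ⟨h1, h2⟩ hu⟩
  choose ρ' hρ' using h
  refine ⟨ρ', fun u hu hub => ?_, fun u hu hub => ?_, fun x hx hxb u hu hub ⟨c, hc⟩ => ?_⟩
  · obtain ⟨h1, h2, -, -⟩ := hρ' u hu hub
    exact ⟨h1, h2⟩
  · obtain ⟨-, -, -, W, ⟨e, hW⟩, hW0, hW'⟩ := hρ' u hu hub
    refine ⟨W, ⟨e, hW⟩, hW0, fun u' hu' hub' => ?_⟩
    obtain ⟨h1, h2, ⟨c', hc'⟩, -⟩ := hρ' u' hu' hub'
    obtain ⟨c'', hc''⟩ := hW' (ρ' u') h1 (by rw [h2]; exact hub')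
    refine ⟨c' ^ e * c'', ?_⟩
    conv_lhs => rw [hc']
    rw [mapBy_smul hW, hc'', smul_smul]
  · obtain ⟨h1, h2, ⟨c1, hc1⟩, W, ⟨e, hW⟩, hW0, hW'⟩ := hρ' u hu hub
    obtain ⟨c2, hc2⟩ := hW' x hx hxb
    obtain ⟨c3, hc3⟩ := hW' (ρ' u) h1 (by rw [h2]; exact hub)
    have e1 : mapBy W u = (c ^ e * c2) • x := by
      conv_lhs => rw [hc]
      rw [mapBy_smul hW, hc2, smul_smul]
    have e2 : mapBy W u = (c1 ^ e * c3) • ρ' u := by
      conv_lhs => rw [hc1]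
      rw [mapBy_smul hW, hc3, smul_smul]
    have hne : c1 ^ e * c3 ≠ 0 := by
      intro h0
      rw [h0, zero_smul] at e2
      exact hW0 e2
    refine ⟨(c1 ^ e * c3)⁻¹ * (c ^ e * c2), ?_⟩
    rw [← smul_smul, ← e1, e2, smul_smul, inv_mul_cancel₀ hne, one_smul]

/-- near every point a curve is in one fibre over `B`, or the bad points are isolated -/
theorem bad_local (hF : ∀ i, IsForm (F i)) (hα : HolToTorus (Cone F) L α) (hB : B.Finite)
    {U : Set ℂ} {f : ℂ → ℙ ℂ (Fin (n + 1) → ℂ)} (hU : IsOpen U) (hf : HolMapOn U f)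
    (hfF : ∀ z ∈ U, (f z).rep ∈ Cone F) {z0 : ℂ} (hz0 : z0 ∈ U) :
    (∃ b ∈ B, ∀ᶠ z in 𝓝 z0, α (f z).rep = b) ∨ ∀ᶠ z in 𝓝[≠] z0, α (f z).rep ∉ B := by
  classical
  obtain ⟨V, G, hV, hzV, hG, hfG⟩ := hf z0 hz0
  have hcone : ∀ z ∈ V ∩ U, G z ∈ Cone F ∧ α (f z).rep = α (G z) := by
    rintro z ⟨hz1, hz2⟩
    obtain ⟨h0, he⟩ := hfG z hz1
    obtain ⟨c, hc, h1⟩ := rep_mk h0
    rw [← he] at h1
    have h2 : G z = c⁻¹ • (f z).rep := by
      rw [h1, smul_smul, inv_mul_cancel₀ hc, one_smul]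
    have h3 : G z ∈ Cone F := by
      rw [h2]
      exact cone_smulF hF (hfF z hz2) (inv_ne_zero hc)
    refine ⟨h3, ?_⟩
    rw [h1]
    exact hα.homog _ h3 c hc
  obtain ⟨w, hw, hwe⟩ := hα.hol (G z0) (hcone z0 ⟨hzV, hz0⟩).1
  have hGan : AnalyticAt ℂ G z0 := hG.analyticAt (hV.mem_nhds hzV)
  set a : ℂ → ℂ := fun z => w (G z) with ha
  have haan : AnalyticAt ℂ a z0 := hw.comp hGan
  have hev : ∀ᶠ z in 𝓝 z0, α (f z).rep = Submodule.Quotient.mk (a z) := by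
    filter_upwards [hGan.continuousAt.eventually hwe, (hV.inter hU).mem_nhds ⟨hzV, hz0⟩] with z h1 h2
    obtain ⟨h3, h4⟩ := hcone z h2
    rw [h4]
    exact h1 h3
  obtain ⟨δ, hδ, hd⟩ := (tdF hF hα).disc
  have hone : ∀ b : ℂ ⧸ L.lattice, (∀ᶠ z in 𝓝 z0, α (f z).rep = b) ∨
      ∀ᶠ z in 𝓝[≠] z0, α (f z).rep ≠ b := by
    intro b
    obtain ⟨β, rfl⟩ := Submodule.Quotient.mk_surjective _ b
    by_cases hfr : ∃ᶠ z in 𝓝[≠] z0, a z - β ∈ La L
    · left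
      have hcl : ∀ᶠ z in 𝓝 z0, ‖a z - a z0‖ < δ / 2 := by
        have h1 := Metric.tendsto_nhds.1 haan.continuousAt (δ / 2) (by positivity)
        filter_upwards [h1] with z hz
        rwa [dist_eq_norm] at hz
      obtain ⟨z1, hz1, hz1'⟩ := (hfr.and_eventually (nhdsWithin_le_nhds hcl)).exists
      have heq : ∃ᶠ z in 𝓝[≠] z0, a z = a z1 := by
        refine (hfr.and_eventually (nhdsWithin_le_nhds hcl)).mono ?_
        rintro z ⟨h1, h2⟩
        have h3 := (La L).sub_mem h1 hz1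
        have h4 : a z - β - (a z1 - β) = (a z - a z0) - (a z1 - a z0) := by ring
        have h5 : ‖a z - β - (a z1 - β)‖ < δ := by
          rw [h4]
          refine (norm_sub_le _ _).trans_lt ?_
          linarith
        have h6 := hd _ h3 h5
        linear_combination h6
      have h7 := (haan.frequently_eq_iff_eventually_eq analyticAt_const).1 heq
      filter_upwards [hev, h7] with z h8 h9
      rw [h8, h9]
      exact mem_La_iff.1 hz1
    · right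
      rw [not_frequently] at hfr
      filter_upwards [hfr, nhdsWithin_le_nhds hev] with z h1 h2 h3
      rw [h2] at h3
      exact h1 (mem_La_iff.2 h3)
  by_cases hcase : ∃ b ∈ B, ∀ᶠ z in 𝓝 z0, α (f z).rep = b
  · exact Or.inl hcase
  · right
    have h1 : ∀ b ∈ B, ∀ᶠ z in 𝓝[≠] z0, α (f z).rep ≠ b := fun b hb =>
      (hone b).resolve_left fun h => hcase ⟨b, hb, h⟩
    have h2 := (Filter.eventually_all_finite hB).2 h1
    filter_upwards [h2] with z hz hzB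
    exact hz _ hzB rfl

/-- a curve which is not in a fibre over `B` -/
theorem bad_isolated (hF : ∀ i, IsForm (F i)) (hα : HolToTorus (Cone F) L α) (hB : B.Finite)
    {U : Set ℂ} {f : ℂ → ℙ ℂ (Fin (n + 1) → ℂ)} (hU : IsOpen U) (hUc : IsPreconnected U)
    (hf : HolMapOn U f) (hfF : ∀ z ∈ U, (f z).rep ∈ Cone F)
    (hnb : ¬ ∃ b ∈ B, ∀ z ∈ U, α (f z).rep = b) {z0 : ℂ} (hz0 : z0 ∈ U) :
    ∀ᶠ z in 𝓝[≠] z0, α (f z).rep ∉ B := by
  rcases bad_local hF hα hB hU hf hfF hz0 with ⟨b, hb, h1⟩ | h1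
  · exfalso
    apply hnb
    refine ⟨b, hb, ?_⟩
    have h2 : U ⊆ {z | ∀ᶠ w in 𝓝 z, α (f w).rep = b} := by
      refine hUc.subset_of_closure_inter_subset isOpen_setOfPred_eventually_nhds ⟨z0, hz0, h1⟩ ?_
      rintro z ⟨hz, hzU⟩
      rcases bad_local hF hα hB hU hf hfF hzU with ⟨b', hb', h3⟩ | h3
      · obtain ⟨V, hVs, hV, hzV⟩ := _root_.mem_nhds_iff.1 h3
        obtain ⟨w, hw1, hw2⟩ := mem_closure_iff_nhds.1 hz V (hV.mem_nhds hzV)
        have h4 : b = b' := by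
          rw [← hw2.self_of_nhds]
          exact hVs hw1
        rw [h4]
        exact h3
      · rw [eventually_nhdsWithin_iff] at h3
        obtain ⟨w, hw1, hw2⟩ := mem_closure_iff_nhds.1 hz _ h3
        by_cases hwz : w = z
        · rw [← hwz]
          exact hw2
        · exfalso
          refine hw1 hwz ?_
          rw [hw2.self_of_nhds]
          exact hb
    exact fun z hz => (h2 hz).self_of_nhds
  · exact h1

theorem proj_eq_of_smul {p q : ℙ ℂ (Fin (n + 1) → ℂ)} {c : ℂ} (h : p.rep = c • q.rep) : p = q := by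
  rw [← p.mk_rep, ← q.mk_rep, Projectivization.mk_eq_mk_iff']
  exact ⟨c, h.symm⟩

theorem eq_of_punct {P Q : ℂ → Mat (n + 1)} {z : ℂ} (hP : ContinuousAt P z)
    (hQ : ContinuousAt Q z) (h : ∀ᶠ w in 𝓝[≠] z, P w = Q w) : P z = Q z := by
  have h1 : Tendsto P (𝓝[≠] z) (𝓝 (P z)) := hP.tendsto.mono_left nhdsWithin_le_nhds
  have h2 : Tendsto Q (𝓝[≠] z) (𝓝 (Q z)) := hQ.tendsto.mono_left nhdsWithin_le_nhds
  exact tendsto_nhds_unique (h1.congr' h) h2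

theorem isPreconnected_PDisc : IsPreconnected PDisc := by
  have h1 : PDisc = Complex.exp '' {z : ℂ | z.re < 0} := by
    ext z
    constructor
    · intro hz
      obtain ⟨h2, h3⟩ := log_mem_HP hz
      exact ⟨Complex.log z, h2, h3⟩
    · rintro ⟨w, hw, rfl⟩
      exact exp_mem_PDisc hw
  rw [h1]
  exact ((convex_halfSpace_re_lt 0).isPreconnected).image _ Complex.continuous_exp.continuousOn

end TPIC357

open TPIC357 in
/-- TPIC: punctured discs -/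
theorem transfer_pic (hF' : ∀ i, IsForm (F' i)) (hF : ∀ i, IsForm (F i))
    (hα' : HolToTorus (Cone F') L α') (hα : HolToTorus (Cone F) L α) (hB : B.Finite)
    (hI : IsoOff F' F α' α B ρ) {S : Set (ℂ → ℙ ℂ (Fin (n + 1) → ℂ))} (hS : S.Finite)
    (hSm : ∀ g ∈ S, HolIn F g ∧ ∀ z, α (g z).rep = Submodule.Quotient.mk z)
    (hmain : ∀ f, PunctIn F f → Extends F f ∨ (∃ b ∈ B, ∀ z ∈ PDisc, α (f z).rep = b) ∨
        ∃ g ∈ S, ∃ φ : ℂ → ℂ, DifferentiableOn ℂ φ {z | z.re < 0} ∧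
          ∀ z : ℂ, z.re < 0 → f (Complex.exp z) = g (φ z)) :
    ∃ S' : Set (ℂ → ℙ ℂ (Fin (m + 1) → ℂ)), S'.Finite ∧
      (∀ g ∈ S', HolIn F' g ∧ ∀ z, α' (g z).rep = Submodule.Quotient.mk z) ∧
      (∀ f, PunctIn F' f → Extends F' f ∨ (∃ b ∈ B, ∀ z ∈ PDisc, α' (f z).rep = b) ∨
        ∃ g ∈ S', ∃ φ : ℂ → ℂ, DifferentiableOn ℂ φ {z | z.re < 0} ∧
          ∀ z : ℂ, z.re < 0 → f (Complex.exp z) = g (φ z)) := by
  classical
  obtain ⟨ρ', hm', hr', hi'⟩ := exists_inv hI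
  -- the curves of `S`
  have hpush : ∀ g : ℂ → ℙ ℂ (Fin (n + 1) → ℂ), ∃ g' : ℂ → ℙ ℂ (Fin (m + 1) → ℂ), g ∈ S →
      HolIn F' g' ∧ (∀ z, α' (g' z).rep = Submodule.Quotient.mk z) ∧
      ∀ z, α (g z).rep ∉ B → ∃ c : ℂ, (g' z).rep = c • ρ' (g z).rep := by
    intro g
    by_cases hg : g ∈ S
    · obtain ⟨hgF, hgm⟩ := hSm g hg
      have hgo : HolMapOn univ g := fun z _ => hgF.1 z
      have hnb : ¬ ∃ b ∈ B, ∀ z ∈ (univ : Set ℂ), α (g z).rep = b := by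
        rintro ⟨b, -, h⟩
        obtain ⟨z, w, hzw⟩ := not_mk_const L
        apply hzw
        rw [← hgm z, ← hgm w, h z (mem_univ _), h w (mem_univ _)]
      have h1 := bad_isolated hF hα hB isOpen_univ isPreconnected_univ hgo
        (fun z _ => hgF.2 z) hnb (mem_univ (0 : ℂ))
      obtain ⟨z1, hz1⟩ := h1.exists
      obtain ⟨g', h2, h3, h4⟩ := push_curve (ρ := ρ') hF hF' hα hα' hB hm' hr' isOpen_univ
        isPreconnected_univ hgo (fun z _ => hgF.2 z) (mem_univ z1) hz1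
      refine ⟨g', fun _ => ⟨⟨fun z => h2 z (mem_univ z), fun z => (h3 z (mem_univ z)).1⟩,
        fun z => ?_, fun z hz => h4 z (mem_univ z) hz⟩⟩
      rw [(h3 z (mem_univ z)).2, hgm]
    · exact ⟨fun _ => Projectivization.mk ℂ _ ones_ne, fun h => absurd h hg⟩
  choose Γ hΓ using hpush
  refine ⟨Γ '' S, hS.image _, ?_, ?_⟩
  · rintro _ ⟨g, hg, rfl⟩
    exact ⟨(hΓ g hg).1, (hΓ g hg).2.1⟩
  intro f hf
  by_cases hbad : ∃ b ∈ B, ∀ z ∈ PDisc, α' (f z).rep = b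
  · exact Or.inr (Or.inl hbad)
  have hiso : ∀ z ∈ PDisc, ∀ᶠ w in 𝓝[≠] z, α' (f w).rep ∉ B := fun z hz =>
    bad_isolated hF' hα' hB isOpen_PDisc isPreconnected_PDisc hf.1 hf.2 hbad hz
  have hhalf : (1 / 2 : ℂ) ∈ PDisc := by
    refine ⟨?_, ?_⟩
    · rw [mem_ball_zero_iff]
      norm_num
    · norm_num
  obtain ⟨z1, hz1g, hz1⟩ := ((hiso _ hhalf).and
    (nhdsWithin_le_nhds (isOpen_PDisc.mem_nhds hhalf))).exists
  obtain ⟨g, hg1, hg2, hg3⟩ := push_curve (ρ := ρ) hF' hF hα' hα hB hI.map hI.regular isOpen_PDisc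
    isPreconnected_PDisc hf.1 hf.2 hz1 hz1g
  -- back to `f`
  have hback : ∀ z ∈ PDisc, α' (f z).rep ∉ B → ∃ c : ℂ, ρ' (g z).rep = c • (f z).rep := by
    intro z hz hzb
    refine hi' (f z).rep (hf.2 z hz) hzb (g z).rep (hg2 z hz).1 ?_ (hg3 z hz hzb)
    rw [(hg2 z hz).2]
    exact hzb
  have hPf : ∀ z ∈ PDisc, ContinuousAt (fun w => Phi (f w).rep) z := fun z hz =>
    (holP_of_on hf.1).continuousAt hz
  rcases hmain g ⟨hg1, fun z hz => (hg2 z hz).1⟩ with ⟨g1, hh1, hh2, hh3⟩ | ⟨b, hb, hbb⟩ |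
    ⟨g0, hg0, φ, hφ, hgφ⟩
  · -- extension
    left
    have hz1b : z1 ∈ ball (0 : ℂ) 1 := hz1.1
    have hgood1 : α (g1 z1).rep ∉ B := by
      rw [hh3 z1 hz1, (hg2 z1 hz1).2]
      exact hz1g
    obtain ⟨f1, hf1, hf2, hf3⟩ := push_curve (ρ := ρ') hF hF' hα hα' hB hm' hr' isOpen_ball
      (convex_ball (0 : ℂ) 1).isPreconnected hh1 hh2 hz1b hgood1
    refine ⟨f1, hf1, fun z hz => (hf2 z hz).1, fun z hz => ?_⟩
    apply proj_ext
    refine eq_of_punct (P := fun w => Phi (f1 w).rep) (Q := fun w => Phi (f w).rep)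
      ((holP_of_on hf1).continuousAt hz.1) (hPf z hz) ?_
    filter_upwards [hiso z hz, nhdsWithin_le_nhds (isOpen_PDisc.mem_nhds hz)] with w hw1 hw2
    have h1 : α (g1 w).rep ∉ B := by
      rw [hh3 w hw2, (hg2 w hw2).2]
      exact hw1
    obtain ⟨c, hc⟩ := hf3 w hw2.1 h1
    obtain ⟨c', hc'⟩ := hback w hw2 hw1
    rw [hh3 w hw2, hc', smul_smul] at hc
    rw [proj_eq_of_smul hc]
  · exfalso
    apply hz1g
    rw [← (hg2 z1 hz1).2, hbb z1 hz1]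
    exact hb
  · right
    right
    refine ⟨Γ g0, ⟨g0, hg0, rfl⟩, φ, hφ, fun z hz => ?_⟩
    have hHPo : IsOpen {z : ℂ | z.re < 0} := isOpen_lt Complex.continuous_re continuous_const
    have hexp : Complex.exp z ∈ PDisc := exp_mem_PDisc hz
    apply proj_ext
    refine eq_of_punct (P := fun w => Phi (f (Complex.exp w)).rep)
      (Q := fun w => Phi (Γ g0 (φ w)).rep) ?_ ?_ ?_
    · exact ContinuousAt.comp (f := Complex.exp) (hPf _ hexp) Complex.continuous_exp.continuousAt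
    · have h1 : ContinuousAt (fun w => Phi (Γ g0 w).rep) (φ z) :=
        (hp_cont (holP_of (hΓ g0 hg0).1.1)).continuousAt
      exact ContinuousAt.comp (f := φ) h1
        ((hφ z hz).differentiableAt (hHPo.mem_nhds hz)).continuousAt
    · have h2 : Tendsto Complex.exp (𝓝[≠] z) (𝓝[≠] (Complex.exp z)) :=
        (Complex.hasDerivAt_exp z).tendsto_nhdsNE (Complex.exp_ne_zero z)
      filter_upwards [h2.eventually (hiso _ hexp), nhdsWithin_le_nhds (hHPo.mem_nhds hz)]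
        with w hw1 hw2
      have hwP : Complex.exp w ∈ PDisc := exp_mem_PDisc hw2
      have h3 : α (g0 (φ w)).rep ∉ B := by
        rw [← hgφ w hw2, (hg2 _ hwP).2]
        exact hw1
      obtain ⟨c, hc⟩ := (hΓ g0 hg0).2.2 (φ w) h3
      obtain ⟨c', hc'⟩ := hback _ hwP hw1
      rw [← hgφ w hw2, hc', smul_smul] at hc
      change Phi (f (Complex.exp w)).rep = Phi (Γ g0 (φ w)).rep
      rw [proj_eq_of_smul hc]

end Pool.Agent.H918.SS
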