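import Pool.Agent.H918.E.Rg0
import Pool.Agent.H918.E.Fibl
import Pool.Agent.H918.E.Reg
import Pool.Agent.H918.E.Ram
import Pool.Agent.H918.E.Fins
import Pool.Agent.H918.E.Ent
import Pool.Agent.H918.E.Tent
import Pool.Agent.H918.E.Tpic

/-! The theorems for projective varieties with a semistable reduction. -/

set_option autoImplicit false

open Filter Topology Metric Set LinearAlgebra.Projectivization

namespace Pool.Agent.H918.SS

open FF Pool.Agent.Y190.OP Pool.Agent.W602.GT Pool.Agent.N154.GG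

variable {m n : ℕ} {ι ι' : Type} {F : ι → MvPolynomial (Fin (n + 1)) ℂ}
  {F' : ι' → MvPolynomial (Fin (m + 1)) ℂ} {L : PeriodPair}
  {α : (Fin (n + 1) → ℂ) → ℂ ⧸ L.lattice} {α' : (Fin (m + 1) → ℂ) → ℂ ⧸ L.lattice}
  {Q : Fin (n + 1) → MvPolynomial (Fin (m + 1)) ℂ} {κ : Type}
  {η : κ → (Fin (m + 1) → ℂ) → (Fin (m + 1) → ℂ) → ℂ} {B : Set (ℂ ⧸ L.lattice)} {d k : ℕ}

/-- the rigidity and the condition on the fibres -/
theorem red_rig (hF : ∀ i, IsForm (F i)) (hα : HolToTorus (Cone F) L α) (hB : B.Finite)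
    (hS : SemistableReduction F α B d k F' α' Q η) :
    RIG (TF F) (La L) (aM L α F) ∧ FibL (TF F) (La L) (aM L α F) (BB L B) := by
  have hT := tdF hF hα
  have hT' := tdF hS.form hS.hol
  obtain ⟨δ, hb⟩ := bdF hT hB
  have hc := cov_of hF hα hS.form hS.hol hB hS.covering
  have hf' := (fibBF hS.form hS.hol hS.fibres).lim hT' hb
  have hL := lf_of hS.form hS.hol hS.smooth hS.forms
  refine ⟨?_, fibL_of_cov hT hT' hb hc hf'⟩
  rcases hS.rigid with h1 | ⟨h0, b₀, hb₀, ⟨S, hM, hfin⟩, hreg⟩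
  · subst h1
    exact rig_of_lf hT hT' hb hc hf' hL
  · subst h0
    obtain ⟨b0, rfl⟩ := Submodule.Quotient.mk_surjective _ b₀
    exact rig_of_lf0 hT hT' hb hc hf' hL (b0 := b0) (S := Phi '' S)
      ⟨hb₀, fins_of hS.form hS.covering hfin,
        fun R ω U t0 hU ht0 hR hRT hω h0 hd => ram_of hF hα hM hU ht0 hR hRT hω h0 hd,
        fun x0 hx0 h0 => reg_of hS.form hS.hol hS.smooth hreg hx0 h0⟩

end Pool.Agent.H918.SS
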