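import Pool.Agent.H918.E.Geo0
import Pool.Agent.H918.D.Five

/-! Entire curves in projective varieties (which may be singular) over elliptic curves, from the
rigidity and the condition on the fibres for sets of matrices. -/

set_option autoImplicit false

open Filter Topology Metric Set LinearAlgebra.Projectivization

namespace Pool.Agent.H918.SS

open FF Pool.Agent.Y190.OP Pool.Agent.W602.GT Pool.Agent.N154.GG
open Pool.Agent.N155 (TX isCompact_TX TX_PM exists_shift nz nz_Phi nz_dich codis_ev)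

variable {n : ℕ} {ι : Type} {F : ι → MvPolynomial (Fin (n + 1)) ℂ} {d : ℕ} {K : Type} [Field K]
  [Algebra ℂ K] {y : Fin (n + 1) → K} {L : PeriodPair} {α : (Fin (n + 1) → ℂ) → ℂ ⧸ L.lattice}
  {B : Set (ℂ ⧸ L.lattice)}

/-- **Entire curves in projective manifolds over elliptic curves, with bad fibres.** -/
theorem gglR (hX : ProjVariety F d y) (hd : 2 ≤ d) (hG : RIG (TF F) (La L) (aM L α F))
    (hα : HolToTorus (Cone F) L α) (hB : B.Finite) (hf : FibL (TF F) (La L) (aM L α F) (BB L B)) :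
    ∃ (S : Set (ℂ → ℙ ℂ (Fin (n + 1) → ℂ))) (k : ℕ), S.Finite ∧ 0 < k ∧
      (∀ g ∈ S, HolIn F g ∧ (∀ z, α (g z).rep = Submodule.Quotient.mk z) ∧
        ∀ l ∈ L.lattice, ∀ z, g (z + k * l) = g z) ∧
      (∀ f, HolIn F f → (∀ z w, f z = f w) ∨
        (∃ b ∈ B, ∀ z, α (f z).rep = b) ∨
        ∃ g ∈ S, ∃ φ : ℂ → ℂ, Differentiable ℂ φ ∧ ∀ z, f z = g (φ z)) ∧
      ∃ G : MvPolynomial (Fin (n + 1)) ℂ, IsForm G ∧ val y G ≠ 0 ∧
        ∀ f, HolIn F f → (∀ z w, f z = f w) ∨ (∃ b ∈ B, ∀ z, α (f z).rep = b) ∨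
          ∀ z, val (f z).rep G = 0 := by
  classical
  have hT := tdF hX.form hα
  obtain ⟨δ, hb⟩ := bdF hT hB
  obtain ⟨C, -, hC⟩ := exists_GS hT hb hf
  have hfin := S0_finiteS hT hG hC
  obtain ⟨k, hk, hper⟩ := S0_period hfin
  have hmain : ∀ f, HolIn F f → (∀ z w, f z = f w) ∨ (∃ b ∈ B, ∀ z, α (f z).rep = b) ∨
      ∃ g ∈ S0 (TF F) (La L) (aM L α F), ∃ φ : ℂ → ℂ, Differentiable ℂ φ ∧
        ∀ z, f z = toProj (g (φ z)) := by
    intro f hf'
    have h1 : ∀ z, Phi (f z).rep ∈ TF F := fun z => mem_TF (hf'.2 z)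
    rcases ggl_matB hT hG hb hf (holP_of hf'.1) h1 with h2 | ⟨c, hc, h2⟩ |
      ⟨g, hg, φ, hφ, -, h2⟩
    · left
      intro z w
      exact proj_ext ((h2 z).trans (h2 w).symm)
    · right
      left
      refine ⟨Submodule.Quotient.mk c, hc, fun z => ?_⟩
      have h3 := mem_La_iff.1 (h2 z)
      rw [aM_Phi hα (hf'.2 z)] at h3
      exact h3.symm
    · right
      right
      refine ⟨g, hg, φ, hφ, fun z => proj_ext ?_⟩
      rw [Phi_rep_toProj (TF_PM (hg.2.1 _))]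
      exact h2 z
  -- the equations
  have hperiod : ∀ g ∈ S0 (TF F) (La L) (aM L α F), ∃ G : MvPolynomial (Fin (n + 1)) ℂ,
      IsForm G ∧ val y G ≠ 0 ∧ ∀ z, ¬ nz G (g z) := by
    intro g hg
    have hk' : (k : ℝ) ≠ 0 := by exact_mod_cast hk.ne'
    have hind : LinearIndependent ℝ ![(k : ℂ) * L.ω₁, (k : ℂ) * L.ω₂] := by
      have h1 := L.indep
      rw [LinearIndependent.pair_iff] at h1 ⊢
      intro s t hst
      have h2 : (s * k) • L.ω₁ + (t * k) • L.ω₂ = 0 := by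
        rw [← hst]
        simp only [Complex.real_smul]
        push_cast
        ring
      obtain ⟨h3, h4⟩ := h1 _ _ h2
      exact ⟨(mul_eq_zero.1 h3).resolve_right hk', (mul_eq_zero.1 h4).resolve_right hk'⟩
    exact doubly_periodic_not_dense hX.sub.gen hX.sub.dim hd hg.1
      (fun z => by rw [hX.TX]; exact hg.2.1 z) hind
      (fun z => hper g hg _ L.ω₁_mem_lattice z) (fun z => hper g hg _ L.ω₂_mem_lattice z)
  choose! G hG1 hG2 hG3 using hperiod
  refine ⟨(fun P z => toProj (P z)) '' S0 (TF F) (La L) (aM L α F), k, hfin.image _, hk, ?_, ?_,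
    ∏ g ∈ hfin.toFinset, G g, ?_, ?_, ?_⟩
  · rintro _ ⟨P, hP, rfl⟩
    obtain ⟨h1, h2⟩ := S0_iffF hX.form hα hP
    refine ⟨h1, h2, fun l hl z => ?_⟩
    change toProj (P (z + k * l)) = toProj (P z)
    rw [hper P hP l hl]
  · intro f hf'
    rcases hmain f hf' with h1 | h1 | ⟨g, hg, φ, hφ, h1⟩
    · exact Or.inl h1
    · exact Or.inr (Or.inl h1)
    · exact Or.inr (Or.inr ⟨_, ⟨g, hg, rfl⟩, φ, hφ, h1⟩)
  · exact isForm_prod _ _ fun g hg => hG1 g (hfin.mem_toFinset.1 hg)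
  · rw [val_prod, Finset.prod_ne_zero_iff]
    exact fun g hg => hG2 g (hfin.mem_toFinset.1 hg)
  · intro f hf'
    rcases hmain f hf' with h1 | h1 | ⟨g, hg, φ, hφ, h1⟩
    · exact Or.inl h1
    · exact Or.inr (Or.inl h1)
    · right
      right
      intro z
      rw [val_prod, Finset.prod_eq_zero_iff]
      refine ⟨g, hfin.mem_toFinset.2 hg, ?_⟩
      have h2 := hG3 g hg (φ z)
      obtain ⟨e, he⟩ := hG1 g hg
      rw [← Phi_rep_toProj (TF_PM (hg.2.1 (φ z))), nz_Phi he (toProj (g (φ z))).rep_nonzero,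
        not_not] at h2
      rw [h1 z, Pool.Agent.N155.val_eval]
      exact h2

end Pool.Agent.H918.SS
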