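import Mathlib

/-!
# Liouville's theorem outside of a uniformly discrete set

RAT: ratios of holomorphic functions without zeros on a punctured disc, which converge to the same
limit. Proof: let `a_m`, `b_m`, `a` be the orders of the zeros of `F m`, `G m`, `H` at `0`.
(i) `a_m = a` for almost all `m` (and in the same way `b_m = a`): `F m = s ^ a_m * E_m` where `E_m` has
no zeros on the closed disc `‖s‖ ≤ ρ`; `|H| ≥ c > 0` on the circle, so `|F m| ≥ c / 2` there. If
`a_m ≥ a + 1` for almost all `m` then `F m / s ^ (a + 1)` is bounded on the disc by its maximum on the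
circle, so the same holds for `H / s ^ (a + 1)` for `s ≠ 0`, a contradiction to the order `a`. If
`a_m < a` for almost all `m`, then `a_m = a' < a` with a constant `a'` for almost all `m` (ultrafilter),
and `1 / E_m = s ^ a' / F m` is bounded on the disc by its maximum on the circle, so
`|s| ^ a' ≤ C |F m s|`, in the limit `|s| ^ a' ≤ C |H s|`, a contradiction for small `s`.
(ii) Then `W m * (G m - F m) / F m` has a removable singularity at `0` (write `F m = s ^ a E_m`,
`G m = s ^ a E'_m`), and it is bounded on the disc by its maximum on the circle, which is at most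
`B / (c / 2)`.

LIO: Liouville's theorem for a bounded function outside a uniformly discrete set. Proof: the
singularities at the points of `Z` are removable (`F` is bounded near each of them); the extension is
entire; on the disc of radius `2 r` around a point of `Z` it is bounded by its maximum on the circle,
which is at most `C`; so it is bounded by `C`, and constant (Liouville).
-/

set_option autoImplicit false

open Filter Topology Metric Set

namespace Pool.Agent.H918.SS

def S_LIO : Prop :=
  ∀ (Z : Set ℂ) (r : ℝ) (F : ℂ → ℂ) (C : ℝ), 0 < r →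
    (∀ z ∈ Z, ∀ w ∈ Z, ‖z - w‖ < 4 * r → z = w) → (∀ t, t ∉ Z → DifferentiableAt ℂ F t) →
    (∀ t, (∀ z ∈ Z, r ≤ ‖t - z‖) → ‖F t‖ ≤ C) →
    (∀ z ∈ Z, ∃ ε > 0, ∃ C' : ℝ, ∀ t, t ≠ z → ‖t - z‖ < ε → ‖F t‖ ≤ C') →
    ∀ t t', t ∉ Z → t' ∉ Z → F t = F t'

theorem lio : S_LIO := by
  classical
  intro Z r F C hr hZ hF hC hb
  set Fe : ℂ → ℂ := fun t => if t ∈ Z then limUnder (𝓝[≠] t) F else F t with hFe
  have hout : ∀ t, t ∉ Z → Fe t = F t := fun t ht => by simp only [hFe, if_neg ht]
  -- near a point outside of `Z`
  have hnear : ∀ t, t ∉ Z → ∀ᶠ s in 𝓝 t, s ∉ Z := by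
    intro t ht
    by_cases h : ∃ z ∈ Z, ‖t - z‖ < 2 * r
    · obtain ⟨z, hz, hzt⟩ := h
      have hne : 0 < ‖t - z‖ := by
        rw [norm_pos_iff, sub_ne_zero]
        rintro rfl
        exact ht hz
      filter_upwards [ball_mem_nhds t (lt_min hne (show (0 : ℝ) < 2 * r by linarith))] with s hs hsZ
      rw [mem_ball, dist_eq_norm] at hs
      have h1 := lt_of_lt_of_le hs (min_le_left _ _)
      have h2 := lt_of_lt_of_le hs (min_le_right _ _)
      have h3 : s = z := by
        apply hZ s hsZ z hz
        calc ‖s - z‖ = ‖(s - t) + (t - z)‖ := by ring_nf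
          _ ≤ ‖s - t‖ + ‖t - z‖ := norm_add_le _ _
          _ < 4 * r := by linarith
      subst h3
      rw [norm_sub_rev] at h1
      exact lt_irrefl _ h1
    · push Not at h
      filter_upwards [ball_mem_nhds t (show (0 : ℝ) < 2 * r by linarith)] with s hs hsZ
      rw [mem_ball, dist_eq_norm, norm_sub_rev] at hs
      exact absurd (h s hsZ) (not_le.2 hs)
  have hdiff : Differentiable ℂ Fe := by
    intro t
    by_cases ht : t ∈ Z
    · obtain ⟨ε, hε, C', hC'⟩ := hb t ht
      set δ := min ε (4 * r) with hδ
      have hδ0 : 0 < δ := lt_min hε (by linarith)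
      have hsub : ∀ s, s ∈ ball t δ → s ≠ t → s ∉ Z := by
        intro s hs hst hsZ
        apply hst
        apply hZ s hsZ t ht
        rw [mem_ball, dist_eq_norm] at hs
        exact lt_of_lt_of_le hs (min_le_right _ _)
      have h1 : DifferentiableOn ℂ (Function.update F t (limUnder (𝓝[≠] t) F)) (ball t δ) := by
        apply Complex.differentiableOn_update_limUnder_of_bddAbove (ball_mem_nhds t hδ0)
        · intro s hs
          exact (hF s (hsub s hs.1 hs.2)).differentiableWithinAt
        · refine ⟨C', ?_⟩
          rintro _ ⟨s, hs, rfl⟩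
          apply hC' s hs.2
          have := hs.1
          rw [mem_ball, dist_eq_norm] at this
          exact lt_of_lt_of_le this (min_le_left _ _)
      have h2 : DifferentiableAt ℂ (Function.update F t (limUnder (𝓝[≠] t) F)) t :=
        h1.differentiableAt (ball_mem_nhds t hδ0)
      refine h2.congr_of_eventuallyEq ?_
      filter_upwards [ball_mem_nhds t hδ0] with s hs
      by_cases hst : s = t
      · subst hst
        rw [Function.update_self]
        simp only [hFe, if_pos ht]
      · rw [Function.update_of_ne hst]
        exact hout s (hsub s hs hst)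
    · refine (hF t ht).congr_of_eventuallyEq ?_
      filter_upwards [hnear t ht] with s hs
      exact hout s hs
  have hfar : ∀ t, (∀ z ∈ Z, r ≤ ‖t - z‖) → ‖Fe t‖ ≤ C := by
    intro t ht
    have : t ∉ Z := by
      intro htZ
      have := ht t htZ
      rw [sub_self, norm_zero] at this
      linarith
    rw [hout t this]
    exact hC t ht
  have hbound : ∀ t, ‖Fe t‖ ≤ C := by
    intro t
    by_cases h : ∀ z ∈ Z, r ≤ ‖t - z‖
    · exact hfar t h
    · push Not at h
      obtain ⟨z, hz, hzt⟩ := h
      apply Complex.norm_le_of_forall_mem_frontier_norm_le (U := ball z r) isBounded_ball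
        hdiff.diffContOnCl
      · intro s hs
        rw [frontier_ball z hr.ne', mem_sphere, dist_eq_norm] at hs
        apply hfar
        intro w hw
        by_cases hwz : w = z
        · subst hwz; exact hs.ge
        · have h4 : 4 * r ≤ ‖w - z‖ := by
            by_contra hlt
            exact hwz (hZ w hw z hz (not_le.1 hlt))
          have h5 : ‖w - z‖ ≤ ‖s - w‖ + ‖s - z‖ := by
            calc ‖w - z‖ = ‖(s - z) - (s - w)‖ := by ring_nf
              _ ≤ ‖s - z‖ + ‖s - w‖ := norm_sub_le _ _
              _ = ‖s - w‖ + ‖s - z‖ := add_comm _ _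
          linarith
      · apply subset_closure
        rw [mem_ball, dist_eq_norm]
        exact hzt
  intro t t' ht ht'
  rw [← hout t ht, ← hout t' ht']
  apply hdiff.apply_eq_apply_of_bounded
  rw [isBounded_iff_forall_norm_le]
  refine ⟨C, ?_⟩
  rintro _ ⟨s, rfl⟩
  exact hbound s

end Pool.Agent.H918.SS
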