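import Pool.Agent.H918.E.Fin
import Pool.Agent.H918.E.FiveR

/-! The theorems for projective varieties with a semistable reduction. -/

set_option autoImplicit false

open Filter Topology Metric Set LinearAlgebra.Projectivization

namespace Pool.Agent.H918.SS

open FF Pool.Agent.Y190.OP Pool.Agent.W602.GT Pool.Agent.N154.GG
open Pool.Agent.N155 (TX isCompact_TX TX_PM exists_shift nz nz_Phi nz_dich codis_ev)

variable {n : ℕ} {ι : Type} {F : ι → MvPolynomial (Fin (n + 1)) ℂ} {d : ℕ} {K : Type} [Field K]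
  [Algebra ℂ K] {y : Fin (n + 1) → K} {L : PeriodPair} {α : (Fin (n + 1) → ℂ) → ℂ ⧸ L.lattice}
  {B : Set (ℂ ⧸ L.lattice)}

/-- entire curves -/
theorem entM (hF : ∀ i, IsForm (F i)) (hα : HolToTorus (Cone F) L α) (hB : B.Finite)
    (h : HasReduction F α B) :
    ∃ (S : Set (ℂ → ℙ ℂ (Fin (n + 1) → ℂ))) (k : ℕ), S.Finite ∧ 0 < k ∧
      (∀ g ∈ S, HolIn F g ∧ (∀ z, α (g z).rep = Submodule.Quotient.mk z) ∧
        ∀ l ∈ L.lattice, ∀ z, g (z + k * l) = g z) ∧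
      ∀ f, HolIn F f → (∀ z w, f z = f w) ∨
        (∃ b ∈ B, ∀ z, α (f z).rep = b) ∨
        ∃ g ∈ S, ∃ φ : ℂ → ℂ, Differentiable ℂ φ ∧ ∀ z, f z = g (φ z) := by
  obtain ⟨n1, ι1, F1, α1, ρ, hF1, hα1, hI, d1, k1, m1, ι', F', α', Q, κ, η, hS⟩ := h
  obtain ⟨hR, hf⟩ := red_rig hF1 hα1 hB hS
  obtain ⟨S, k, h1, h2, h3, h4⟩ := entR hF1 hR hα1 hB hf
  obtain ⟨S', g1, g2, g3⟩ := transfer_ent hF hF1 hα hα1 hB hI h1 h3 h4
  exact ⟨S', k, g1, h2, g2, g3⟩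

/-- punctured discs -/
theorem picM (hF : ∀ i, IsForm (F i)) (hα : HolToTorus (Cone F) L α) (hB : B.Finite)
    (h : HasReduction F α B) :
    ∃ S : Set (ℂ → ℙ ℂ (Fin (n + 1) → ℂ)), S.Finite ∧
      (∀ g ∈ S, HolIn F g ∧ ∀ z, α (g z).rep = Submodule.Quotient.mk z) ∧
      ∀ f, PunctIn F f → Extends F f ∨ (∃ b ∈ B, ∀ z ∈ PDisc, α (f z).rep = b) ∨
        ∃ g ∈ S, ∃ φ : ℂ → ℂ, DifferentiableOn ℂ φ {z | z.re < 0} ∧
          ∀ z : ℂ, z.re < 0 → f (Complex.exp z) = g (φ z) := by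
  obtain ⟨n1, ι1, F1, α1, ρ, hF1, hα1, hI, d1, k1, m1, ι', F', α', Q, κ, η, hS⟩ := h
  obtain ⟨hR, hf⟩ := red_rig hF1 hα1 hB hS
  obtain ⟨S, h1, h3, h4⟩ := picR hF1 hR hα1 hB hf
  exact transfer_pic hF hF1 hα hα1 hB hI h1 h3 h4

/-- the entire curves over the identity are given by translations -/
theorem over_trans {S : Set (ℂ → ℙ ℂ (Fin (n + 1) → ℂ))} {k : ℕ}
    (hSm : ∀ g ∈ S, HolIn F g ∧ (∀ z, α (g z).rep = Submodule.Quotient.mk z) ∧
        ∀ l ∈ L.lattice, ∀ z, g (z + k * l) = g z)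
    (hmain : ∀ f, HolIn F f → (∀ z w, f z = f w) ∨ (∃ b ∈ B, ∀ z, α (f z).rep = b) ∨
        ∃ g ∈ S, ∃ φ : ℂ → ℂ, Differentiable ℂ φ ∧ ∀ z, f z = g (φ z))
    {g : ℂ → ℙ ℂ (Fin (n + 1) → ℂ)} (hg : HolIn F g)
    (hgα : ∀ z, α (g z).rep = Submodule.Quotient.mk z) :
    ∀ l ∈ L.lattice, ∀ z, g (z + k * l) = g z := by
  obtain ⟨g0, hg0, φ, hφ, hgφ⟩ := over_van hgα (hmain g hg)
  have h1 : ∀ z, φ z - z ∈ L.lattice := by
    intro z
    have h2 := hgα z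
    rw [hgφ z, (hSm g0 hg0).2.1] at h2
    exact (Submodule.Quotient.eq _).1 h2
  have h3 : ∀ z, φ z - z = φ 0 - 0 := by
    intro z
    have hc : Continuous fun z => φ z - z := hφ.continuous.sub continuous_id
    have hdisc : IsPreconnected (range fun z => φ z - z) := isPreconnected_range hc
    have hs : (range fun z => φ z - z).Subsingleton := by
      have h4 : (range fun z => φ z - z) ⊆ (L.lattice : Set ℂ) := by
        rintro _ ⟨z, rfl⟩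
        exact h1 z
      have h5 : (L.lattice : Set ℂ).Countable := by
        have : Countable L.lattice := by infer_instance
        exact Set.countable_coe_iff.1 this
      exact (h5.mono h4).isTotallyDisconnected _ subset_rfl hdisc
    exact hs ⟨z, rfl⟩ ⟨0, rfl⟩
  intro l hl z
  rw [hgφ, hgφ]
  have h4 : φ (z + k * l) = φ z + k * l := by
    have := (h3 (z + k * l)).trans (h3 z).symm
    linear_combination this
  rw [h4]
  exact (hSm g0 hg0).2.2 l hl _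

/-- finitely many elliptic curves are contained in a hypersurface -/
theorem ellG (hX : ProjVariety F d y) (hd : 2 ≤ d) {S : Set (ℂ → ℙ ℂ (Fin (n + 1) → ℂ))} {k : ℕ}
    (hk : 0 < k) (hS : S.Finite) (hSm : ∀ g ∈ S, HolIn F g ∧ ∀ l ∈ L.lattice, ∀ z,
      g (z + k * l) = g z) :
    ∃ G : MvPolynomial (Fin (n + 1)) ℂ, IsForm G ∧ val y G ≠ 0 ∧
      ∀ g ∈ S, ∀ z, val (g z).rep G = 0 := by
  classical
  have hperiod : ∀ g ∈ S, ∃ G : MvPolynomial (Fin (n + 1)) ℂ,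
      IsForm G ∧ val y G ≠ 0 ∧ ∀ z, val (g z).rep G = 0 := by
    intro g hg
    obtain ⟨hg1, hg2⟩ := hSm g hg
    have hk' : (k : ℝ) ≠ 0 := by exact_mod_cast hk.ne'
    have hind : LinearIndependent ℝ ![(k : ℂ) * L.ω₁, (k : ℂ) * L.ω₂] := by
      have h1 := L.indep
      rw [LinearIndependent.pair_iff] at h1 ⊢
      intro s t hst
      have h2 : (s * k) • L.ω₁ + (t * k) • L.ω₂ = 0 := by
        rw [← hst]
        simp only [Complex.real_smul]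
        push_cast
        ring
      obtain ⟨h3, h4⟩ := h1 _ _ h2
      exact ⟨(mul_eq_zero.1 h3).resolve_right hk', (mul_eq_zero.1 h4).resolve_right hk'⟩
    obtain ⟨G, hG1, hG2, hG3⟩ := doubly_periodic_not_dense hX.sub.gen hX.sub.dim hd
      (φ := fun z => Phi (g z).rep) (holP_of hg1.1)
      (fun z => by rw [hX.TX]; exact mem_TF (hg1.2 z)) hind
      (fun z => by simp only [hg2 _ L.ω₁_mem_lattice z])
      (fun z => by simp only [hg2 _ L.ω₂_mem_lattice z])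
    refine ⟨G, hG1, hG2, fun z => ?_⟩
    obtain ⟨e, he⟩ := hG1
    have h2 := hG3 z
    rw [nz_Phi he (g z).rep_nonzero, not_not] at h2
    rw [Pool.Agent.N155.val_eval]
    exact h2
  choose! G hG1 hG2 hG3 using hperiod
  refine ⟨∏ g ∈ hS.toFinset, G g, ?_, ?_, ?_⟩
  · exact isForm_prod _ _ fun g hg => hG1 g (hS.mem_toFinset.1 hg)
  · rw [val_prod, Finset.prod_ne_zero_iff]
    exact fun g hg => hG2 g (hS.mem_toFinset.1 hg)
  · intro g hg z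
    rw [val_prod, Finset.prod_eq_zero_iff]
    exact ⟨g, hS.mem_toFinset.2 hg, hG3 g hg z⟩

/-- **The big Picard theorem and all special sets.** -/
theorem allM (hX : ProjVariety F d y) (hd : 2 ≤ d) (hα : HolToTorus (Cone F) L α) (hB : B.Finite)
    (h : HasReduction F α B) :
    ∃ (S : Set (ℂ → ℙ ℂ (Fin (n + 1) → ℂ))) (k : ℕ), S.Finite ∧ 0 < k ∧
      (∀ g ∈ S, HolIn F g ∧ (∀ z, α (g z).rep = Submodule.Quotient.mk z) ∧
        ∀ l ∈ L.lattice, ∀ z, g (z + k * l) = g z) ∧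
      (∀ f, PunctIn F f → Extends F f ∨ (∃ b ∈ B, ∀ z ∈ PDisc, α (f z).rep = b) ∨
        ∃ g ∈ S, ∃ φ : ℂ → ℂ, DifferentiableOn ℂ φ {z | z.re < 0} ∧
          ∀ z : ℂ, z.re < 0 → f (Complex.exp z) = g (φ z)) ∧
      (∀ f, HolIn F f → (∀ z w, f z = f w) ∨ (∃ b ∈ B, ∀ z, α (f z).rep = b) ∨
        ∃ g ∈ S, ∃ φ : ℂ → ℂ, Differentiable ℂ φ ∧ ∀ z, f z = g (φ z)) ∧
      (∀ (m : ℕ) (h : (Fin m → ℂ) → Fin (n + 1) → ℂ), MeroIn F h →
        (∀ z, h z ≠ 0 → α (h z) ∈ B) ∨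
        ∃ g ∈ S, ∀ G : MvPolynomial (Fin (n + 1)) ℂ, IsForm G → (∀ z, val (g z).rep G = 0) →
          ∀ z, val (h z) G = 0) ∧
      (∀ (K' : Type) [Field K'] [Algebra ℂ K'] (y' : Fin (n + 1) → K'), SubVar F K' 1 y' →
        ¬ GeneralType ℂ K' 1 →
        (∀ H : MvPolynomial (Fin (n + 1)) ℂ, IsForm H → (∀ x ∈ Cone F, α x ∈ B → val x H = 0) →
          val y' H = 0) ∨
        ∃ g ∈ S, ∀ G : MvPolynomial (Fin (n + 1)) ℂ, IsForm G →
          (val y' G = 0 ↔ ∀ z, val (g z).rep G = 0)) ∧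
      ∃ G : MvPolynomial (Fin (n + 1)) ℂ, IsForm G ∧ val y G ≠ 0 ∧
        (∀ g ∈ S, ∀ z, val (g z).rep G = 0) ∧
        ∀ H : MvPolynomial (Fin (n + 1)) ℂ, IsForm H → val y H ≠ 0 →
          (∀ x ∈ Cone F, α x ∈ B → val x H = 0) → IsForm (G * H) ∧ val y (G * H) ≠ 0 ∧
          (∀ f, PunctIn F f → Extends F f ∨ ∀ z ∈ PDisc, val (f z).rep (G * H) = 0) ∧
          (∀ f, HolIn F f → (∀ z w, f z = f w) ∨ ∀ z, val (f z).rep (G * H) = 0) ∧
          (∀ (m : ℕ) (h : (Fin m → ℂ) → Fin (n + 1) → ℂ), MeroIn F h →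
            ∀ z, h z ≠ 0 → val (h z) (G * H) = 0) ∧
          ∀ (K' : Type) [Field K'] [Algebra ℂ K'] (y' : Fin (n + 1) → K'), SubVar F K' 1 y' →
            ¬ GeneralType ℂ K' 1 → val y' (G * H) = 0 := by
  obtain ⟨S1, k, a1, a2, a3, a4⟩ := entM hX.form hα hB h
  obtain ⟨S2, b1, b2, b3⟩ := picM hX.form hα hB h
  have hSf : (S1 ∪ S2).Finite := a1.union b1
  have hSm : ∀ g ∈ S1 ∪ S2, HolIn F g ∧ (∀ z, α (g z).rep = Submodule.Quotient.mk z) ∧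
        ∀ l ∈ L.lattice, ∀ z, g (z + k * l) = g z := by
    rintro g (hg | hg)
    · exact a3 g hg
    · exact ⟨(b2 g hg).1, (b2 g hg).2, over_trans a3 a4 (b2 g hg).1 (b2 g hg).2⟩
  have hpic : ∀ f, PunctIn F f → Extends F f ∨ (∃ b ∈ B, ∀ z ∈ PDisc, α (f z).rep = b) ∨
        ∃ g ∈ S1 ∪ S2, ∃ φ : ℂ → ℂ, DifferentiableOn ℂ φ {z | z.re < 0} ∧
          ∀ z : ℂ, z.re < 0 → f (Complex.exp z) = g (φ z) := by
    intro f hf
    rcases b3 f hf with h1 | h1 | ⟨g, hg, h1⟩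
    · exact Or.inl h1
    · exact Or.inr (Or.inl h1)
    · exact Or.inr (Or.inr ⟨g, Or.inr hg, h1⟩)
  have hent : ∀ f, HolIn F f → (∀ z w, f z = f w) ∨ (∃ b ∈ B, ∀ z, α (f z).rep = b) ∨
        ∃ g ∈ S1 ∪ S2, ∃ φ : ℂ → ℂ, Differentiable ℂ φ ∧ ∀ z, f z = g (φ z) := by
    intro f hf
    rcases a4 f hf with h1 | h1 | ⟨g, hg, h1⟩
    · exact Or.inl h1
    · exact Or.inr (Or.inl h1)
    · exact Or.inr (Or.inr ⟨g, Or.inl hg, h1⟩)
  have hsab := fun (m : ℕ) (h : (Fin m → ℂ) → Fin (n + 1) → ℂ) (hh : MeroIn F h) =>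
    sab_ofF hX.form hα hSf hent hh
  have hlang := fun (K' : Type) [Field K'] [Algebra ℂ K'] (y' : Fin (n + 1) → K')
    (hy : SubVar F K' 1 y') (hgt : ¬ GeneralType ℂ K' 1) =>
    lang_ofF hX.form (fun g hg => (hSm g hg).1) hent K' y' hy hgt
  obtain ⟨G, hG1, hG2, hG3⟩ := ellG hX hd a2 hSf (fun g hg => ⟨(hSm g hg).1, (hSm g hg).2.2⟩)
  refine ⟨S1 ∪ S2, k, hSf, a2, hSm, hpic, hent, hsab, hlang, G, hG1, hG2, hG3,
    fun H hH hy hHB => ⟨isForm_mul hG1 hH, ?_, ?_, ?_, ?_, ?_⟩⟩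
  · rw [val_mul']
    exact mul_ne_zero hG2 hy
  · intro f hf
    rcases hpic f hf with h8 | ⟨b, hb, h8⟩ | ⟨g, hg, φ, -, h1⟩
    · exact Or.inl h8
    · right
      intro z hz
      rw [val_mul', hHB _ (hf.2 z hz) (by rw [h8 z hz]; exact hb), mul_zero]
    · right
      intro z hz
      obtain ⟨h2, h3⟩ := log_mem_HP hz
      have h4 := h1 (Complex.log z) h2
      rw [h3] at h4
      rw [h4, val_mul', hG3 g hg, zero_mul]
  · intro f hf
    rcases hent f hf with h8 | ⟨b, hb, h8⟩ | ⟨g, hg, φ, -, h1⟩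
    · exact Or.inl h8
    · right
      intro z
      rw [val_mul', hHB _ (hf.2 z) (by rw [h8 z]; exact hb), mul_zero]
    · right
      intro z
      rw [h1, val_mul', hG3 g hg, zero_mul]
  · intro m h hh z hz
    rw [val_mul']
    rcases hsab m h hh with h8 | ⟨g, hg, h8⟩
    · rw [hHB _ (hh.2.1 z hz) (h8 z hz), mul_zero]
    · rw [h8 G hG1 (hG3 g hg) z, zero_mul]
  · intro K' _ _ y' hy' hgt
    rw [val_mul']
    rcases hlang K' y' hy' hgt with h8 | ⟨g, hg, h8⟩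
    · rw [h8 H hH hHB, mul_zero]
    · rw [(h8 G hG1).2 (hG3 g hg), zero_mul]

end Pool.Agent.H918.SS
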