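import Pool.Agent.H918.E.GeoR

/-! Entire curves in projective varieties (which may be singular) over elliptic curves, from the
rigidity and the condition on the fibres for sets of matrices. -/

set_option autoImplicit false

open Filter Topology Metric Set LinearAlgebra.Projectivization

namespace Pool.Agent.H918.SS

open FF Pool.Agent.Y190.OP Pool.Agent.W602.GT Pool.Agent.N154.GG
open Pool.Agent.N155 (TX isCompact_TX TX_PM exists_shift nz nz_Phi nz_dich codis_ev)

variable {n : ℕ} {ι : Type} {F : ι → MvPolynomial (Fin (n + 1)) ℂ} {d : ℕ} {K : Type} [Field K]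
  [Algebra ℂ K] {y : Fin (n + 1) → K} {L : PeriodPair} {α : (Fin (n + 1) → ℂ) → ℂ ⧸ L.lattice}
  {B : Set (ℂ ⧸ L.lattice)}

/-- **The big Picard theorem for projective manifolds over elliptic curves, with bad fibres.** -/
theorem picardR (hX : ProjVariety F d y) (hd : 2 ≤ d) (hG : RIG (TF F) (La L) (aM L α F))
    (hα : HolToTorus (Cone F) L α) (hB : B.Finite) (hf : FibL (TF F) (La L) (aM L α F) (BB L B)) :
    ∃ S : Set (ℂ → ℙ ℂ (Fin (n + 1) → ℂ)), S.Finite ∧
      (∀ g ∈ S, HolIn F g ∧ ∀ z, α (g z).rep = Submodule.Quotient.mk z) ∧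
      (∀ f, PunctIn F f → Extends F f ∨ (∃ b ∈ B, ∀ z ∈ PDisc, α (f z).rep = b) ∨
        ∃ g ∈ S, ∃ φ : ℂ → ℂ, DifferentiableOn ℂ φ {z | z.re < 0} ∧
          ∀ z : ℂ, z.re < 0 → f (Complex.exp z) = g (φ z)) ∧
      ∃ G : MvPolynomial (Fin (n + 1)) ℂ, IsForm G ∧ val y G ≠ 0 ∧
        (∀ g ∈ S, ∀ z, val (g z).rep G = 0) ∧
        ∀ f, PunctIn F f → Extends F f ∨ (∃ b ∈ B, ∀ z ∈ PDisc, α (f z).rep = b) ∨
          ∀ z ∈ PDisc, val (f z).rep G = 0 := by
  classical
  have hT := tdF hX.form hα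
  obtain ⟨δ, hb⟩ := bdF hT hB
  obtain ⟨S', k, hS'fin, hk, hS', hf', G', hG1, hG2, hG3⟩ := gglR hX hd hG hα hB hf
  obtain ⟨r, e, q, K', hE, hK', hLM⟩ := exists_core hT hG hb hf
  set S : Set (ℂ → ℙ ℂ (Fin (n + 1) → ℂ)) := range fun (j : Fin r) (z : ℂ) => toProj (e j z) with hS
  have hSmem : ∀ g ∈ S, HolIn F g ∧ ∀ z, α (g z).rep = Submodule.Quotient.mk z := by
    rintro _ ⟨j, rfl⟩
    exact S0_iffF hX.form hα (hE.mem j)
  obtain ⟨z1, z2, hz12⟩ := not_mk_const L
  have hvan : ∀ g ∈ S, ∀ z, val (g z).rep G' = 0 := by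
    intro g hg
    rcases hG3 g (hSmem g hg).1 with h1 | ⟨b, -, h1⟩ | h1
    · exact absurd (by rw [← (hSmem g hg).2 z1, ← (hSmem g hg).2 z2, h1 z1 z2]) hz12
    · exact absurd (by rw [← (hSmem g hg).2 z1, ← (hSmem g hg).2 z2, h1 z1, h1 z2]) hz12
    · exact h1
  have hmain : ∀ f, PunctIn F f → Extends F f ∨ (∃ b ∈ B, ∀ z ∈ PDisc, α (f z).rep = b) ∨
      ∃ g ∈ S, ∃ φ : ℂ → ℂ, DifferentiableOn ℂ φ {z | z.re < 0} ∧
        ∀ z : ℂ, z.re < 0 → f (Complex.exp z) = g (φ z) := by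
    intro f hf'
    set Q : ℂ → Mat (n + 1) := fun z => Phi (f z).rep with hQ
    have hQh : HolP PDisc Q := holP_of_on hf'.1
    have hQT : ∀ z ∈ PDisc, Q z ∈ TF F := fun z hz => mem_TF (hf'.2 z hz)
    set P : ℂ → Mat (n + 1) := fun z => Q (Complex.exp z) with hPdef
    have hP : HolP HP P := holP_comp_l hQh Complex.differentiable_exp.differentiableOn isOpen_HP
      (fun z hz => exp_mem_PDisc hz)
    have hPT : ∀ z ∈ HP, P z ∈ TF F := fun z hz => hQT _ (exp_mem_PDisc hz)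
    have hper : ∀ z ∈ HP, P (z + tpi) = P z := by
      intro z _
      change Q (Complex.exp (z + tpi)) = Q (Complex.exp z)
      rw [show Complex.exp (z + tpi) = Complex.exp z from Complex.exp_periodic z]
    obtain ⟨φ, hφ⟩ := exists_PD hT hP hPT hper
    rcases PD.picardB hT hG hb hf hE hK' hLM hφ with ⟨M0, hM0, hlim⟩ | ⟨c, hc, hcφ⟩ | ⟨j, hj⟩
    · left
      have hQext := holP_remove hQh (TF_PM hM0) (by
        intro ε hε
        obtain ⟨A, hA, hA'⟩ := hlim ε hε
        refine ⟨Real.exp (-A), Real.exp_pos _, fun z hz hzA => ?_⟩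
        obtain ⟨h1, h2⟩ := log_mem_HP hz
        have h3 := hA' (Complex.log z) (by
          rw [Complex.log_re]
          rw [← Real.log_exp (-A)]
          exact Real.log_le_log (norm_pos_iff.2 hz.2) hzA.le)
        change ‖Q (Complex.exp (Complex.log z)) - M0‖ ≤ ε at h3
        rwa [h2] at h3)
      refine ⟨_, holMapOn_of hQext, fun z hz => rep_toProjF hX.form ?_, fun z hz => ?_⟩
      · by_cases h0 : z = 0
        · rw [if_pos h0]
          exact hM0
        · rw [if_neg h0]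
          exact hQT z ⟨hz, h0⟩
      · have h0 : z ≠ 0 := hz.2
        rw [if_neg h0]
        exact toProj_Phi_rep _
    · right
      left
      refine ⟨Submodule.Quotient.mk c, hc, fun z hz => ?_⟩
      obtain ⟨h2, h3⟩ := log_mem_HP hz
      have h4 := mem_La_iff.1 (hφ.ov _ h2)
      rw [hcφ _ h2] at h4
      change _ = (Submodule.Quotient.mk (aM L α F (Q (Complex.exp (Complex.log z)))) :
        ℂ ⧸ L.lattice) at h4
      rw [h3, aM_Phi hα (hf'.2 z hz)] at h4
      exact h4.symm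
    · right
      right
      refine ⟨_, ⟨j, rfl⟩, φ, hφ.dif, fun z hz => ?_⟩
      have h1 := hj z hz
      change Q (Complex.exp z) = e j (φ z) at h1
      change f (Complex.exp z) = toProj (e j (φ z))
      rw [← h1]
      exact (toProj_Phi_rep _).symm
  refine ⟨S, finite_range _, hSmem, hmain, G', hG1, hG2, hvan, fun f hf' => ?_⟩
  rcases hmain f hf' with h1 | h1 | ⟨g, hg, φ, -, h1⟩
  · exact Or.inl h1
  · exact Or.inr (Or.inl h1)
  · right
    right
    intro z hz
    obtain ⟨h2, h3⟩ := log_mem_HP hz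
    have h4 := h1 (Complex.log z) h2
    rw [h3] at h4
    rw [h4]
    exact hvan g hg _

end Pool.Agent.H918.SS
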