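import Pool.Agent.H918.E.LF

/-! Products over the fibres are holomorphic (helper230 for helper918). -/

set_option autoImplicit false

open Filter Topology Metric Set

namespace Pool.Agent.H918.SS

open Pool.Agent.Y190.OP Pool.Agent.N155 Pool.Agent.N154.GG

variable {N M : ℕ} {T : Set (Mat N)} {Λ : AddSubgroup ℂ} {a : Mat N → ℂ} {T' : Set (Mat M)}
  {a' : Mat M → ℂ} {p : Mat M → Mat N} {𝔅 : Set ℂ} {δ : ℝ}

namespace H230PRD

theorem local_section (hc : Cov T Λ a T' a' 𝔅 p) (hb : Bd Λ 𝔅 δ)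
    {G : ℂ → Mat N} {t0 : ℂ} (hGc : ContinuousAt G t0) (hGT : ∀ᶠ t in 𝓝 t0, G t ∈ T)
    (hGb : a (G t0) ∉ 𝔅) {y : Mat M} (hy : y ∈ T') (hpy : p y = G t0) :
    ∃ (O' : Set (Mat M)) (L : ℂ → Mat M), IsOpen O' ∧ y ∈ O' ∧ ContinuousAt L t0 ∧ L t0 = y ∧
      (∀ᶠ t in 𝓝 t0, L t ∈ T' ∧ p (L t) = G t) ∧ ∀ x ∈ O' ∩ T', ∀ t, p x = G t → L t = x := by
  have h0' : a' y ∉ 𝔅 := fun h => hGb (by
    have := (hc.bad_iff hb hy).1 h
    rwa [hpy] at this)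
  obtain ⟨O, O', σ, L, hO, hO', hpO, hxO, hL, hlip, hsec, huni, -⟩ := hc.loc y hy h0'
  have hσc : ContinuousOn σ (O ∩ T) := by
    have h1 : LipschitzOnWith (Real.toNNReal L) σ (O ∩ T) := by
      apply LipschitzOnWith.of_dist_le_mul
      intro y hy y' hy'
      rw [dist_eq_norm, dist_eq_norm, Real.coe_toNNReal L hL]
      exact hlip y hy y' hy'
    exact h1.continuousOn
  have hGO : ∀ᶠ t in 𝓝 t0, G t ∈ O ∩ T := by
    have h1 : ∀ᶠ t in 𝓝 t0, G t ∈ O := hGc.eventually (hO.mem_nhds (by rw [← hpy]; exact hpO))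
    filter_upwards [h1, hGT] with t h1 h2
    exact ⟨h1, h2⟩
  have hσy : σ (G t0) = y := by
    rw [← hpy]
    exact (huni y ⟨hxO, hy⟩).2
  refine ⟨O', fun t => σ (G t), hO', hxO, ?_, hσy, ?_, ?_⟩
  · have h1 : Tendsto G (𝓝 t0) (𝓝[O ∩ T] (G t0)) :=
      tendsto_nhdsWithin_iff.2 ⟨hGc, hGO⟩
    exact (hσc (G t0) hGO.self_of_nhds).tendsto.comp h1
  · filter_upwards [hGO] with t ht
    exact hsec _ ht
  · intro x hx t hxt
    show σ (G t) = x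
    rw [← hxt]
    exact (huni x hx).2

end H230PRD

/-- PRD: products over the fibres are holomorphic -/
theorem Cov.prod_diff (hc : Cov T Λ a T' a' 𝔅 p) (hb : Bd Λ 𝔅 δ) (hT' : IsCompact T')
    {Ω : Set ℂ} (hΩ : IsOpen Ω) {G : ℂ → Mat N}
    (hG : ∀ t ∈ Ω, ContinuousAt G t ∧ G t ∈ T ∧ a (G t) ∉ 𝔅) {θ : ℂ → Mat M → ℂ}
    (hθ : ∀ t0 ∈ Ω, ∀ L : ℂ → Mat M, ContinuousAt L t0 →
      (∀ᶠ t in 𝓝 t0, L t ∈ T' ∧ p (L t) = G t) → DifferentiableAt ℂ (fun t => θ t (L t)) t0)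
    (x : ℂ) : ∀ t0 ∈ Ω,
      DifferentiableAt ℂ (fun t => ∏ᶠ y ∈ {y | y ∈ T' ∧ p y = G t}, (x - θ t y)) t0 := by
  classical
  intro t0 ht0
  obtain ⟨hGc, hGt0, hGb⟩ := hG t0 ht0
  have hGT : ∀ᶠ t in 𝓝 t0, G t ∈ T := by
    filter_upwards [hΩ.mem_nhds ht0] with t ht
    exact (hG t ht).2.1
  have hfin : {y | y ∈ T' ∧ p y = G t0}.Finite := by
    obtain ⟨k, hk⟩ := hc.fin
    exact Set.finite_of_encard_le_coe (hk (G t0) hGt0 hGb)
  have hloc : ∀ y ∈ {y | y ∈ T' ∧ p y = G t0}, ∃ (O' : Set (Mat M)) (L : ℂ → Mat M),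
      IsOpen O' ∧ y ∈ O' ∧ ContinuousAt L t0 ∧ L t0 = y ∧
      (∀ᶠ t in 𝓝 t0, L t ∈ T' ∧ p (L t) = G t) ∧ ∀ x ∈ O' ∩ T', ∀ t, p x = G t → L t = x :=
    fun y hy => H230PRD.local_section hc hb hGc hGT hGb hy.1 hy.2
  choose! O' L hO' hyO' hLc hL0 hLl hLu using hloc
  -- all fibre points are near the points of the fibre over `G t0`
  have hK : IsCompact (T' \ ⋃ y ∈ {y | y ∈ T' ∧ p y = G t0}, O' y) :=
    hT'.diff (isOpen_biUnion fun y hy => hO' y hy)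
  have hpK : IsCompact (p '' (T' \ ⋃ y ∈ {y | y ∈ T' ∧ p y = G t0}, O' y)) :=
    hK.image_of_continuousOn (hc.cont.mono sdiff_subset)
  have hnot : G t0 ∉ p '' (T' \ ⋃ y ∈ {y | y ∈ T' ∧ p y = G t0}, O' y) := by
    rintro ⟨y, ⟨hy, hy'⟩, hpy⟩
    exact hy' (mem_iUnion₂.2 ⟨y, ⟨hy, hpy⟩, hyO' y ⟨hy, hpy⟩⟩)
  have hev1 : ∀ᶠ t in 𝓝 t0, G t ∉ p '' (T' \ ⋃ y ∈ {y | y ∈ T' ∧ p y = G t0}, O' y) :=
    hGc.eventually (hpK.isClosed.isOpen_compl.mem_nhds hnot)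
  have hev2 : ∀ᶠ t in 𝓝 t0, ∀ y ∈ {y | y ∈ T' ∧ p y = G t0}, L y t ∈ T' ∧ p (L y t) = G t := by
    rw [hfin.eventually_all]
    exact fun y hy => hLl y hy
  have hev3 : ∀ᶠ t in 𝓝 t0, ∀ y ∈ {y | y ∈ T' ∧ p y = G t0},
      ∀ y' ∈ {y | y ∈ T' ∧ p y = G t0}, y ≠ y' → L y t ≠ L y' t := by
    rw [hfin.eventually_all]
    intro y hy
    rw [hfin.eventually_all]
    intro y' hy'
    by_cases h : y = y'
    · exact Eventually.of_forall fun t hh => absurd h hh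
    · have h1 := hLc y hy
      have h2 := hLc y' hy'
      have h3 : L y t0 ≠ L y' t0 := by
        rw [hL0 y hy, hL0 y' hy']
        exact h
      filter_upwards [(h1.ne_iff_eventually_ne h2).1 h3] with t ht _
      exact ht
  have hbij : ∀ᶠ t in 𝓝 t0, BijOn (fun y => L y t) {y | y ∈ T' ∧ p y = G t0}
      {y | y ∈ T' ∧ p y = G t} := by
    filter_upwards [hev1, hev2, hev3] with t h1 h2 h3
    refine ⟨fun y hy => h2 y hy, ?_, ?_⟩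
    · intro y hy y' hy' hyy
      by_contra hne
      exact h3 y hy y' hy' hne hyy
    · rintro z ⟨hz, hpz⟩
      have h4 : z ∈ ⋃ y ∈ {y | y ∈ T' ∧ p y = G t0}, O' y := by
        by_contra hcon
        exact h1 ⟨z, ⟨hz, hcon⟩, hpz⟩
      obtain ⟨y, hy, hzy⟩ := mem_iUnion₂.1 h4
      exact ⟨y, hy, hLu y hy z ⟨hzy, hz⟩ t hpz⟩
  have heq : (fun t => ∏ᶠ y ∈ {y | y ∈ T' ∧ p y = G t}, (x - θ t y)) =ᶠ[𝓝 t0]
      fun t => ∏ y ∈ hfin.toFinset, (x - θ t (L y t)) := by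
    filter_upwards [hbij] with t ht
    rw [← finprod_mem_eq_finite_toFinset_prod (fun y => x - θ t (L y t)) hfin]
    exact (finprod_mem_eq_of_bijOn (fun y => L y t) ht fun y hy => rfl).symm
  refine DifferentiableAt.congr_of_eventuallyEq ?_ heq
  refine DifferentiableAt.fun_finsetProd fun y hy => ?_
  have hy' := hfin.mem_toFinset.1 hy
  exact (differentiableAt_const x).sub (hθ t0 ht0 (L y) (hLc y hy') (hLl y hy'))

end Pool.Agent.H918.SS
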