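import Pool.Agent.H918.E.Prd
import Pool.Agent.H918.E.Bd1
import Pool.Agent.H918.E.Bd2
import Pool.Agent.H918.E.Lio
import Pool.Agent.H918.D.Seq

/-! Rigidity of the curves in the base of a finite covering with relative logarithmic forms. -/

set_option autoImplicit false

open Filter Topology Metric Set

namespace Pool.Agent.H918.SS

open Pool.Agent.Y190.OP Pool.Agent.N155 Pool.Agent.N154.GG

variable {N M : ℕ} {T : Set (Mat N)} {Λ : AddSubgroup ℂ} {a : Mat N → ℂ} {T' : Set (Mat M)}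
  {a' : Mat M → ℂ} {p : Mat M → Mat N} {𝔅 : Set ℂ} {δ : ℝ} {κ : Type} {k : ℕ}
  {η : κ → (Fin M → ℂ) → (Fin M → ℂ) → ℂ}

/-- the limit of the differences is not zero at points near `0` -/
theorem rdl_nz (hT : TD T Λ a) {𝓤 : Ultrafilter ℕ} {g : ℂ → Mat N} {Φ : ℂ → ℂ} {B B' : ℝ}
    {P Q : ℕ → ℂ → Mat N} {φ wt : ℕ → ℂ → ℂ} (h : RDl T Λ a 𝓤 g Φ B B' P Q φ wt)
    (hn : ∀ᶠ m in (𝓤 : Filter ℕ), 1 ≤ ‖Q m 0 - P m 0‖ * ‖wt m 0‖) {S : Set ℂ}
    (hS : S ∈ 𝓝[≠] (0 : ℂ)) :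
    ∃ t1 ∈ S, ∃ c > 0, ∀ᶠ m in (𝓤 : Filter ℕ), c ≤ ‖Q m t1 - P m t1‖ * ‖wt m t1‖ := by
  obtain ⟨i, hi0⟩ := PM.exists_diag (hT.sub (h.gT (Φ 0)))
  have hV : Vl 𝓤 P Q wt i 0 ≠ 0 := by
    intro hV0
    obtain ⟨K, s, hs, hK⟩ := (contDiffAt_Phi (PM.chart_ne hi0)).exists_lipschitzOnWith
    have hp : Tendsto (fun m => chart i (P m 0)) 𝓤 (𝓝 (chart i (g (Φ 0)))) :=
      (continuousAt_chart hi0).tendsto.comp (h.cP.pointwise (mem_univ 0))
    have hq : Tendsto (fun m => chart i (Q m 0)) 𝓤 (𝓝 (chart i (g (Φ 0)))) :=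
      (continuousAt_chart hi0).tendsto.comp (h.cQ.pointwise (mem_univ 0))
    have h3 := ((h.Vl_ten i hi0).norm).const_mul (K : ℝ)
    rw [hV0, norm_zero, mul_zero] at h3
    have h4 := h3.eventually_lt_const (u := 1) one_pos
    obtain ⟨m, e1, e2, e3, e4, e5, hpt⟩ := (h4.and (hn.and ((hp.eventually hs).and
      ((hq.eventually hs).and ((h.ev_diag i hi0).1.and (h.pt 0)))))).exists
    have e6 := hK.dist_le_mul _ e4 _ e3
    rw [dist_eq_norm, dist_eq_norm, PM.Phi_chart (hT.sub hpt.1) e5.1,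
      PM.Phi_chart (hT.sub hpt.2.1) e5.2] at e6
    rw [norm_smul] at e1
    have e7 : ‖Q m 0 - P m 0‖ * ‖wt m 0‖ ≤
        (K : ℝ) * ‖chart i (Q m 0) - chart i (P m 0)‖ * ‖wt m 0‖ :=
      mul_le_mul_of_nonneg_right e6 (norm_nonneg _)
    linarith
  obtain ⟨h1, h2⟩ := h.Vl_lim i hi0
  have h3 : ∀ᶠ t in 𝓝[≠] (0 : ℂ), Vl 𝓤 P Q wt i t ≠ 0 :=
    nhdsWithin_le_nhds (h1.continuousAt.eventually_ne hV)
  have hgc : ContinuousAt (fun t => g (Φ t) i i) 0 :=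
    (continuous_apply_apply i i).continuousAt.comp (((hp_cont h.hg).comp
      h.Φd.continuous).continuousAt)
  have h4 : ∀ᶠ t in 𝓝[≠] (0 : ℂ), g (Φ t) i i ≠ 0 :=
    nhdsWithin_le_nhds (hgc.eventually_ne hi0)
  obtain ⟨t1, ht1, h5, h6, h7⟩ := ((Filter.eventually_of_mem hS fun t ht => ht).and (h3.and
    (h4.and (nhdsWithin_le_nhds h2)))).exists
  obtain ⟨L, O, hL, hO, hMO, hOi, hlip, -⟩ := lip_chart h6
  have h8 : 0 < ‖Vl 𝓤 P Q wt i t1‖ := norm_pos_iff.2 h5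
  refine ⟨t1, ht1, ‖Vl 𝓤 P Q wt i t1‖ / (2 * (L + 1)), by positivity, ?_⟩
  have h9 := h7.norm.eventually_const_lt (u := ‖Vl 𝓤 P Q wt i t1‖ / 2) (by linarith)
  filter_upwards [h9, (h.cP.pointwise (mem_univ t1)).eventually (hO.mem_nhds hMO),
    (h.cQ.pointwise (mem_univ t1)).eventually (hO.mem_nhds hMO)] with m e1 e2 e3
  rw [norm_smul] at e1
  have e4 := hlip _ e3 _ e2
  have e5 : ‖wt m t1‖ * ‖chart i (Q m t1) - chart i (P m t1)‖ ≤
      ‖wt m t1‖ * ((L + 1) * ‖Q m t1 - P m t1‖) := by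
    refine mul_le_mul_of_nonneg_left (e4.trans ?_) (norm_nonneg _)
    exact mul_le_mul_of_nonneg_right (by linarith) (norm_nonneg _)
  rw [div_le_iff₀ (by positivity)]
  nlinarith

theorem finprod_bound {X : Type*} {S : Set X} {k : ℕ} (hS : S.encard ≤ k) {f : X → ℂ} {A : ℝ}
    (hf : ∀ y ∈ S, ‖f y‖ ≤ A) : ‖∏ᶠ y ∈ S, f y‖ ≤ (max 1 A) ^ k := by
  have hfin : S.Finite := Set.finite_of_encard_le_coe hS
  rw [finprod_mem_eq_finite_toFinset_prod f hfin, norm_prod]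
  have h1 : ∏ y ∈ hfin.toFinset, ‖f y‖ ≤ ∏ _y ∈ hfin.toFinset, max 1 A := by
    refine Finset.prod_le_prod (fun _ _ => norm_nonneg _) fun y hy => ?_
    exact (hf y (hfin.mem_toFinset.1 hy)).trans (le_max_right _ _)
  refine h1.trans ?_
  rw [Finset.prod_const]
  apply pow_le_pow_right₀ (le_max_left _ _)
  have h2 : S.encard = hfin.toFinset.card := hfin.encard_eq_coe_toFinset_card
  rw [h2] at hS
  exact_mod_cast hS

theorem finprod_zero {X : Type*} {S : Set X} (hS : S.Finite) {f : X → ℂ}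
    (h : ∏ᶠ y ∈ S, f y = 0) : ∃ y ∈ S, f y = 0 := by
  rw [finprod_mem_eq_finite_toFinset_prod f hS, Finset.prod_eq_zero_iff] at h
  obtain ⟨y, hy, hy'⟩ := h
  exact ⟨y, hS.mem_toFinset.1 hy, hy'⟩

theorem finprod_zero' {X : Type*} {S : Set X} (hS : S.Finite) {f : X → ℂ} {y : X} (hy : y ∈ S)
    (h : f y = 0) : ∏ᶠ y ∈ S, f y = 0 := by
  rw [finprod_mem_eq_finite_toFinset_prod f hS, Finset.prod_eq_zero_iff]
  exact ⟨y, hS.mem_toFinset.2 hy, h⟩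

/-- the values of the forms: they are given by constant multisets and they are not all zero -/
theorem rig_pre [Nonempty κ] (hT : TD T Λ a) (hT' : TD T' Λ a') (hb : Bd Λ 𝔅 δ)
    (hc : Cov T Λ a T' a' 𝔅 p) (hf : FibL T' Λ a' 𝔅) (hL : LF k T' Λ a' 𝔅 η) {𝓤 : Ultrafilter ℕ}
    {g : ℂ → Mat N} {α β : ℂ} {B B' : ℝ} {P Q : ℕ → ℂ → Mat N} {φ wt : ℕ → ℂ → ℂ} (hα : α ≠ 0)
    (h : RDl T Λ a 𝓤 g (fun t => α * t + β) B B' P Q φ wt)
    (hn : ∀ᶠ m in (𝓤 : Filter ℕ), 1 ≤ ‖Q m 0 - P m 0‖ * ‖wt m 0‖) :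
    ∃ (θ : κ → Fin M → ℂ → Mat M → ℂ) (t1 : ℂ) (X : ℂ → Mat M) (q : κ) (i : Fin M),
      (∀ q l t y v, a' y ∉ 𝔅 → Val k T' Λ a' p η 𝓤 P Q wt q l t y v → θ q l t y = v) ∧
      (∀ q l t y, (¬ ∃ v, Val k T' Λ a' p η 𝓤 P Q wt q l t y v) → θ q l t y = 0) ∧
      (∀ q l x, ∀ t t', α * t + β ∉ 𝔅 → α * t' + β ∉ 𝔅 →
        ∏ᶠ y ∈ {y | y ∈ T' ∧ p y = g (α * t + β)}, (x - θ q l t y) =
        ∏ᶠ y ∈ {y | y ∈ T' ∧ p y = g (α * t' + β)}, (x - θ q l t' y)) ∧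
      (∀ q l t0, α * t0 + β ∉ 𝔅 → ∀ X : ℂ → Mat M, ContinuousAt X t0 →
        (∀ᶠ t in 𝓝 t0, X t ∈ T' ∧ p (X t) = g (α * t + β)) →
        DifferentiableAt ℂ (fun t => θ q l t (X t)) t0 ∧
        ∀ᶠ t in 𝓝 t0, Val k T' Λ a' p η 𝓤 P Q wt q l t (X t) (θ q l t (X t))) ∧
      (∀ t, α * t + β ∉ 𝔅 → {y | y ∈ T' ∧ p y = g (α * t + β)}.Finite) ∧
      (∀ t, α * t + β ∉ 𝔅 → ∀ y ∈ T', p y = g (α * t + β) → a' y ∉ 𝔅) ∧
      (∀ t, α * t + β ∉ 𝔅 → ∀ᶠ s in 𝓝 t, α * s + β ∉ 𝔅) ∧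
      α * t1 + β ∉ 𝔅 ∧ ContinuousAt X t1 ∧
      (∀ᶠ t0 in 𝓝 t1, ∀ᶠ t in 𝓝 t0, X t ∈ T' ∧ p (X t) = g (α * t + β)) ∧
      θ q i t1 (X t1) ≠ 0 := by
  classical
  have hδ := hb.pos
  have hα' : 0 < ‖α‖ := norm_pos_iff.2 hα
  set Z : Set ℂ := {z | α * z + β ∈ 𝔅} with hZ
  have hgc : Continuous fun t => g (α * t + β) := (hp_cont h.hg).comp (by fun_prop)
  have hsep : ∀ z ∈ Z, ∀ w ∈ Z, ‖z - w‖ < 4 * (δ / ‖α‖) → z = w := by
    intro z hz w hw hzw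
    have h1 := hb.sep _ hz _ hw (by
      have e : α * z + β - (α * w + β) = α * (z - w) := by ring
      rw [e, norm_mul]
      have h2 := mul_lt_mul_of_pos_left hzw hα'
      have e2 : ‖α‖ * (4 * (δ / ‖α‖)) = 4 * δ := by
        field_simp
      linarith)
    have h2 : α * z = α * w := add_right_cancel h1
    exact mul_left_cancel₀ hα h2
  have hZo : ∀ t, t ∉ Z → ∀ᶠ s in 𝓝 t, s ∉ Z := by
    intro t ht
    obtain ⟨c, hc0, hc1⟩ := hb.far (w := α * t + β) ht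
    filter_upwards [ball_mem_nhds t (show 0 < c / ‖α‖ by positivity)] with s hs hsZ
    rw [mem_ball, dist_eq_norm] at hs
    have h1 := hc1 _ hsZ
    have e : α * t + β - (α * s + β) = -(α * (s - t)) := by ring
    rw [e, norm_neg, norm_mul] at h1
    have h2 := mul_lt_mul_of_pos_left hs hα'
    have e2 : ‖α‖ * (c / ‖α‖) = c := by field_simp
    linarith
  have hgood : ∀ t, t ∉ Z → a (g (α * t + β)) ∉ 𝔅 := by
    intro t ht h1
    have h2 := hb.inv _ h1 _ (h.gov (α * t + β))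
    have e : a (g (α * t + β)) + (α * t + β - a (g (α * t + β))) = α * t + β := by ring
    rw [e] at h2
    exact ht h2
  have hgood' : ∀ t, t ∉ Z → ∀ y ∈ T', p y = g (α * t + β) → a' y ∉ 𝔅 := by
    intro t ht y hy hpy h1
    have h2 := (hc.bad_iff hb hy).1 h1
    rw [hpy] at h2
    exact hgood t ht h2
  -- the values
  set θ : κ → Fin M → ℂ → Mat M → ℂ := fun q l t y =>
    if hv : ∃ v, Val k T' Λ a' p η 𝓤 P Q wt q l t y v then hv.choose else 0 with hθ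
  have hθe : ∀ q l t y v, a' y ∉ 𝔅 → Val k T' Λ a' p η 𝓤 P Q wt q l t y v → θ q l t y = v := by
    intro q l t y v hy hv
    have h1 : ∃ v, Val k T' Λ a' p η 𝓤 P Q wt q l t y v := ⟨v, hv⟩
    simp only [hθ]
    rw [dif_pos h1]
    exact val_unique hT' hb hc hL hy h1.choose_spec hv
  have hθ0 : ∀ q l t y, (¬ ∃ v, Val k T' Λ a' p η 𝓤 P Q wt q l t y v) → θ q l t y = 0 := by
    intro q l t y hv
    simp only [hθ]
    rw [dif_neg hv]
  have hlift : ∀ q l t0, t0 ∉ Z → ∀ X : ℂ → Mat M, ContinuousAt X t0 →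
      (∀ᶠ t in 𝓝 t0, X t ∈ T' ∧ p (X t) = g (α * t + β)) →
      DifferentiableAt ℂ (fun t => θ q l t (X t)) t0 ∧
      ∀ᶠ t in 𝓝 t0, Val k T' Λ a' p η 𝓤 P Q wt q l t (X t) (θ q l t (X t)) := by
    intro q l t0 ht0 X hXc hX
    obtain ⟨v, hv1, hv2⟩ := val_hol hT hT' hb hc hL h q l ht0 hXc hX
    have h1 : ∀ᶠ t in 𝓝 t0, θ q l t (X t) = v t := by
      filter_upwards [hv2, hX, hZo t0 ht0] with t e1 e2 e3
      exact hθe _ _ _ _ _ (hgood' t e3 _ e2.1 e2.2) e1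
    refine ⟨hv1.congr_of_eventuallyEq h1, ?_⟩
    filter_upwards [h1, hv2] with t e1 e2
    rw [e1]
    exact e2
  obtain ⟨kk, hk⟩ := hc.fin
  have hkt : ∀ t, t ∉ Z → {y | y ∈ T' ∧ p y = g (α * t + β)}.encard ≤ kk := fun t ht =>
    hk _ (h.gT _) (hgood t ht)
  have hkf : ∀ t, t ∉ Z → {y | y ∈ T' ∧ p y = g (α * t + β)}.Finite := fun t ht =>
    Set.finite_of_encard_le_coe (hkt t ht)
  have hpd : ∀ q l x, ∀ t, t ∉ Z → DifferentiableAt ℂ (fun t => ∏ᶠ y ∈ {y | y ∈ T' ∧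
      p y = g (α * t + β)}, (x - θ q l t y)) t := by
    intro q l x t ht
    have hΩ : IsOpen Zᶜ := isOpen_iff_mem_nhds.2 fun t ht => hZo t ht
    exact hc.prod_diff hb hT'.comp hΩ (G := fun t => g (α * t + β)) (θ := θ q l)
      (fun t ht => ⟨hgc.continuousAt, h.gT _, hgood t ht⟩)
      (fun t0 ht0 X hX1 hX2 => (hlift q l t0 ht0 X hX1 hX2).1) x t ht
  have hbnd : ∀ q l x, ∀ C : ℝ, ∀ t, t ∉ Z → (∀ y ∈ T', p y = g (α * t + β) → ∀ v,
      Val k T' Λ a' p η 𝓤 P Q wt q l t y v → ‖v‖ ≤ C) →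
      ‖∏ᶠ y ∈ {y | y ∈ T' ∧ p y = g (α * t + β)}, (x - θ q l t y)‖ ≤
        (max 1 (‖x‖ + max C 0)) ^ kk := by
    intro q l x C t ht hC
    refine finprod_bound (hkt t ht) fun y hy => (norm_sub_le _ _).trans ?_
    have h1 : ‖θ q l t y‖ ≤ max C 0 := by
      by_cases hv : ∃ v, Val k T' Λ a' p η 𝓤 P Q wt q l t y v
      · obtain ⟨v, hv⟩ := hv
        rw [hθe q l t y v (hgood' t ht y hy.1 hy.2) hv]
        exact (hC y hy.1 hy.2 v hv).trans (le_max_left _ _)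
      · rw [hθ0 q l t y hv, norm_zero]
        exact le_max_right _ _
    linarith
  have hconst : ∀ q l x, ∀ t t', t ∉ Z → t' ∉ Z →
      ∏ᶠ y ∈ {y | y ∈ T' ∧ p y = g (α * t + β)}, (x - θ q l t y) =
      ∏ᶠ y ∈ {y | y ∈ T' ∧ p y = g (α * t' + β)}, (x - θ q l t' y) := by
    intro q l x t t' ht ht'
    obtain ⟨C, hC⟩ := val_bound hT hT' hb hc hL hα h q l (ρ := δ / ‖α‖) (by positivity)
    refine lio Z (δ / ‖α‖) (fun t => ∏ᶠ y ∈ {y | y ∈ T' ∧ p y = g (α * t + β)},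
      (x - θ q l t y)) ((max 1 (‖x‖ + max C 0)) ^ kk) (by positivity) hsep (hpd q l x) ?_ ?_
      t t' ht ht'
    · intro s hs
      refine hbnd q l x C s (fun hsZ => ?_) (hC s hs)
      have h1 := hs s hsZ
      rw [sub_self, norm_zero] at h1
      have : 0 < δ / ‖α‖ := by positivity
      linarith
    · intro z hz
      obtain ⟨ε, hε, C', hC'⟩ := val_bound_near hT hT' hb hc hf hL hα h q l (z0 := z) hz
      refine ⟨min ε (δ / ‖α‖), lt_min hε (by positivity), (max 1 (‖x‖ + max C' 0)) ^ kk,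
        fun s hsz hs => ?_⟩
      refine hbnd q l x C' s (fun hsZ => hsz (hsep _ hsZ _ hz ?_))
        (hC' s hsz (hs.trans_le (min_le_left _ _)))
      have h1 := hs.trans_le (min_le_right _ _)
      have : 0 < δ / ‖α‖ := by positivity
      linarith
  -- the point
  have hZ0 : Zᶜ ∈ 𝓝[≠] (0 : ℂ) := by
    by_cases h0 : (0 : ℂ) ∈ Z
    · have h1 : ball (0 : ℂ) (4 * (δ / ‖α‖)) ∈ 𝓝[≠] (0 : ℂ) :=
        nhdsWithin_le_nhds (ball_mem_nhds _ (by positivity))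
      filter_upwards [h1, self_mem_nhdsWithin] with t ht ht0 htZ
      rw [mem_ball, dist_eq_norm] at ht
      exact ht0 (hsep t htZ 0 h0 ht)
    · exact nhdsWithin_le_nhds (hZo 0 h0)
  obtain ⟨t1, ht1, c, hc0, hcn⟩ := rdl_nz hT h hn hZ0
  have ht1' : t1 ∉ Z := ht1
  obtain ⟨y1, hy1, hpy1⟩ := hc.surj _ (h.gT (α * t1 + β)) (hgood t1 ht1')
  have hy1g : a' y1 ∉ 𝔅 := hgood' t1 ht1' y1 hy1 hpy1
  obtain ⟨O, O', σ, Lp, hO, hO', hpO, hxO, hLp, hlip, hsec, huni, hhol, hplip⟩ :=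
    hc.loc y1 hy1 hy1g
  rw [hpy1] at hpO
  set X : ℂ → Mat M := fun t => σ (g (α * t + β)) with hX
  have hXt1 : X t1 = y1 := by
    have h1 := (huni y1 ⟨hxO, hy1⟩).2
    rw [hpy1] at h1
    exact h1
  have hOe : ∀ᶠ t in 𝓝 t1, g (α * t + β) ∈ O := hgc.continuousAt.eventually (hO.mem_nhds hpO)
  have hXc : ∀ᶠ t0 in 𝓝 t1, ContinuousAt X t0 := by
    filter_upwards [eventually_eventually_nhds.2 hOe] with t0 ht0
    have h2 : Tendsto (fun t => Lp * ‖g (α * t + β) - g (α * t0 + β)‖) (𝓝 t0) (𝓝 0) := by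
      have h3 : ContinuousAt (fun t => Lp * ‖g (α * t + β) - g (α * t0 + β)‖) t0 :=
        ((hgc.sub continuous_const).norm.const_mul Lp).continuousAt
      have h4 := h3.tendsto
      rwa [sub_self, norm_zero, mul_zero] at h4
    rw [ContinuousAt, tendsto_iff_norm_sub_tendsto_zero]
    refine squeeze_zero' (Eventually.of_forall fun _ => norm_nonneg _) ?_ h2
    filter_upwards [ht0] with t ht
    exact hlip _ ⟨ht, h.gT _⟩ _ ⟨ht0.self_of_nhds, h.gT _⟩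
  have hXl : ∀ᶠ t0 in 𝓝 t1, ∀ᶠ t in 𝓝 t0, X t ∈ T' ∧ p (X t) = g (α * t + β) := by
    filter_upwards [eventually_eventually_nhds.2 hOe] with t0 ht0
    filter_upwards [ht0] with t ht
    exact hsec _ ⟨ht, h.gT _⟩
  -- the form which is not zero
  have hMne : ∃ i : Fin M, y1 i i ≠ 0 := PM.exists_diag (hT'.sub hy1)
  obtain ⟨i0, -⟩ := hMne
  have hkey : ∃ q : κ, ∃ i : Fin M, θ q i t1 y1 ≠ 0 := by
    obtain ⟨q0⟩ := ‹Nonempty κ›
    obtain ⟨i, P', Q', v, hVL, hpp, -⟩ := ((hlift q0 i0 t1 ht1' X hXc.self_of_nhds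
      hXl.self_of_nhds).2).self_of_nhds
    rw [hXt1] at hVL
    have hv : v ≠ 0 := by
      rintro rfl
      obtain ⟨K, s, hs, hK⟩ := (contDiffAt_Phi (PM.chart_ne hVL.nz)).exists_lipschitzOnWith
      have hp : Tendsto (fun m => chart i (P' m)) 𝓤 (𝓝 (chart i y1)) :=
        (continuousAt_chart hVL.nz).tendsto.comp hVL.cP
      have hq : Tendsto (fun m => chart i (Q' m)) 𝓤 (𝓝 (chart i y1)) :=
        (continuousAt_chart hVL.nz).tendsto.comp hVL.cQ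
      have h3 := (hVL.lim.norm).const_mul (Lp * K : ℝ)
      rw [norm_zero, mul_zero] at h3
      have h4 := h3.eventually_lt_const (u := c) hc0
      have hdi : ∀ᶠ M' : Mat M in 𝓝 y1, M' i i ≠ 0 :=
        (continuous_apply_apply i i).continuousAt.eventually_ne hVL.nz
      obtain ⟨m, e1, e2, e3, e4, e5, e6, e7, e8, e9, e10⟩ := (h4.and (hcn.and
        ((hp.eventually hs).and ((hq.eventually hs).and ((hVL.cP.eventually hdi).and
        ((hVL.cQ.eventually hdi).and (hVL.hP.and (hpp.and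
        ((hVL.cP.eventually (hO'.mem_nhds hxO)).and
        (hVL.cQ.eventually (hO'.mem_nhds hxO))))))))))).exists
      have f1 := hK.dist_le_mul _ e4 _ e3
      rw [dist_eq_norm, dist_eq_norm, PM.Phi_chart (hT'.sub e7.1) e5,
        PM.Phi_chart (hT'.sub e7.2.1) e6] at f1
      have f2 := hplip _ ⟨e10, e7.2.1⟩ _ ⟨e9, e7.1⟩
      rw [e8.1, e8.2] at f2
      rw [norm_smul] at e1
      have f3 : ‖Q m t1 - P m t1‖ * ‖wt m t1‖ ≤
          Lp * (K * ‖chart i (Q' m) - chart i (P' m)‖) * ‖wt m t1‖ :=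
        mul_le_mul_of_nonneg_right (f2.trans (mul_le_mul_of_nonneg_left f1 hLp)) (norm_nonneg _)
      nlinarith
    obtain ⟨q, hq⟩ := hL.pos 𝓤 i P' Q' _ y1 v hVL hy1g hv
    refine ⟨q, i, ?_⟩
    rw [hθe q i t1 y1 _ hy1g ⟨i, P', Q', v, hVL, hpp, rfl⟩, PM.chart_self hVL.nz, one_pow, mul_one]
    exact hq
  obtain ⟨q, i, hqi⟩ := hkey
  rw [← hXt1] at hqi
  exact ⟨θ, t1, X, q, i, hθe, hθ0, hconst, hlift, hkf, hgood', hZo, ht1', hXc.self_of_nhds, hXl, hqi⟩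

/-- **Rigidity**, if there are forms -/
theorem rig_of_lf' [Nonempty κ] (hT : TD T Λ a) (hT' : TD T' Λ a') (hb : Bd Λ 𝔅 δ)
    (hc : Cov T Λ a T' a' 𝔅 p) (hf : FibL T' Λ a' 𝔅) (hL : LF 1 T' Λ a' 𝔅 η) : RIG T Λ a := by
  classical
  intro 𝓤 g α β B B' P Q φ wt hα h hn
  have hα' : 0 < ‖α‖ := norm_pos_iff.2 hα
  have hgc : Continuous fun t => g (α * t + β) := (hp_cont h.hg).comp (by fun_prop)
  obtain ⟨θ, t1, X, q, i, hθe, hθ0, hconst, hlift, hkf, hgood', hZo, ht1', hXc, hXl, hqi⟩ :=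
    rig_pre hT hT' hb hc hf hL hα h hn
  obtain ⟨y1, hXt1⟩ : ∃ y1, X t1 = y1 := ⟨_, rfl⟩
  rw [hXt1] at hqi
  have hpy1 : p y1 = g (α * t1 + β) := by
    rw [← hXt1]
    exact hXl.self_of_nhds.self_of_nhds.2
  -- the values are locally constant
  have hlc : ∀ l, ∀ᶠ t in 𝓝 t1, θ q l t (X t) = θ q l t1 y1 := by
    intro l
    have hfin : ((fun y => θ q l t1 y) '' {y | y ∈ T' ∧ p y = g (α * t1 + β)}).Finite :=
      (hkf t1 ht1').image _
    have hcont : ContinuousAt (fun t => θ q l t (X t)) t1 :=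
      (hlift q l t1 ht1' X hXc hXl.self_of_nhds).1.continuousAt
    have hcl : IsClosed (((fun y => θ q l t1 y) '' {y | y ∈ T' ∧ p y = g (α * t1 + β)}) \
      {θ q l t1 (X t1)}) := (hfin.subset sdiff_subset).isClosed
    have h1 : ∀ᶠ t in 𝓝 t1, θ q l t (X t) ∈ (((fun y => θ q l t1 y) '' {y | y ∈ T' ∧
        p y = g (α * t1 + β)}) \ {θ q l t1 (X t1)})ᶜ :=
      hcont.eventually (hcl.isOpen_compl.mem_nhds fun h2 => h2.2 rfl)
    filter_upwards [h1, hXl, hZo t1 ht1'] with t e1 e2 e3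
    have e4 := finprod_zero' (f := fun y => θ q l t (X t) - θ q l t y) (hkf t e3)
      (y := X t) e2.self_of_nhds (sub_self _)
    rw [hconst q l (θ q l t (X t)) t t1 e3 ht1'] at e4
    obtain ⟨y, hy, hy'⟩ := finprod_zero (hkf t1 ht1') e4
    by_contra hne
    apply e1
    refine ⟨⟨y, hy, (sub_eq_zero.1 hy').symm⟩, ?_⟩
    rw [mem_singleton_iff, hXt1]
    exact hne
  have hall : ∀ᶠ t in 𝓝 t1, ∀ l, θ q l t (X t) = θ q l t1 y1 := eventually_all.2 hlc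
  have hvals : ∀ᶠ t in 𝓝 t1, Val 1 T' Λ a' p η 𝓤 P Q wt q i t (X t) (θ q i t (X t)) :=
    (hlift q i t1 ht1' X hXc hXl.self_of_nhds).2
  have hXconst : ∀ᶠ t in 𝓝 t1, X t = Phi fun l => θ q l t1 y1 := by
    filter_upwards [hall, hvals, hXl, hZo t1 ht1'] with t e1 e2 e3 e4
    obtain ⟨i', P', Q', v, hVL, hpp, hval⟩ := e2
    have e5 := hgood' t e4 _ e3.self_of_nhds.1 e3.self_of_nhds.2
    have e6 : ∀ l, θ q l t1 y1 = η q (chart i' (X t)) v * chart i' (X t) l := by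
      intro l
      rw [← e1 l, ← pow_one (chart i' (X t) l)]
      exact hθe q l t (X t) _ e5 ⟨i', P', Q', v, hVL, hpp, rfl⟩
    have e7 : η q (chart i' (X t)) v ≠ 0 := by
      intro h0
      apply hqi
      rw [e6 i, h0, zero_mul]
    have e8 : (fun l => θ q l t1 y1) = η q (chart i' (X t)) v • chart i' (X t) := by
      funext l
      rw [e6 l, Pi.smul_apply, smul_eq_mul]
    rw [e8, Phi_smul e7, PM.Phi_chart (hT'.sub e3.self_of_nhds.1) hVL.nz]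
  have hgconst : ∀ᶠ t in 𝓝 t1, g (α * t + β) = g (α * t1 + β) := by
    have h0 := hXconst.self_of_nhds
    filter_upwards [hXconst, hXl] with t e1 e2
    rw [← e2.self_of_nhds.2, e1, ← h0, hXt1, hpy1]
  obtain ⟨δ0, hδ0, hd⟩ := hT.disc
  obtain ⟨r, hr, hrs⟩ := Metric.mem_nhds_iff.1 hgconst
  set s : ℝ := min (r / 2) (δ0 / (2 * ‖α‖)) with hs
  have hs0 : 0 < s := lt_min (by positivity) (by positivity)
  have h1 : g (α * (t1 + s) + β) = g (α * t1 + β) := by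
    apply hrs
    rw [mem_ball, dist_eq_norm, add_sub_cancel_left, Complex.norm_real, Real.norm_of_nonneg hs0.le]
    exact (min_le_left _ _).trans_lt (by linarith)
  have h2 := Λ.sub_mem (h.gov (α * (t1 + s) + β)) (h.gov (α * t1 + β))
  rw [h1] at h2
  have e : α * (t1 + s) + β - a (g (α * t1 + β)) - (α * t1 + β - a (g (α * t1 + β))) = α * s := by
    ring
  rw [e] at h2
  have h3 := hd _ h2 (by
    rw [norm_mul, Complex.norm_real, Real.norm_of_nonneg hs0.le]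
    have h4 : s ≤ δ0 / (2 * ‖α‖) := min_le_right _ _
    have h5 := mul_le_mul_of_nonneg_left h4 hα'.le
    have e2 : ‖α‖ * (δ0 / (2 * ‖α‖)) = δ0 / 2 := by field_simp
    linarith)
  rcases mul_eq_zero.1 h3 with h4 | h4
  · exact hα h4
  · exact hs0.ne' (by exact_mod_cast h4)

/-- adding the zero form -/
theorem lf_opt (hL : LF k T' Λ a' 𝔅 η) :
    LF k T' Λ a' 𝔅 (fun (o : Option κ) x v => o.elim 0 fun q => η q x v) where
  homog := by
    rintro x hx i hi (_ | q) v c e hc0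
    · change (0 : ℂ) = c⁻¹ ^ k * 0
      rw [mul_zero]
    · exact hL.homog x hx i hi q v c e hc0
  pos := by
    intro 𝓤 i P Q wt x v h1 h2 h3
    obtain ⟨q, hq⟩ := hL.pos 𝓤 i P Q wt x v h1 h2 h3
    exact ⟨some q, hq⟩
  loc := by
    intro x0 hx0
    obtain ⟨i, O, r, u, V, H, K, h1, h2, h3, h4, h5, h6, h7, h8, h9⟩ := hL.loc x0 hx0
    refine ⟨i, O, r, u, V, fun o z => o.elim 0 fun q => H q z, K, h1, h2, h3, h4, h5, ?_, h7,
      h8, ?_⟩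
    · rintro (_ | q)
      · exact fun z _ => analyticAt_const
      · exact h6 q
    · intro 𝓤 P Q wt x v g1 g2 g3
      obtain ⟨s, hs1, hs2⟩ := h9 𝓤 P Q wt x v g1 g2 g3
      refine ⟨s, hs1, ?_⟩
      rintro (_ | q)
      · rfl
      · exact hs2 q

/-- **Rigidity** -/
theorem rig_of_lf (hT : TD T Λ a) (hT' : TD T' Λ a') (hb : Bd Λ 𝔅 δ)
    (hc : Cov T Λ a T' a' 𝔅 p) (hf : FibL T' Λ a' 𝔅) (hL : LF 1 T' Λ a' 𝔅 η) : RIG T Λ a :=
  rig_of_lf' hT hT' hb hc hf (lf_opt hL)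

end Pool.Agent.H918.SS
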