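import Pool.Agent.H918.E.Rg
import Pool.Agent.H918.E.Bd3

/-! Rigidity, if there are forms without twist and a multiple fibre. -/

set_option autoImplicit false

open Filter Topology Metric Set

namespace Pool.Agent.H918.SS

open Pool.Agent.Y190.OP Pool.Agent.N155 Pool.Agent.N154.GG

variable {N M : ℕ} {T : Set (Mat N)} {Λ : AddSubgroup ℂ} {a : Mat N → ℂ} {T' : Set (Mat M)}
  {a' : Mat M → ℂ} {p : Mat M → Mat N} {𝔅 : Set ℂ} {δ : ℝ} {κ : Type}
  {η : κ → (Fin M → ℂ) → (Fin M → ℂ) → ℂ}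

/-- **Rigidity**, if there are forms without twist and a multiple fibre -/
theorem rig_of_lf0' [Nonempty κ] (hT : TD T Λ a) (hT' : TD T' Λ a') (hb : Bd Λ 𝔅 δ)
    (hc : Cov T Λ a T' a' 𝔅 p) (hf : FibL T' Λ a' 𝔅) (hL : LF 0 T' Λ a' 𝔅 η) {b0 : ℂ}
    {S : Set (Mat N)} (hM : Mul T Λ a T' a' 𝔅 p η b0 S) : RIG T Λ a := by
  classical
  intro 𝓤 g α β B B' P Q φ wt hα h hn
  have hα' : 0 < ‖α‖ := norm_pos_iff.2 hα
  obtain ⟨θ, t1, X, q, i, hθe, hθ0, hconst, hlift, hkf, hgood', hZo, ht1', hXc, hXl, hqi⟩ :=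
    rig_pre hT hT' hb hc hf hL hα h hn
  have hX1 := hXl.self_of_nhds.self_of_nhds
  -- the point over the multiple fibre
  set z0 : ℂ := (b0 - β) / α with hz0
  have hz0b : α * z0 + β = b0 := by
    rw [hz0]
    field_simp
    ring
  have hqn : 0 < ‖θ q i t1 (X t1)‖ := norm_pos_iff.2 hqi
  obtain ⟨ε, hε, hsm⟩ := Pool.Agent.H918.BD3.near0 hM hT hT' hb hc hf hL hα h q i hz0b
    (ε₀ := ‖θ q i t1 (X t1)‖ / 2) (by positivity)
  have hδ := hb.pos
  set s : ℝ := min (ε / 2) (δ / ‖α‖) with hs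
  have hs0 : 0 < s := lt_min (by positivity) (by positivity)
  have hsn : ‖(s : ℂ)‖ = s := by rw [Complex.norm_real, Real.norm_of_nonneg hs0.le]
  have ht2 : α * (z0 + s) + β ∉ 𝔅 := by
    intro hbad
    have h1 := hb.sep _ hbad _ (hz0b ▸ hM.bad : α * z0 + β ∈ 𝔅) (by
      have e : α * (z0 + s) + β - (α * z0 + β) = α * s := by ring
      rw [e, norm_mul, hsn]
      have h4 : s ≤ δ / ‖α‖ := min_le_right _ _
      have h5 := mul_le_mul_of_nonneg_left h4 hα'.le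
      have e2 : ‖α‖ * (δ / ‖α‖) = δ := by field_simp
      linarith)
    have h2 : α * (s : ℂ) = 0 := by linear_combination h1
    rcases mul_eq_zero.1 h2 with h3 | h3
    · exact hα h3
    · exact hs0.ne' (by exact_mod_cast h3)
  have h1 := finprod_zero' (f := fun y => θ q i t1 (X t1) - θ q i t1 y) (hkf t1 ht1')
    (y := X t1) hX1 (sub_self _)
  rw [hconst q i (θ q i t1 (X t1)) t1 (z0 + s) ht1' ht2] at h1
  obtain ⟨y, hy, hy'⟩ := finprod_zero (hkf _ ht2) h1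
  have h2 : θ q i (z0 + s) y = θ q i t1 (X t1) := (sub_eq_zero.1 hy').symm
  have h3 : ‖θ q i (z0 + s) y‖ ≤ ‖θ q i t1 (X t1)‖ / 2 := by
    by_cases hv : ∃ v, Val 0 T' Λ a' p η 𝓤 P Q wt q i (z0 + s) y v
    · obtain ⟨v, hv⟩ := hv
      rw [hθe q i _ y v (hgood' _ ht2 y hy.1 hy.2) hv]
      refine hsm (z0 + s) ?_ ?_ y hy.1 hy.2 v hv
      · intro h4
        have h5 : (s : ℂ) = 0 := by linear_combination h4
        exact hs0.ne' (by exact_mod_cast h5)
      · rw [add_sub_cancel_left, hsn]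
        exact (min_le_left _ _).trans_lt (by linarith)
    · rw [hθ0 q i _ y hv, norm_zero]
      positivity
  rw [h2] at h3
  linarith

/-- adding the zero form -/
theorem mul_opt {p : Mat M → Mat N} {b0 : ℂ} {S : Set (Mat N)}
    (hM : Mul T Λ a T' a' 𝔅 p η b0 S) :
    Mul T Λ a T' a' 𝔅 p (fun (o : Option κ) x v => o.elim 0 fun q => η q x v) b0 S where
  bad := hM.bad
  fin := hM.fin
  ram := hM.ram
  reg := by
    intro x0 hx0 h0
    obtain ⟨i, O, r, u, V, H, K, h1, h2, h3, h4, h5, h6, h7, h8, h9⟩ := hM.reg x0 hx0 h0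
    refine ⟨i, O, r, u, V, fun o z => o.elim 0 fun q => H q z, K, h1, h2, h3, h4, h5, ?_, ?_,
      h8, ?_⟩
    · rintro (_ | q)
      · exact fun z _ => analyticAt_const
      · exact h6 q
    · rintro (_ | q) x hx
      · rfl
      · exact h7 q x hx
    · intro 𝓤 P Q wt x v g1 g2 g3
      obtain ⟨s, hs1, hs2⟩ := h9 𝓤 P Q wt x v g1 g2 g3
      refine ⟨s, hs1, ?_⟩
      rintro (_ | q)
      · rfl
      · exact hs2 q

/-- **Rigidity**, if there are forms without twist and a multiple fibre -/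
theorem rig_of_lf0 (hT : TD T Λ a) (hT' : TD T' Λ a') (hb : Bd Λ 𝔅 δ)
    (hc : Cov T Λ a T' a' 𝔅 p) (hf : FibL T' Λ a' 𝔅) (hL : LF 0 T' Λ a' 𝔅 η) {b0 : ℂ}
    {S : Set (Mat N)} (hM : Mul T Λ a T' a' 𝔅 p η b0 S) : RIG T Λ a :=
  rig_of_lf0' hT hT' hb hc hf (lf_opt hL) (mul_opt hM)

end Pool.Agent.H918.SS
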