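import Pool.Agent.H918.E.Main
import Pool.Agent.H918.E.Etale2
import Pool.Agent.H918.E.Conseq

/-! The theorems for projective varieties with a finite unramified covering which has a semistable
reduction. -/

set_option autoImplicit false

open Filter Topology Metric Set LinearAlgebra.Projectivization

namespace Pool.Agent.H918.SS

open FF Pool.Agent.Y190.OP Pool.Agent.W602.GT Pool.Agent.N154.GG
open Pool.Agent.N155 (TX isCompact_TX TX_PM exists_shift nz nz_Phi nz_dich codis_ev)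

variable {m n : ℕ} {ι ι' : Type} {F : ι → MvPolynomial (Fin (n + 1)) ℂ}
  {F' : ι' → MvPolynomial (Fin (m + 1)) ℂ} {d : ℕ} {K : Type} [Field K]
  [Algebra ℂ K] {y : Fin (n + 1) → K} {L : PeriodPair}
  {Q : Fin (n + 1) → MvPolynomial (Fin (m + 1)) ℂ}
  {α : (Fin (m + 1) → ℂ) → ℂ ⧸ L.lattice} {B : Set (ℂ ⧸ L.lattice)}

/-- entire curves -/
theorem entV (hF : ∀ i, IsForm (F i)) (hF' : ∀ i, IsForm (F' i)) (hC : EtaleCovering F F' Q)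
    (hα : HolToTorus (Cone F') L α) (hB : B.Finite) (h : HasReduction F' α B) :
    ∃ (S : Set (ℂ → ℙ ℂ (Fin (n + 1) → ℂ))) (k : ℕ), S.Finite ∧ 0 < k ∧
      (∀ g ∈ S, HolIn F g ∧ (∀ l ∈ L.lattice, ∀ z, g (z + k * l) = g z) ∧
        ∃ g', HolIn F' g' ∧ (∀ z, α (g' z).rep = Submodule.Quotient.mk z) ∧
          ∀ z, ∃ c : ℂ, mapBy Q (g' z).rep = c • (g z).rep) ∧
      ∀ f, HolIn F f → (∀ z w, f z = f w) ∨
        (∃ b ∈ B, ∀ z, OverPoint F' α Q b (f z).rep) ∨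
        ∃ g ∈ S, ∃ φ : ℂ → ℂ, Differentiable ℂ φ ∧ ∀ z, f z = g (φ z) := by
  obtain ⟨S', k, a1, a2, a3, a4⟩ := entM hF' hα hB h
  obtain ⟨S, b1, b2, b3⟩ := etale_ent hF' hF hC a1 (fun g hg => ⟨(a3 g hg).1, (a3 g hg).2.2⟩) a4
  refine ⟨S, k, b1, a2, fun g hg => ?_, b3⟩
  obtain ⟨c1, c2, g', hg', c3⟩ := b2 g hg
  exact ⟨c1, c2, g', (a3 g' hg').1, (a3 g' hg').2.1, c3⟩

/-- the multiples of the homogeneous coordinates -/
theorem overPoint_smul {b : ℂ ⧸ L.lattice} {u : Fin (n + 1) → ℂ} {c : ℂ}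
    (h : OverPoint F' α Q b (c • u)) : OverPoint F' α Q b u := by
  obtain ⟨x, hx, hb, e, he⟩ := h
  exact ⟨x, hx, hb, e * c, by rw [he, smul_smul]⟩

/-- **The special sets.** -/
theorem specV (hX : ProjVariety F d y) (hd : 2 ≤ d) (hF' : ∀ i, IsForm (F' i))
    (hC : EtaleCovering F F' Q) (hα : HolToTorus (Cone F') L α) (hB : B.Finite)
    (h : HasReduction F' α B) {S₂ : Set (ℂ → ℙ ℂ (Fin (n + 1) → ℂ))} (hS₂ : S₂.Finite)
    (hS₂m : ∀ g ∈ S₂, HolIn F g ∧ ∃ g', HolIn F' g' ∧ (∀ z, α (g' z).rep = Submodule.Quotient.mk z) ∧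
          ∀ z, ∃ c : ℂ, mapBy Q (g' z).rep = c • (g z).rep)
    (hpic0 : ∀ f, PunctIn F f → Extends F f ∨ (∃ b ∈ B, ∀ z ∈ PDisc, OverPoint F' α Q b (f z).rep) ∨
        ∃ g ∈ S₂, ∃ φ : ℂ → ℂ, DifferentiableOn ℂ φ {z | z.re < 0} ∧
          ∀ z : ℂ, z.re < 0 → f (Complex.exp z) = g (φ z)) :
    ∃ (S : Set (ℂ → ℙ ℂ (Fin (n + 1) → ℂ))) (k : ℕ), S.Finite ∧ 0 < k ∧
      (∀ g ∈ S, HolIn F g ∧ (∀ l ∈ L.lattice, ∀ z, g (z + k * l) = g z) ∧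
        ∃ g', HolIn F' g' ∧ (∀ z, α (g' z).rep = Submodule.Quotient.mk z) ∧
          ∀ z, ∃ c : ℂ, mapBy Q (g' z).rep = c • (g z).rep) ∧
      (∀ f, PunctIn F f → Extends F f ∨ (∃ b ∈ B, ∀ z ∈ PDisc, OverPoint F' α Q b (f z).rep) ∨
        ∃ g ∈ S, ∃ φ : ℂ → ℂ, DifferentiableOn ℂ φ {z | z.re < 0} ∧
          ∀ z : ℂ, z.re < 0 → f (Complex.exp z) = g (φ z)) ∧
      (∀ f, HolIn F f → (∀ z w, f z = f w) ∨ (∃ b ∈ B, ∀ z, OverPoint F' α Q b (f z).rep) ∨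
        ∃ g ∈ S, ∃ φ : ℂ → ℂ, Differentiable ℂ φ ∧ ∀ z, f z = g (φ z)) ∧
      (∀ (m : ℕ) (h : (Fin m → ℂ) → Fin (n + 1) → ℂ), MeroIn F h →
        (∀ z, h z ≠ 0 → ∃ b ∈ B, OverPoint F' α Q b (h z)) ∨
        ∃ g ∈ S, ∀ G : MvPolynomial (Fin (n + 1)) ℂ, IsForm G → (∀ z, val (g z).rep G = 0) →
          ∀ z, val (h z) G = 0) ∧
      (∀ (K' : Type) [Field K'] [Algebra ℂ K'] (y' : Fin (n + 1) → K'), SubVar F K' 1 y' →
        ¬ GeneralType ℂ K' 1 →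
        (∀ H : MvPolynomial (Fin (n + 1)) ℂ, IsForm H →
          (∀ u ∈ Cone F, (∃ b ∈ B, OverPoint F' α Q b u) → val u H = 0) → val y' H = 0) ∨
        ∃ g ∈ S, ∀ G : MvPolynomial (Fin (n + 1)) ℂ, IsForm G →
          (val y' G = 0 ↔ ∀ z, val (g z).rep G = 0)) ∧
      ∃ G : MvPolynomial (Fin (n + 1)) ℂ, IsForm G ∧ val y G ≠ 0 ∧
        (∀ g ∈ S, ∀ z, val (g z).rep G = 0) ∧
        ∀ H : MvPolynomial (Fin (n + 1)) ℂ, IsForm H → val y H ≠ 0 →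
          (∀ u ∈ Cone F, (∃ b ∈ B, OverPoint F' α Q b u) → val u H = 0) →
          IsForm (G * H) ∧ val y (G * H) ≠ 0 ∧
          (∀ f, PunctIn F f → Extends F f ∨ ∀ z ∈ PDisc, val (f z).rep (G * H) = 0) ∧
          (∀ f, HolIn F f → (∀ z w, f z = f w) ∨ ∀ z, val (f z).rep (G * H) = 0) ∧
          (∀ (m : ℕ) (h : (Fin m → ℂ) → Fin (n + 1) → ℂ), MeroIn F h →
            ∀ z, h z ≠ 0 → val (h z) (G * H) = 0) ∧
          ∀ (K' : Type) [Field K'] [Algebra ℂ K'] (y' : Fin (n + 1) → K'), SubVar F K' 1 y' →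
            ¬ GeneralType ℂ K' 1 → val y' (G * H) = 0 := by
  obtain ⟨S', k, a1, a2, a3, a4⟩ := entM hF' hα hB h
  obtain ⟨S₁, b1, b2, b3⟩ := etale_ent hF' hX.form hC a1
    (fun g hg => ⟨(a3 g hg).1, (a3 g hg).2.2⟩) a4
  have hSf : (S₁ ∪ S₂).Finite := b1.union hS₂
  have hSm : ∀ g ∈ S₁ ∪ S₂, HolIn F g ∧ (∀ l ∈ L.lattice, ∀ z, g (z + k * l) = g z) ∧
        ∃ g', HolIn F' g' ∧ (∀ z, α (g' z).rep = Submodule.Quotient.mk z) ∧
          ∀ z, ∃ c : ℂ, mapBy Q (g' z).rep = c • (g z).rep := by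
    rintro g (hg | hg)
    · obtain ⟨c1, c2, g', hg', c3⟩ := b2 g hg
      exact ⟨c1, c2, g', (a3 g' hg').1, (a3 g' hg').2.1, c3⟩
    · obtain ⟨c1, g', c2, c3, c4⟩ := hS₂m g hg
      refine ⟨c1, fun l hl z => ?_, g', c2, c3, c4⟩
      refine over_unique hC (c2.2 z) ?_ (c4 z)
      rw [← over_trans a3 a4 c2 c3 l hl z]
      exact c4 _
  have hpic : ∀ f, PunctIn F f → Extends F f ∨
      (∃ b ∈ B, ∀ z ∈ PDisc, OverPoint F' α Q b (f z).rep) ∨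
        ∃ g ∈ S₁ ∪ S₂, ∃ φ : ℂ → ℂ, DifferentiableOn ℂ φ {z | z.re < 0} ∧
          ∀ z : ℂ, z.re < 0 → f (Complex.exp z) = g (φ z) := by
    intro f hf
    rcases hpic0 f hf with h1 | h1 | ⟨g, hg, h1⟩
    · exact Or.inl h1
    · exact Or.inr (Or.inl h1)
    · exact Or.inr (Or.inr ⟨g, Or.inr hg, h1⟩)
  have hent : ∀ f, HolIn F f → (∀ z w, f z = f w) ∨
      (∃ b ∈ B, ∀ z, OverPoint F' α Q b (f z).rep) ∨
        ∃ g ∈ S₁ ∪ S₂, ∃ φ : ℂ → ℂ, Differentiable ℂ φ ∧ ∀ z, f z = g (φ z) := by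
    intro f hf
    rcases b3 f hf with h1 | h1 | ⟨g, hg, h1⟩
    · exact Or.inl h1
    · exact Or.inr (Or.inl h1)
    · exact Or.inr (Or.inr ⟨g, Or.inl hg, h1⟩)
  have hent' : ∀ f, HolIn F f → (∀ z w, f z = f w) ∨
      (∀ z, ∃ b ∈ B, OverPoint F' α Q b (f z).rep) ∨
        ∃ g ∈ S₁ ∪ S₂, ∃ φ : ℂ → ℂ, Differentiable ℂ φ ∧ ∀ z, f z = g (φ z) := by
    intro f hf
    rcases hent f hf with h1 | ⟨b, hb, h1⟩ | h1
    · exact Or.inl h1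
    · exact Or.inr (Or.inl fun z => ⟨b, hb, h1 z⟩)
    · exact Or.inr (Or.inr h1)
  have hsab := fun (m : ℕ) (h : (Fin m → ℂ) → Fin (n + 1) → ℂ) (hh : MeroIn F h) =>
    sab_ofB hX.form (bad := fun u => ∃ b ∈ B, OverPoint F' α Q b u)
      (fun u c _ ⟨b, hb, h1⟩ => ⟨b, hb, overPoint_smul h1⟩) hSf hent' hh
  have hlang := fun (K' : Type) [Field K'] [Algebra ℂ K'] (y' : Fin (n + 1) → K')
    (hy : SubVar F K' 1 y') (hgt : ¬ GeneralType ℂ K' 1) =>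
    lang_ofB hX.form (bad := fun u => ∃ b ∈ B, OverPoint F' α Q b u)
      (fun g hg => (hSm g hg).1) hent' K' y' hy hgt
  obtain ⟨G, hG1, hG2, hG3⟩ := ellG hX hd a2 hSf (fun g hg => ⟨(hSm g hg).1, (hSm g hg).2.1⟩)
  refine ⟨S₁ ∪ S₂, k, hSf, a2, hSm, hpic, hent, hsab, hlang, G, hG1, hG2, hG3,
    fun H hH hy hHB => ⟨isForm_mul hG1 hH, ?_, ?_, ?_, ?_, ?_⟩⟩
  · rw [val_mul']
    exact mul_ne_zero hG2 hy
  · intro f hf
    rcases hpic f hf with h8 | ⟨b, hb, h8⟩ | ⟨g, hg, φ, -, h1⟩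
    · exact Or.inl h8
    · right
      intro z hz
      rw [val_mul', hHB _ (hf.2 z hz) ⟨b, hb, h8 z hz⟩, mul_zero]
    · right
      intro z hz
      obtain ⟨h2, h3⟩ := log_mem_HP hz
      have h4 := h1 (Complex.log z) h2
      rw [h3] at h4
      rw [h4, val_mul', hG3 g hg, zero_mul]
  · intro f hf
    rcases hent f hf with h8 | ⟨b, hb, h8⟩ | ⟨g, hg, φ, -, h1⟩
    · exact Or.inl h8
    · right
      intro z
      rw [val_mul', hHB _ (hf.2 z) ⟨b, hb, h8 z⟩, mul_zero]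
    · right
      intro z
      rw [h1, val_mul', hG3 g hg, zero_mul]
  · intro m h hh z hz
    rw [val_mul']
    rcases hsab m h hh with h8 | ⟨g, hg, h8⟩
    · rw [hHB _ (hh.2.1 z hz) (h8 z hz), mul_zero]
    · rw [h8 G hG1 (hG3 g hg) z, zero_mul]
  · intro K' _ _ y' hy' hgt
    rw [val_mul']
    rcases hlang K' y' hy' hgt with h8 | ⟨g, hg, h8⟩
    · rw [h8 H hH hHB, mul_zero]
    · rw [(h8 G hG1).2 (hG3 g hg), zero_mul]

end Pool.Agent.H918.SS
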